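import Mathlib
import Pool.Agent.Lib.MP_8d00da_gt.h97r.RDefs

/-!
# Symmetries with a common fixed space: definitions
-/

namespace Pool.Agent.Lib.MP_8d00da_gt.h97s

open MeasureTheory Set Filter
open Pool.Agent.Lib.MP_8d00da_gt.h25 Pool.Agent.Lib.MP_8d00da_gt.h42
open Pool.Agent.Lib.MP_8d00da_gt.h42s Pool.Agent.Lib.MP_8d00da_gt.h42o
open Pool.Agent.Lib.MP_8d00da_gt.h97r
open scoped Topology NNReal

set_option linter.unusedSectionVars false

variable {F : Type*} [NormedAddCommGroup F] [InnerProductSpace ℝ F]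
    [FiniteDimensional ℝ F] [MeasurableSpace F] [BorelSpace F]

/-- Smooth strongly log-concave weights. -/
structure GV (δ L : ℝ) (h : F → ℝ) : Prop where
  dpos : 0 < δ
  Lnn : 0 ≤ L
  reg : ∃ W : F → ℝ, (∀ x, h x = Real.exp (-W x)) ∧ Differentiable ℝ W ∧
    ∀ x y, ‖fderiv ℝ W x - fderiv ℝ W y‖ ≤ L * ‖x - y‖
  lc : LogConc h
  smid : ∀ x y, h x * h y * Real.exp (δ * ‖x - y‖ ^ 2 / 4) ≤ h ((1 / 2 : ℝ) • (x + y)) ^ 2

/-- Isometric symmetries of finite order which move at most `k` dimensions. -/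
def Ss (h : F → ℝ) (k : ℕ) : Set (F ≃ₗᵢ[ℝ] F) :=
  {g | (∀ x, h (g x) = h x) ∧ (∃ N : ℕ, 0 < N ∧ ∀ x, (g ^ N) x = x) ∧
    Module.finrank ℝ (LinearMap.range ((g.toLinearEquiv : F →ₗ[ℝ] F) - LinearMap.id)) ≤ k}

/-- The linear symmetries of `h` of finite order which move at most `k` dimensions have a common
fixed space of dimension at most `d`. -/
def FixL {F : Type*} [AddCommGroup F] [Module ℝ F] (k d : ℕ) (h : F → ℝ) : Prop :=
  ∃ E : Submodule ℝ F, Module.finrank ℝ E ≤ d ∧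
    ∀ v : F, (∀ g : F ≃ₗ[ℝ] F, (∀ x, h (g x) = h x) → (∃ N : ℕ, 0 < N ∧ ∀ x, (g ^ N) x = x) →
      Module.finrank ℝ (LinearMap.range ((g : F →ₗ[ℝ] F) - LinearMap.id)) ≤ k → g v = v) → v ∈ E

section basis

variable {m j : ℕ}

/-- The vectors `b (inr l)` span the common fixed space of the symmetries in `Ss h k`. -/
structure Ad (h : F → ℝ) (k : ℕ) (b : OrthonormalBasis (Fin m ⊕ Fin j) ℝ F) : Prop where
  fix : ∀ g ∈ Ss h k, ∀ l, g (b (Sum.inr l)) = b (Sum.inr l)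
  mov : ∀ v : F, (∀ g ∈ Ss h k, g v = v) → ∀ i, inner ℝ (b (Sum.inl i)) v = 0

/-- The coordinates in the fixed space. -/
noncomputable def tc (b : OrthonormalBasis (Fin m ⊕ Fin j) ℝ F) (x : F) : Vn j :=
  WithLp.toLp 2 fun l => inner ℝ (b (Sum.inr l)) x

/-- The other coordinates. -/
noncomputable def sc (b : OrthonormalBasis (Fin m ⊕ Fin j) ℝ F) (x : F) : Vn m :=
  WithLp.toLp 2 fun i => inner ℝ (b (Sum.inl i)) x

/-- The fibre weight. -/
noncomputable def fb (h : F → ℝ) (b : OrthonormalBasis (Fin m ⊕ Fin j) ℝ F) (t : Vn j)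
    (s : Vn m) : ℝ := h (jj b s t)

/-- The marginal on the fixed space. -/
noncomputable def mg (h : F → ℝ) (b : OrthonormalBasis (Fin m ⊕ Fin j) ℝ F) (t : Vn j) : ℝ :=
  ∫ s : Vn m, fb h b t s

/-- The Laplace transform of the fibre. -/
noncomputable def Lp (h : F → ℝ) (b : OrthonormalBasis (Fin m ⊕ Fin j) ℝ F) (θ : Vn m)
    (t : Vn j) : ℝ := ∫ s : Vn m, Real.exp (inner ℝ θ s) * fb h b t s

/-- Multiplication with a Gaussian factor in the directions of the fixed space. -/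
noncomputable def wg (α : ℝ) (b : OrthonormalBasis (Fin m ⊕ Fin j) ℝ F) (h0 : F → ℝ) (x : F) :
    ℝ := h0 x * Real.exp (-(α / 2 * ∑ l, (inner ℝ (b (Sum.inr l)) x) ^ 2))

end basis

/-- Poincare inequality with constant `K` for a weight of any mass. -/
def FP {V : Type*} [NormedAddCommGroup V] [InnerProductSpace ℝ V] [FiniteDimensional ℝ V]
    [MeasurableSpace V] [BorelSpace V] (K : ℝ) (w : V → ℝ) : Prop :=
  ∀ u : V → ℝ, BL u → (∫ x, u x ^ 2 * w x) * (∫ x, w x) - (∫ x, u x * w x) ^ 2 ≤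
    K * (∫ x, w x) * En w u

/-- Weights whose fibres satisfy a Poincare inequality. -/
structure FW {m j : ℕ} (B K : ℝ) (b : OrthonormalBasis (Fin m ⊕ Fin j) ℝ F) (w : F → ℝ) :
    Prop where
  Knn : 0 ≤ K
  wt : Wt w B
  int : Integrable w
  fint : ∀ t, Integrable (fb w b t)
  fp : ∀ t, FP K (fb w b t)

/-- The squares of the fibre means. -/
noncomputable def MM {m j : ℕ} (w : F → ℝ) (b : OrthonormalBasis (Fin m ⊕ Fin j) ℝ F)
    (q : F → ℝ) : ℝ :=
  ∫ t : Vn j, (∫ s : Vn m, q (jj b s t) * fb w b t s) ^ 2 / ∫ s : Vn m, fb w b t s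

/-- The anisotropic quadratic form. -/
noncomputable def qa {m j : ℕ} (a : ℝ) (b : OrthonormalBasis (Fin m ⊕ Fin j) ℝ F) (v : F) : ℝ :=
  (∑ i, (inner ℝ (b (Sum.inl i)) v) ^ 2) + a⁻¹ * ∑ l, (inner ℝ (b (Sum.inr l)) v) ^ 2

/-- The bound for the covariance of the fibres. -/
noncomputable def kap (j : ℕ) : ℝ := 1170 * (4 + j) ^ 2

/-- Admissible bulk weights (before the Gaussian factor). -/
structure BW (B δ α : ℝ) (h0 : F → ℝ) : Prop where
  dpos : 0 < δ
  apos : 0 < α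
  wt : Wt h0 B
  int : Integrable h0
  smid : ∀ x y, h0 x * h0 y * Real.exp (δ * ‖x - y‖ ^ 2 / 4) ≤
    h0 ((1 / 2 : ℝ) • (x + y)) ^ 2

variable {δ L : ℝ} {h : F → ℝ}

lemma GV.pos (H : GV δ L h) (x : F) : 0 < h x := by
  obtain ⟨W, hW, -⟩ := H.reg
  rw [hW]
  exact Real.exp_pos _

lemma GV.cont (H : GV δ L h) : Continuous h := by
  obtain ⟨W, hW, hd, -⟩ := H.reg
  have : h = fun x => Real.exp (-W x) := funext hW
  rw [this]
  exact Real.continuous_exp.comp hd.continuous.neg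

end Pool.Agent.Lib.MP_8d00da_gt.h97s
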