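import Mathlib
import Pool.Agent.Lib.MP_8d00da_gt.h25.Ker
import Pool.Agent.Lib.MP_8d00da_gt.h97r.RDefs
import Pool.Agent.Lib.MP_8d00da_gt.h97r.ROm
import Pool.Agent.Lib.MP_8d00da_gt.h42u.UGauss
import Pool.Agent.Lib.MP_8d00da_gt.h97s.KDefs

section

namespace Pool.Agent.Lib.MP_8d00da_gt.h25
end Pool.Agent.Lib.MP_8d00da_gt.h25
namespace Pool.Agent.Lib.MP_8d00da_gt.h42
end Pool.Agent.Lib.MP_8d00da_gt.h42
namespace Pool.Agent.Lib.MP_8d00da_gt.h42s
end Pool.Agent.Lib.MP_8d00da_gt.h42s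
namespace Pool.Agent.Lib.MP_8d00da_gt.h42o
end Pool.Agent.Lib.MP_8d00da_gt.h42o


/-!
# Algebra of the variational step
-/

namespace Pool.Agent.Lib.MP_8d00da_gt.h97r

open MeasureTheory Set Filter
open Pool.Agent.Lib.MP_8d00da_gt.h25 Pool.Agent.Lib.MP_8d00da_gt.h42
open Pool.Agent.Lib.MP_8d00da_gt.h42s Pool.Agent.Lib.MP_8d00da_gt.h42o
open scoped Topology NNReal

variable {F : Type*} [NormedAddCommGroup F] [InnerProductSpace ℝ F]
    [FiniteDimensional ℝ F] [MeasurableSpace F] [BorelSpace F]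

/-- Real algebra. `Ruu` etc. are the values of the forms on the span of `u, v`, `w = u - v`. -/
theorem alg_step {lam ε Euu Euv Evv Cuu Cuv Cvv : ℝ} (hlam : 0 < lam) (hε0 : 0 ≤ ε)
    (hε1 : ε ≤ 1)
    (hA : ∀ s t : ℝ, lam * (s ^ 2 * Cuu + 2 * s * t * Cuv + t ^ 2 * Cvv) ≤
      s ^ 2 * Euu + 2 * s * t * Euv + t ^ 2 * Evv)
    (hC : ∀ s t : ℝ, 0 ≤ s ^ 2 * Cuu + 2 * s * t * Cuv + t ^ 2 * Cvv)
    (hEL : ∀ s t : ℝ, (s * (Euv + lam * Cuv - 2 * lam * Cuu) +
        t * (Evv + lam * Cvv - 2 * lam * Cuv)) ^ 2 ≤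
      ε * ((s ^ 2 * Euu + 2 * s * t * Euv + t ^ 2 * Evv) +
        lam * (s ^ 2 * Cuu + 2 * s * t * Cuv + t ^ 2 * Cvv))) :
    (Euu - 2 * Euv + Evv) + 3 * lam * (Cuu - 2 * Cuv + Cvv) ≤
        (Euu - lam * Cuu) + 15 * Real.sqrt ε * (1 + Euu) ∧
      Evv - lam * Cvv ≤ (Euu - lam * Cuu) + 15 * Real.sqrt ε * (1 + Euu) ∧
      Evv ≤ lam * Cuu + 15 * Real.sqrt ε * (1 + Euu) ∧
      Euu - Evv ≤ (5 / 4) * (Euu - lam * Cuu) + 15 * Real.sqrt ε * (1 + Euu) ∧
      Evv ≤ 2 * Euu + 2 := by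
  have a10 := hA 1 0
  have a01 := hA 0 1
  have a11 := hA 1 (-1)
  have c11 := hC 1 (-1)
  have c10 := hC 1 0
  have c01 := hC 0 1
  have r10 := hEL 1 0
  have r01 := hEL 0 1
  simp only [one_mul, zero_mul, mul_zero, zero_add, add_zero, one_pow, mul_one, ne_eq,
    OfNat.ofNat_ne_zero, not_false_eq_true, zero_pow, mul_neg, neg_mul, neg_sq] at a10 a01 a11 c11 c10 c01 r10 r01
  set Ru := Euv + lam * Cuv - 2 * lam * Cuu with hRu
  set Rv := Evv + lam * Cvv - 2 * lam * Cuv with hRv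
  have hCuu : 0 ≤ lam * Cuu := mul_nonneg hlam.le c10
  have hCvv : 0 ≤ lam * Cvv := mul_nonneg hlam.le c01
  have hEuu : 0 ≤ Euu := hCuu.trans a10
  have hEvv : 0 ≤ Evv := hCvv.trans a01
  have hcw : 0 ≤ lam * (Cuu + -(2 * Cuv) + Cvv) := mul_nonneg hlam.le c11
  have hRv2 : Rv ^ 2 ≤ 2 * ε * Evv := by nlinarith
  have hRu2 : Ru ^ 2 ≤ 2 * ε * Euu := by nlinarith
  have h1 : Evv ≤ lam * Cuu + Rv := by
    rw [hRv]
    nlinarith
  have h2 : Rv ≤ ε + Evv / 2 := by
    have h3 : Rv ^ 2 ≤ (ε + Evv / 2) ^ 2 := by nlinarith [sq_nonneg (ε - Evv / 2)]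
    exact (abs_le_of_sq_le_sq' h3 (by positivity)).2
  have h4 : Evv ≤ 2 * Euu + 2 := by linarith
  set s := Real.sqrt ε with hs
  have hs0 : 0 ≤ s := Real.sqrt_nonneg _
  have hss : s ^ 2 = ε := Real.sq_sqrt hε0
  have hU : 0 ≤ s * (1 + Euu) := by positivity
  have h5 : |Rv| ≤ 2 * (s * (1 + Euu)) := by
    refine abs_le_of_sq_le_sq ?_ (by positivity)
    have : 2 * ε * Evv ≤ ε * (4 * (1 + Euu) ^ 2) := by nlinarith [sq_nonneg Euu]
    calc Rv ^ 2 ≤ 2 * ε * Evv := hRv2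
      _ ≤ ε * (4 * (1 + Euu) ^ 2) := this
      _ = (2 * (s * (1 + Euu))) ^ 2 := by rw [← hss]; ring
  have h6 : |Ru| ≤ 2 * (s * (1 + Euu)) := by
    refine abs_le_of_sq_le_sq ?_ (by positivity)
    have : 2 * ε * Euu ≤ ε * (4 * (1 + Euu) ^ 2) := by nlinarith [sq_nonneg Euu]
    calc Ru ^ 2 ≤ 2 * ε * Euu := hRu2
      _ ≤ ε * (4 * (1 + Euu) ^ 2) := this
      _ = (2 * (s * (1 + Euu))) ^ 2 := by rw [← hss]; ring
  have h5' := abs_le.1 h5
  have h6' := abs_le.1 h6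
  have key : (Euu - 2 * Euv + Evv) + 3 * lam * (Cuu - 2 * Cuv + Cvv) =
      (Euu - lam * Cuu) - (Evv - lam * Cvv) - 2 * (Ru - Rv) := by
    rw [hRu, hRv]
    ring
  have key2 : Euu - Evv = (Euu - lam * Cuu) + lam * (Cuu - 2 * Cuv + Cvv) - Rv := by
    rw [hRv]
    ring
  have hEw : lam * (Cuu - 2 * Cuv + Cvv) ≤ Euu - 2 * Euv + Evv := by linarith
  have hCw : 0 ≤ lam * (Cuu - 2 * Cuv + Cvv) := by linarith
  refine ⟨?_, ?_, ?_, ?_, h4⟩
  · linarith
  · linarith
  · linarith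
  · linarith

end Pool.Agent.Lib.MP_8d00da_gt.h97r
end

section

namespace Pool.Agent.Lib.MP_8d00da_gt.h25
end Pool.Agent.Lib.MP_8d00da_gt.h25
namespace Pool.Agent.Lib.MP_8d00da_gt.h42
end Pool.Agent.Lib.MP_8d00da_gt.h42
namespace Pool.Agent.Lib.MP_8d00da_gt.h42s
end Pool.Agent.Lib.MP_8d00da_gt.h42s
namespace Pool.Agent.Lib.MP_8d00da_gt.h42o
end Pool.Agent.Lib.MP_8d00da_gt.h42o


/-!
# The iteration
-/

namespace Pool.Agent.Lib.MP_8d00da_gt.h97r

open MeasureTheory Set Filter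
open Pool.Agent.Lib.MP_8d00da_gt.h25 Pool.Agent.Lib.MP_8d00da_gt.h42
open Pool.Agent.Lib.MP_8d00da_gt.h42s Pool.Agent.Lib.MP_8d00da_gt.h42o
open scoped Topology NNReal

variable {F : Type*} [NormedAddCommGroup F] [InnerProductSpace ℝ F]
    [FiniteDimensional ℝ F] [MeasurableSpace F] [BorelSpace F]

/-- One step of the induction in the abstract iteration. -/
private lemma iter_step {lam CL c S S' Fv Fv' D D' : ℝ} (hlam : 0 < lam)
    (hbig : 61000 ≤ CL) (hc : 0 ≤ c)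
    {τ : ℝ} (h1 : D' ≤ 5 * lam * (D + 2 * lam * Fv) +
      4000 * lam ^ 3 * Fv + τ) (h2 : Fv ≤ CL * (3 * Fv' + 3 * (D + 2 * lam * Fv) + τ))
    (h3 : S' ≤ lam * S + τ) (h4 : Fv' ≤ c * S' + (D' + 2 * lam * Fv') / (10 * lam)) :
    Fv ≤ CL * ((15 / 4) * c * lam * S + (39 / 8) * (D + 2 * lam * Fv) + 1500 * lam ^ 2 * Fv) +
      CL * ((15 / 4) * (c + 1 / (10 * lam)) + 1) * τ := by
  set R := D + 2 * lam * Fv with hRd
  have h5 : (D' + 2 * lam * Fv') / (10 * lam) = D' / (10 * lam) + Fv' / 5 := by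
    field_simp
    ring
  rw [h5] at h4
  have h6 : D' / (10 * lam) ≤ R / 2 + 400 * lam ^ 2 * Fv + 1 / (10 * lam) * τ := by
    rw [div_le_iff₀ (by positivity)]
    refine h1.trans (le_of_eq ?_)
    field_simp
    ring
  have h7 : c * S' ≤ c * (lam * S + τ) := mul_le_mul_of_nonneg_left h3 hc
  have h8 : Fv' ≤ (5 / 4) * (c * (lam * S + τ) + (R / 2 + 400 * lam ^ 2 * Fv +
      1 / (10 * lam) * τ)) := by linarith
  have hCL : 0 ≤ CL := by linarith
  refine h2.trans ?_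
  have h9 : 3 * Fv' + 3 * R + τ ≤ ((15 / 4) * c * lam * S + (39 / 8) * R + 1500 * lam ^ 2 * Fv) +
      ((15 / 4) * (c + 1 / (10 * lam)) + 1) * τ := by linarith
  calc CL * (3 * Fv' + 3 * R + τ) ≤ CL * (((15 / 4) * c * lam * S + (39 / 8) * R +
        1500 * lam ^ 2 * Fv) + ((15 / 4) * (c + 1 / (10 * lam)) + 1) * τ) :=
        mul_le_mul_of_nonneg_left h9 hCL
    _ = _ := by ring

/-- Abstract iteration. -/
theorem iter {T : Type*} {S Fv D : T → ℝ} {lam CL : ℝ} (hlam : 0 < lam)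
    (hsmall : 50 * CL * lam ≤ 1) (hbig : 61000 ≤ CL)
    (hF0 : ∀ q, 0 ≤ Fv q) (hFS : ∀ q, Fv q ≤ S q) (hR0 : ∀ q, 0 ≤ D q + 2 * lam * Fv q)
    (hstep : ∀ q : T, ∀ τ : ℝ, 0 < τ → ∃ q' : T,
      D q' ≤ 5 * lam * (D q + 2 * lam * Fv q) + 4000 * lam ^ 3 * Fv q + τ ∧
      Fv q ≤ CL * (3 * Fv q' + 3 * (D q + 2 * lam * Fv q) + τ) ∧
      S q' ≤ lam * S q + τ) (q : T) :
    Fv q ≤ D q / (8 * lam) := by
  have hCL : 0 < CL := by linarith
  have hlam2 : lam ≤ 1 / 3050000 := by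
    rw [le_div_iff₀ (by norm_num)]
    nlinarith
  have claim : ∀ (M : ℕ) (q : T),
      Fv q ≤ (1 / 10) ^ M * S q + (D q + 2 * lam * Fv q) / (10 * lam) := by
    intro M
    induction M with
    | zero =>
      intro q
      have h1 := hFS q
      have h2 : 0 ≤ (D q + 2 * lam * Fv q) / (10 * lam) := div_nonneg (hR0 q) (by positivity)
      rw [pow_zero, one_mul]
      linarith
    | succ M ih =>
      intro q
      set c : ℝ := (1 / 10) ^ M with hc
      have hc0 : 0 ≤ c := by positivity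
      have hS0 : 0 ≤ S q := (hF0 q).trans (hFS q)
      have hF := hF0 q
      have hR := hR0 q
      have hlim : Fv q ≤ CL * ((15 / 4) * c * lam * S q + (39 / 8) * (D q + 2 * lam * Fv q) +
          1500 * lam ^ 2 * Fv q) := by
        refine le_of_forall_pos_le_add fun ε hε => ?_
        have hK : 0 < CL * ((15 / 4) * (c + 1 / (10 * lam)) + 1) := by positivity
        obtain ⟨q', h1, h2, h3⟩ := hstep q (ε / (CL * ((15 / 4) * (c + 1 / (10 * lam)) + 1)))
          (by positivity)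
        have h4 := iter_step hlam hbig hc0 h1 h2 h3 (ih q')
        rwa [mul_div_cancel₀ _ hK.ne'] at h4
      set R := D q + 2 * lam * Fv q with hRd
      have hCLlam : CL * lam ≤ 1 / 50 := by linarith
      have hcS : 0 ≤ c * S q := mul_nonneg hc0 hS0
      have e1 : CL * ((15 / 4) * c * lam * S q) ≤ (3 / 40) * (c * S q) := by
        have := mul_le_mul_of_nonneg_right hCLlam hcS
        nlinarith
      have e2 : CL * R ≤ (1 / 50) * (R / lam) := by
        rw [← mul_div_assoc, le_div_iff₀ hlam]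
        have := mul_le_mul_of_nonneg_right hCLlam hR
        linarith
      have e3 : CL * (1500 * lam ^ 2 * Fv q) ≤ (1 / 100000) * Fv q := by
        have h1 : CL * lam ^ 2 ≤ (1 / 50) * (1 / 3050000) := by
          have : CL * lam ^ 2 = (CL * lam) * lam := by ring
          rw [this]
          exact mul_le_mul hCLlam hlam2 hlam.le (by norm_num)
        have := mul_le_mul_of_nonneg_right h1 hF
        nlinarith
      have hRl : 0 ≤ R / lam := div_nonneg hR hlam.le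
      have e4 : R / (10 * lam) = (1 / 10) * (R / lam) := by
        field_simp
      rw [e4, pow_succ, ← hc]
      nlinarith
  have h1 : Fv q ≤ (D q + 2 * lam * Fv q) / (10 * lam) := by
    have h2 : Tendsto (fun M : ℕ => (1 / 10 : ℝ) ^ M * S q + (D q + 2 * lam * Fv q) / (10 * lam))
        atTop (𝓝 (0 * S q + (D q + 2 * lam * Fv q) / (10 * lam))) :=
      ((tendsto_pow_atTop_nhds_zero_of_lt_one (by norm_num) (by norm_num)).mul_const _).add_const _
    rw [zero_mul, zero_add] at h2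
    exact ge_of_tendsto' h2 fun M => claim M q
  rw [le_div_iff₀ (by positivity)] at h1 ⊢
  linarith

end Pool.Agent.Lib.MP_8d00da_gt.h97r
end

section

namespace Pool.Agent.Lib.MP_8d00da_gt.h25
end Pool.Agent.Lib.MP_8d00da_gt.h25
namespace Pool.Agent.Lib.MP_8d00da_gt.h42
end Pool.Agent.Lib.MP_8d00da_gt.h42
namespace Pool.Agent.Lib.MP_8d00da_gt.h42s
end Pool.Agent.Lib.MP_8d00da_gt.h42s
namespace Pool.Agent.Lib.MP_8d00da_gt.h42o
end Pool.Agent.Lib.MP_8d00da_gt.h42o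


/-!
# Adapted bases
-/

namespace Pool.Agent.Lib.MP_8d00da_gt.h97r

open MeasureTheory Set Filter
open Pool.Agent.Lib.MP_8d00da_gt.h25 Pool.Agent.Lib.MP_8d00da_gt.h42
open Pool.Agent.Lib.MP_8d00da_gt.h42s Pool.Agent.Lib.MP_8d00da_gt.h42o
open scoped Topology NNReal

variable {F : Type*} [NormedAddCommGroup F] [InnerProductSpace ℝ F]
    [FiniteDimensional ℝ F] [MeasurableSpace F] [BorelSpace F]

/-- `K = ker (g - 1)` and `R = range (g - 1)` are orthogonal complements of each other: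
`⟨g x - x, y⟩ = ⟨x, g⁻¹ y - y⟩ = 0` for `y ∈ K`, and dimensions add up to `finrank F`. Take
orthonormal bases of `R` (indexed by `Fin d`, `d = finrank R`) and of `K` and glue them. For
`v ∈ R` the vector `∑ k < N, g^k v` is fixed by `g` (as `g^N = 1`) and lies in `R`
(`g R ⊆ R`), so it is `0`. -/
theorem exists_basis (g : F ≃ₗᵢ[ℝ] F) {N : ℕ} (hN : 0 < N) (hg : ∀ x, (g ^ N) x = x) {k : ℕ}
    (hk : Module.finrank ℝ (LinearMap.range
      ((g.toLinearEquiv : F →ₗ[ℝ] F) - LinearMap.id)) ≤ k) :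
    ∃ (d e : ℕ) (b : OrthonormalBasis (Fin d ⊕ Fin e) ℝ F), d ≤ k ∧
      (∀ j, g (b (Sum.inr j)) = b (Sum.inr j)) ∧
      ∀ i, ∑ k ∈ Finset.range N, (g ^ k) (b (Sum.inl i)) = 0 := by
  classical
  set R : Submodule ℝ F := LinearMap.range ((g.toLinearEquiv : F →ₗ[ℝ] F) - LinearMap.id) with hR
  refine ⟨Module.finrank ℝ R, Module.finrank ℝ Rᗮ,
    ((stdOrthonormalBasis ℝ R).prod (stdOrthonormalBasis ℝ Rᗮ)).map
      (R.orthogonalDecomposition).symm, hk, ?_, ?_⟩
  · intro j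
    have h1 : (((stdOrthonormalBasis ℝ R).prod (stdOrthonormalBasis ℝ Rᗮ)).map
      (R.orthogonalDecomposition).symm) (Sum.inr j) = ((stdOrthonormalBasis ℝ Rᗮ) j : F) := by
      simp [OrthonormalBasis.prod_apply]
    rw [h1]
    have h2 : ((stdOrthonormalBasis ℝ Rᗮ) j : F) ∈ Rᗮ := Submodule.coe_mem _
    set y : F := ((stdOrthonormalBasis ℝ Rᗮ) j : F) with hy
    rw [Submodule.mem_orthogonal] at h2
    have h3 : ∀ x, inner ℝ (g x - x) y = (0 : ℝ) := by
      intro x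
      exact h2 (g x - x) ⟨x, by simp⟩
    have h4 : ∀ x, inner ℝ x (g.symm y - y) = (0 : ℝ) := by
      intro x
      have := h3 x
      rw [inner_sub_left] at this
      rw [inner_sub_right]
      have h5 : inner ℝ (g x) y = inner ℝ x (g.symm y) := by
        rw [← g.inner_map_map x (g.symm y), g.apply_symm_apply]
      rw [← h5]; exact this
    have h6 : g.symm y - y = 0 := by
      have := h4 (g.symm y - y)
      exact inner_self_eq_zero.mp this
    have h7 : g.symm y = y := sub_eq_zero.mp h6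
    calc g y = g (g.symm y) := by rw [h7]
      _ = y := g.apply_symm_apply y
  · intro i
    have h1 : (((stdOrthonormalBasis ℝ R).prod (stdOrthonormalBasis ℝ Rᗮ)).map
      (R.orthogonalDecomposition).symm) (Sum.inl i) = ((stdOrthonormalBasis ℝ R) i : F) := by
      simp [OrthonormalBasis.prod_apply]
    rw [h1]
    have h2 : ((stdOrthonormalBasis ℝ R) i : F) ∈ R := Submodule.coe_mem _
    obtain ⟨u, hu⟩ := h2
    have hu' : g u - u = ((stdOrthonormalBasis ℝ R) i : F) := by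
      rw [← hu]; simp
    rw [← hu']
    have h3 : ∀ k ∈ Finset.range N, (g ^ k) (g u - u) = (g ^ (k + 1)) u - (g ^ k) u := by
      intro k _
      rw [map_sub]
      rfl
    rw [Finset.sum_congr rfl h3, Finset.sum_range_sub (fun k => (g ^ k) u), hg]
    simp

end Pool.Agent.Lib.MP_8d00da_gt.h97r
end

section

namespace Pool.Agent.Lib.MP_8d00da_gt.h25
end Pool.Agent.Lib.MP_8d00da_gt.h25
namespace Pool.Agent.Lib.MP_8d00da_gt.h42s
end Pool.Agent.Lib.MP_8d00da_gt.h42s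
namespace Pool.Agent.Lib.MP_8d00da_gt.h42o
end Pool.Agent.Lib.MP_8d00da_gt.h42o


/-!
# The maximum of a symmetric log-concave function
-/

namespace Pool.Agent.Lib.MP_8d00da_gt.h97r

open MeasureTheory Set Filter
open Pool.Agent.Lib.MP_8d00da_gt.h25 Pool.Agent.Lib.MP_8d00da_gt.h42
open Pool.Agent.Lib.MP_8d00da_gt.h42s Pool.Agent.Lib.MP_8d00da_gt.h42o
open scoped Topology NNReal

variable {F : Type*} [NormedAddCommGroup F] [InnerProductSpace ℝ F]
    [FiniteDimensional ℝ F] [MeasurableSpace F] [BorelSpace F]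


/-- Let `C = {y | ‖y‖ ≤ ‖x‖ ∧ Φ x ≤ Φ y}`: convex (`Φ` is log-concave, so
`Φ x = Φ x ^ (1 - a) Φ x ^ a ≤ Φ y ^ (1 - a) Φ z ^ a ≤ Φ ((1 - a) y + a z)`), compact, nonempty
and invariant under `G`. Its point `p` of minimal norm is unique
(`exists_norm_eq_iInf_of_complete_convex`, parallelogram law), so `g p = p` for `g ∈ G`, hence
`p = 0` and `Φ x ≤ Φ 0`. -/
theorem max_zero {Φ : F → ℝ} (hc : Continuous Φ) (hp : ∀ x, 0 < Φ x) (hlc : LogConc Φ)
    (G : Set (F ≃ₗᵢ[ℝ] F)) (hG : ∀ g ∈ G, ∀ x, Φ (g x) = Φ x)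
    (hfix : ∀ v : F, (∀ g ∈ G, g v = v) → v = 0) (x : F) : Φ x ≤ Φ 0 := by
  have hcomp : IsCompact (Metric.closedBall (0 : F) ‖x‖ ∩ {y | Φ x ≤ Φ y}) :=
    (isCompact_closedBall (0 : F) ‖x‖).inter_right (isClosed_le continuous_const hc)
  have hne : (Metric.closedBall (0 : F) ‖x‖ ∩ {y | Φ x ≤ Φ y}).Nonempty :=
    ⟨x, by simp, le_refl (Φ x)⟩
  obtain ⟨p, hpC, hmin⟩ := hcomp.exists_isMinOn hne continuous_norm.continuousOn
  have hp1 : ‖p‖ ≤ ‖x‖ := by simpa using hpC.1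
  have hp2 : Φ x ≤ Φ p := hpC.2
  have hgp : ∀ g ∈ G, g p = p := by
    intro g hg
    have hn : ‖g p‖ = ‖p‖ := g.norm_map p
    have hΦ : Φ (g p) = Φ p := hG g hg p
    have h1 := hlc (1 / 2) (by norm_num) (by norm_num) p (g p)
    have h12 : (1 - 1 / 2 : ℝ) = 1 / 2 := by norm_num
    rw [hΦ, h12, ← Real.rpow_add (hp p), ← smul_add] at h1
    norm_num at h1
    have h2 : (1 / 2 : ℝ) • (p + g p) ∈ Metric.closedBall (0 : F) ‖x‖ ∩ {y | Φ x ≤ Φ y} := by
      refine ⟨?_, hp2.trans ?_⟩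
      · rw [mem_closedBall_zero_iff, norm_smul]
        have h3 := norm_add_le p (g p)
        norm_num
        linarith
      · simpa using h1
    have h4 : ‖p‖ ≤ ‖(1 / 2 : ℝ) • (p + g p)‖ := hmin h2
    rw [norm_smul] at h4
    norm_num at h4
    have h5 := parallelogram_law_with_norm ℝ p (g p)
    rw [hn] at h5
    have h6 : ‖p - g p‖ * ‖p - g p‖ ≤ 0 := by
      have h7 : 2 * ‖p‖ ≤ ‖p + g p‖ := by linarith
      have h8 : 0 ≤ ‖p‖ := norm_nonneg p
      nlinarith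
    have h9 : ‖p - g p‖ = 0 := by
      have := norm_nonneg (p - g p)
      nlinarith
    rw [norm_eq_zero, sub_eq_zero] at h9
    exact h9.symm
  have hp0 := hfix p hgp
  rwa [hp0] at hp2

end Pool.Agent.Lib.MP_8d00da_gt.h97r
end

section

/-!
# Linear changes of variables
-/

namespace Pool.Agent.Lib.MP_8d00da_gt.h97r

open MeasureTheory Set Filter
open Pool.Agent.Lib.MP_8d00da_gt.h25 Pool.Agent.Lib.MP_8d00da_gt.h42
open Pool.Agent.Lib.MP_8d00da_gt.h42s Pool.Agent.Lib.MP_8d00da_gt.h42o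
open scoped Topology NNReal

variable {F : Type*} [NormedAddCommGroup F] [InnerProductSpace ℝ F]
    [FiniteDimensional ℝ F] [MeasurableSpace F] [BorelSpace F]

variable {δ L : ℝ} {h : F → ℝ} {k : ℕ}

/-- `W' = W ∘ P - log c`, `fderiv W' x = (fderiv W (P x)) ∘ P`; `L' = ‖P‖² L`; for `smid` use
`‖x - y‖ ≤ ‖P⁻¹‖ ‖P x - P y‖` and `δ' = δ / (‖P⁻¹‖² + 1)`. -/
theorem GW.comp_lin (H : GW δ L h) (P : F ≃L[ℝ] F) {c : ℝ} (hc : 0 < c) :
    ∃ δ' L' : ℝ, GW δ' L' fun x => c * h (P x) := by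
  have hδ := H.dpos
  have hL := H.Lnn
  have hPos := H.pos
  set A : F →L[ℝ] F := (P : F →L[ℝ] F) with hA
  set B : F →L[ℝ] F := (P.symm : F →L[ℝ] F) with hB
  refine ⟨δ / (‖B‖ ^ 2 + 1), ‖A‖ ^ 2 * L, ?_⟩
  refine ⟨by positivity, by positivity, ?_, ?_, ?_, ?_⟩
  · obtain ⟨W, hW, hd, hLip⟩ := H.reg
    have hder : ∀ x, HasFDerivAt (fun x => W (P x) - Real.log c) ((fderiv ℝ W (P x)).comp A) x :=
      fun x => by
        have h1 : HasFDerivAt (fun x => W (P x)) ((fderiv ℝ W (P x)).comp A) x :=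
          (hd (P x)).hasFDerivAt.comp x A.hasFDerivAt
        exact h1.sub_const _
    refine ⟨fun x => W (P x) - Real.log c, fun x => ?_, fun x => (hder x).differentiableAt,
      fun x y => ?_⟩
    · change c * h (P x) = Real.exp (-(W (P x) - Real.log c))
      rw [neg_sub, Real.exp_sub, Real.exp_log hc, hW, Real.exp_neg]
      rfl
    · rw [(hder x).fderiv, (hder y).fderiv, ← ContinuousLinearMap.sub_comp]
      refine (ContinuousLinearMap.opNorm_comp_le _ _).trans ?_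
      have h2 : ‖P x - P y‖ ≤ ‖A‖ * ‖x - y‖ := by
        rw [← map_sub]
        exact A.le_opNorm (x - y)
      calc ‖fderiv ℝ W (P x) - fderiv ℝ W (P y)‖ * ‖A‖ ≤ (L * ‖P x - P y‖) * ‖A‖ :=
            mul_le_mul_of_nonneg_right (hLip _ _) (norm_nonneg _)
        _ ≤ (L * (‖A‖ * ‖x - y‖)) * ‖A‖ := by gcongr
        _ = ‖A‖ ^ 2 * L * ‖x - y‖ := by ring
  · intro a ha0 ha1 x y
    have h1 := H.lc a ha0 ha1 (P x) (P y)
    have h2 : (c * h (P x)) ^ (1 - a) * (c * h (P y)) ^ a =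
        c * (h (P x) ^ (1 - a) * h (P y) ^ a) := by
      rw [Real.mul_rpow hc.le (hPos _).le, Real.mul_rpow hc.le (hPos _).le]
      have h3 : c ^ (1 - a) * c ^ a = c := by
        rw [← Real.rpow_add hc, sub_add_cancel, Real.rpow_one]
      calc c ^ (1 - a) * h (P x) ^ (1 - a) * (c ^ a * h (P y) ^ a) =
            (c ^ (1 - a) * c ^ a) * (h (P x) ^ (1 - a) * h (P y) ^ a) := by ring
        _ = _ := by rw [h3]
    change (c * h (P x)) ^ (1 - a) * (c * h (P y)) ^ a ≤ c * h (P ((1 - a) • x + a • y))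
    rw [h2, map_add, map_smul, map_smul]
    exact mul_le_mul_of_nonneg_left h1 hc.le
  · intro x y
    have h1 := H.smid (P x) (P y)
    have h2 : δ / (‖B‖ ^ 2 + 1) * ‖x - y‖ ^ 2 / 4 ≤ δ * ‖P x - P y‖ ^ 2 / 4 := by
      have h3 : ‖x - y‖ ≤ ‖B‖ * ‖P x - P y‖ := by
        have h4 := B.le_opNorm (P x - P y)
        have h5 : B (P x - P y) = x - y := by
          rw [← map_sub]
          exact P.symm_apply_apply (x - y)
        rwa [h5] at h4
      have h6 : ‖x - y‖ ^ 2 ≤ (‖B‖ ^ 2 + 1) * ‖P x - P y‖ ^ 2 := by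
        calc ‖x - y‖ ^ 2 ≤ (‖B‖ * ‖P x - P y‖) ^ 2 := by gcongr
          _ = ‖B‖ ^ 2 * ‖P x - P y‖ ^ 2 := by ring
          _ ≤ (‖B‖ ^ 2 + 1) * ‖P x - P y‖ ^ 2 := by gcongr; linarith
      have h7 : 0 < ‖B‖ ^ 2 + 1 := by positivity
      have h8 : δ / (‖B‖ ^ 2 + 1) * ‖x - y‖ ^ 2 ≤ δ * ‖P x - P y‖ ^ 2 := by
        rw [div_mul_eq_mul_div, div_le_iff₀ h7]
        calc δ * ‖x - y‖ ^ 2 ≤ δ * ((‖B‖ ^ 2 + 1) * ‖P x - P y‖ ^ 2) := by gcongr
          _ = δ * ‖P x - P y‖ ^ 2 * (‖B‖ ^ 2 + 1) := by ring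
      linarith
    have h9 := Real.exp_le_exp.mpr h2
    have hx := hPos (P x)
    have hy := hPos (P y)
    change c * h (P x) * (c * h (P y)) * Real.exp (δ / (‖B‖ ^ 2 + 1) * ‖x - y‖ ^ 2 / 4) ≤
      (c * h (P ((1 / 2 : ℝ) • (x + y)))) ^ 2
    rw [map_smul, map_add]
    calc c * h (P x) * (c * h (P y)) * Real.exp (δ / (‖B‖ ^ 2 + 1) * ‖x - y‖ ^ 2 / 4)
        ≤ c * h (P x) * (c * h (P y)) * Real.exp (δ * ‖P x - P y‖ ^ 2 / 4) := by gcongr
      _ = c ^ 2 * (h (P x) * h (P y) * Real.exp (δ * ‖P x - P y‖ ^ 2 / 4)) := by ring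
      _ ≤ c ^ 2 * h ((1 / 2 : ℝ) • (P x + P y)) ^ 2 := by gcongr
      _ = (c * h ((1 / 2 : ℝ) • (P x + P y))) ^ 2 := by ring
  · intro x
    have h1 := H.max0 (P x)
    change c * h (P x) ≤ c * h (P 0)
    rw [map_zero]
    exact mul_le_mul_of_nonneg_left h1 hc.le

/-- Conjugate the symmetries: if `g` is a symmetry of `h` then `P⁻¹ g P` is a symmetry of
`c * h (P x)` of the same order and with the same rank of `g - 1`; if `v` is fixed by all
symmetries of the second function, then `P v` is fixed by all symmetries of `h`. -/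
theorem RefL.comp_lin (hR : RefL k h) (P : F ≃L[ℝ] F) (c : ℝ) : RefL k fun x => c * h (P x) := by
  intro v hv
  have h1 : P v = 0 := by
    apply hR
    rintro g hg ⟨N, hN, hper⟩ hrank
    set Q : F ≃ₗ[ℝ] F := P.toLinearEquiv with hQ
    have hQa : ∀ x, Q x = P x := fun x => rfl
    set g' : F ≃ₗ[ℝ] F := Q.trans (g.trans Q.symm) with hg'
    have hga : ∀ x, g' x = Q.symm (g (Q x)) := fun x => rfl
    have hpow : ∀ (m : ℕ) (x : F), (g' ^ m) x = Q.symm ((g ^ m) (Q x)) := by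
      intro m
      induction m with
      | zero =>
        intro x
        simp
      | succ m ih =>
        intro x
        rw [pow_succ, pow_succ, LinearEquiv.mul_apply, LinearEquiv.mul_apply, ih, hga,
          LinearEquiv.apply_symm_apply]
    have h2 := hv g' (fun x => by
        change c * h (P (g' x)) = c * h (P x)
        rw [hga, ← hQa, LinearEquiv.apply_symm_apply, hg, hQa])
      ⟨N, hN, fun x => by rw [hpow, hper, LinearEquiv.symm_apply_apply]⟩ (by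
        refine le_of_eq_of_le ?_ hrank
        have h3 : (g' : F →ₗ[ℝ] F) - LinearMap.id =
            (Q.symm : F →ₗ[ℝ] F).comp (((g : F →ₗ[ℝ] F) - LinearMap.id).comp (Q : F →ₗ[ℝ] F)) := by
          ext x
          simp [hga]
        have h4 : LinearMap.range ((Q.symm : F →ₗ[ℝ] F).comp
            (((g : F →ₗ[ℝ] F) - LinearMap.id).comp (Q : F →ₗ[ℝ] F))) =
            (LinearMap.range ((g : F →ₗ[ℝ] F) - LinearMap.id)).map (Q.symm : F →ₗ[ℝ] F) := by
          rw [LinearMap.range_comp, LinearMap.range_comp, LinearEquiv.range, Submodule.map_top]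
        rw [h3, h4]
        exact LinearEquiv.finrank_map_eq Q.symm _)
    have h5 := congrArg Q h2
    rwa [hga, LinearEquiv.apply_symm_apply] at h5
  exact (map_eq_zero_iff P P.injective).mp h1

end Pool.Agent.Lib.MP_8d00da_gt.h97r
end

section

/-!
# Linear symmetries of isotropic weights
-/

namespace Pool.Agent.Lib.MP_8d00da_gt.h97r

open MeasureTheory Set Filter
open Pool.Agent.Lib.MP_8d00da_gt.h25 Pool.Agent.Lib.MP_8d00da_gt.h42
open Pool.Agent.Lib.MP_8d00da_gt.h42s Pool.Agent.Lib.MP_8d00da_gt.h42o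
open scoped Topology NNReal

variable {F : Type*} [NormedAddCommGroup F] [InnerProductSpace ℝ F]
    [FiniteDimensional ℝ F] [MeasurableSpace F] [BorelSpace F]

variable {h : F → ℝ}

private lemma int_comp_lin (g : F ≃ₗ[ℝ] F) (G : F → ℝ) :
    ∫ x, G (g x) = |(LinearMap.det (g : F →ₗ[ℝ] F))⁻¹| * ∫ x, G x := by
  have hdet : LinearMap.det (g : F →ₗ[ℝ] F) ≠ 0 := (LinearEquiv.isUnit_det' g).ne_zero
  have h1 := MeasureTheory.Measure.map_linearMap_addHaar_eq_smul_addHaar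
    (volume : Measure F) hdet
  have h2 : ∫ x, G (g x) = ∫ x, G x ∂(Measure.map (g : F →ₗ[ℝ] F) (volume : Measure F)) := by
    have hemb : MeasurableEmbedding (g : F → F) :=
      g.toContinuousLinearEquiv.toHomeomorph.measurableEmbedding
    exact (hemb.integral_map G).symm
  rw [h2, h1, integral_smul_measure, ENNReal.toReal_ofReal (abs_nonneg _), smul_eq_mul]

/-- Change of variables `x = g y`: `∫ φ h = |det g| ∫ φ (g y) h (g y) = |det g| ∫ φ (g y) h y`
and `|det g| = 1` since `g ^ N = 1` (`MeasureTheory.Measure.integral_comp_...`,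
`LinearMap.det`, or `∫ h ≠ 0` with `φ = 1`). -/
theorem sym_int (g : F ≃ₗ[ℝ] F) (hg : ∀ x, h (g x) = h x)
    (hpos : 0 < ∫ x, h x) (φ : F → ℝ) :
    ∫ x, φ (g x) * h x = ∫ x, φ x * h x := by
  have h1 : ∫ x, φ (g x) * h x = ∫ x, (fun y => φ y * h y) (g x) :=
    integral_congr_ae (Eventually.of_forall fun x => by simp only [hg])
  have h2 : ∫ x, h x = |(LinearMap.det (g : F →ₗ[ℝ] F))⁻¹| * ∫ x, h x := by
    rw [← int_comp_lin g h]
    exact integral_congr_ae (Eventually.of_forall fun x => (hg x).symm)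
  have h3 : |(LinearMap.det (g : F →ₗ[ℝ] F))⁻¹| = 1 := by
    have := mul_right_cancel₀ hpos.ne' ((one_mul (∫ x, h x)).trans h2)
    exact this.symm
  rw [h1, int_comp_lin g (fun y => φ y * h y), h3, one_mul]

/-- `‖gᵀ θ‖² = ∫ ⟨gᵀ θ, x⟩² h = ∫ ⟨θ, g x⟩² h = ∫ ⟨θ, x⟩² h = ‖θ‖²`, so the adjoint of `g` is an
isometry, hence `g` too (finite dimension). -/
theorem sym_iso (hiso : ∀ θ : F, ∫ x, (inner ℝ θ x) ^ 2 * h x = ‖θ‖ ^ 2)
    (hpos : 0 < ∫ x, h x) (g : F ≃ₗ[ℝ] F) (hg : ∀ x, h (g x) = h x) (x : F) :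
    ‖g x‖ = ‖x‖ := by
  let A : F →ₗ[ℝ] F := LinearMap.adjoint (g : F →ₗ[ℝ] F)
  have hA : ∀ θ y, inner ℝ (A θ) y = inner ℝ θ (g y) := fun θ y =>
    LinearMap.adjoint_inner_left _ _ _
  have hn : ∀ θ, ‖A θ‖ = ‖θ‖ := by
    intro θ
    have h1 : ‖A θ‖ ^ 2 = ‖θ‖ ^ 2 := by
      rw [← hiso (A θ), ← hiso θ, ← sym_int g hg hpos (fun x => (inner ℝ θ x) ^ 2)]
      simp only [hA]
    exact (sq_eq_sq₀ (norm_nonneg _) (norm_nonneg _)).mp h1
  let A' : F →ₗᵢ[ℝ] F := ⟨A, hn⟩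
  have hgA : ∀ θ, g (A θ) = θ := by
    intro θ
    refine ext_inner_left ℝ fun v => ?_
    rw [← hA v]
    exact A'.inner_map_map v θ
  have hAg : ∀ y, A (g y) = y := by
    intro y
    apply g.injective
    exact hgA (g y)
  rw [← hn (g x), hAg]

/-- The vector `m = ∫ x h x` is fixed by all linear symmetries (`sym_int`), hence zero. -/
theorem sym_cen {k : ℕ} (hR : RefL k h) (hpos : 0 < ∫ x, h x) (hi : Integrable h)
    (hi1 : ∀ θ : F, Integrable fun x => inner ℝ θ x * h x) (θ : F) :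
    ∫ x, inner ℝ θ x * h x = 0 := by
  let e := stdOrthonormalBasis ℝ F
  let m : F := ∑ i, (∫ x, inner ℝ (e i) x * h x) • e i
  have hm : ∀ θ : F, inner ℝ θ m = ∫ x, inner ℝ θ x * h x := by
    intro θ
    have h1 : ∀ x, inner ℝ θ x * h x = ∑ i, inner ℝ θ (e i) * (inner ℝ (e i) x * h x) := by
      intro x
      have h2 : inner ℝ θ x = ∑ i, inner ℝ θ (e i) * inner ℝ (e i) x :=
        (e.sum_inner_mul_inner θ x).symm
      rw [h2, Finset.sum_mul]
      exact Finset.sum_congr rfl fun i _ => by ring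
    simp only [h1]
    rw [integral_finsetSum _ fun i _ => (hi1 (e i)).const_mul _]
    simp only [m, inner_sum, inner_smul_right, integral_const_mul]
    exact Finset.sum_congr rfl fun i _ => by ring
  have hm0 : m = 0 := by
    refine hR m fun g hg _ _ => ?_
    refine ext_inner_left ℝ fun v => ?_
    rw [hm v, ← sym_int g hg hpos (fun x => inner ℝ v x)]
    have h3 : ∀ x, inner ℝ v (g x) = inner ℝ (LinearMap.adjoint (g : F →ₗ[ℝ] F) v) x :=
      fun x => (LinearMap.adjoint_inner_left (g : F →ₗ[ℝ] F) x v).symm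
    simp only [h3]
    rw [← hm]
  rw [← hm θ, hm0, inner_zero_right]

end Pool.Agent.Lib.MP_8d00da_gt.h97r
end

section

/-!
# Finite frames of symmetries
-/

namespace Pool.Agent.Lib.MP_8d00da_gt.h97r

open MeasureTheory Set Filter
open Pool.Agent.Lib.MP_8d00da_gt.h25 Pool.Agent.Lib.MP_8d00da_gt.h42
open Pool.Agent.Lib.MP_8d00da_gt.h42s Pool.Agent.Lib.MP_8d00da_gt.h42o
open scoped Topology NNReal

variable {F : Type*} [NormedAddCommGroup F] [InnerProductSpace ℝ F]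
    [FiniteDimensional ℝ F] [MeasurableSpace F] [BorelSpace F]

variable {h : F → ℝ} {k : ℕ}

lemma pow_apply_eq (g : F ≃ₗ[ℝ] F) (gi : F ≃ₗᵢ[ℝ] F) (hgi : ∀ x, gi x = g x) (N : ℕ) (x : F) :
    (gi ^ N) x = (g ^ N) x := by
  induction N generalizing x with
  | zero => rfl
  | succ n ih =>
      rw [pow_succ, pow_succ]
      change (gi ^ n) (gi x) = (g ^ n) (g x)
      rw [ih, hgi]

/-- A symmetry moving the nonzero vector `v`. -/
lemma exists_sym_move (hR : RefL k h) (hiso : ∀ θ : F, ∫ x, (inner ℝ θ x) ^ 2 * h x = ‖θ‖ ^ 2)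
    (hpos : 0 < ∫ x, h x) {v : F} (hv : v ≠ 0) :
    ∃ D : SymD h k, 0 < ∑ i, (inner ℝ (D.b (Sum.inl i)) v) ^ 2 := by
  by_contra hcon
  push Not at hcon
  apply hv
  apply hR v
  intro g hg ⟨N, hN, hgN⟩ hrk
  by_contra hne
  let gi : F ≃ₗᵢ[ℝ] F := ⟨g, sym_iso hiso hpos g hg⟩
  have hgi : ∀ x, gi x = g x := fun _ => rfl
  have hgiN : ∀ x, (gi ^ N) x = x := fun x => by rw [pow_apply_eq g gi hgi, hgN]
  obtain ⟨d, e, b, hd, hfix, hmov⟩ := exists_basis gi hN hgiN (k := k) hrk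
  have hex : ∃ i : Fin d, inner ℝ (b (Sum.inl i)) v ≠ 0 := by
    by_contra hall
    push Not at hall
    apply hne
    have h1 : v = ∑ j : Fin e, (inner ℝ (b (Sum.inr j)) v) • b (Sum.inr j) := by
      have h2 := b.sum_repr' v
      rw [Fintype.sum_sum_type] at h2
      simp only [hall, zero_smul, Finset.sum_const_zero, zero_add] at h2
      exact h2.symm
    have h3 : gi v = v := by
      conv_lhs => rw [h1]
      rw [map_sum]
      conv_rhs => rw [h1]
      refine Finset.sum_congr rfl fun j _ => ?_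
      rw [map_smul, hfix]
    exact h3
  obtain ⟨i0, hi0⟩ := hex
  have hd1 : 1 ≤ d := Nat.one_le_iff_ne_zero.2 (fun h0 => by subst h0; exact i0.elim0)
  let D : SymD h k :=
    { g := gi
      N := N
      d := d
      e := e
      b := b
      sy := { Npos := hN
              per := hgiN
              inv := hg
              dpos := hd1
              fix := hfix
              mov := hmov }
      hd := hd }
  have h5 := hcon D
  have h6 : 0 < (inner ℝ (b (Sum.inl i0)) v) ^ 2 := by positivity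
  have h7 : (inner ℝ (b (Sum.inl i0)) v) ^ 2 ≤ ∑ i, (inner ℝ (D.b (Sum.inl i)) v) ^ 2 :=
    Finset.single_le_sum (f := fun i : Fin d => (inner ℝ (b (Sum.inl i)) v) ^ 2)
      (fun i _ => sq_nonneg _) (Finset.mem_univ i0)
  linarith

/-- By `sym_iso` every linear symmetry `g` is an isometry, so `exists_basis` gives a bundled
`SymD h k` (when `d ≥ 1`; if `d = 0` then `g = 1`). For a unit vector `v` not all symmetries fix
`v` (`RefL`), so there is `D : SymD h k` with `∑ i, ⟨b (inl i), v⟩² > 0` (if all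
`⟨b (inl i), v⟩ = 0` then `v` is in the span of the `b (inr j)`, so `g v = v`). The sets
`{v | 0 < ∑ i, ⟨D.b (inl i), v⟩²}` are open and cover the unit sphere, which is compact: finite
subcover, the sum over the subcover is continuous and positive on the sphere, so it has a
positive minimum there; then use homogeneity. (If `F` is trivial take `m = 0`.) -/
theorem exists_frame (hR : RefL k h) (hiso : ∀ θ : F, ∫ x, (inner ℝ θ x) ^ 2 * h x = ‖θ‖ ^ 2)
    (hpos : 0 < ∫ x, h x) :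
    ∃ (m : ℕ) (S : Fin m → SymD h k) (c0 : ℝ), 0 < c0 ∧
      ∀ v : F, c0 * ‖v‖ ^ 2 ≤ ∑ s, ∑ i, (inner ℝ ((S s).b (Sum.inl i)) v) ^ 2 := by
  classical
  by_cases hne : (Metric.sphere (0 : F) 1).Nonempty
  · have hcpt : IsCompact (Metric.sphere (0 : F) 1) := isCompact_sphere 0 1
    let φ : SymD h k → F → ℝ := fun D v => ∑ i, (inner ℝ (D.b (Sum.inl i)) v) ^ 2
    have hφc : ∀ D, Continuous (φ D) := fun D => by
      refine continuous_finsetSum _ fun i _ => ?_
      exact (continuous_const.inner continuous_id).pow 2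
    have hφn : ∀ D v, 0 ≤ φ D v := fun D v => Finset.sum_nonneg fun i _ => sq_nonneg _
    obtain ⟨t, ht⟩ := hcpt.elim_finite_subcover (fun D : SymD h k => {v : F | 0 < φ D v})
      (fun D => isOpen_lt continuous_const (hφc D)) (fun v hv => by
        have hv0 : v ≠ 0 := by
          intro h0
          rw [h0] at hv
          simp at hv
        obtain ⟨D, hD⟩ := exists_sym_move hR hiso hpos hv0
        exact mem_iUnion.2 ⟨D, hD⟩)
    let S : Fin t.card → SymD h k := fun s => (t.equivFin.symm s).1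
    let Φ : F → ℝ := fun v => ∑ s, φ (S s) v
    have hΦc : Continuous Φ := continuous_finsetSum _ fun s _ => hφc (S s)
    obtain ⟨v0, hv0, hmin⟩ := hcpt.exists_isMinOn hne hΦc.continuousOn
    have hΦpos : 0 < Φ v0 := by
      have h1 := ht hv0
      rw [mem_iUnion₂] at h1
      obtain ⟨D, hDt, hD⟩ := h1
      have h2 : φ D v0 ≤ Φ v0 := by
        have h3 : S (t.equivFin ⟨D, hDt⟩) = D := by
          change (t.equivFin.symm (t.equivFin ⟨D, hDt⟩)).1 = D
          rw [Equiv.symm_apply_apply]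
        calc φ D v0 = φ (S (t.equivFin ⟨D, hDt⟩)) v0 := by rw [h3]
          _ ≤ Φ v0 := Finset.single_le_sum (f := fun s => φ (S s) v0)
              (fun s _ => hφn (S s) v0) (Finset.mem_univ _)
      exact lt_of_lt_of_le hD h2
    refine ⟨t.card, S, Φ v0, hΦpos, fun v => ?_⟩
    change Φ v0 * ‖v‖ ^ 2 ≤ Φ v
    by_cases hv : v = 0
    · rw [hv, norm_zero]
      have : 0 ≤ Φ 0 := Finset.sum_nonneg fun s _ => hφn (S s) 0
      simpa using this
    · have hn : 0 < ‖v‖ := norm_pos_iff.2 hv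
      have hu : ‖v‖⁻¹ • v ∈ Metric.sphere (0 : F) 1 := by
        rw [mem_sphere_zero_iff_norm, norm_smul, norm_inv, norm_norm]
        exact inv_mul_cancel₀ hn.ne'
      have h1 : Φ v0 ≤ Φ (‖v‖⁻¹ • v) := hmin hu
      have h2 : Φ (‖v‖⁻¹ • v) = (‖v‖⁻¹) ^ 2 * Φ v := by
        change ∑ s, ∑ i, (inner ℝ ((S s).b (Sum.inl i)) (‖v‖⁻¹ • v)) ^ 2 =
          (‖v‖⁻¹) ^ 2 * ∑ s, ∑ i, (inner ℝ ((S s).b (Sum.inl i)) v) ^ 2
        rw [Finset.mul_sum]
        refine Finset.sum_congr rfl fun s _ => ?_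
        rw [Finset.mul_sum]
        refine Finset.sum_congr rfl fun i _ => ?_
        rw [inner_smul_right, mul_pow]
      rw [h2] at h1
      calc Φ v0 * ‖v‖ ^ 2 ≤ ((‖v‖⁻¹) ^ 2 * Φ v) * ‖v‖ ^ 2 := by gcongr
        _ = Φ v := by field_simp
  · refine ⟨0, Fin.elim0, 1, one_pos, fun v => ?_⟩
    have hv : v = 0 := by
      by_contra hv
      apply hne
      refine ⟨‖v‖⁻¹ • v, ?_⟩
      have hn : 0 < ‖v‖ := norm_pos_iff.2 hv
      rw [mem_sphere_zero_iff_norm, norm_smul, norm_inv, norm_norm]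
      exact inv_mul_cancel₀ hn.ne'
    rw [hv]
    simp

end Pool.Agent.Lib.MP_8d00da_gt.h97r
end

section

/-!
# Mean gradients
-/

namespace Pool.Agent.Lib.MP_8d00da_gt.h97r

open MeasureTheory Set Filter
open Pool.Agent.Lib.MP_8d00da_gt.h25 Pool.Agent.Lib.MP_8d00da_gt.h42
open Pool.Agent.Lib.MP_8d00da_gt.h42s Pool.Agent.Lib.MP_8d00da_gt.h42o
open scoped Topology NNReal

variable {F : Type*} [NormedAddCommGroup F] [InnerProductSpace ℝ F]
    [FiniteDimensional ℝ F] [MeasurableSpace F] [BorelSpace F]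

variable {δ L lam : ℝ} {h : F → ℝ}

private lemma psi_deriv {M : ℝ} (hM : 0 < M) (t : ℝ) :
    HasDerivAt (fun t => M * Real.arctan (t / M)) (1 / (1 + (t / M) ^ 2)) t := by
  have h1 : HasDerivAt (fun t : ℝ => t / M) (1 / M) t := (hasDerivAt_id t).div_const M
  have h2 := ((Real.hasDerivAt_arctan (t / M)).comp t h1).const_mul M
  refine h2.congr_deriv ?_
  field_simp

private lemma psi_p_nonneg (M t : ℝ) : 0 ≤ 1 / (1 + (t / M) ^ 2) := by positivity

private lemma psi_p_le (M t : ℝ) : 1 / (1 + (t / M) ^ 2) ≤ 1 := by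
  rw [div_le_one (by positivity)]
  nlinarith [sq_nonneg (t / M)]

private lemma psi_lip {M : ℝ} (hM : 0 < M) :
    LipschitzWith 1 (fun t => M * Real.arctan (t / M)) := by
  refine lipschitzWith_of_nnnorm_deriv_le (fun t => (psi_deriv hM t).differentiableAt) fun t => ?_
  rw [(psi_deriv hM t).deriv, ← NNReal.coe_le_coe, coe_nnnorm, Real.norm_eq_abs,
    abs_of_nonneg (psi_p_nonneg M t)]
  exact psi_p_le M t

private lemma psi_abs {M : ℝ} (hM : 0 < M) (t : ℝ) : |M * Real.arctan (t / M)| ≤ |t| := by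
  have h := (psi_lip hM).dist_le_mul t 0
  simpa [Real.dist_eq] using h

private lemma psi_BL {M : ℝ} (hM : 0 < M) : BL (fun t => M * Real.arctan (t / M)) := by
  refine ⟨⟨1, psi_lip hM⟩, M * (Real.pi / 2), fun t => ?_⟩
  rw [abs_mul, abs_of_pos hM]
  refine mul_le_mul_of_nonneg_left ?_ hM.le
  rw [abs_le]
  exact ⟨by linarith [Real.neg_pi_div_two_lt_arctan (t / M)], (Real.arctan_lt_pi_div_two _).le⟩

private lemma psi_lim (t : ℝ) :
    Tendsto (fun k : ℕ => ((k : ℝ) + 1) * Real.arctan (t / ((k : ℝ) + 1))) atTop (𝓝 t) := by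
  rcases eq_or_ne t 0 with rfl | ht
  · simp
  have h0 : HasDerivAt Real.arctan 1 0 := by
    have := Real.hasDerivAt_arctan 0
    simpa using this
  have h1 := hasDerivAt_iff_tendsto_slope_zero.1 h0
  have h2 : Tendsto (fun k : ℕ => t / ((k : ℝ) + 1)) atTop (𝓝[≠] 0) := by
    rw [tendsto_nhdsWithin_iff]
    refine ⟨tendsto_const_nhds.div_atTop
      (tendsto_natCast_atTop_atTop.atTop_add tendsto_const_nhds), Eventually.of_forall fun k => ?_⟩
    have : (k : ℝ) + 1 ≠ 0 := by positivity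
    exact div_ne_zero ht this
  have h3 := (h1.comp h2).const_mul t
  rw [mul_one] at h3
  refine h3.congr fun k => ?_
  have : (k : ℝ) + 1 ≠ 0 := by positivity
  simp only [Function.comp_apply, zero_add, Real.arctan_zero, sub_zero, smul_eq_mul, inv_div]
  field_simp

private noncomputable def ps (θ : F) (M : ℝ) (x : F) : ℝ := M * Real.arctan (inner ℝ θ x / M)

private lemma lin_lip {θ : F} (hθ : ‖θ‖ = 1) : LipschitzWith 1 (fun x : F => inner ℝ θ x) := by
  refine LipschitzWith.of_dist_le_mul fun x y => ?_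
  rw [Real.dist_eq, dist_eq_norm, NNReal.coe_one, one_mul, ← inner_sub_right]
  have := abs_real_inner_le_norm θ (x - y)
  rwa [hθ, one_mul] at this

private lemma lin_abs {θ : F} (hθ : ‖θ‖ = 1) (x : F) : |inner ℝ θ x| ≤ ‖x‖ := by
  have := abs_real_inner_le_norm θ x
  rwa [hθ, one_mul] at this

private lemma ps_BL {M : ℝ} (hM : 0 < M) {θ : F} (hθ : ‖θ‖ = 1) : BL (ps θ M) :=
  (psi_BL hM).comp (lin_lip hθ)

private lemma ps_fderiv {M : ℝ} (hM : 0 < M) (θ x : F) :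
    HasFDerivAt (ps θ M) ((1 / (1 + (inner ℝ θ x / M) ^ 2)) • (innerSL ℝ θ)) x := by
  have h1 : HasFDerivAt (fun x : F => inner ℝ θ x) (innerSL ℝ θ) x :=
    (innerSL ℝ θ).hasFDerivAt
  exact HasDerivAt.comp_hasFDerivAt (h₂ := fun t => M * Real.arctan (t / M))
    (f := fun x : F => inner ℝ θ x) x (psi_deriv hM (inner ℝ θ x)) h1

private lemma ps_E2 {M : ℝ} (hM : 0 < M) (h v : F → ℝ) (θ : F) :
    E2 h v (ps θ M) = ∫ x, fderiv ℝ v x θ * (1 / (1 + (inner ℝ θ x / M) ^ 2)) * h x := by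
  unfold E2
  refine integral_congr_ae (Eventually.of_forall fun x => ?_)
  show (∑ i, fderiv ℝ v x (stdOrthonormalBasis ℝ F i) *
    fderiv ℝ (ps θ M) x (stdOrthonormalBasis ℝ F i)) * h x = _
  rw [(ps_fderiv hM θ x).fderiv]
  congr 1
  have e1 : fderiv ℝ v x θ = ∑ i, inner ℝ (stdOrthonormalBasis ℝ F i) θ *
      fderiv ℝ v x (stdOrthonormalBasis ℝ F i) := by
    conv_lhs => rw [← (stdOrthonormalBasis ℝ F).sum_repr' θ]
    rw [map_sum]
    simp only [map_smul, smul_eq_mul]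
  rw [e1, Finset.sum_mul]
  refine Finset.sum_congr rfl fun i _ => ?_
  rw [smul_apply, innerSL_apply_apply, smul_eq_mul, real_inner_comm θ]
  ring

private lemma ps_En (H : GW δ L h) (hm : ∫ x, h x = 1) {M : ℝ} (hM : 0 < M) {θ : F}
    (hθ : ‖θ‖ = 1) : En h (ps θ M) ≤ 1 := by
  rw [← hm]
  unfold En
  have hb : ∀ x, ‖fderiv ℝ (ps θ M) x‖ ≤ 1 := by
    intro x
    rw [(ps_fderiv hM θ x).fderiv, norm_smul, innerSL_apply_norm, hθ, mul_one, Real.norm_eq_abs,
      abs_of_nonneg (psi_p_nonneg _ _)]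
    exact psi_p_le _ _
  have hb2 : ∀ x, ‖fderiv ℝ (ps θ M) x‖ ^ 2 ≤ 1 := fun x => pow_le_one₀ (norm_nonneg _) (hb x)
  refine integral_mono (H.bdd_int (φ := fun x => ‖fderiv ℝ (ps θ M) x‖ ^ 2)
    ((measurable_fderiv ℝ (ps θ M)).norm.pow_const 2)
    (M := 1) fun x => ?_) H.int fun x => ?_
  · rw [abs_of_nonneg (sq_nonneg _)]
    exact hb2 x
  · have := mul_le_mul_of_nonneg_right (hb2 x) (H.pos x).le
    simpa using this

private lemma mean_step (H : GW δ L h) (I : Iso h) (hlam : 0 < lam) (hPI : PI h lam) {v : F → ℝ}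
    (hv : BL v) {θ : F} (hθ : ‖θ‖ = 1) {M : ℝ} (hM : 0 < M) :
    (E2 h v (ps θ M) - lam * Cv h v (ps θ M)) ^ 2 ≤ QQ h lam v := by
  have hψ : BL (ps θ M) := ps_BL hM hθ
  have hE := ps_En H I.mass hM hθ
  have hV := Vr_nonneg H I.mass hψ
  have hQψ : QQ h lam (ps θ M) ≤ 1 := by
    unfold QQ
    have := mul_nonneg hlam.le hV
    linarith
  have hquad : ∀ s : ℝ, 0 ≤ QQ h lam (ps θ M) * (s * s) +
      (2 * (E2 h v (ps θ M) - lam * Cv h v (ps θ M))) * s + QQ h lam v := by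
    intro s
    have h1 := hPI (fun x => v x + s * ps θ M x) (hv.add ((BL.const s).mul hψ))
    rw [En_add_smul H hv hψ, Vr_add_smul H I.mass hv hψ] at h1
    unfold QQ
    nlinarith
  have hdis := discrim_le_zero hquad
  unfold discrim at hdis
  have hQv : 0 ≤ QQ h lam v := by
    have := hquad 0
    simpa using this
  nlinarith [mul_le_mul_of_nonneg_right hQψ hQv]

/-- The form `E2 - lam Cv` is nonnegative, so `(E2 v ψ - lam Cv v ψ)² ≤ QQ v * QQ ψ`
(discriminant of `s ↦ QQ (v + s ψ) ≥ 0`, `En_add_smul`, `Vr_add_smul`). Take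
`ψ = ψ_M = M arctan (⟨θ, x⟩ / M)`, bounded Lipschitz with `‖fderiv ψ‖ ≤ 1`, so
`QQ ψ ≤ En ψ ≤ ∫ h = 1`, and let `M → ∞` (dominated convergence): `E2 v ψ_M =
∫ fderiv v x θ / (1 + (⟨θ, x⟩ / M)²) h → ∫ fderiv v x θ h` and
`Cv v ψ_M → ∫ v ⟨θ, x⟩ h - (∫ v h) (∫ ⟨θ, x⟩ h) = ∫ v ⟨θ, x⟩ h`. Compare `h42o/OMean.lean`. -/
theorem mean_lin (H : GW δ L h) (I : Iso h) (hlam : 0 < lam) (hPI : PI h lam) {v : F → ℝ}
    (hv : Sm v) {θ : F} (hθ : ‖θ‖ = 1) :
    ((∫ x, fderiv ℝ v x θ * h x) - lam * ∫ x, v x * inner ℝ θ x * h x) ^ 2 ≤ QQ h lam v := by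
  have hvb := hv.bl
  have hvd := hv.diff
  obtain ⟨⟨K, hK⟩, A, hA⟩ := id hvb
  have hvm : Measurable v := hK.continuous.measurable
  have hA0 : 0 ≤ A := (abs_nonneg _).trans (hA 0)
  have hlm : Measurable fun x : F => inner ℝ θ x := (lin_lip hθ).continuous.measurable
  have hdi : ∀ x, |fderiv ℝ v x θ| ≤ K := by
    intro x
    have h1 := (fderiv ℝ v x).le_opNorm θ
    rw [hθ, mul_one, Real.norm_eq_abs] at h1
    exact h1.trans (norm_fderiv_le_of_lipschitz ℝ hK)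
  have hdim : Measurable fun x => fderiv ℝ v x θ := measurable_fderiv_apply_const ℝ v θ
  have hN : Integrable fun x : F => ‖x‖ * h x := H.int_poly measurable_norm (C := 1) fun x => by
    rw [abs_of_nonneg (norm_nonneg x), one_mul]
    nlinarith [sq_nonneg (‖x‖ - 1), norm_nonneg x]
  have hlim1 : Tendsto (fun k : ℕ => E2 h v (ps θ ((k : ℝ) + 1))) atTop
      (𝓝 (∫ x, fderiv ℝ v x θ * h x)) := by
    have e1 : ∀ k : ℕ, E2 h v (ps θ ((k : ℝ) + 1)) = ∫ x, fderiv ℝ v x θ *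
        (1 / (1 + (inner ℝ θ x / ((k : ℝ) + 1)) ^ 2)) * h x := fun k =>
      ps_E2 (by positivity) h v θ
    simp only [e1]
    refine tendsto_integral_of_dominated_convergence (fun x => K * h x) ?_ (H.int.const_mul _) ?_ ?_
    · intro k
      refine Measurable.aestronglyMeasurable ?_ |>.mul H.int.aestronglyMeasurable
      fun_prop
    · intro k
      refine Eventually.of_forall fun x => ?_
      rw [Real.norm_eq_abs, abs_mul, abs_mul, abs_of_pos (H.pos x),
        abs_of_nonneg (psi_p_nonneg _ (inner ℝ θ x))]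
      refine mul_le_mul_of_nonneg_right ?_ (H.pos x).le
      calc _ ≤ (K : ℝ) * 1 := mul_le_mul (hdi x) (psi_p_le _ _) (psi_p_nonneg _ _) K.2
        _ = K := mul_one _
    · refine Eventually.of_forall fun x => ?_
      have h1 : Tendsto (fun k : ℕ => inner ℝ θ x / ((k : ℝ) + 1)) atTop (𝓝 0) :=
        tendsto_const_nhds.div_atTop (tendsto_natCast_atTop_atTop.atTop_add tendsto_const_nhds)
      have h2 : Tendsto (fun k : ℕ => 1 / (1 + (inner ℝ θ x / ((k : ℝ) + 1)) ^ 2)) atTop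
          (𝓝 1) := by
        have h3 : Tendsto (fun k : ℕ => 1 / (1 + (inner ℝ θ x / ((k : ℝ) + 1)) ^ 2)) atTop
            (𝓝 (1 / (1 + 0 ^ 2))) :=
          Tendsto.div tendsto_const_nhds (tendsto_const_nhds.add (h1.pow 2)) (by norm_num)
        have e : (1 : ℝ) / (1 + 0 ^ 2) = 1 := by norm_num
        rwa [e] at h3
      have h4 := (h2.const_mul (fderiv ℝ v x θ)).mul_const (h x)
      simpa using h4
  have hpm : ∀ k : ℕ, Measurable (ps θ ((k : ℝ) + 1)) := by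
    intro k
    unfold ps
    fun_prop
  have hpa : ∀ (k : ℕ) (x : F), |ps θ ((k : ℝ) + 1) x| ≤ ‖x‖ := fun k x =>
    (psi_abs (by positivity) _).trans (lin_abs hθ x)
  have hlim2 : Tendsto (fun k : ℕ => ∫ x, v x * ps θ ((k : ℝ) + 1) x * h x) atTop
      (𝓝 (∫ x, v x * inner ℝ θ x * h x)) := by
    refine tendsto_integral_of_dominated_convergence (fun x => A * (‖x‖ * h x)) ?_
      (hN.const_mul _) ?_ ?_
    · intro k
      exact ((hvm.mul (hpm k)).aestronglyMeasurable).mul H.int.aestronglyMeasurable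
    · intro k
      refine Eventually.of_forall fun x => ?_
      rw [Real.norm_eq_abs, abs_mul, abs_mul, abs_of_pos (H.pos x), ← mul_assoc]
      refine mul_le_mul_of_nonneg_right ?_ (H.pos x).le
      exact mul_le_mul (hA x) (hpa k x) (abs_nonneg _) hA0
    · refine Eventually.of_forall fun x => ?_
      exact ((psi_lim (inner ℝ θ x)).const_mul (v x)).mul_const (h x)
  have hlim3 : Tendsto (fun k : ℕ => ∫ x, ps θ ((k : ℝ) + 1) x * h x) atTop
      (𝓝 (∫ x, inner ℝ θ x * h x)) := by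
    refine tendsto_integral_of_dominated_convergence (fun x => ‖x‖ * h x) ?_ hN ?_ ?_
    · intro k
      exact ((hpm k).aestronglyMeasurable).mul H.int.aestronglyMeasurable
    · intro k
      refine Eventually.of_forall fun x => ?_
      rw [Real.norm_eq_abs, abs_mul, abs_of_pos (H.pos x)]
      exact mul_le_mul_of_nonneg_right (hpa k x) (H.pos x).le
    · refine Eventually.of_forall fun x => ?_
      exact (psi_lim (inner ℝ θ x)).mul_const (h x)
  rw [I.cen θ] at hlim3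
  have hlim4 : Tendsto (fun k : ℕ => Cv h v (ps θ ((k : ℝ) + 1))) atTop
      (𝓝 (∫ x, v x * inner ℝ θ x * h x)) := by
    have h5 := hlim2.sub (hlim3.const_mul (∫ x, v x * h x))
    rw [mul_zero, sub_zero] at h5
    exact h5
  refine le_of_tendsto ((hlim1.sub (hlim4.const_mul lam)).pow 2) (Eventually.of_forall fun k => ?_)
  exact mean_step H I hlam hPI hvb hθ (M := (k : ℝ) + 1) (by positivity)

end Pool.Agent.Lib.MP_8d00da_gt.h97r
end

section

/-!
# Mean gradients, vector form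
-/

namespace Pool.Agent.Lib.MP_8d00da_gt.h97r

open MeasureTheory Set Filter
open Pool.Agent.Lib.MP_8d00da_gt.h25 Pool.Agent.Lib.MP_8d00da_gt.h42
open Pool.Agent.Lib.MP_8d00da_gt.h42s Pool.Agent.Lib.MP_8d00da_gt.h42o
open scoped Topology NNReal

variable {F : Type*} [NormedAddCommGroup F] [InnerProductSpace ℝ F]
    [FiniteDimensional ℝ F] [MeasurableSpace F] [BorelSpace F]

variable {δ L lam : ℝ} {h : F → ℝ}

/-- Hence a bound for the square norm of the vector of the means of the derivatives in the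
directions of an orthonormal family `b j`, `j : κ` (a part of an orthonormal basis): with
`m j = ∫ fderiv v x (b j) h` and `θ = ∑ m j b j / ‖m‖` one has `∫ fderiv v x θ h = ‖m‖`. -/
theorem mean_sq (H : GW δ L h) (I : Iso h) (hlam : 0 < lam) (hPI : PI h lam) {v : F → ℝ}
    (hv : Sm v) {κ : Type*} [Fintype κ] {c : κ → F} (hc : Orthonormal ℝ c) {A : ℝ} (hA0 : 0 ≤ A)
    (hA : ∀ θ : F, ‖θ‖ = 1 → (∫ x, v x * inner ℝ θ x * h x) ^ 2 ≤ A) :
    ∑ j, (∫ x, fderiv ℝ v x (c j) * h x) ^ 2 ≤ 2 * QQ h lam v + 2 * lam ^ 2 * A := by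
  classical
  set m : κ → ℝ := fun j => ∫ x, fderiv ℝ v x (c j) * h x with hm
  set S : ℝ := ∑ j, m j ^ 2 with hS
  have hS0 : 0 ≤ S := Finset.sum_nonneg fun j _ => sq_nonneg _
  change S ≤ _
  have hQ : 0 ≤ QQ h lam v := by
    have := hPI v hv.bl
    unfold QQ
    linarith
  rcases hS0.eq_or_lt with h0 | hpos
  · rw [← h0]
    positivity
  -- the direction of the mean
  have hsq : 0 < Real.sqrt S := Real.sqrt_pos.2 hpos
  set θ : F := (Real.sqrt S)⁻¹ • ∑ j, m j • c j with hθ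
  have hnorm : ‖∑ j, m j • c j‖ = Real.sqrt S := by
    rw [← Real.sqrt_sq (norm_nonneg _), ← real_inner_self_eq_norm_sq,
      hc.inner_sum m m Finset.univ]
    congr 1
    rw [hS]
    refine Finset.sum_congr rfl fun j _ => ?_
    rw [conj_trivial, sq]
  have hθ1 : ‖θ‖ = 1 := by
    rw [hθ, norm_smul, hnorm, norm_inv, Real.norm_of_nonneg hsq.le, inv_mul_cancel₀ hsq.ne']
  have hint : ∀ j, Integrable fun x => fderiv ℝ v x (c j) * h x := by
    intro j
    obtain ⟨⟨K, hK⟩, B, hB⟩ := hv.dbl (c j)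
    exact H.bdd_int hK.continuous.measurable hB
  have hfd : (∫ x, fderiv ℝ v x θ * h x) = Real.sqrt S := by
    have h1 : ∀ x, fderiv ℝ v x θ * h x =
        ∑ j, ((Real.sqrt S)⁻¹ * m j) * (fderiv ℝ v x (c j) * h x) := by
      intro x
      rw [hθ, map_smul, map_sum, smul_eq_mul, Finset.mul_sum, Finset.sum_mul]
      refine Finset.sum_congr rfl fun j _ => ?_
      rw [map_smul, smul_eq_mul]
      ring
    simp only [h1]
    rw [integral_finsetSum Finset.univ fun j _ => (hint j).const_mul _]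
    have h2 : ∀ j, (∫ x, ((Real.sqrt S)⁻¹ * m j) * (fderiv ℝ v x (c j) * h x)) =
        (Real.sqrt S)⁻¹ * m j ^ 2 := by
      intro j
      rw [integral_const_mul]
      change (Real.sqrt S)⁻¹ * m j * m j = _
      ring
    simp only [h2]
    rw [← Finset.mul_sum, ← hS]
    have h3 : S = Real.sqrt S * Real.sqrt S := (Real.mul_self_sqrt hS0).symm
    nth_rewrite 2 [h3]
    rw [← mul_assoc, inv_mul_cancel₀ hsq.ne', one_mul]
  have h4 := mean_lin H I hlam hPI hv hθ1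
  have h5 := hA θ hθ1
  rw [hfd] at h4
  have h6 : S = Real.sqrt S ^ 2 := (Real.sq_sqrt hS0).symm
  set a := Real.sqrt S
  set b := ∫ x, v x * inner ℝ θ x * h x
  have h7 : a ^ 2 ≤ 2 * (a - lam * b) ^ 2 + 2 * (lam * b) ^ 2 := by nlinarith [sq_nonneg (a - 2 * (lam * b))]
  have h8 : (lam * b) ^ 2 ≤ lam ^ 2 * A := by
    rw [mul_pow]
    exact mul_le_mul_of_nonneg_left h5 (sq_nonneg _)
  rw [h6]
  linarith

end Pool.Agent.Lib.MP_8d00da_gt.h97r
end

section

/-!
# Gaussian regularisation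
-/

namespace Pool.Agent.Lib.MP_8d00da_gt.h97r

open MeasureTheory Set Filter
open Pool.Agent.Lib.MP_8d00da_gt.h25 Pool.Agent.Lib.MP_8d00da_gt.h42
open Pool.Agent.Lib.MP_8d00da_gt.h42s Pool.Agent.Lib.MP_8d00da_gt.h42o
open scoped Topology NNReal

variable {n : ℕ} {h : Vn n → ℝ} {B : ℝ}

section aux

variable {F : Type*} [NormedAddCommGroup F] [InnerProductSpace ℝ F]

private lemma norm_sq_conv (a : ℝ) (p q : F) :
    ‖(1 - a) • p + a • q‖ ^ 2 = (1 - a) * ‖p‖ ^ 2 + a * ‖q‖ ^ 2 - a * (1 - a) * ‖p - q‖ ^ 2 := by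
  rw [norm_add_sq_real, norm_sub_sq_real, norm_smul, norm_smul, inner_smul_left, inner_smul_right,
    mul_pow, mul_pow, Real.norm_eq_abs, Real.norm_eq_abs, sq_abs, sq_abs]
  simp only [conj_trivial]
  ring

private lemma exp_norm_logconc {c : ℝ} (hc : 0 ≤ c) {a : ℝ} (h0 : 0 < a) (h1 : a < 1) (p q : F) :
    Real.exp (-(c * ‖p‖ ^ 2)) ^ (1 - a) * Real.exp (-(c * ‖q‖ ^ 2)) ^ a ≤
      Real.exp (-(c * ‖(1 - a) • p + a • q‖ ^ 2)) := by
  rw [← Real.exp_mul, ← Real.exp_mul, ← Real.exp_add, Real.exp_le_exp, norm_sq_conv]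
  have h2 : 0 ≤ a * (1 - a) * ‖p - q‖ ^ 2 := by
    have : 0 < 1 - a := by linarith
    positivity
  nlinarith [mul_nonneg hc h2]

end aux

private lemma ker_logconc {σ : ℝ} (hσ : 0 < σ) {a : ℝ} (h0 : 0 < a) (h1 : a < 1) (p q : Vn n) :
    h25.ker σ p ^ (1 - a) * h25.ker σ q ^ a ≤ h25.ker σ ((1 - a) • p + a • q) := by
  have e : ∀ z : Vn n, h25.ker σ z = Real.exp (-(1 / (2 * σ) * ‖z‖ ^ 2)) := by
    intro z
    unfold h25.ker
    congr 2
    ring
  rw [e, e, e]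
  exact exp_norm_logconc (by positivity) h0 h1 p q

private lemma log_convex {G : Vn n → ℝ} (hG : ∀ y, 0 < G y)
    (hlc : ∀ a : ℝ, 0 < a → a < 1 → ∀ x y, G ((1 - a) • x + a • y) ≤ G x ^ (1 - a) * G y ^ a) :
    ConvexOn ℝ univ fun y => Real.log (G y) := by
  refine ⟨convex_univ, fun x _ y _ a b ha hb hab => ?_⟩
  rcases eq_or_lt_of_le hb with rfl | hb'
  · have : a = 1 := by linarith
    subst this
    simp
  rcases eq_or_lt_of_le ha with rfl | ha'
  · have : b = 1 := by linarith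
    subst this
    simp
  have hb1 : b < 1 := by linarith
  have h1 := hlc b hb' hb1 x y
  have ea : 1 - b = a := by linarith
  rw [ea] at h1
  have h2 := Real.log_le_log (hG _) h1
  rw [Real.log_mul (Real.rpow_pos_of_pos (hG x) _).ne' (Real.rpow_pos_of_pos (hG y) _).ne',
    Real.log_rpow (hG x), Real.log_rpow (hG y)] at h2
  simpa only [smul_eq_mul] using h2

private lemma log_concave {G : Vn n → ℝ} (hG : ∀ y, 0 < G y) (hlc : LogConc G) :
    ConvexOn ℝ univ fun y => - Real.log (G y) := by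
  refine ⟨convex_univ, fun x _ y _ a b ha hb hab => ?_⟩
  rcases eq_or_lt_of_le hb with rfl | hb'
  · have : a = 1 := by linarith
    subst this
    simp
  rcases eq_or_lt_of_le ha with rfl | ha'
  · have : b = 1 := by linarith
    subst this
    simp
  have hb1 : b < 1 := by linarith
  have h1 := hlc b hb' hb1 x y
  have ea : 1 - b = a := by linarith
  rw [ea] at h1
  have h2 := Real.log_le_log (mul_pos (Real.rpow_pos_of_pos (hG x) _)
    (Real.rpow_pos_of_pos (hG y) _)) h1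
  rw [Real.log_mul (Real.rpow_pos_of_pos (hG x) _).ne' (Real.rpow_pos_of_pos (hG y) _).ne',
    Real.log_rpow (hG x), Real.log_rpow (hG y)] at h2
  simp only [smul_eq_mul]
  linarith

/-- the weight `z ↦ h z exp (⟨z, y⟩ / σ - ‖z‖² / (2 σ))` -/
private noncomputable def tw (σ : ℝ) (h : Vn n → ℝ) (y z : Vn n) : ℝ :=
  Real.exp (‖y‖ ^ 2 / (2 * σ)) * (h z * h25.ker σ (y - z))

private lemma tw_mid {σ : ℝ} (hh : ∀ z, 0 ≤ h z) {a : ℝ} (h0 : 0 < a) (h1 : a < 1)
    (x y z : Vn n) : tw σ h ((1 - a) • x + a • y) z = tw σ h x z ^ (1 - a) * tw σ h y z ^ a := by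
  have e : ∀ y : Vn n, tw σ h y z = h z * Real.exp (‖y‖ ^ 2 / (2 * σ) - ‖y - z‖ ^ 2 / (2 * σ)) := by
    intro y
    unfold tw h25.ker
    rw [show ‖y‖ ^ 2 / (2 * σ) - ‖y - z‖ ^ 2 / (2 * σ) =
      ‖y‖ ^ 2 / (2 * σ) + -(‖y - z‖ ^ 2 / (2 * σ)) from sub_eq_add_neg _ _, Real.exp_add]
    ring
  have e2 : h z = h z ^ (1 - a) * h z ^ a := by
    rcases eq_or_lt_of_le (hh z) with hz | hz
    · rw [← hz, Real.zero_rpow (by linarith), Real.zero_rpow h0.ne', mul_zero]
    · rw [← Real.rpow_add hz, sub_add_cancel, Real.rpow_one]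
  rw [e, e, e, Real.mul_rpow (hh z) (Real.exp_pos _).le, Real.mul_rpow (hh z) (Real.exp_pos _).le,
    ← Real.exp_mul, ← Real.exp_mul]
  have e3 : h z ^ (1 - a) * Real.exp ((‖x‖ ^ 2 / (2 * σ) - ‖x - z‖ ^ 2 / (2 * σ)) * (1 - a)) *
      (h z ^ a * Real.exp ((‖y‖ ^ 2 / (2 * σ) - ‖y - z‖ ^ 2 / (2 * σ)) * a)) =
      (h z ^ (1 - a) * h z ^ a) * (Real.exp ((‖x‖ ^ 2 / (2 * σ) - ‖x - z‖ ^ 2 / (2 * σ)) * (1 - a)) *
      Real.exp ((‖y‖ ^ 2 / (2 * σ) - ‖y - z‖ ^ 2 / (2 * σ)) * a)) := by ring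
  rw [e3, ← e2, ← Real.exp_add]
  congr 2
  have e4 : (1 - a) • x + a • y - z = (1 - a) • (x - z) + a • (y - z) := by
    rw [smul_sub, smul_sub, sub_smul, sub_smul, one_smul, one_smul]
    abel
  rw [e4, norm_sq_conv, norm_sq_conv]
  have e5 : x - z - (y - z) = x - y := by abel
  rw [e5]
  ring

private lemma G_convex (H : Wt h B) {σ : ℝ} (hσ : 0 < σ) {a : ℝ} (h0 : 0 < a) (h1 : a < 1)
    (x y : Vn n) :
    Real.exp (‖(1 - a) • x + a • y‖ ^ 2 / (2 * σ)) * cv σ h ((1 - a) • x + a • y) ≤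
      (Real.exp (‖x‖ ^ 2 / (2 * σ)) * cv σ h x) ^ (1 - a) *
      (Real.exp (‖y‖ ^ 2 / (2 * σ)) * cv σ h y) ^ a := by
  have h1a : 0 < 1 - a := by linarith
  have hi : ∀ y : Vn n, Integrable fun z => tw σ h y z := fun y =>
    (cv_integrable hσ H.meas H.abs_le y).const_mul _
  have hI : ∀ y : Vn n, ∫ z, tw σ h y z = Real.exp (‖y‖ ^ 2 / (2 * σ)) * cv σ h y := by
    intro y
    unfold tw cv
    rw [integral_const_mul]
  have hp : ∀ y : Vn n, 0 < Real.exp (‖y‖ ^ 2 / (2 * σ)) * cv σ h y := fun y =>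
    mul_pos (Real.exp_pos _) (H.Z_pos hσ y)
  have hn : ∀ y z : Vn n, 0 ≤ tw σ h y z := fun y z =>
    mul_nonneg (Real.exp_pos _).le (mul_nonneg (H.nonneg z) (ker_pos _).le)
  set A := Real.exp (‖x‖ ^ 2 / (2 * σ)) * cv σ h x with hA
  set C := Real.exp (‖y‖ ^ 2 / (2 * σ)) * cv σ h y with hC
  have hA0 : 0 < A := hp x
  have hC0 : 0 < C := hp y
  rw [← hI]
  have hpt : ∀ z, tw σ h ((1 - a) • x + a • y) z ≤
      A ^ (1 - a) * C ^ a * ((1 - a) / A * tw σ h x z + a / C * tw σ h y z) := by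
    intro z
    rw [tw_mid H.nonneg h0 h1]
    have h3 := Real.geom_mean_le_arith_mean2_weighted h1a.le h0.le
      (div_nonneg (hn x z) hA0.le) (div_nonneg (hn y z) hC0.le) (by ring)
    rw [Real.div_rpow (hn x z) hA0.le, Real.div_rpow (hn y z) hC0.le] at h3
    have hA1 := Real.rpow_pos_of_pos hA0 (1 - a)
    have hC1 := Real.rpow_pos_of_pos hC0 a
    calc tw σ h x z ^ (1 - a) * tw σ h y z ^ a
        = A ^ (1 - a) * C ^ a *
          (tw σ h x z ^ (1 - a) / A ^ (1 - a) * (tw σ h y z ^ a / C ^ a)) := by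
          field_simp
      _ ≤ A ^ (1 - a) * C ^ a * ((1 - a) * (tw σ h x z / A) + a * (tw σ h y z / C)) := by
          gcongr
      _ = _ := by ring
  have hi2 : Integrable fun z =>
      A ^ (1 - a) * C ^ a * ((1 - a) / A * tw σ h x z + a / C * tw σ h y z) :=
    (((hi x).const_mul _).add ((hi y).const_mul _)).const_mul _
  refine (integral_mono (hi _) hi2 hpt).trans (le_of_eq ?_)
  rw [integral_const_mul, integral_add ((hi x).const_mul _) ((hi y).const_mul _),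
    integral_const_mul, integral_const_mul, hI, hI, ← hA, ← hC, div_mul_cancel₀ _ hA0.ne',
    div_mul_cancel₀ _ hC0.ne']
  ring

/-- `h42u.gauss_UW` (the proof of its first three fields does not use evenness: copy it) and
`max_zero` for the field `max0` (`h25.cv_comp`: `cv σ h` has the symmetries of `h`). -/
theorem gauss_GW (H : Wt h B) (hlc : LogConc h) (G : Set (Vn n ≃ₗᵢ[ℝ] Vn n))
    (hG : ∀ g ∈ G, ∀ x, h (g x) = h x) (hfix : ∀ v : Vn n, (∀ g ∈ G, g v = v) → v = 0) {σ : ℝ}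
    (hσ : 0 < σ) :
    GW (2 * σ) (1 / σ + 2 * σ) fun y => cv σ h y * Real.exp (-(σ * ‖y‖ ^ 2)) := by
  have hZ : ∀ y, 0 < cv σ h y := fun y => H.Z_pos hσ y
  have hZd : Differentiable ℝ (cv σ h) := cv_differentiable hσ H.meas H.abs_le
  have hZlc := h42u.cv_logconc H hlc hσ
  have hd : Differentiable ℝ fun y => - Real.log (cv σ h y) :=
    (hZd.log fun y => (hZ y).ne').neg
  have hc1 : ConvexOn ℝ univ fun y => - Real.log (cv σ h y) := log_concave hZ hZlc
  have hc2 : ConvexOn ℝ univ fun y : Vn n => ‖y‖ ^ 2 / (2 * σ) - - Real.log (cv σ h y) := by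
    have h1 := log_convex (G := fun y : Vn n => Real.exp (‖y‖ ^ 2 / (2 * σ)) * cv σ h y)
      (fun y => mul_pos (Real.exp_pos _) (hZ y)) (fun a h0 h1 x y => G_convex H hσ h0 h1 x y)
    have e : (fun y : Vn n => Real.log (Real.exp (‖y‖ ^ 2 / (2 * σ)) * cv σ h y)) =
        fun y : Vn n => ‖y‖ ^ 2 / (2 * σ) - - Real.log (cv σ h y) := by
      funext y
      rw [Real.log_mul (Real.exp_pos _).ne' (hZ y).ne', Real.log_exp]
      ring
    rwa [e] at h1
  have hlip := h42u.grad_lip hd hc1 hσ hc2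
  have hN : ∀ x : Vn n, HasFDerivAt (fun y : Vn n => σ * ‖y‖ ^ 2)
      ((2 * σ) • (innerSL ℝ x : Vn n →L[ℝ] ℝ)) x := by
    intro x
    have h1 := ((hasStrictFDerivAt_norm_sq x).hasFDerivAt).const_mul σ
    have e : σ • (2 : ℕ) • (innerSL ℝ x : Vn n →L[ℝ] ℝ) =
        (2 * σ) • (innerSL ℝ x : Vn n →L[ℝ] ℝ) := by
      rw [two_nsmul, ← two_smul ℝ (innerSL ℝ x : Vn n →L[ℝ] ℝ), smul_smul, mul_comm σ 2]
    rw [← e]
    exact h1
  have hlc' : LogConc fun y : Vn n => cv σ h y * Real.exp (-(σ * ‖y‖ ^ 2)) := by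
    intro a h0 h1 x y
    have h2 := hZlc a h0 h1 x y
    have h3 := exp_norm_logconc (F := Vn n) hσ.le h0 h1 x y
    rw [Real.mul_rpow (hZ x).le (Real.exp_pos _).le, Real.mul_rpow (hZ y).le (Real.exp_pos _).le]
    calc cv σ h x ^ (1 - a) * Real.exp (-(σ * ‖x‖ ^ 2)) ^ (1 - a) *
        (cv σ h y ^ a * Real.exp (-(σ * ‖y‖ ^ 2)) ^ a)
        = (cv σ h x ^ (1 - a) * cv σ h y ^ a) *
          (Real.exp (-(σ * ‖x‖ ^ 2)) ^ (1 - a) * Real.exp (-(σ * ‖y‖ ^ 2)) ^ a) := by ring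
      _ ≤ _ := mul_le_mul h2 h3 (by positivity) (hZ _).le
  refine ⟨by positivity, by positivity,
    ⟨fun y => - Real.log (cv σ h y) + σ * ‖y‖ ^ 2, ?_, ?_, ?_⟩, hlc', ?_, ?_⟩
  · intro x
    rw [neg_add, neg_neg, Real.exp_add, Real.exp_log (hZ x)]
  · exact hd.add fun x => (hN x).differentiableAt
  · intro x y
    have e : ∀ x : Vn n, fderiv ℝ (fun y => - Real.log (cv σ h y) + σ * ‖y‖ ^ 2) x =
        fderiv ℝ (fun y => - Real.log (cv σ h y)) x + (2 * σ) • (innerSL ℝ x : Vn n →L[ℝ] ℝ) := by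
      intro x
      exact ((hd x).hasFDerivAt.add (hN x)).fderiv
    rw [e, e]
    have e2 : fderiv ℝ (fun y => - Real.log (cv σ h y)) x + (2 * σ) • (innerSL ℝ x : Vn n →L[ℝ] ℝ) -
        (fderiv ℝ (fun y => - Real.log (cv σ h y)) y + (2 * σ) • (innerSL ℝ y : Vn n →L[ℝ] ℝ)) =
        (fderiv ℝ (fun y => - Real.log (cv σ h y)) x - fderiv ℝ (fun y => - Real.log (cv σ h y)) y) +
        (2 * σ) • (innerSL ℝ (x - y) : Vn n →L[ℝ] ℝ) := by
      rw [map_sub, smul_sub]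
      abel
    rw [e2, add_mul]
    refine (norm_add_le _ _).trans (add_le_add (hlip x y) ?_)
    rw [norm_smul, Real.norm_eq_abs, abs_of_pos (by positivity : (0:ℝ) < 2 * σ), innerSL_apply_norm]
  · intro x y
    have h2 := hZlc (1 / 2) (by norm_num) (by norm_num) x y
    have e0 : (1 - 1 / 2 : ℝ) • x + (1 / 2 : ℝ) • y = (1 / 2 : ℝ) • (x + y) := by
      rw [smul_add]; norm_num
    have e1 : (1 - 1 / 2 : ℝ) = 1 / 2 := by norm_num
    rw [e0, e1, ← Real.sqrt_eq_rpow, ← Real.sqrt_eq_rpow] at h2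
    have h3 : cv σ h x * cv σ h y ≤ cv σ h ((1 / 2 : ℝ) • (x + y)) ^ 2 := by
      have h4 : (Real.sqrt (cv σ h x) * Real.sqrt (cv σ h y)) ^ 2 ≤
          cv σ h ((1 / 2 : ℝ) • (x + y)) ^ 2 := by
        have : 0 ≤ Real.sqrt (cv σ h x) * Real.sqrt (cv σ h y) := by positivity
        gcongr
      rwa [mul_pow, Real.sq_sqrt (hZ x).le, Real.sq_sqrt (hZ y).le] at h4
    have h5 : Real.exp (-(σ * ‖x‖ ^ 2)) * Real.exp (-(σ * ‖y‖ ^ 2)) *
        Real.exp (2 * σ * ‖x - y‖ ^ 2 / 4) =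
        Real.exp (-(σ * ‖(1 / 2 : ℝ) • (x + y)‖ ^ 2)) ^ 2 := by
      rw [← Real.exp_add, ← Real.exp_add, ← Real.exp_nat_mul]
      congr 1
      have h6 := norm_sq_conv (1 / 2) x y
      rw [e0] at h6
      rw [h6]
      push_cast
      ring
    calc cv σ h x * Real.exp (-(σ * ‖x‖ ^ 2)) * (cv σ h y * Real.exp (-(σ * ‖y‖ ^ 2))) *
        Real.exp (2 * σ * ‖x - y‖ ^ 2 / 4)
        = (cv σ h x * cv σ h y) * (Real.exp (-(σ * ‖x‖ ^ 2)) * Real.exp (-(σ * ‖y‖ ^ 2)) *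
          Real.exp (2 * σ * ‖x - y‖ ^ 2 / 4)) := by ring
      _ = (cv σ h x * cv σ h y) * Real.exp (-(σ * ‖(1 / 2 : ℝ) • (x + y)‖ ^ 2)) ^ 2 := by rw [h5]
      _ ≤ cv σ h ((1 / 2 : ℝ) • (x + y)) ^ 2 *
          Real.exp (-(σ * ‖(1 / 2 : ℝ) • (x + y)‖ ^ 2)) ^ 2 := by gcongr
      _ = _ := by ring
  · intro x
    refine max_zero (Φ := fun y : Vn n => cv σ h y * Real.exp (-(σ * ‖y‖ ^ 2)))
      (hZd.continuous.mul (by fun_prop)) (fun y => mul_pos (hZ y) (Real.exp_pos _)) hlc' G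
      (fun g hg y => ?_) hfix x
    simp only
    rw [cv_comp h g (hG g hg) y, LinearIsometryEquiv.norm_map]

end Pool.Agent.Lib.MP_8d00da_gt.h97r
end

section

/-!
# Centring
-/

namespace Pool.Agent.Lib.MP_8d00da_gt.h97s

open MeasureTheory Set Filter
open Pool.Agent.Lib.MP_8d00da_gt.h25 Pool.Agent.Lib.MP_8d00da_gt.h42
open Pool.Agent.Lib.MP_8d00da_gt.h42s Pool.Agent.Lib.MP_8d00da_gt.h42o
open Pool.Agent.Lib.MP_8d00da_gt.h97r
open scoped Topology NNReal

set_option linter.unusedSectionVars false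

variable {F : Type*} [NormedAddCommGroup F] [InnerProductSpace ℝ F]
    [FiniteDimensional ℝ F] [MeasurableSpace F] [BorelSpace F]

variable {n : ℕ} {h : Vn n → ℝ} {k d : ℕ}

/-- The barycentre is fixed by all linear symmetries (`sym_int`; `∫ h = 1`). -/
theorem bary_fix (hpos : 0 < ∫ x, h x) (hi1 : ∀ θ : Vn n, Integrable fun x => inner ℝ θ x * h x)
    {m : Vn n} (hm : ∀ θ : Vn n, ∫ x, inner ℝ θ x * h x = inner ℝ θ m * ∫ x, h x)
    (g : Vn n ≃ₗ[ℝ] Vn n) (hg : ∀ x, h (g x) = h x) : g m = m := by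
  refine ext_inner_left ℝ fun v => ?_
  have h1 : inner ℝ v (g m) * ∫ x, h x = inner ℝ v m * ∫ x, h x := by
    rw [← hm v, ← sym_int g hg hpos (fun x => inner ℝ v x)]
    have h3 : ∀ x, inner ℝ v (g x) = inner ℝ (LinearMap.adjoint (g : Vn n →ₗ[ℝ] Vn n) v) x :=
      fun x => (LinearMap.adjoint_inner_left (g : Vn n →ₗ[ℝ] Vn n) x v).symm
    simp only [h3]
    rw [← hm]
  exact mul_right_cancel₀ hpos.ne' h1

/-- The barycentre exists. -/
theorem exists_bary (hpos : 0 < ∫ x, h x)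
    (hi1 : ∀ θ : Vn n, Integrable fun x => inner ℝ θ x * h x) :
    ∃ m : Vn n, ∀ θ : Vn n, ∫ x, inner ℝ θ x * h x = inner ℝ θ m * ∫ x, h x := by
  let e := stdOrthonormalBasis ℝ (Vn n)
  refine ⟨(∫ x, h x)⁻¹ • ∑ i, (∫ x, inner ℝ (e i) x * h x) • e i, fun θ => ?_⟩
  have h1 : ∀ x, inner ℝ θ x * h x = ∑ i, inner ℝ θ (e i) * (inner ℝ (e i) x * h x) := by
    intro x
    have h2 : inner ℝ θ x = ∑ i, inner ℝ θ (e i) * inner ℝ (e i) x :=
      (e.sum_inner_mul_inner θ x).symm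
    rw [h2, Finset.sum_mul]
    exact Finset.sum_congr rfl fun i _ => by ring
  simp only [h1]
  rw [integral_finsetSum _ fun i _ => (hi1 (e i)).const_mul _]
  simp only [inner_sum, inner_smul_right, integral_const_mul]
  rw [mul_comm (∫ x, h x)⁻¹, mul_assoc, inv_mul_cancel₀ hpos.ne', mul_one]
  exact Finset.sum_congr rfl fun i _ => by ring

/-- A linear symmetry of `h` fixes `m`, so it is a symmetry of the translated density. -/
theorem FixL.translate (hR : FixL k d h) {m : Vn n}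
    (hm : ∀ g : Vn n ≃ₗ[ℝ] Vn n, (∀ x, h (g x) = h x) → g m = m) :
    FixL k d fun x => h (x + m) := by
  obtain ⟨E, hE, hfix⟩ := hR
  refine ⟨E, hE, fun v hv => hfix v fun g hg hN hr => hv g (fun x => ?_) hN hr⟩
  have h1 : g x + m = g (x + m) := by rw [map_add, hm g hg]
  change h (g x + m) = h (x + m)
  rw [h1, hg]

theorem logconc_translate (hlc : LogConc h) (m : Vn n) : LogConc fun x => h (x + m) := by
  intro a ha0 ha1 x y
  have h1 := hlc a ha0 ha1 (x + m) (y + m)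
  have h2 : (1 - a) • (x + m) + a • (y + m) = (1 - a) • x + a • y + m := by
    rw [smul_add, smul_add]
    have h3 : (1 - a) • m + a • m = m := by rw [← add_smul]; simp
    calc (1 - a) • x + (1 - a) • m + (a • y + a • m) =
        (1 - a) • x + a • y + ((1 - a) • m + a • m) := by abel
      _ = _ := by rw [h3]
  rw [h2] at h1
  exact h1

end Pool.Agent.Lib.MP_8d00da_gt.h97s
end
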