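import Mathlib
import Pool.Agent.Lib.MP_8d00da_gt.h42u.UGauss
import Pool.Agent.Lib.MP_8d00da_gt.h97s.KDefs

/-!
# Gaussian regularisation
-/

namespace Pool.Agent.Lib.MP_8d00da_gt.h97s

open MeasureTheory Set Filter
open Pool.Agent.Lib.MP_8d00da_gt.h25 Pool.Agent.Lib.MP_8d00da_gt.h42
open Pool.Agent.Lib.MP_8d00da_gt.h42s Pool.Agent.Lib.MP_8d00da_gt.h42o
open Pool.Agent.Lib.MP_8d00da_gt.h97r
open scoped Topology NNReal

set_option linter.unusedSectionVars false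

variable {F : Type*} [NormedAddCommGroup F] [InnerProductSpace ℝ F]
    [FiniteDimensional ℝ F] [MeasurableSpace F] [BorelSpace F]

variable {n : ℕ} {h : Vn n → ℝ} {B : ℝ}

section aux

variable {F : Type*} [NormedAddCommGroup F] [InnerProductSpace ℝ F]

private lemma norm_sq_conv (a : ℝ) (p q : F) :
    ‖(1 - a) • p + a • q‖ ^ 2 = (1 - a) * ‖p‖ ^ 2 + a * ‖q‖ ^ 2 - a * (1 - a) * ‖p - q‖ ^ 2 := by
  rw [norm_add_sq_real, norm_sub_sq_real, norm_smul, norm_smul, inner_smul_left, inner_smul_right,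
    mul_pow, mul_pow, Real.norm_eq_abs, Real.norm_eq_abs, sq_abs, sq_abs]
  simp only [conj_trivial]
  ring

private lemma exp_norm_logconc {c : ℝ} (hc : 0 ≤ c) {a : ℝ} (h0 : 0 < a) (h1 : a < 1) (p q : F) :
    Real.exp (-(c * ‖p‖ ^ 2)) ^ (1 - a) * Real.exp (-(c * ‖q‖ ^ 2)) ^ a ≤
      Real.exp (-(c * ‖(1 - a) • p + a • q‖ ^ 2)) := by
  rw [← Real.exp_mul, ← Real.exp_mul, ← Real.exp_add, Real.exp_le_exp, norm_sq_conv]
  have h2 : 0 ≤ a * (1 - a) * ‖p - q‖ ^ 2 := by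
    have : 0 < 1 - a := by linarith
    positivity
  nlinarith [mul_nonneg hc h2]

end aux

private lemma ker_logconc {σ : ℝ} (hσ : 0 < σ) {a : ℝ} (h0 : 0 < a) (h1 : a < 1) (p q : Vn n) :
    h25.ker σ p ^ (1 - a) * h25.ker σ q ^ a ≤ h25.ker σ ((1 - a) • p + a • q) := by
  have e : ∀ z : Vn n, h25.ker σ z = Real.exp (-(1 / (2 * σ) * ‖z‖ ^ 2)) := by
    intro z
    unfold h25.ker
    congr 2
    ring
  rw [e, e, e]
  exact exp_norm_logconc (by positivity) h0 h1 p q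

private lemma log_convex {G : Vn n → ℝ} (hG : ∀ y, 0 < G y)
    (hlc : ∀ a : ℝ, 0 < a → a < 1 → ∀ x y, G ((1 - a) • x + a • y) ≤ G x ^ (1 - a) * G y ^ a) :
    ConvexOn ℝ univ fun y => Real.log (G y) := by
  refine ⟨convex_univ, fun x _ y _ a b ha hb hab => ?_⟩
  rcases eq_or_lt_of_le hb with rfl | hb'
  · have : a = 1 := by linarith
    subst this
    simp
  rcases eq_or_lt_of_le ha with rfl | ha'
  · have : b = 1 := by linarith
    subst this
    simp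
  have hb1 : b < 1 := by linarith
  have h1 := hlc b hb' hb1 x y
  have ea : 1 - b = a := by linarith
  rw [ea] at h1
  have h2 := Real.log_le_log (hG _) h1
  rw [Real.log_mul (Real.rpow_pos_of_pos (hG x) _).ne' (Real.rpow_pos_of_pos (hG y) _).ne',
    Real.log_rpow (hG x), Real.log_rpow (hG y)] at h2
  simpa only [smul_eq_mul] using h2

private lemma log_concave {G : Vn n → ℝ} (hG : ∀ y, 0 < G y) (hlc : LogConc G) :
    ConvexOn ℝ univ fun y => - Real.log (G y) := by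
  refine ⟨convex_univ, fun x _ y _ a b ha hb hab => ?_⟩
  rcases eq_or_lt_of_le hb with rfl | hb'
  · have : a = 1 := by linarith
    subst this
    simp
  rcases eq_or_lt_of_le ha with rfl | ha'
  · have : b = 1 := by linarith
    subst this
    simp
  have hb1 : b < 1 := by linarith
  have h1 := hlc b hb' hb1 x y
  have ea : 1 - b = a := by linarith
  rw [ea] at h1
  have h2 := Real.log_le_log (mul_pos (Real.rpow_pos_of_pos (hG x) _)
    (Real.rpow_pos_of_pos (hG y) _)) h1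
  rw [Real.log_mul (Real.rpow_pos_of_pos (hG x) _).ne' (Real.rpow_pos_of_pos (hG y) _).ne',
    Real.log_rpow (hG x), Real.log_rpow (hG y)] at h2
  simp only [smul_eq_mul]
  linarith

/-- the weight `z ↦ h z exp (⟨z, y⟩ / σ - ‖z‖² / (2 σ))` -/
private noncomputable def tw (σ : ℝ) (h : Vn n → ℝ) (y z : Vn n) : ℝ :=
  Real.exp (‖y‖ ^ 2 / (2 * σ)) * (h z * h25.ker σ (y - z))

private lemma tw_mid {σ : ℝ} (hh : ∀ z, 0 ≤ h z) {a : ℝ} (h0 : 0 < a) (h1 : a < 1)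
    (x y z : Vn n) : tw σ h ((1 - a) • x + a • y) z = tw σ h x z ^ (1 - a) * tw σ h y z ^ a := by
  have e : ∀ y : Vn n, tw σ h y z = h z * Real.exp (‖y‖ ^ 2 / (2 * σ) - ‖y - z‖ ^ 2 / (2 * σ)) := by
    intro y
    unfold tw h25.ker
    rw [show ‖y‖ ^ 2 / (2 * σ) - ‖y - z‖ ^ 2 / (2 * σ) =
      ‖y‖ ^ 2 / (2 * σ) + -(‖y - z‖ ^ 2 / (2 * σ)) from sub_eq_add_neg _ _, Real.exp_add]
    ring
  have e2 : h z = h z ^ (1 - a) * h z ^ a := by
    rcases eq_or_lt_of_le (hh z) with hz | hz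
    · rw [← hz, Real.zero_rpow (by linarith), Real.zero_rpow h0.ne', mul_zero]
    · rw [← Real.rpow_add hz, sub_add_cancel, Real.rpow_one]
  rw [e, e, e, Real.mul_rpow (hh z) (Real.exp_pos _).le, Real.mul_rpow (hh z) (Real.exp_pos _).le,
    ← Real.exp_mul, ← Real.exp_mul]
  have e3 : h z ^ (1 - a) * Real.exp ((‖x‖ ^ 2 / (2 * σ) - ‖x - z‖ ^ 2 / (2 * σ)) * (1 - a)) *
      (h z ^ a * Real.exp ((‖y‖ ^ 2 / (2 * σ) - ‖y - z‖ ^ 2 / (2 * σ)) * a)) =
      (h z ^ (1 - a) * h z ^ a) * (Real.exp ((‖x‖ ^ 2 / (2 * σ) - ‖x - z‖ ^ 2 / (2 * σ)) * (1 - a)) *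
      Real.exp ((‖y‖ ^ 2 / (2 * σ) - ‖y - z‖ ^ 2 / (2 * σ)) * a)) := by ring
  rw [e3, ← e2, ← Real.exp_add]
  congr 2
  have e4 : (1 - a) • x + a • y - z = (1 - a) • (x - z) + a • (y - z) := by
    rw [smul_sub, smul_sub, sub_smul, sub_smul, one_smul, one_smul]
    abel
  rw [e4, norm_sq_conv, norm_sq_conv]
  have e5 : x - z - (y - z) = x - y := by abel
  rw [e5]
  ring

private lemma G_convex (H : Wt h B) {σ : ℝ} (hσ : 0 < σ) {a : ℝ} (h0 : 0 < a) (h1 : a < 1)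
    (x y : Vn n) :
    Real.exp (‖(1 - a) • x + a • y‖ ^ 2 / (2 * σ)) * cv σ h ((1 - a) • x + a • y) ≤
      (Real.exp (‖x‖ ^ 2 / (2 * σ)) * cv σ h x) ^ (1 - a) *
      (Real.exp (‖y‖ ^ 2 / (2 * σ)) * cv σ h y) ^ a := by
  have h1a : 0 < 1 - a := by linarith
  have hi : ∀ y : Vn n, Integrable fun z => tw σ h y z := fun y =>
    (cv_integrable hσ H.meas H.abs_le y).const_mul _
  have hI : ∀ y : Vn n, ∫ z, tw σ h y z = Real.exp (‖y‖ ^ 2 / (2 * σ)) * cv σ h y := by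
    intro y
    unfold tw cv
    rw [integral_const_mul]
  have hp : ∀ y : Vn n, 0 < Real.exp (‖y‖ ^ 2 / (2 * σ)) * cv σ h y := fun y =>
    mul_pos (Real.exp_pos _) (H.Z_pos hσ y)
  have hn : ∀ y z : Vn n, 0 ≤ tw σ h y z := fun y z =>
    mul_nonneg (Real.exp_pos _).le (mul_nonneg (H.nonneg z) (ker_pos _).le)
  set A := Real.exp (‖x‖ ^ 2 / (2 * σ)) * cv σ h x with hA
  set C := Real.exp (‖y‖ ^ 2 / (2 * σ)) * cv σ h y with hC
  have hA0 : 0 < A := hp x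
  have hC0 : 0 < C := hp y
  rw [← hI]
  have hpt : ∀ z, tw σ h ((1 - a) • x + a • y) z ≤
      A ^ (1 - a) * C ^ a * ((1 - a) / A * tw σ h x z + a / C * tw σ h y z) := by
    intro z
    rw [tw_mid H.nonneg h0 h1]
    have h3 := Real.geom_mean_le_arith_mean2_weighted h1a.le h0.le
      (div_nonneg (hn x z) hA0.le) (div_nonneg (hn y z) hC0.le) (by ring)
    rw [Real.div_rpow (hn x z) hA0.le, Real.div_rpow (hn y z) hC0.le] at h3
    have hA1 := Real.rpow_pos_of_pos hA0 (1 - a)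
    have hC1 := Real.rpow_pos_of_pos hC0 a
    calc tw σ h x z ^ (1 - a) * tw σ h y z ^ a
        = A ^ (1 - a) * C ^ a *
          (tw σ h x z ^ (1 - a) / A ^ (1 - a) * (tw σ h y z ^ a / C ^ a)) := by
          field_simp
      _ ≤ A ^ (1 - a) * C ^ a * ((1 - a) * (tw σ h x z / A) + a * (tw σ h y z / C)) := by
          gcongr
      _ = _ := by ring
  have hi2 : Integrable fun z =>
      A ^ (1 - a) * C ^ a * ((1 - a) / A * tw σ h x z + a / C * tw σ h y z) :=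
    (((hi x).const_mul _).add ((hi y).const_mul _)).const_mul _
  refine (integral_mono (hi _) hi2 hpt).trans (le_of_eq ?_)
  rw [integral_const_mul, integral_add ((hi x).const_mul _) ((hi y).const_mul _),
    integral_const_mul, integral_const_mul, hI, hI, ← hA, ← hC, div_mul_cancel₀ _ hA0.ne',
    div_mul_cancel₀ _ hC0.ne']
  ring

/-- Copy of `h97r/RGauss.lean` (`gauss_GW`) without the statement on the maximum. -/
theorem gauss_GV (H : Wt h B) (hlc : LogConc h) {σ : ℝ} (hσ : 0 < σ) :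
    GV (2 * σ) (1 / σ + 2 * σ) fun y => cv σ h y * Real.exp (-(σ * ‖y‖ ^ 2)) := by
  have hZ : ∀ y, 0 < cv σ h y := fun y => H.Z_pos hσ y
  have hZd : Differentiable ℝ (cv σ h) := cv_differentiable hσ H.meas H.abs_le
  have hZlc := h42u.cv_logconc H hlc hσ
  have hd : Differentiable ℝ fun y => - Real.log (cv σ h y) :=
    (hZd.log fun y => (hZ y).ne').neg
  have hc1 : ConvexOn ℝ univ fun y => - Real.log (cv σ h y) := log_concave hZ hZlc
  have hc2 : ConvexOn ℝ univ fun y : Vn n => ‖y‖ ^ 2 / (2 * σ) - - Real.log (cv σ h y) := by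
    have h1 := log_convex (G := fun y : Vn n => Real.exp (‖y‖ ^ 2 / (2 * σ)) * cv σ h y)
      (fun y => mul_pos (Real.exp_pos _) (hZ y)) (fun a h0 h1 x y => G_convex H hσ h0 h1 x y)
    have e : (fun y : Vn n => Real.log (Real.exp (‖y‖ ^ 2 / (2 * σ)) * cv σ h y)) =
        fun y : Vn n => ‖y‖ ^ 2 / (2 * σ) - - Real.log (cv σ h y) := by
      funext y
      rw [Real.log_mul (Real.exp_pos _).ne' (hZ y).ne', Real.log_exp]
      ring
    rwa [e] at h1
  have hlip := h42u.grad_lip hd hc1 hσ hc2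
  have hN : ∀ x : Vn n, HasFDerivAt (fun y : Vn n => σ * ‖y‖ ^ 2)
      ((2 * σ) • (innerSL ℝ x : Vn n →L[ℝ] ℝ)) x := by
    intro x
    have h1 := ((hasStrictFDerivAt_norm_sq x).hasFDerivAt).const_mul σ
    have e : σ • (2 : ℕ) • (innerSL ℝ x : Vn n →L[ℝ] ℝ) =
        (2 * σ) • (innerSL ℝ x : Vn n →L[ℝ] ℝ) := by
      rw [two_nsmul, ← two_smul ℝ (innerSL ℝ x : Vn n →L[ℝ] ℝ), smul_smul, mul_comm σ 2]
    rw [← e]
    exact h1
  have hlc' : LogConc fun y : Vn n => cv σ h y * Real.exp (-(σ * ‖y‖ ^ 2)) := by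
    intro a h0 h1 x y
    have h2 := hZlc a h0 h1 x y
    have h3 := exp_norm_logconc (F := Vn n) hσ.le h0 h1 x y
    rw [Real.mul_rpow (hZ x).le (Real.exp_pos _).le, Real.mul_rpow (hZ y).le (Real.exp_pos _).le]
    calc cv σ h x ^ (1 - a) * Real.exp (-(σ * ‖x‖ ^ 2)) ^ (1 - a) *
        (cv σ h y ^ a * Real.exp (-(σ * ‖y‖ ^ 2)) ^ a)
        = (cv σ h x ^ (1 - a) * cv σ h y ^ a) *
          (Real.exp (-(σ * ‖x‖ ^ 2)) ^ (1 - a) * Real.exp (-(σ * ‖y‖ ^ 2)) ^ a) := by ring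
      _ ≤ _ := mul_le_mul h2 h3 (by positivity) (hZ _).le
  refine ⟨by positivity, by positivity,
    ⟨fun y => - Real.log (cv σ h y) + σ * ‖y‖ ^ 2, ?_, ?_, ?_⟩, hlc', ?_⟩
  · intro x
    rw [neg_add, neg_neg, Real.exp_add, Real.exp_log (hZ x)]
  · exact hd.add fun x => (hN x).differentiableAt
  · intro x y
    have e : ∀ x : Vn n, fderiv ℝ (fun y => - Real.log (cv σ h y) + σ * ‖y‖ ^ 2) x =
        fderiv ℝ (fun y => - Real.log (cv σ h y)) x + (2 * σ) • (innerSL ℝ x : Vn n →L[ℝ] ℝ) := by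
      intro x
      exact ((hd x).hasFDerivAt.add (hN x)).fderiv
    rw [e, e]
    have e2 : fderiv ℝ (fun y => - Real.log (cv σ h y)) x + (2 * σ) • (innerSL ℝ x : Vn n →L[ℝ] ℝ) -
        (fderiv ℝ (fun y => - Real.log (cv σ h y)) y + (2 * σ) • (innerSL ℝ y : Vn n →L[ℝ] ℝ)) =
        (fderiv ℝ (fun y => - Real.log (cv σ h y)) x - fderiv ℝ (fun y => - Real.log (cv σ h y)) y) +
        (2 * σ) • (innerSL ℝ (x - y) : Vn n →L[ℝ] ℝ) := by
      rw [map_sub, smul_sub]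
      abel
    rw [e2, add_mul]
    refine (norm_add_le _ _).trans (add_le_add (hlip x y) ?_)
    rw [norm_smul, Real.norm_eq_abs, abs_of_pos (by positivity : (0:ℝ) < 2 * σ), innerSL_apply_norm]
  · intro x y
    have h2 := hZlc (1 / 2) (by norm_num) (by norm_num) x y
    have e0 : (1 - 1 / 2 : ℝ) • x + (1 / 2 : ℝ) • y = (1 / 2 : ℝ) • (x + y) := by
      rw [smul_add]; norm_num
    have e1 : (1 - 1 / 2 : ℝ) = 1 / 2 := by norm_num
    rw [e0, e1, ← Real.sqrt_eq_rpow, ← Real.sqrt_eq_rpow] at h2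
    have h3 : cv σ h x * cv σ h y ≤ cv σ h ((1 / 2 : ℝ) • (x + y)) ^ 2 := by
      have h4 : (Real.sqrt (cv σ h x) * Real.sqrt (cv σ h y)) ^ 2 ≤
          cv σ h ((1 / 2 : ℝ) • (x + y)) ^ 2 := by
        have : 0 ≤ Real.sqrt (cv σ h x) * Real.sqrt (cv σ h y) := by positivity
        gcongr
      rwa [mul_pow, Real.sq_sqrt (hZ x).le, Real.sq_sqrt (hZ y).le] at h4
    have h5 : Real.exp (-(σ * ‖x‖ ^ 2)) * Real.exp (-(σ * ‖y‖ ^ 2)) *
        Real.exp (2 * σ * ‖x - y‖ ^ 2 / 4) =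
        Real.exp (-(σ * ‖(1 / 2 : ℝ) • (x + y)‖ ^ 2)) ^ 2 := by
      rw [← Real.exp_add, ← Real.exp_add, ← Real.exp_nat_mul]
      congr 1
      have h6 := norm_sq_conv (1 / 2) x y
      rw [e0] at h6
      rw [h6]
      push_cast
      ring
    calc cv σ h x * Real.exp (-(σ * ‖x‖ ^ 2)) * (cv σ h y * Real.exp (-(σ * ‖y‖ ^ 2))) *
        Real.exp (2 * σ * ‖x - y‖ ^ 2 / 4)
        = (cv σ h x * cv σ h y) * (Real.exp (-(σ * ‖x‖ ^ 2)) * Real.exp (-(σ * ‖y‖ ^ 2)) *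
          Real.exp (2 * σ * ‖x - y‖ ^ 2 / 4)) := by ring
      _ = (cv σ h x * cv σ h y) * Real.exp (-(σ * ‖(1 / 2 : ℝ) • (x + y)‖ ^ 2)) ^ 2 := by rw [h5]
      _ ≤ cv σ h ((1 / 2 : ℝ) • (x + y)) ^ 2 *
          Real.exp (-(σ * ‖(1 / 2 : ℝ) • (x + y)‖ ^ 2)) ^ 2 := by gcongr
      _ = _ := by ring

end Pool.Agent.Lib.MP_8d00da_gt.h97s
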