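import Mathlib
import Pool.Agent.Lib.MP_8d00da_gt.h97r.RSymIso
import Pool.Agent.Lib.MP_8d00da_gt.h97s.KDefs

/-!
# Linear changes of variables and the common fixed space
-/

namespace Pool.Agent.Lib.MP_8d00da_gt.h97s

open MeasureTheory Set Filter
open Pool.Agent.Lib.MP_8d00da_gt.h25 Pool.Agent.Lib.MP_8d00da_gt.h42
open Pool.Agent.Lib.MP_8d00da_gt.h42s Pool.Agent.Lib.MP_8d00da_gt.h42o
open Pool.Agent.Lib.MP_8d00da_gt.h97r
open scoped Topology NNReal

set_option linter.unusedSectionVars false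

variable {F : Type*} [NormedAddCommGroup F] [InnerProductSpace ℝ F]
    [FiniteDimensional ℝ F] [MeasurableSpace F] [BorelSpace F]

variable {δ L : ℝ} {h : F → ℝ} {k d : ℕ}

/-- Copy of `GW.comp_lin` in `h97r/RLin.lean`. -/
theorem GV.comp_lin (H : GV δ L h) (P : F ≃L[ℝ] F) {c : ℝ} (hc : 0 < c) :
    ∃ δ' L' : ℝ, GV δ' L' fun x => c * h (P x) := by

  have hδ := H.dpos
  have hL := H.Lnn
  have hPos := H.pos
  set A : F →L[ℝ] F := (P : F →L[ℝ] F) with hA
  set B : F →L[ℝ] F := (P.symm : F →L[ℝ] F) with hB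
  refine ⟨δ / (‖B‖ ^ 2 + 1), ‖A‖ ^ 2 * L, ?_⟩
  refine ⟨by positivity, by positivity, ?_, ?_, ?_⟩
  · obtain ⟨W, hW, hd, hLip⟩ := H.reg
    have hder : ∀ x, HasFDerivAt (fun x => W (P x) - Real.log c) ((fderiv ℝ W (P x)).comp A) x :=
      fun x => by
        have h1 : HasFDerivAt (fun x => W (P x)) ((fderiv ℝ W (P x)).comp A) x :=
          (hd (P x)).hasFDerivAt.comp x A.hasFDerivAt
        exact h1.sub_const _
    refine ⟨fun x => W (P x) - Real.log c, fun x => ?_, fun x => (hder x).differentiableAt,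
      fun x y => ?_⟩
    · change c * h (P x) = Real.exp (-(W (P x) - Real.log c))
      rw [neg_sub, Real.exp_sub, Real.exp_log hc, hW, Real.exp_neg]
      rfl
    · rw [(hder x).fderiv, (hder y).fderiv, ← ContinuousLinearMap.sub_comp]
      refine (ContinuousLinearMap.opNorm_comp_le _ _).trans ?_
      have h2 : ‖P x - P y‖ ≤ ‖A‖ * ‖x - y‖ := by
        rw [← map_sub]
        exact A.le_opNorm (x - y)
      calc ‖fderiv ℝ W (P x) - fderiv ℝ W (P y)‖ * ‖A‖ ≤ (L * ‖P x - P y‖) * ‖A‖ :=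
            mul_le_mul_of_nonneg_right (hLip _ _) (norm_nonneg _)
        _ ≤ (L * (‖A‖ * ‖x - y‖)) * ‖A‖ := by gcongr
        _ = ‖A‖ ^ 2 * L * ‖x - y‖ := by ring
  · intro a ha0 ha1 x y
    have h1 := H.lc a ha0 ha1 (P x) (P y)
    have h2 : (c * h (P x)) ^ (1 - a) * (c * h (P y)) ^ a =
        c * (h (P x) ^ (1 - a) * h (P y) ^ a) := by
      rw [Real.mul_rpow hc.le (hPos _).le, Real.mul_rpow hc.le (hPos _).le]
      have h3 : c ^ (1 - a) * c ^ a = c := by
        rw [← Real.rpow_add hc, sub_add_cancel, Real.rpow_one]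
      calc c ^ (1 - a) * h (P x) ^ (1 - a) * (c ^ a * h (P y) ^ a) =
            (c ^ (1 - a) * c ^ a) * (h (P x) ^ (1 - a) * h (P y) ^ a) := by ring
        _ = _ := by rw [h3]
    change (c * h (P x)) ^ (1 - a) * (c * h (P y)) ^ a ≤ c * h (P ((1 - a) • x + a • y))
    rw [h2, map_add, map_smul, map_smul]
    exact mul_le_mul_of_nonneg_left h1 hc.le
  · intro x y
    have h1 := H.smid (P x) (P y)
    have h2 : δ / (‖B‖ ^ 2 + 1) * ‖x - y‖ ^ 2 / 4 ≤ δ * ‖P x - P y‖ ^ 2 / 4 := by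
      have h3 : ‖x - y‖ ≤ ‖B‖ * ‖P x - P y‖ := by
        have h4 := B.le_opNorm (P x - P y)
        have h5 : B (P x - P y) = x - y := by
          rw [← map_sub]
          exact P.symm_apply_apply (x - y)
        rwa [h5] at h4
      have h6 : ‖x - y‖ ^ 2 ≤ (‖B‖ ^ 2 + 1) * ‖P x - P y‖ ^ 2 := by
        calc ‖x - y‖ ^ 2 ≤ (‖B‖ * ‖P x - P y‖) ^ 2 := by gcongr
          _ = ‖B‖ ^ 2 * ‖P x - P y‖ ^ 2 := by ring
          _ ≤ (‖B‖ ^ 2 + 1) * ‖P x - P y‖ ^ 2 := by gcongr; linarith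
      have h7 : 0 < ‖B‖ ^ 2 + 1 := by positivity
      have h8 : δ / (‖B‖ ^ 2 + 1) * ‖x - y‖ ^ 2 ≤ δ * ‖P x - P y‖ ^ 2 := by
        rw [div_mul_eq_mul_div, div_le_iff₀ h7]
        calc δ * ‖x - y‖ ^ 2 ≤ δ * ((‖B‖ ^ 2 + 1) * ‖P x - P y‖ ^ 2) := by gcongr
          _ = δ * ‖P x - P y‖ ^ 2 * (‖B‖ ^ 2 + 1) := by ring
      linarith
    have h9 := Real.exp_le_exp.mpr h2
    have hx := hPos (P x)
    have hy := hPos (P y)
    change c * h (P x) * (c * h (P y)) * Real.exp (δ / (‖B‖ ^ 2 + 1) * ‖x - y‖ ^ 2 / 4) ≤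
      (c * h (P ((1 / 2 : ℝ) • (x + y)))) ^ 2
    rw [map_smul, map_add]
    calc c * h (P x) * (c * h (P y)) * Real.exp (δ / (‖B‖ ^ 2 + 1) * ‖x - y‖ ^ 2 / 4)
        ≤ c * h (P x) * (c * h (P y)) * Real.exp (δ * ‖P x - P y‖ ^ 2 / 4) := by gcongr
      _ = c ^ 2 * (h (P x) * h (P y) * Real.exp (δ * ‖P x - P y‖ ^ 2 / 4)) := by ring
      _ ≤ c ^ 2 * h ((1 / 2 : ℝ) • (P x + P y)) ^ 2 := by gcongr
      _ = (c * h ((1 / 2 : ℝ) • (P x + P y))) ^ 2 := by ring

/-- See `RefL.comp_lin` in `h97r/RLin.lean`; the subspace is `E.comap P`. -/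
theorem FixL.comp_lin (hR : FixL k d h) (P : F ≃L[ℝ] F) (c : ℝ) :
    FixL k d fun x => c * h (P x) := by
  obtain ⟨E, hE, hfix⟩ := hR
  refine ⟨E.comap (P.toLinearEquiv : F →ₗ[ℝ] F), ?_, ?_⟩
  · have h1 : E.comap (P.toLinearEquiv : F →ₗ[ℝ] F) =
        E.map (P.toLinearEquiv.symm : F →ₗ[ℝ] F) := (Submodule.map_equiv_eq_comap_symm
          P.toLinearEquiv.symm E).symm
    rw [h1]
    exact (LinearEquiv.finrank_map_eq P.toLinearEquiv.symm E).le.trans hE
  intro v hv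
  change P v ∈ E
  apply hfix
  rintro g hg ⟨N, hN, hper⟩ hrank
  set Q : F ≃ₗ[ℝ] F := P.toLinearEquiv with hQ
  have hQa : ∀ x, Q x = P x := fun x => rfl
  set g' : F ≃ₗ[ℝ] F := Q.trans (g.trans Q.symm) with hg'
  have hga : ∀ x, g' x = Q.symm (g (Q x)) := fun x => rfl
  have hpow : ∀ (m : ℕ) (x : F), (g' ^ m) x = Q.symm ((g ^ m) (Q x)) := by
    intro m
    induction m with
    | zero =>
      intro x
      simp
    | succ m ih =>
      intro x
      rw [pow_succ, pow_succ, LinearEquiv.mul_apply, LinearEquiv.mul_apply, ih, hga,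
        LinearEquiv.apply_symm_apply]
  have h2 := hv g' (fun x => by
      change c * h (P (g' x)) = c * h (P x)
      rw [hga, ← hQa, LinearEquiv.apply_symm_apply, hg, hQa])
    ⟨N, hN, fun x => by rw [hpow, hper, LinearEquiv.symm_apply_apply]⟩ (by
      refine le_of_eq_of_le ?_ hrank
      have h3 : (g' : F →ₗ[ℝ] F) - LinearMap.id =
          (Q.symm : F →ₗ[ℝ] F).comp (((g : F →ₗ[ℝ] F) - LinearMap.id).comp (Q : F →ₗ[ℝ] F)) := by
        ext x
        simp [hga]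
      have h4 : LinearMap.range ((Q.symm : F →ₗ[ℝ] F).comp
          (((g : F →ₗ[ℝ] F) - LinearMap.id).comp (Q : F →ₗ[ℝ] F))) =
          (LinearMap.range ((g : F →ₗ[ℝ] F) - LinearMap.id)).map (Q.symm : F →ₗ[ℝ] F) := by
        rw [LinearMap.range_comp, LinearMap.range_comp, LinearEquiv.range, Submodule.map_top]
      rw [h3, h4]
      exact LinearEquiv.finrank_map_eq Q.symm _)
  have h5 := congrArg Q h2
  rwa [hga, LinearEquiv.apply_symm_apply] at h5

/-- Let `V` be the subspace of the vectors fixed by all `g ∈ Ss h k`. Linear symmetries of `h` are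
isometries (`sym_iso`), so `V ≤ E` and `finrank V ≤ d`. Take an orthonormal basis adapted to
`Vᗮ` and `V` (`stdOrthonormalBasis`; see `h97r/RSym.lean`, `exists_basis`, for such a
construction). -/
theorem exists_ad (hR : FixL k d h) (hiso : ∀ θ : F, ∫ x, (inner ℝ θ x) ^ 2 * h x = ‖θ‖ ^ 2)
    (hpos : 0 < ∫ x, h x) : ∃ (m j : ℕ) (b : OrthonormalBasis (Fin m ⊕ Fin j) ℝ F), j ≤ d ∧
      Ad h k b := by
  classical
  obtain ⟨E, hE, hfix⟩ := hR
  let V : Submodule ℝ F :=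
    { carrier := {v | ∀ g ∈ Ss h k, g v = v}
      zero_mem' := fun g _ => map_zero g
      add_mem' := fun {a b} ha hb g hg => by rw [map_add, ha g hg, hb g hg]
      smul_mem' := fun c v hv g hg => by rw [map_smul, hv g hg] }
  have hV : ∀ v, v ∈ V ↔ ∀ g ∈ Ss h k, g v = v := fun v => Iff.rfl
  have hVE : V ≤ E := by
    intro v hv
    refine hfix v fun g hg hN hr => ?_
    exact (hV v).1 hv ⟨g, sym_iso hiso hpos g hg⟩ ⟨fun x => hg x, by
      obtain ⟨N, hN0, hN1⟩ := hN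
      refine ⟨N, hN0, fun x => ?_⟩
      rw [← hN1 x]
      have : ∀ (M : ℕ) (x : F), (((⟨g, sym_iso hiso hpos g hg⟩ : F ≃ₗᵢ[ℝ] F)) ^ M) x =
          (g ^ M) x := by
        intro M
        induction M with
        | zero => intro x; simp
        | succ M ih =>
          intro x
          rw [pow_succ, pow_succ, LinearEquiv.mul_apply]
          exact ih (g x)
      rw [this, hN1, hN1], hr⟩
  set R : Submodule ℝ F := Vᗮ with hR
  have hRR : Rᗮ = V := Submodule.orthogonal_orthogonal V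
  refine ⟨Module.finrank ℝ R, Module.finrank ℝ Rᗮ,
    ((stdOrthonormalBasis ℝ R).prod (stdOrthonormalBasis ℝ Rᗮ)).map
      (R.orthogonalDecomposition).symm, ?_, ?_, ?_⟩
  · rw [hRR]
    exact (Submodule.finrank_mono hVE).trans hE
  · intro g hg l
    have h1 : (((stdOrthonormalBasis ℝ R).prod (stdOrthonormalBasis ℝ Rᗮ)).map
      (R.orthogonalDecomposition).symm) (Sum.inr l) = ((stdOrthonormalBasis ℝ Rᗮ) l : F) := by
      simp [OrthonormalBasis.prod_apply]
    rw [h1]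
    have h2 : ((stdOrthonormalBasis ℝ Rᗮ) l : F) ∈ Rᗮ := Submodule.coe_mem _
    exact (hRR.le h2) g hg
  · intro v hv i
    have h1 : (((stdOrthonormalBasis ℝ R).prod (stdOrthonormalBasis ℝ Rᗮ)).map
      (R.orthogonalDecomposition).symm) (Sum.inl i) = ((stdOrthonormalBasis ℝ R) i : F) := by
      simp [OrthonormalBasis.prod_apply]
    rw [h1]
    have h2 : ((stdOrthonormalBasis ℝ R) i : F) ∈ R := Submodule.coe_mem _
    have h3 : v ∈ V := hv
    rw [real_inner_comm]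
    exact (Submodule.mem_orthogonal V _).1 h2 v h3

end Pool.Agent.Lib.MP_8d00da_gt.h97s
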