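import Mathlib
import Pool.Agent.Lib.MP_8d00da_gt.h97s.GDefs

namespace Pool.Agent.Lib.MP_8d00da_gt.h97r
end Pool.Agent.Lib.MP_8d00da_gt.h97r


/-!
# Medians
-/

namespace Pool.Agent.Lib.MP_8d00da_gt.h97s

open MeasureTheory Set Filter
open Pool.Agent.Lib.MP_8d00da_gt.h25 Pool.Agent.Lib.MP_8d00da_gt.h42
open Pool.Agent.Lib.MP_8d00da_gt.h42s Pool.Agent.Lib.MP_8d00da_gt.h42o
open Pool.Agent.Lib.MP_8d00da_gt.h97r
open scoped Topology NNReal

set_option linter.unusedSectionVars false

variable {F : Type*} [NormedAddCommGroup F] [InnerProductSpace ℝ F]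
    [FiniteDimensional ℝ F] [MeasurableSpace F] [BorelSpace F]

variable {B : ℝ} {h : F → ℝ}

/-- Existence of a median. Take `m = sInf {c | ∫ x in {x | c < f x}, h x ≤ 1/2}` (the set is
nonempty and bounded below because `f` is bounded) and use the continuity of the measure along
monotone sequences of sets. -/
theorem exists_median (h0 : ∀ x, 0 ≤ h x) (hi : Integrable h) (hm : ∫ x, h x = 1) {f : F → ℝ}
    (hf : BL f) : ∃ m : ℝ, ∫ x in {x | m < f x}, h x ≤ 1 / 2 ∧ ∫ x in {x | f x < m}, h x ≤ 1 / 2 := by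
  have hfm : Measurable f := bl_meas hf
  obtain ⟨-, A, hA⟩ := hf
  set G : ℝ → ℝ := fun c => ∫ x in {x | c < f x}, h x with hG
  have hms : ∀ c : ℝ, MeasurableSet {x | c < f x} := fun c => measurableSet_lt measurable_const hfm
  have hms2 : ∀ c : ℝ, MeasurableSet {x | f x ≤ c} := fun c => measurableSet_le hfm measurable_const
  have hanti : ∀ a b : ℝ, a ≤ b → G b ≤ G a := by
    intro a b hab
    apply setIntegral_mono_set hi.integrableOn (ae_of_all _ fun x => h0 x)
    exact (show {x | b < f x} ⊆ {x | a < f x} from fun x hx => lt_of_le_of_lt hab hx).eventuallyLE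
  have hcompl : ∀ c : ℝ, G c + ∫ x in {x | f x ≤ c}, h x = 1 := by
    intro c
    have e1 := integral_add_compl (hms c) hi
    have e2 : {x | c < f x}ᶜ = {x | f x ≤ c} := by
      ext x
      simp
    rw [e2, hm] at e1
    exact e1
  let S : Set ℝ := {c | G c ≤ 1 / 2}
  have hSne : A ∈ S := by
    show ∫ x in {x | A < f x}, h x ≤ 1 / 2
    have e1 : {x | A < f x} = ∅ := by
      ext x
      simp only [mem_ofPred_eq, mem_empty_iff_false, iff_false, not_lt]
      exact (le_abs_self _).trans (hA x)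
    rw [e1]
    simp
  have hSb : BddBelow S := by
    refine ⟨-A - 1, fun c hc => ?_⟩
    by_contra hlt
    push Not at hlt
    have e1 : {x | c < f x} = univ := by
      ext x
      simp only [mem_ofPred_eq, mem_univ, iff_true]
      have := (abs_le.mp (hA x)).1
      linarith
    have hc' : ∫ x in {x | c < f x}, h x ≤ 1 / 2 := hc
    rw [e1, Measure.restrict_univ, hm] at hc'
    norm_num at hc'
  set m : ℝ := sInf S with hmdef
  have hup : ∀ c, m < c → G c ≤ 1 / 2 := by
    intro c hc
    obtain ⟨c', hc', hlt⟩ := exists_lt_of_csInf_lt ⟨A, hSne⟩ hc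
    exact (hanti c' c hlt.le).trans hc'
  have hdn : ∀ c, c < m → 1 / 2 < G c := by
    intro c hc
    by_contra hle
    push Not at hle
    exact absurd (csInf_le hSb (show c ∈ S from hle)) (not_le.mpr hc)
  refine ⟨m, ?_, ?_⟩
  · have e1 : {x | m < f x} = ⋃ n : ℕ, {x | m + 1 / ((n : ℝ) + 1) < f x} := by
      ext x
      simp only [mem_ofPred_eq, mem_iUnion]
      constructor
      · intro hx
        obtain ⟨n, hn⟩ := exists_nat_one_div_lt (sub_pos.mpr hx)
        exact ⟨n, by linarith⟩
      · rintro ⟨n, hn⟩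
        have : (0 : ℝ) < 1 / ((n : ℝ) + 1) := Nat.one_div_pos_of_nat
        linarith
    have e2 := tendsto_setIntegral_of_monotone (f := h) (μ := volume)
      (s := fun n : ℕ => {x | m + 1 / ((n : ℝ) + 1) < f x}) (fun n => hms _) (by
        intro a b hab x hx
        have : (1 : ℝ) / ((b : ℝ) + 1) ≤ 1 / ((a : ℝ) + 1) := Nat.one_div_le_one_div hab
        have hx' : m + 1 / ((a : ℝ) + 1) < f x := hx
        show m + 1 / ((b : ℝ) + 1) < f x
        linarith) hi.integrableOn
    rw [← e1] at e2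
    refine le_of_tendsto' e2 fun n => ?_
    apply hup
    have : (0 : ℝ) < 1 / ((n : ℝ) + 1) := Nat.one_div_pos_of_nat
    linarith
  · have e1 : {x | f x < m} = ⋃ n : ℕ, {x | f x ≤ m - 1 / ((n : ℝ) + 1)} := by
      ext x
      simp only [mem_ofPred_eq, mem_iUnion]
      constructor
      · intro hx
        obtain ⟨n, hn⟩ := exists_nat_one_div_lt (sub_pos.mpr hx)
        exact ⟨n, by linarith⟩
      · rintro ⟨n, hn⟩
        have : (0 : ℝ) < 1 / ((n : ℝ) + 1) := Nat.one_div_pos_of_nat
        linarith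
    have e2 := tendsto_setIntegral_of_monotone (f := h) (μ := volume)
      (s := fun n : ℕ => {x | f x ≤ m - 1 / ((n : ℝ) + 1)}) (fun n => hms2 _) (by
        intro a b hab x hx
        have : (1 : ℝ) / ((b : ℝ) + 1) ≤ 1 / ((a : ℝ) + 1) := Nat.one_div_le_one_div hab
        have hx' : f x ≤ m - 1 / ((a : ℝ) + 1) := hx
        show f x ≤ m - 1 / ((b : ℝ) + 1)
        linarith) hi.integrableOn
    rw [← e1] at e2
    refine le_of_tendsto' e2 fun n => ?_
    have e3 := hcompl (m - 1 / ((n : ℝ) + 1))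
    have e4 := hdn (m - 1 / ((n : ℝ) + 1)) (by
      have : (0 : ℝ) < 1 / ((n : ℝ) + 1) := Nat.one_div_pos_of_nat
      linarith)
    linarith

end Pool.Agent.Lib.MP_8d00da_gt.h97s
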