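import Mathlib
import Pool.Agent.Lib.MP_8d00da_gt.h97s.GDefs

namespace Pool.Agent.Lib.MP_8d00da_gt.h97r
end Pool.Agent.Lib.MP_8d00da_gt.h97r


/-!
# Dyadic levels
-/

namespace Pool.Agent.Lib.MP_8d00da_gt.h97s

open MeasureTheory Set Filter
open Pool.Agent.Lib.MP_8d00da_gt.h25 Pool.Agent.Lib.MP_8d00da_gt.h42
open Pool.Agent.Lib.MP_8d00da_gt.h42s Pool.Agent.Lib.MP_8d00da_gt.h42o
open Pool.Agent.Lib.MP_8d00da_gt.h97r
open scoped Topology NNReal

set_option linter.unusedSectionVars false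

variable {F : Type*} [NormedAddCommGroup F] [InnerProductSpace ℝ F]
    [FiniteDimensional ℝ F] [MeasurableSpace F] [BorelSpace F]

variable {B : ℝ} {h : F → ℝ}

private lemma geo (k : ℕ) : ∑ i ∈ Finset.range k, (4 : ℝ) ^ (i + 1) * (19 / 40) =
    19 / 30 * (4 ^ k - 1) := by
  induction k with
  | zero => simp
  | succ k ih =>
    rw [Finset.sum_range_succ, ih]
    ring

private lemma dyadic_nat (n : ℕ) {z : ℝ} (h0 : 0 ≤ z) (hM : z ≤ 2 ^ n) :
    z ^ 2 / 5 ≤ (∑ i ∈ Finset.range (n + 1), (4 : ℝ) ^ (i + 1) *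
      (clip (z / (2 : ℝ) ^ i - 1) ^ 2 - (21 / 40) * clip (z / (2 : ℝ) ^ i - 1))) + 4 := by
  rcases lt_or_ge z 1 with h1 | h1
  · have e : ∑ i ∈ Finset.range (n + 1), (4 : ℝ) ^ (i + 1) *
      (clip (z / (2 : ℝ) ^ i - 1) ^ 2 - (21 / 40) * clip (z / (2 : ℝ) ^ i - 1)) = 0 := by
      apply Finset.sum_eq_zero
      intro i _
      have e1 : z / (2 : ℝ) ^ i - 1 ≤ 0 := by
        have e2 : (1 : ℝ) ≤ 2 ^ i := one_le_pow₀ (by norm_num)
        have e3 : z / (2 : ℝ) ^ i ≤ 1 := by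
          rw [div_le_one (by positivity)]
          linarith
        linarith
      rw [clip_of_nonpos e1]
      ring
    rw [e]
    nlinarith
  · obtain ⟨k, hk1, hk2⟩ := exists_nat_pow_near h1 (by norm_num : (1 : ℝ) < 2)
    have hkn : k ≤ n := by
      have e1 : (2 : ℝ) ^ k ≤ 2 ^ n := hk1.trans hM
      exact (pow_le_pow_iff_right₀ (by norm_num : (1 : ℝ) < 2)).mp e1
    have e1 : ∑ i ∈ Finset.range (n + 1), (4 : ℝ) ^ (i + 1) *
        (clip (z / (2 : ℝ) ^ i - 1) ^ 2 - (21 / 40) * clip (z / (2 : ℝ) ^ i - 1)) =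
        ∑ i ∈ Finset.range (k + 1), (4 : ℝ) ^ (i + 1) *
        (clip (z / (2 : ℝ) ^ i - 1) ^ 2 - (21 / 40) * clip (z / (2 : ℝ) ^ i - 1)) := by
      symm
      apply Finset.sum_subset
      · intro i hi
        rw [Finset.mem_range] at hi ⊢
        omega
      · intro i _ hi2
        rw [Finset.mem_range] at hi2
        have e2 : (2 : ℝ) ^ (k + 1) ≤ 2 ^ i := pow_le_pow_right₀ (by norm_num) (by omega)
        have e3 : z / (2 : ℝ) ^ i - 1 ≤ 0 := by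
          have e4 : z / (2 : ℝ) ^ i ≤ 1 := by
            rw [div_le_one (by positivity)]
            linarith
          linarith
        rw [clip_of_nonpos e3]
        ring
    have e2 : ∑ i ∈ Finset.range k, (4 : ℝ) ^ (i + 1) *
        (clip (z / (2 : ℝ) ^ i - 1) ^ 2 - (21 / 40) * clip (z / (2 : ℝ) ^ i - 1)) =
        19 / 30 * (4 ^ k - 1) := by
      rw [← geo k]
      apply Finset.sum_congr rfl
      intro i hi
      rw [Finset.mem_range] at hi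
      have e3 : (1 : ℝ) ≤ z / (2 : ℝ) ^ i - 1 := by
        have e4 : (2 : ℝ) ^ (i + 1) ≤ 2 ^ k := pow_le_pow_right₀ (by norm_num) (by omega)
        have e5 : (2 : ℝ) ≤ z / (2 : ℝ) ^ i := by
          rw [le_div_iff₀ (by positivity), ← pow_succ']
          linarith
        linarith
      rw [clip_of_one_le e3]
      ring
    rw [e1, Finset.sum_range_succ, e2]
    have hp : (0 : ℝ) < 2 ^ k := by positivity
    set s : ℝ := z / (2 : ℝ) ^ k - 1 with hs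
    have hs0 : 0 ≤ s := by
      have : (1 : ℝ) ≤ z / (2 : ℝ) ^ k := by
        rw [le_div_iff₀ hp]
        linarith
      linarith
    have hs1 : s ≤ 1 := by
      have : z / (2 : ℝ) ^ k ≤ 2 := by
        rw [div_le_iff₀ hp, ← pow_succ']
        exact hk2.le
      linarith
    rw [clip_of_mem hs0 hs1]
    have hz : z = (1 + s) * 2 ^ k := by
      rw [hs]
      field_simp
      ring
    have h4 : ((2 : ℝ) ^ k) ^ 2 = 4 ^ k := by
      rw [← pow_mul, mul_comm, pow_mul]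
      norm_num
    have h41 : (1 : ℝ) ≤ 4 ^ k := one_le_pow₀ (by norm_num)
    have hz2 : z ^ 2 = (1 + s) ^ 2 * 4 ^ k := by
      rw [hz, mul_pow, h4]
    rw [hz2, pow_succ (4 : ℝ) k]
    have hkey : (1 + s) ^ 2 / 5 ≤ 19 / 30 + 4 * s ^ 2 - 21 / 10 * s := by
      nlinarith [sq_nonneg (s - 25 / 76)]
    have := mul_le_mul_of_nonneg_right hkey (by positivity : (0 : ℝ) ≤ 4 ^ k)
    nlinarith

/-- Dyadic levels of a nonnegative number `y`: with `u k = clip (y / 2 ^ k - 1)`, for integers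
`k` from `-N` to `M` (here `k = i - N`),
`y² / 5 ≤ ∑_i 4 ^ (i - N + 1) (u² - (21/40) u) + 4 * 4^(-N)` if `y ≤ 2 ^ M`. Proof: the sum
vanishes if `y ≤ 2 ^ (-N)`. Otherwise let `2 ^ k0 ≤ y < 2 ^ (k0 + 1)`, `s = y / 2 ^ k0 - 1`;
terms with `k < k0` are `4 ^ (k + 1) * (19/40)`, their sum is
`(19/40) * (4/3) * (4 ^ k0 - 4 ^ (-N))`, the term `k = k0` is `4 ^ (k0 + 1) (s² - (21/40) s)`, and
`19/30 + 4 s² - (21/10) s ≥ (1 + s)² / 5`. -/
theorem dyadic (N M : ℕ) {y : ℝ} (h0 : 0 ≤ y) (hM : y ≤ 2 ^ M) :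
    y ^ 2 / 5 ≤ (∑ i ∈ Finset.range (N + M + 1), (4 : ℝ) ^ ((i : ℤ) - N + 1) *
      (clip (y / (2 : ℝ) ^ ((i : ℤ) - N) - 1) ^ 2 -
        (21 / 40) * clip (y / (2 : ℝ) ^ ((i : ℤ) - N) - 1))) + 4 * (4 : ℝ) ^ (-(N : ℤ)) := by
  have h2 : (0 : ℝ) < 2 ^ N := by positivity
  have key := dyadic_nat (N + M) (z := y * 2 ^ N) (by positivity) (by
    rw [pow_add, mul_comm]
    exact mul_le_mul_of_nonneg_left hM h2.le)
  have e1 : ∀ i : ℕ, y * 2 ^ N / (2 : ℝ) ^ i = y / (2 : ℝ) ^ ((i : ℤ) - N) := by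
    intro i
    rw [zpow_sub₀ (by norm_num), zpow_natCast, zpow_natCast]
    field_simp
  have e2 : ∀ i : ℕ, (4 : ℝ) ^ ((i : ℤ) - N + 1) = (4 : ℝ) ^ (i + 1) * (4 : ℝ) ^ (-(N : ℤ)) := by
    intro i
    rw [← zpow_natCast, ← zpow_add₀ (by norm_num)]
    congr 1
    push_cast
    ring
  have e3 : y ^ 2 / 5 = ((y * 2 ^ N) ^ 2 / 5) * (4 : ℝ) ^ (-(N : ℤ)) := by
    have h4 : ((2 : ℝ) ^ N) ^ 2 = 4 ^ N := by
      rw [← pow_mul, mul_comm, pow_mul]
      norm_num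
    rw [mul_pow, h4, zpow_neg, zpow_natCast]
    field_simp
  have e4 : (∑ i ∈ Finset.range (N + M + 1), (4 : ℝ) ^ ((i : ℤ) - N + 1) *
      (clip (y / (2 : ℝ) ^ ((i : ℤ) - N) - 1) ^ 2 -
        (21 / 40) * clip (y / (2 : ℝ) ^ ((i : ℤ) - N) - 1))) =
      (∑ i ∈ Finset.range (N + M + 1), (4 : ℝ) ^ (i + 1) *
      (clip (y * 2 ^ N / (2 : ℝ) ^ i - 1) ^ 2 -
        (21 / 40) * clip (y * 2 ^ N / (2 : ℝ) ^ i - 1))) * (4 : ℝ) ^ (-(N : ℤ)) := by
    rw [Finset.sum_mul]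
    apply Finset.sum_congr rfl
    intro i _
    rw [e1 i, e2 i]
    ring
  rw [e3, e4, ← add_mul]
  exact mul_le_mul_of_nonneg_right key (by positivity)

end Pool.Agent.Lib.MP_8d00da_gt.h97s
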