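import Mathlib
import Pool.Agent.Lib.MP_8d00da_gt.h97s.GDefs

namespace Pool.Agent.Lib.MP_8d00da_gt.h97r
end Pool.Agent.Lib.MP_8d00da_gt.h97r


/-!
# Energies of the level functions
-/

namespace Pool.Agent.Lib.MP_8d00da_gt.h97s

open MeasureTheory Set Filter
open Pool.Agent.Lib.MP_8d00da_gt.h25 Pool.Agent.Lib.MP_8d00da_gt.h42
open Pool.Agent.Lib.MP_8d00da_gt.h42s Pool.Agent.Lib.MP_8d00da_gt.h42o
open Pool.Agent.Lib.MP_8d00da_gt.h97r
open scoped Topology NNReal

set_option linter.unusedSectionVars false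

variable {F : Type*} [NormedAddCommGroup F] [InnerProductSpace ℝ F]
    [FiniteDimensional ℝ F] [MeasurableSpace F] [BorelSpace F]

variable {B : ℝ} {h : F → ℝ}

/-- The level functions are bounded and Lipschitz. -/
lemma level_bl {f : F → ℝ} (hf : BL f) (c : ℝ) : BL fun x => clip (f x / c - 1) := by
  obtain ⟨⟨K, hK⟩, -⟩ := hf
  refine ⟨⟨1 * (‖c⁻¹‖₊ * K), ?_⟩, 1, fun x => ?_⟩
  · refine clip_lip.comp (LipschitzWith.of_dist_le_mul fun x y => ?_)
    have h1 := hK.dist_le_mul x y
    rw [Real.dist_eq] at h1 ⊢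
    have e : f x / c - 1 - (f y / c - 1) = c⁻¹ * (f x - f y) := by ring
    rw [e, abs_mul]
    push_cast
    rw [Real.norm_eq_abs, mul_assoc]
    exact mul_le_mul_of_nonneg_left h1 (abs_nonneg _)
  · rw [abs_of_nonneg (clip_nonneg _)]
    exact clip_le _

/-- The derivative of a level function vanishes outside of the open dyadic interval. -/
lemma level_fderiv_zero {f : F → ℝ} {c : ℝ} (hc : 0 < c) {x : F} (hx : f x ≤ c ∨ 2 * c ≤ f x) :
    fderiv ℝ (fun y => clip (f y / c - 1)) x = 0 := by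
  rcases hx with hx | hx
  · have h1 : f x / c - 1 ≤ 0 := by
      rw [sub_nonpos, div_le_one hc]
      exact hx
    refine IsLocalMin.fderiv_eq_zero (Eventually.of_forall fun y => ?_)
    change clip (f x / c - 1) ≤ clip (f y / c - 1)
    rw [clip_of_nonpos h1]
    exact clip_nonneg _
  · have h1 : 1 ≤ f x / c - 1 := by
      rw [le_sub_iff_add_le, le_div_iff₀ hc]
      linarith
    refine IsLocalMax.fderiv_eq_zero (Eventually.of_forall fun y => ?_)
    change clip (f y / c - 1) ≤ clip (f x / c - 1)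
    rw [clip_of_one_le h1]
    exact clip_le _

/-- The derivative of a level function in the open dyadic interval. -/
lemma level_fderiv_eq {f : F → ℝ} (hf : Continuous f) {c : ℝ} (hc : 0 < c) {x : F}
    (h1 : c < f x) (h2 : f x < 2 * c) :
    fderiv ℝ (fun y => clip (f y / c - 1)) x = c⁻¹ • fderiv ℝ f x := by
  have e : (fun y => clip (f y / c - 1)) =ᶠ[𝓝 x] fun y => c⁻¹ • f y - 1 := by
    have h3 : ∀ᶠ y in 𝓝 x, c < f y := hf.continuousAt.eventually (lt_mem_nhds h1)
    have h4 : ∀ᶠ y in 𝓝 x, f y < 2 * c := hf.continuousAt.eventually (gt_mem_nhds h2)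
    filter_upwards [h3, h4] with y h5 h6
    have h7 : 0 ≤ f y / c - 1 := by
      rw [sub_nonneg, le_div_iff₀ hc]
      linarith
    have h8 : f y / c - 1 ≤ 1 := by
      rw [sub_le_iff_le_add, div_le_iff₀ hc]
      linarith
    rw [clip_of_mem h7 h8, smul_eq_mul, div_eq_inv_mul]
  rw [e.fderiv_eq, fderiv_sub_const]
  have h9 : fderiv ℝ (c⁻¹ • f) = c⁻¹ • fderiv ℝ f := fderiv_const_smul_field c⁻¹
  exact congrFun h9 x

/-- The energies of the level functions: `‖fderiv (clip (f / 2 ^ k - 1)) x‖² 4 ^ (k + 1) ≤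
4 ‖fderiv f x‖²` if `2 ^ k ≤ f x ≤ 2 ^ (k + 1)` and `0` otherwise; the closed dyadic intervals
overlap only at the points where `f x` is a power of two, and almost everywhere on such a level
set `fderiv f x = 0` if the level function is differentiable; alternatively the derivative of
`clip (f / 2 ^ k - 1)` at a point with `f x = 2 ^ k` is `0` (either it is not differentiable, or
it has a minimum there), and the same at the other end (maximum). So at every point at most one
term is nonzero. -/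
theorem level_energy (H : Wt h B) (hi : Integrable h) (N M : ℕ) {f : F → ℝ} (hf : BL f) :
    ∑ i ∈ Finset.range (N + M + 1), (4 : ℝ) ^ ((i : ℤ) - N + 1) *
      En h (fun x => clip (f x / (2 : ℝ) ^ ((i : ℤ) - N) - 1)) ≤ 4 * En h f := by
  have hfc : Continuous f := by
    obtain ⟨⟨K, hK⟩, -⟩ := hf
    exact hK.continuous
  -- pointwise inequality
  have key : ∀ x, ∑ i ∈ Finset.range (N + M + 1), (4 : ℝ) ^ ((i : ℤ) - N + 1) *
      ‖fderiv ℝ (fun x => clip (f x / (2 : ℝ) ^ ((i : ℤ) - N) - 1)) x‖ ^ 2 ≤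
      4 * ‖fderiv ℝ f x‖ ^ 2 := by
    intro x
    by_cases hex : ∃ i ∈ Finset.range (N + M + 1), (2 : ℝ) ^ ((i : ℤ) - N) < f x ∧
        f x < 2 * (2 : ℝ) ^ ((i : ℤ) - N)
    · obtain ⟨j, hj, hj1, hj2⟩ := hex
      rw [Finset.sum_eq_single j]
      · have hc : (0 : ℝ) < (2 : ℝ) ^ ((j : ℤ) - N) := by positivity
        rw [level_fderiv_eq hfc hc hj1 hj2, norm_smul, mul_pow, zpow_add₀ (by norm_num), zpow_one]
        have e : (4 : ℝ) ^ ((j : ℤ) - N) = ((2 : ℝ) ^ ((j : ℤ) - N)) ^ 2 := by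
          rw [← zpow_natCast, ← zpow_mul, mul_comm, zpow_mul]
          norm_num
        rw [e, norm_inv, Real.norm_eq_abs, abs_of_pos hc]
        have e2 : ((2 : ℝ) ^ ((j : ℤ) - N)) ^ 2 * (((2 : ℝ) ^ ((j : ℤ) - N))⁻¹) ^ 2 = 1 := by
          rw [← mul_pow, mul_inv_cancel₀ hc.ne', one_pow]
        refine le_of_eq ?_
        calc ((2 : ℝ) ^ ((j : ℤ) - N)) ^ 2 * 4 *
              ((((2 : ℝ) ^ ((j : ℤ) - N))⁻¹) ^ 2 * ‖fderiv ℝ f x‖ ^ 2)
            = (((2 : ℝ) ^ ((j : ℤ) - N)) ^ 2 * (((2 : ℝ) ^ ((j : ℤ) - N))⁻¹) ^ 2) *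
                (4 * ‖fderiv ℝ f x‖ ^ 2) := by ring
          _ = _ := by rw [e2, one_mul]
      · intro i _ hij
        rw [level_fderiv_zero (by positivity), norm_zero]
        · ring
        · by_contra hcon
          push Not at hcon
          obtain ⟨h3, h4⟩ := hcon
          have e1 : (2 : ℝ) ^ ((i : ℤ) - N) < (2 : ℝ) ^ ((j : ℤ) - N + 1) := by
            rw [zpow_add₀ (by norm_num : (2 : ℝ) ≠ 0), zpow_one]
            linarith
          have e2 : (2 : ℝ) ^ ((j : ℤ) - N) < (2 : ℝ) ^ ((i : ℤ) - N + 1) := by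
            rw [zpow_add₀ (by norm_num : (2 : ℝ) ≠ 0), zpow_one]
            linarith
          rw [zpow_lt_zpow_iff_right₀ (by norm_num)] at e1 e2
          omega
      · intro hnj
        exact absurd hj hnj
    · push Not at hex
      rw [Finset.sum_eq_zero]
      · positivity
      · intro i hi
        rw [level_fderiv_zero (by positivity), norm_zero]
        · ring
        · rcases le_or_gt (f x) ((2 : ℝ) ^ ((i : ℤ) - N)) with h1 | h1
          · exact Or.inl h1
          · exact Or.inr (hex i hi h1)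
  -- integrate
  have hint : ∀ u : F → ℝ, BL u → Integrable fun x => ‖fderiv ℝ u x‖ ^ 2 * h x := by
    intro u hu
    obtain ⟨⟨K, hK⟩, -⟩ := hu
    exact bdd_int hi ((measurable_fderiv ℝ u).norm.pow_const 2) (sq_fderiv_bdd hK)
  unfold En
  simp only [← integral_const_mul]
  rw [← integral_finsetSum _ fun i _ => (hint _ (level_bl hf _)).const_mul _]
  refine integral_mono (integrable_finsetSum _ fun i _ => (hint _ (level_bl hf _)).const_mul _)
    ((hint f hf).const_mul _) fun x => ?_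
  have h1 := mul_le_mul_of_nonneg_right (key x) (H.nonneg x)
  rw [Finset.sum_mul] at h1
  simp only [mul_assoc] at h1 ⊢
  exact h1

end Pool.Agent.Lib.MP_8d00da_gt.h97s
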