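import Mathlib
import Pool.Agent.Lib.MP_8d00da_gt.h97r.RRT
import Pool.Agent.Lib.MP_8d00da_gt.h97s.GDefs

/-!
# Basic facts on the round trip operator
-/

namespace Pool.Agent.Lib.MP_8d00da_gt.h97s

open MeasureTheory Set Filter
open Pool.Agent.Lib.MP_8d00da_gt.h25 Pool.Agent.Lib.MP_8d00da_gt.h42
open Pool.Agent.Lib.MP_8d00da_gt.h42s Pool.Agent.Lib.MP_8d00da_gt.h42o
open Pool.Agent.Lib.MP_8d00da_gt.h97r
open scoped Topology NNReal

set_option linter.unusedSectionVars false

variable {F : Type*} [NormedAddCommGroup F] [InnerProductSpace ℝ F]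
    [FiniteDimensional ℝ F] [MeasurableSpace F] [BorelSpace F]

variable {B η : ℝ} {h : F → ℝ}

private lemma GB_AA_const (H : Wt h B) (hη : 0 < η) (c : ℝ) (y : F) :
    AA h η (fun _ => c) y = c := by
  have hZ := H.Z_pos hη y
  have e : cv η (fun x => c * h x) y = c * cv η h y := by
    unfold cv
    rw [← integral_const_mul]
    refine integral_congr_ae (Eventually.of_forall fun x => ?_)
    simp only
    ring
  unfold AA
  rw [e, mul_div_cancel_right₀ _ hZ.ne']

private lemma GB_AA_nonneg (H : Wt h B) (hη : 0 < η) {f : F → ℝ} (hf : ∀ x, 0 ≤ f x) (y : F) :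
    0 ≤ AA h η f y := by
  unfold AA
  refine div_nonneg ?_ (H.Z_pos hη y).le
  exact integral_nonneg fun x => mul_nonneg (mul_nonneg (hf x) (H.nonneg x)) (ker_pos _).le

private lemma GB_bl (H : Wt h B) (hη : 0 < η) {f : F → ℝ} (hf : BL f) : BL (RT h η f) := by
  obtain ⟨⟨Lf, hfL⟩, A, hA⟩ := hf
  obtain ⟨h1, h2⟩ := RT_props H hη hfL hA
  exact ⟨h2, A, h1⟩

private lemma GB_VV_nonneg (H : Wt h B) (f : F → ℝ) : 0 ≤ ∫ y, VV h η f y :=
  integral_nonneg fun _ => H.VV_nonneg

/-- `RT` preserves constants (`AA` of a constant is the constant). -/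
theorem RT_const (H : Wt h B) (hη : 0 < η) (c : ℝ) (x : F) : RT h η (fun _ => c) x = c := by
  have h1 : AA h η (fun _ : F => c) = fun _ => c := funext fun y => GB_AA_const H hη c y
  unfold RT SS
  rw [h1]
  exact GB_AA_const wt_one hη c x

/-- `AA h η u` and then `SS η _` are averages. -/
theorem RT_Icc (H : Wt h B) (hη : 0 < η) {u : F → ℝ} (hu : U1 u) (x : F) :
    0 ≤ RT h η u x ∧ RT h η u x ≤ 1 := by
  have hum := bl_meas hu.bl
  have h1 : ∀ y, |u y| ≤ 1 := fun y => by rw [abs_of_nonneg (hu.nn y)]; exact hu.le y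
  have h2 : ∀ y, |AA h η u y| ≤ 1 := H.AA_abs_le hη hum h1
  have h3 : Measurable (AA h η u) := (H.AA_diff hη hum h1).continuous.measurable
  exact ⟨GB_AA_nonneg wt_one hη (fun y => GB_AA_nonneg H hη hu.nn y) x,
    (le_abs_self _).trans (wt_one.AA_abs_le hη h3 h2 x)⟩

/-- `RT h η u = AA (fun _ => 1) η (AA h η u)` and `Wt.AA_lip` for the constant weight with
`A = 1`. -/
theorem RT_lip1 (H : Wt h B) (hη : 0 < η) {u : F → ℝ} (hu : U1 u) :
    LipschitzWith (Real.toNNReal (Real.sqrt (1 / η))) (RT h η u) := by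
  have hum := bl_meas hu.bl
  have h1 : ∀ y, |u y| ≤ 1 := fun y => by rw [abs_of_nonneg (hu.nn y)]; exact hu.le y
  have h2 : ∀ y, |AA h η u y| ≤ 1 := H.AA_abs_le hη hum h1
  have h3 : Measurable (AA h η u) := (H.AA_diff hη hum h1).continuous.measurable
  have h4 := wt_one.AA_lip hη h3 zero_le_one h2
  rw [one_mul] at h4
  exact h4

/-- Cauchy-Schwarz and `RT_contr`. -/
theorem RT_abs (H : Wt h B) (hi : Integrable h) (hη : 0 < η) {a b : F → ℝ} (ha : BL a)
    (hb : BL b) : |∫ x, a x * RT h η b x * h x| ≤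
      Real.sqrt (∫ x, a x ^ 2 * h x) * Real.sqrt (∫ x, b x ^ 2 * h x) := by
  have hg := GB_bl H hη hb
  have hss : ∀ y, Real.sqrt (h y) ^ 2 = h y := fun y => Real.sq_sqrt (H.nonneg y)
  have e1 : ∀ y, (a y * Real.sqrt (h y)) ^ 2 = a y ^ 2 * h y := fun y => by rw [mul_pow, hss]
  have e2 : ∀ y, (RT h η b y * Real.sqrt (h y)) ^ 2 = RT h η b y ^ 2 * h y :=
    fun y => by rw [mul_pow, hss]
  have e3 : ∀ y, (a y * Real.sqrt (h y)) * (RT h η b y * Real.sqrt (h y)) =
      a y * RT h η b y * h y := fun y => by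
    calc (a y * Real.sqrt (h y)) * (RT h η b y * Real.sqrt (h y))
        = a y * RT h η b y * Real.sqrt (h y) ^ 2 := by ring
      _ = _ := by rw [hss]
  have cs := cs_int (μ := (volume : Measure F)) (a := fun y => a y * Real.sqrt (h y))
    (b := fun y => RT h η b y * Real.sqrt (h y))
    (by simp only [e1]; exact bl_sq hi ha) (by simp only [e2]; exact bl_sq hi hg)
    (by simp only [e3]; exact bl_int2 hi ha hg)
  simp only [e1, e2, e3] at cs
  have hc := RT_contr H hi hη hb
  have ha0 : 0 ≤ ∫ x, a x ^ 2 * h x :=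
    integral_nonneg fun x => mul_nonneg (sq_nonneg _) (H.nonneg x)
  rw [← Real.sqrt_mul ha0]
  refine Real.abs_le_sqrt (cs.trans ?_)
  exact mul_le_mul_of_nonneg_left hc ha0

/-- `h42u.RT_defect`. -/
theorem qf_nonneg (H : Wt h B) (hi : Integrable h) (hη : 0 < η) {u : F → ℝ} (hu : BL u) :
    0 ≤ qf h η u := by
  have hc : 0 < ∫ z : F, h25.ker η z := ker_int_pos hη
  have h1 := (h42u.RT_defect H hi hη hu).1
  have h2 := GB_VV_nonneg (η := η) H u
  rw [← h1] at h2
  exact nonneg_of_mul_nonneg_right h2 hc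

/-- `h42u.RT_defect`. -/
theorem qf_le (H : Wt h B) (hi : Integrable h) (hη : 0 < η) {u : F → ℝ} (hu : BL u) :
    qf h η u ≤ η * En h u := (h42u.RT_defect H hi hη hu).2

/-- `h97r.RT_En` and `h42u.RT_defect`. -/
theorem qf_En (H : Wt h B) (hi : Integrable h) (hη : 0 < η) {u : F → ℝ} (hu : BL u) :
    η * En h (RT h η u) ≤ qf h η u := by
  have hc : 0 < ∫ z : F, h25.ker η z := ker_int_pos hη
  have h1 := (h42u.RT_defect H hi hη hu).1
  have h2 := (RT_En H hi hη hu).2
  rw [← h1] at h2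
  refine le_of_mul_le_mul_left ?_ hc
  unfold qf
  calc (∫ z : F, h25.ker η z) * (η * En h (RT h η u))
      = η * ((∫ z : F, h25.ker η z) * En h (RT h η u)) := by ring
    _ ≤ η * ((1 / η) * ((∫ z : F, h25.ker η z) *
          ((∫ x, u x ^ 2 * h x) - ∫ x, u x * RT h η u x * h x))) :=
        mul_le_mul_of_nonneg_left h2 hη.le
    _ = _ := by field_simp

/-- `0 ≤ ∫ (u - RT u)² h`. -/
theorem qf_sq (H : Wt h B) (hi : Integrable h) (hη : 0 < η) {u : F → ℝ} (hu : BL u) :
    ∫ x, u x ^ 2 * h x ≤ 2 * qf h η u + ∫ x, RT h η u x ^ 2 * h x := by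
  have hg := GB_bl H hη hu
  have i1 := bl_int2 hi hu hu
  have i2 := bl_int2 hi hu hg
  have i3 := bl_int2 hi hg hg
  have h0 : 0 ≤ ∫ x, (u x - RT h η u x) ^ 2 * h x :=
    integral_nonneg fun x => mul_nonneg (sq_nonneg _) (H.nonneg x)
  have hexp : ∫ x, (u x - RT h η u x) ^ 2 * h x = (∫ x, u x ^ 2 * h x) -
      2 * (∫ x, u x * RT h η u x * h x) + ∫ x, RT h η u x ^ 2 * h x := by
    have e1 : ∫ x, u x ^ 2 * h x = ∫ x, u x * u x * h x := by simp only [sq]
    have e2 : ∫ x, RT h η u x ^ 2 * h x = ∫ x, RT h η u x * RT h η u x * h x := by simp only [sq]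
    have i4 : Integrable fun x => u x * u x * h x - 2 * (u x * RT h η u x * h x) :=
      i1.sub (i2.const_mul 2)
    rw [e1, e2, ← integral_const_mul, ← integral_sub i1 (i2.const_mul 2), ← integral_add i4 i3]
    refine integral_congr_ae (Eventually.of_forall fun x => ?_)
    simp only
    ring
  rw [hexp] at h0
  unfold qf
  linarith

/-- The polarised form: `⟨v, T v⟩ ≥ 2 ⟨v, T u⟩ - ⟨u, T u⟩` (`h42u.RT_nonneg` for `v - u`,
`h42u.RT_sym`). -/
theorem RT_psd (H : Wt h B) (hi : Integrable h) (hη : 0 < η) {u v : F → ℝ} (hu : BL u)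
    (hv : BL v) : 2 * (∫ x, v x * RT h η u x * h x) - ∫ x, u x * RT h η u x * h x ≤
      ∫ x, v x * RT h η v x * h x := by
  have hgu := GB_bl H hη hu
  have hgv := GB_bl H hη hv
  have hw : BL fun x => v x + (-1) * u x := by
    have := hv.sub hu
    refine (congrArg BL (funext fun x => ?_)).mp this
    ring
  have h1 := h42u.RT_nonneg H hi hη hw
  have i1 := bl_int2 hi hv hgv
  have i2 := bl_int2 hi hv hgu
  have i3 := bl_int2 hi hu hgv
  have i4 := bl_int2 hi hu hgu
  have e0 : ∫ x, u x * RT h η v x * h x = ∫ x, v x * RT h η u x * h x := by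
    rw [h42u.RT_sym H hi hη hu hv]
    refine integral_congr_ae (Eventually.of_forall fun x => ?_)
    simp only
    ring
  have e : ∫ x, (v x + (-1) * u x) * RT h η (fun x => v x + (-1) * u x) x * h x =
      (∫ x, v x * RT h η v x * h x) - (∫ x, v x * RT h η u x * h x) -
        (∫ x, u x * RT h η v x * h x) + ∫ x, u x * RT h η u x * h x := by
    have j1 : Integrable fun x => v x * RT h η v x * h x - v x * RT h η u x * h x := i1.sub i2
    have j2 : Integrable fun x => v x * RT h η v x * h x - v x * RT h η u x * h x -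
        u x * RT h η v x * h x := j1.sub i3
    rw [← integral_sub i1 i2, ← integral_sub j1 i3, ← integral_add j2 i4]
    refine integral_congr_ae (Eventually.of_forall fun x => ?_)
    simp only
    rw [RT_add_smul H hη hv hu]
    ring
  rw [e, e0] at h1
  linarith

/-- `qf` of a constant vanishes. -/
theorem qf_const (H : Wt h B) (hη : 0 < η) (c : ℝ) : qf h η (fun _ => c) = 0 := by
  unfold qf
  simp only [RT_const H hη c, sq, sub_self]

end Pool.Agent.Lib.MP_8d00da_gt.h97s
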