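import Mathlib
import Pool.Agent.Lib.MP_8d00da_gt.h97s.GBas

/-!
# Functions of mean one half
-/

namespace Pool.Agent.Lib.MP_8d00da_gt.h97s

open MeasureTheory Set Filter
open Pool.Agent.Lib.MP_8d00da_gt.h25 Pool.Agent.Lib.MP_8d00da_gt.h42
open Pool.Agent.Lib.MP_8d00da_gt.h42s Pool.Agent.Lib.MP_8d00da_gt.h42o
open Pool.Agent.Lib.MP_8d00da_gt.h97r
open scoped Topology NNReal

set_option linter.unusedSectionVars false

variable {F : Type*} [NormedAddCommGroup F] [InnerProductSpace ℝ F]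
    [FiniteDimensional ℝ F] [MeasurableSpace F] [BorelSpace F]

variable {B η : ℝ} {h : F → ℝ}

/-- Let `S` carry at least `79/80` of the mass and satisfy the Poincare inequality with constant
`C1` (and the full energy). With `κ = 1 / (C1 / η + 2)`: for `f = RT u` (values in `[0, 1]`) and
`c` from `hPI`, truncated to `[0, 1]` (this decreases `∫_S (f - c)² h`),
`Vr h f ≤ ∫ (f - c)² h ≤ C1 En f + 1/80`, so
`1/4 - ∫ u (1 - u) h = Vr h u ≤ 2 qf u + Vr h f ≤ (2 + C1 / η) qf u + 1/80` (`qf_sq`, `RT_mean`,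
`qf_En`). -/
theorem half_bound (H : Wt h B) (hi : Integrable h) (hm : ∫ x, h x = 1) (hη : 0 < η) {S : Set F}
    (hS : MeasurableSet S) (hμ : 79 / 80 ≤ ∫ x in S, h x) {C1 : ℝ} (hC1 : 0 ≤ C1)
    (hPI : ∀ f : F → ℝ, BL f → ∃ c : ℝ, ∫ x in S, (f x - c) ^ 2 * h x ≤ C1 * En h f)
    {u : F → ℝ} (hu : U1 u) (hu2 : mf h u = 1 / 2) :
    (1 / (C1 / η + 2)) * (1 / 4 - 1 / 80) ≤ Per h η (1 / (C1 / η + 2)) u := by
  have hRTbl : BL (RT h η u) := by
    obtain ⟨⟨Lf, hfL⟩, A, hA⟩ := hu.bl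
    obtain ⟨h1, h2⟩ := RT_props H hη hfL hA
    exact ⟨h2, A, h1⟩
  set f := RT h η u with hf
  have hf01 : ∀ x, 0 ≤ f x ∧ f x ≤ 1 := fun x => RT_Icc H hη hu x
  have hfmean : ∫ x, f x * h x = 1 / 2 := by
    rw [hf, RT_mean H hi hη hu.bl]
    exact hu2
  obtain ⟨c, hc⟩ := hPI f hRTbl
  set c' := clip c with hc'
  have hc0 : 0 ≤ c' := clip_nonneg c
  have hc1 : c' ≤ 1 := clip_le c
  have hle : ∀ x, (f x - c') ^ 2 ≤ (f x - c) ^ 2 := by
    intro x
    obtain ⟨h0, h1⟩ := hf01 x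
    rw [hc']
    rcases le_total c 0 with h2 | h2
    · rw [clip_of_nonpos h2]
      nlinarith
    · rcases le_total 1 c with h3 | h3
      · rw [clip_of_one_le h3]
        nlinarith
      · rw [clip_of_mem h2 h3]
  have hblc : ∀ d : ℝ, BL fun x => f x - d := fun d => hRTbl.sub (BL.const d)
  have hintc : ∀ d : ℝ, Integrable fun x => (f x - d) ^ 2 * h x := fun d => bl_sq hi (hblc d)
  have hSin : ∫ x in S, (f x - c') ^ 2 * h x ≤ C1 * En h f := by
    refine le_trans ?_ hc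
    refine setIntegral_mono (hintc c').integrableOn (hintc c).integrableOn fun x => ?_
    exact mul_le_mul_of_nonneg_right (hle x) (H.nonneg x)
  have hSout : ∫ x in Sᶜ, (f x - c') ^ 2 * h x ≤ 1 / 80 := by
    have h1 : ∫ x in Sᶜ, (f x - c') ^ 2 * h x ≤ ∫ x in Sᶜ, h x := by
      refine setIntegral_mono (hintc c').integrableOn hi.integrableOn fun x => ?_
      obtain ⟨h0, h1⟩ := hf01 x
      have h2 : (f x - c') ^ 2 ≤ 1 := by nlinarith
      calc (f x - c') ^ 2 * h x ≤ 1 * h x := mul_le_mul_of_nonneg_right h2 (H.nonneg x)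
        _ = h x := one_mul _
    have h2 := integral_add_compl hS hi
    rw [hm] at h2
    linarith
  have htot : ∫ x, (f x - c') ^ 2 * h x ≤ C1 * En h f + 1 / 80 := by
    rw [← integral_add_compl hS (hintc c')]
    exact add_le_add hSin hSout
  have hexp : ∫ x, (f x - c') ^ 2 * h x = (∫ x, f x ^ 2 * h x) - c' + c' ^ 2 := by
    have e1 : ∀ x, (f x - c') ^ 2 * h x = f x ^ 2 * h x + (-2 * c') * (f x * h x) +
        c' ^ 2 * h x := by
      intro x
      ring
    simp only [e1]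
    have i1 := bl_sq hi hRTbl
    have i2 := (bl_int hi hRTbl).const_mul (-2 * c')
    have i3 := hi.const_mul (c' ^ 2)
    have i4 : Integrable fun x => f x ^ 2 * h x + (-2 * c') * (f x * h x) := i1.add i2
    rw [integral_add i4 i3, integral_add i1 i2, integral_const_mul, integral_const_mul, hm,
      hfmean]
    ring
  have hsq := qf_sq H hi hη hu.bl
  rw [← hf] at hsq
  have hEn := qf_En H hi hη hu.bl
  rw [← hf] at hEn
  have hq0 := qf_nonneg H hi hη hu.bl
  have hEn' : C1 * En h f ≤ C1 / η * qf h η u := by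
    have h1 : C1 * En h f = C1 / η * (η * En h f) := by
      field_simp
    rw [h1]
    exact mul_le_mul_of_nonneg_left hEn (by positivity)
  have huu : ∫ x, u x * (1 - u x) * h x = 1 / 2 - ∫ x, u x ^ 2 * h x := by
    have e1 : ∀ x, u x * (1 - u x) * h x = u x * h x - u x ^ 2 * h x := by
      intro x
      ring
    simp only [e1]
    rw [integral_sub (bl_int hi hu.bl) (bl_sq hi hu.bl)]
    have h1 : ∫ x, u x * h x = 1 / 2 := hu2
    rw [h1]
  set K := C1 / η + 2 with hK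
  have hK0 : 0 < K := by positivity
  have hmain : 1 / 4 - 1 / 80 - ∫ x, u x * (1 - u x) * h x ≤ K * qf h η u := by
    rw [huu, hK]
    nlinarith [sq_nonneg (c' - 1 / 2)]
  unfold Per
  have h1 : 1 / K * (1 / 4 - 1 / 80 - ∫ x, u x * (1 - u x) * h x) ≤ qf h η u := by
    calc 1 / K * (1 / 4 - 1 / 80 - ∫ x, u x * (1 - u x) * h x) ≤ 1 / K * (K * qf h η u) :=
          mul_le_mul_of_nonneg_left hmain (by positivity)
      _ = qf h η u := by field_simp
  linarith

end Pool.Agent.Lib.MP_8d00da_gt.h97s
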