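import Mathlib
import Pool.Agent.Lib.MP_8d00da_gt.h97r.RRT
import Pool.Agent.Lib.MP_8d00da_gt.h97s.GDefs
import Pool.Agent.Lib.MP_8d00da_gt.h42u.UContr

/-!
# Commutation of the gradient and the round trip operator
-/

namespace Pool.Agent.Lib.MP_8d00da_gt.h97s

open MeasureTheory Set Filter
open Pool.Agent.Lib.MP_8d00da_gt.h25 Pool.Agent.Lib.MP_8d00da_gt.h42
open Pool.Agent.Lib.MP_8d00da_gt.h42s Pool.Agent.Lib.MP_8d00da_gt.h42o
open Pool.Agent.Lib.MP_8d00da_gt.h97r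
open scoped Topology NNReal

set_option linter.unusedSectionVars false

variable {F : Type*} [NormedAddCommGroup F] [InnerProductSpace ℝ F]
    [FiniteDimensional ℝ F] [MeasurableSpace F] [BorelSpace F]

variable {L B η : ℝ} {h W : F → ℝ}

private lemma gg_cv (hη : 0 < η) {φ ψ : F → ℝ} (hφ : Measurable φ) (hψ : Measurable ψ)
    {M M' : ℝ} (hM : ∀ x, |φ x| ≤ M) (hM' : ∀ x, |ψ x| ≤ M') (s : ℝ) (y : F) :
    cv η (fun x => φ x + s * ψ x) y = cv η φ y + s * cv η ψ y := by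
  have i1 := cv_integrable hη hφ hM y
  have i2 := cv_integrable hη hψ hM' y
  unfold cv
  rw [← integral_const_mul, ← integral_add i1 (i2.const_mul s)]
  refine integral_congr_ae (Eventually.of_forall fun x => ?_)
  simp only
  ring

private lemma gg_AA (H : Wt h B) (hη : 0 < η) {f g : F → ℝ} (hf : Measurable f)
    (hg : Measurable g) {M M' : ℝ} (hM : ∀ x, |f x| ≤ M) (hM' : ∀ x, |g x| ≤ M') (s : ℝ) (y : F) :
    AA h η (fun x => f x + s * g x) y = AA h η f y + s * AA h η g y := by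
  have h1 := gg_cv hη (hf.mul H.meas) (hg.mul H.meas) (H.mul_bdd hM) (H.mul_bdd hM') s y
  have h2 : cv η (fun x => (f x + s * g x) * h x) y =
      cv η (fun x => (f * h) x + s * (g * h) x) y := by
    congr 1
    ext x
    simp only [Pi.mul_apply]
    ring
  unfold AA
  rw [h2, h1, add_div, mul_div_assoc]
  rfl

private lemma gg_one (H : Wt h B) (hη : 0 < η) (y : F) : AA h η (fun _ => (1 : ℝ)) y = 1 := by
  unfold AA
  have h1 : cv η (fun x => 1 * h x) y = cv η h y := by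
    congr 1
    ext x
    rw [one_mul]
  rw [h1]
  exact div_self (H.Z_pos hη y).ne'

private lemma gg_nonneg (H : Wt h B) {g : F → ℝ} (hg0 : ∀ x, 0 ≤ g x) (y : F) :
    0 ≤ AA h η g y := by
  unfold AA
  refine div_nonneg ?_ ?_
  · exact integral_nonneg fun x => mul_nonneg (mul_nonneg (hg0 x) (H.nonneg x)) (ker_pos _).le
  · exact integral_nonneg fun x => mul_nonneg (H.nonneg x) (ker_pos _).le

private lemma gg_bl (H : Wt h B) (hη : 0 < η) {f : F → ℝ} (hf : BL f) : BL (AA h η f) := by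
  have hm := bl_meas hf
  obtain ⟨-, A, hA⟩ := hf
  have hA0 : 0 ≤ A := (abs_nonneg _).trans (hA 0)
  exact ⟨⟨_, H.AA_lip hη hm hA0 hA⟩, A, H.AA_abs_le hη hm hA⟩

/-- First step. Let `b > ‖y - y'‖` and `v z = u z + b * (g z + K * b)`; then `u z ≤ v z'` if
`‖z - z'‖ ≤ b` (as `g, K ≥ 0`), so `h42u.contr` gives `AA u y ≤ AA v y'`, and
`AA v y' = AA u y' + b (AA g y' + K b)` (`AA` is linear and preserves constants). Let `b` tend to
`‖y - y'‖`. -/
theorem grad_AA_comm (H : h42u.PW L B h W) (hL : 0 ≤ L) (hη : 0 < η) {u g : F → ℝ} (hu : BL u)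
    (hg : BL g) (hg0 : ∀ x, 0 ≤ g x) {K : ℝ} (hK : 0 ≤ K)
    (hug : ∀ z z', u z - u z' ≤ ‖z - z'‖ * (g z' + K * ‖z - z'‖)) (y y' : F) :
    AA h η u y - AA h η u y' ≤ ‖y - y'‖ * (AA h η g y' + K * ‖y - y'‖) := by
  have H' := H.wt
  set r : ℝ := ‖y - y'‖ with hr
  have hr0 : 0 ≤ r := norm_nonneg _
  have key : ∀ b : ℝ, r < b → AA h η u y - AA h η u y' ≤ b * (AA h η g y' + K * b) := by
    intro b hb
    have hb0 : 0 ≤ b := hr0.trans hb.le
    have hv1 : BL fun z => u z + b * g z := hu.add ((BL.const b).mul hg)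
    have hv : BL fun z => (u z + b * g z) + (b * (K * b)) * (fun _ : F => (1 : ℝ)) z :=
      hv1.add ((BL.const _).mul (BL.const 1))
    have h1 := h42u.contr H hL hη hu hv (b := b) (fun z z' hz => by
      have h2 := hug z z'
      have h3 : ‖z - z'‖ * (g z' + K * ‖z - z'‖) ≤ b * (g z' + K * b) := by
        have h4 : 0 ≤ g z' := hg0 z'
        have h5 : 0 ≤ ‖z - z'‖ := norm_nonneg _
        gcongr
      show u z ≤ (u z' + b * g z') + (b * (K * b)) * 1
      linarith) (y := y) (y' := y') hb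
    obtain ⟨-, A, hA⟩ := id hu
    obtain ⟨-, A', hA'⟩ := id hg
    obtain ⟨-, A'', hA''⟩ := id hv1
    rw [gg_AA H' hη (bl_meas hv1) measurable_const hA'' (M' := 1) (fun _ => by simp),
      gg_one H' hη, gg_AA H' hη (bl_meas hu) (bl_meas hg) hA hA'] at h1
    linarith
  have hlim : Tendsto (fun b : ℝ => b * (AA h η g y' + K * b)) (𝓝[>] r)
      (𝓝 (r * (AA h η g y' + K * r))) := by
    have hc : Continuous fun b : ℝ => b * (AA h η g y' + K * b) := by fun_prop
    exact (hc.tendsto r).mono_left nhdsWithin_le_nhds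
  exact ge_of_tendsto hlim (eventually_nhdsWithin_of_forall fun b hb => key b hb)

/-- Second step: `SS η ψ x = (∫ ψ (x + w) ker η w dw) / ∫ ker η`, so the inequality for
`ψ = AA h η u` passes to `SS η ψ`. -/
theorem grad_RT_comm (H : h42u.PW L B h W) (hL : 0 ≤ L) (hη : 0 < η) {u g : F → ℝ} (hu : BL u)
    (hg : BL g) (hg0 : ∀ x, 0 ≤ g x) {K : ℝ} (hK : 0 ≤ K)
    (hug : ∀ z z', u z - u z' ≤ ‖z - z'‖ * (g z' + K * ‖z - z'‖)) (x x' : F) :
    RT h η u x - RT h η u x' ≤ ‖x - x'‖ * (RT h η g x' + K * ‖x - x'‖) := by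
  have H1 : h42u.PW 0 1 (fun _ : F => (1 : ℝ)) (fun _ => 0) := h42u.pw_one
  exact grad_AA_comm H1 le_rfl hη (gg_bl H.wt hη hu) (gg_bl H.wt hη hg)
    (gg_nonneg H.wt hg0) hK (grad_AA_comm H hL hη hu hg hg0 hK hug) x x'

/-- `|∇ (RT u)| ≤ RT g`: the previous inequality with `x = x' + t e`, `t → 0`. -/
theorem grad_comm (H : h42u.PW L B h W) (hL : 0 ≤ L) (hη : 0 < η) {u g : F → ℝ} (hu : BL u)
    (hg : BL g) (hg0 : ∀ x, 0 ≤ g x) {K : ℝ} (hK : 0 ≤ K)
    (hug : ∀ z z', u z - u z' ≤ ‖z - z'‖ * (g z' + K * ‖z - z'‖)) (x : F) :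
    ‖fderiv ℝ (RT h η u) x‖ ≤ RT h η g x := by
  have hRg0 : 0 ≤ RT h η g x := gg_nonneg wt_one (gg_nonneg H.wt hg0) x
  have hcg : Continuous (RT h η g) := (RT_sm H.wt hη hg).diff.continuous
  have hdu := (RT_sm H.wt hη hu).diff x
  refine le_of_forall_pos_le_add fun ε hε => ?_
  refine hdu.hasFDerivAt.le_of_lip' (by positivity) ?_
  have hc : Continuous fun z : F => RT h η g z + K * ‖z - x‖ := by fun_prop
  have hc' : Continuous fun z : F => RT h η g x + K * ‖z - x‖ := by fun_prop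
  have e1 : ∀ᶠ z in 𝓝 x, RT h η g z + K * ‖z - x‖ < RT h η g x + ε := by
    refine hc.tendsto x (Iio_mem_nhds ?_)
    simp only [sub_self, norm_zero, mul_zero, add_zero]
    linarith
  have e2 : ∀ᶠ z in 𝓝 x, RT h η g x + K * ‖z - x‖ < RT h η g x + ε := by
    refine hc'.tendsto x (Iio_mem_nhds ?_)
    simp only [sub_self, norm_zero, mul_zero, add_zero]
    linarith
  filter_upwards [e1, e2] with z h1 h2
  have h3 := grad_RT_comm H hL hη hu hg hg0 hK hug z x
  have h4 := grad_RT_comm H hL hη hu hg hg0 hK hug x z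
  rw [norm_sub_rev x z] at h4
  have h5 : 0 ≤ ‖z - x‖ := norm_nonneg _
  have h6 := mul_le_mul_of_nonneg_left h1.le h5
  have h7 := mul_le_mul_of_nonneg_left h2.le h5
  rw [Real.norm_eq_abs, abs_le]
  constructor <;> nlinarith

end Pool.Agent.Lib.MP_8d00da_gt.h97s
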