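import Mathlib
import Pool.Agent.Lib.MP_8d00da_gt.h97r.RRT
import Pool.Agent.Lib.MP_8d00da_gt.h97s.GDefs

/-!
# Expansion and majorant
-/

namespace Pool.Agent.Lib.MP_8d00da_gt.h97s

open MeasureTheory Set Filter
open Pool.Agent.Lib.MP_8d00da_gt.h25 Pool.Agent.Lib.MP_8d00da_gt.h42
open Pool.Agent.Lib.MP_8d00da_gt.h42s Pool.Agent.Lib.MP_8d00da_gt.h42o
open Pool.Agent.Lib.MP_8d00da_gt.h97r
open scoped Topology NNReal

set_option linter.unusedSectionVars false

variable {F : Type*} [NormedAddCommGroup F] [InnerProductSpace ℝ F]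
    [FiniteDimensional ℝ F] [MeasurableSpace F] [BorelSpace F]

variable {B η κ α γ : ℝ} {h : F → ℝ}

private lemma imp_lin {f₁ f₂ f₃ f₄ : F → ℝ} (i₁ : Integrable f₁) (i₂ : Integrable f₂)
    (i₃ : Integrable f₃) (i₄ : Integrable f₄) (c₁ c₂ c₃ c₄ : ℝ) {g : F → ℝ}
    (hg : ∀ x, g x = c₁ * f₁ x + c₂ * f₂ x + c₃ * f₃ x + c₄ * f₄ x) :
    ∫ x, g x = c₁ * (∫ x, f₁ x) + c₂ * (∫ x, f₂ x) + c₃ * (∫ x, f₃ x) + c₄ * ∫ x, f₄ x := by
  have j₁ := i₁.const_mul c₁
  have j₂ := i₂.const_mul c₂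
  have j₃ := i₃.const_mul c₃
  have j₄ := i₄.const_mul c₄
  have j₁₂ : Integrable fun x => c₁ * f₁ x + c₂ * f₂ x := j₁.add j₂
  have j₁₂₃ : Integrable fun x => c₁ * f₁ x + c₂ * f₂ x + c₃ * f₃ x := j₁₂.add j₃
  rw [← integral_const_mul, ← integral_const_mul, ← integral_const_mul, ← integral_const_mul,
    ← integral_add j₁ j₂, ← integral_add j₁₂ j₃, ← integral_add j₁₂₃ j₄]
  exact integral_congr_ae (Eventually.of_forall hg)

private lemma imp_bl (H : Wt h B) (hη : 0 < η) {f : F → ℝ} (hf : BL f) : BL (RT h η f) := by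
  obtain ⟨⟨Lf, hfL⟩, A, hA⟩ := hf
  obtain ⟨h1, h2⟩ := RT_props H hη hfL hA
  exact ⟨h2, A, h1⟩

/-- Exact expansion (everything is quadratic; `h42u.RT_sym`, `h97r.RT_add_smul`). -/
theorem FE_add (H : Wt h B) (hi : Integrable h) (hη : 0 < η) {u φ : F → ℝ} (hu : BL u)
    (hφ : BL φ) :
    FE h η κ α γ (fun x => u x + φ x) = FE h η κ α γ u +
      2 * (∫ x, φ x * ((1 - κ) * u x - RT h η u x - cc h κ α γ u) * h x) +
      (1 - κ) * (∫ x, φ x ^ 2 * h x) - (∫ x, φ x * RT h η φ x * h x) - γ * mf h φ ^ 2 := by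
  have hRu := imp_bl H hη hu
  have hRφ := imp_bl H hη hφ
  have hsym : ∫ x, u x * RT h η φ x * h x = ∫ x, φ x * RT h η u x * h x := by
    rw [h42u.RT_sym H hi hη hu hφ]
    exact integral_congr_ae (Eventually.of_forall fun x => by simp only; ring)
  have hadd : ∀ x, RT h η (fun x => u x + φ x) x = RT h η u x + RT h η φ x := by
    intro x
    have := RT_add_smul H hη hu hφ 1 x
    simpa only [one_mul] using this
  have iuu := bl_sq hi hu
  have iφφ := bl_sq hi hφ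
  have iuφ := bl_int2 hi hu hφ
  have iu := bl_int hi hu
  have iφ := bl_int hi hφ
  have r1 := bl_int2 hi hu hRu
  have r2 := bl_int2 hi hu hRφ
  have r3 := bl_int2 hi hφ hRu
  have r4 := bl_int2 hi hφ hRφ
  have E1 := imp_lin iuu iuφ iφφ iφφ 1 2 1 0 (g := fun x => (u x + φ x) ^ 2 * h x)
    (fun x => by ring)
  have E2 := imp_lin r1 r2 r3 r4 1 1 1 1
    (g := fun x => (u x + φ x) * RT h η (fun x => u x + φ x) x * h x)
    (fun x => by rw [hadd]; ring)
  have E3 := imp_lin iu iφ iφφ iφφ 1 1 0 0 (g := fun x => (u x + φ x) * h x) (fun x => by ring)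
  have E4 : ∫ x, (u x + φ x) * (1 - (u x + φ x)) * h x =
      (∫ x, (u x + φ x) * h x) - ∫ x, (u x + φ x) ^ 2 * h x := by
    rw [← integral_sub (bl_int hi (hu.add hφ)) (bl_sq hi (hu.add hφ))]
    exact integral_congr_ae (Eventually.of_forall fun x => by simp only; ring)
  have E5 : ∫ x, u x * (1 - u x) * h x = (∫ x, u x * h x) - ∫ x, u x ^ 2 * h x := by
    rw [← integral_sub iu iuu]
    exact integral_congr_ae (Eventually.of_forall fun x => by simp only; ring)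
  have E6 := imp_lin iuφ r3 iφ iφ (1 - κ) (-1) (-cc h κ α γ u) 0
    (g := fun x => φ x * ((1 - κ) * u x - RT h η u x - cc h κ α γ u) * h x)
    (fun x => by ring)
  simp only [FE, Per, qf, mf] at *
  rw [E4, E5, E6, E2, E1, E3, hsym]
  simp only [cc, mf]
  ring

/-- The majorant: `FE v ≤ FE u + M v - M u`, where
`M v = ∫ ((1 - κ) v² - 2 v (RT u + cc u)) h`. From `FE_add` with `φ = v - u`: drop `- γ (mf φ)²`
and use `0 ≤ ∫ φ (RT φ) h`. -/
theorem FE_major (H : Wt h B) (hi : Integrable h) (hη : 0 < η) (hγ : 0 ≤ γ) {u v : F → ℝ}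
    (hu : BL u) (hv : BL v) :
    FE h η κ α γ v ≤ FE h η κ α γ u +
      (∫ x, ((1 - κ) * v x ^ 2 - 2 * v x * (RT h η u x + cc h κ α γ u)) * h x) -
      ∫ x, ((1 - κ) * u x ^ 2 - 2 * u x * (RT h η u x + cc h κ α γ u)) * h x := by
  have hφ : BL fun x => v x - u x := hv.sub hu
  have hRu := imp_bl H hη hu
  have h1 := FE_add (κ := κ) (α := α) (γ := γ) H hi hη hu hφ
  have e1 : (fun x => u x + (v x - u x)) = v := by
    ext x
    ring
  rw [e1] at h1
  have h2 := h42u.RT_nonneg H hi hη hφ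
  have h3 : 0 ≤ γ * mf h (fun x => v x - u x) ^ 2 := mul_nonneg hγ (sq_nonneg _)
  have iuu := bl_sq hi hu
  have ivv := bl_sq hi hv
  have iuv := bl_int2 hi hu hv
  have iu := bl_int hi hu
  have iv := bl_int hi hv
  have r1 := bl_int2 hi hu hRu
  have r2 := bl_int2 hi hv hRu
  have E1 := imp_lin iuu iuv ivv ivv 1 (-2) 1 0 (g := fun x => (v x - u x) ^ 2 * h x)
    (fun x => by ring)
  have E2 := imp_lin (iuv.const_mul (1 - κ) |>.sub (iuu.const_mul (1 - κ))) (r2.sub r1)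
    (iv.sub iu) iv 1 (-1) (-cc h κ α γ u) 0
    (g := fun x => (v x - u x) * ((1 - κ) * u x - RT h η u x - cc h κ α γ u) * h x)
    (fun x => by simp only [Pi.sub_apply]; ring)
  have E3 := imp_lin ivv r2 iv iv (1 - κ) (-2) (-2 * cc h κ α γ u) 0
    (g := fun x => ((1 - κ) * v x ^ 2 - 2 * v x * (RT h η u x + cc h κ α γ u)) * h x)
    (fun x => by ring)
  have E4 := imp_lin iuu r1 iu iu (1 - κ) (-2) (-2 * cc h κ α γ u) 0
    (g := fun x => ((1 - κ) * u x ^ 2 - 2 * u x * (RT h η u x + cc h κ α γ u)) * h x)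
    (fun x => by ring)
  have s1 : ∫ x, (((fun x => (1 - κ) * (u x * v x * h x)) - fun x => (1 - κ) * (u x ^ 2 * h x)) : F → ℝ) x =
      (1 - κ) * (∫ x, u x * v x * h x) - (1 - κ) * ∫ x, u x ^ 2 * h x := by
    simp only [Pi.sub_apply]
    rw [integral_sub (iuv.const_mul (1 - κ)) (iuu.const_mul (1 - κ)), integral_const_mul,
      integral_const_mul]
  have s2 : ∫ x, (((fun x => v x * RT h η u x * h x) - fun x => u x * RT h η u x * h x) : F → ℝ) x =
      (∫ x, v x * RT h η u x * h x) - ∫ x, u x * RT h η u x * h x := by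
    simp only [Pi.sub_apply]
    rw [integral_sub r2 r1]
  have s3 : ∫ x, (((fun x => v x * h x) - fun x => u x * h x) : F → ℝ) x =
      (∫ x, v x * h x) - ∫ x, u x * h x := by
    simp only [Pi.sub_apply]
    rw [integral_sub iv iu]
  rw [s1, s2, s3] at E2
  rw [h1, E1, E2, E3, E4]
  nlinarith [h2, h3]

end Pool.Agent.Lib.MP_8d00da_gt.h97s
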