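import Mathlib
import Pool.Agent.Lib.MP_8d00da_gt.h97r.RRT
import Pool.Agent.Lib.MP_8d00da_gt.h97s.GDefs

/-!
# The test functions
-/

namespace Pool.Agent.Lib.MP_8d00da_gt.h97s

open MeasureTheory Set Filter
open Pool.Agent.Lib.MP_8d00da_gt.h25 Pool.Agent.Lib.MP_8d00da_gt.h42
open Pool.Agent.Lib.MP_8d00da_gt.h42s Pool.Agent.Lib.MP_8d00da_gt.h42o
open Pool.Agent.Lib.MP_8d00da_gt.h97r
open scoped Topology NNReal

set_option linter.unusedSectionVars false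

variable {F : Type*} [NormedAddCommGroup F] [InnerProductSpace ℝ F]
    [FiniteDimensional ℝ F] [MeasurableSpace F] [BorelSpace F]

variable {L B C0 η κ α γ : ℝ} {h W : F → ℝ}

/-- Cut-off: `0` outside `(0, 1)`, `1` on `[δ, 1 - δ]`. -/
noncomputable def chi (δ r : ℝ) : ℝ := clip (min r (1 - r) / δ)

/-- Cut-off: `1` on `[-δ, 1 + δ]`, `0` outside `[-2 δ, 1 + 2 δ]`. -/
noncomputable def tht (δ r : ℝ) : ℝ := clip (2 + min r (1 - r) / δ)

/-- The test functions `|∇ f| χ(f)`, `|∇ f| ϑ(f)`. -/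
noncomputable def vd (δ : ℝ) (f : F → ℝ) (x : F) : ℝ := ‖fderiv ℝ f x‖ * chi δ (f x)

noncomputable def gd (δ : ℝ) (f : F → ℝ) (x : F) : ℝ := ‖fderiv ℝ f x‖ * tht δ (f x)

/-- `ef` is smooth with Lipschitz derivative (`h97r.RT_sm`, then scale and add a constant), and
`fderiv (ef) = (1 - κ)⁻¹ • fderiv (RT u)`. -/
theorem ef_sm (H : Wt h B) (hη : 0 < η) {u : F → ℝ} (hu : BL u) :
    Sm (ef h η κ α γ u) ∧ ∀ x, (1 - κ) * ‖fderiv ℝ (ef h η κ α γ u) x‖ ≤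
      ‖fderiv ℝ (RT h η u) x‖ := by
  have h1 := RT_sm H hη hu
  have e : ef h η κ α γ u = fun x => (1 - κ)⁻¹ * RT h η u x + (1 - κ)⁻¹ * cc h κ α γ u := by
    funext x
    unfold ef
    ring
  have e2 : ∀ x, HasFDerivAt (ef h η κ α γ u) ((1 - κ)⁻¹ • fderiv ℝ (RT h η u) x) x := by
    intro x
    rw [e]
    exact ((h1.diff x).hasFDerivAt.const_mul (1 - κ)⁻¹).add_const _
  have e3 : ∀ x, fderiv ℝ (ef h η κ α γ u) x = (1 - κ)⁻¹ • fderiv ℝ (RT h η u) x :=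
    fun x => (e2 x).fderiv
  refine ⟨⟨?_, fun x => (e2 x).differentiableAt, fun θ => ?_⟩, fun x => ?_⟩
  · rw [e]
    exact ((BL.const _).mul h1.bl).add (BL.const _)
  · have e4 : (fun x => fderiv ℝ (ef h η κ α γ u) x θ) =
        fun x => (1 - κ)⁻¹ * fderiv ℝ (RT h η u) x θ := by
      funext x
      rw [e3 x]
      rfl
    rw [e4]
    exact (BL.const _).mul (h1.dbl θ)
  · rw [e3 x, norm_smul, ← mul_assoc]
    have h5 : (1 - κ) * ‖(1 - κ)⁻¹‖ ≤ 1 := by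
      rw [Real.norm_eq_abs, _root_.abs_inv]
      rcases eq_or_ne (1 - κ) 0 with h0 | h0
      · rw [h0, zero_mul]; exact zero_le_one
      · have h6 : 0 < |1 - κ| := abs_pos.2 h0
        rw [← div_eq_mul_inv, div_le_one h6]
        exact le_abs_self _
    calc (1 - κ) * ‖(1 - κ)⁻¹‖ * ‖fderiv ℝ (RT h η u) x‖ ≤ 1 * ‖fderiv ℝ (RT h η u) x‖ :=
          mul_le_mul_of_nonneg_right h5 (norm_nonneg _)
      _ = _ := one_mul _

/-- the derivative is Lipschitz -/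
private theorem gt_lipD {f : F → ℝ} (hf : Sm f) :
    ∃ M : ℝ, 0 ≤ M ∧ ∀ x y, ‖fderiv ℝ f x - fderiv ℝ f y‖ ≤ M * ‖x - y‖ := by
  let b := stdOrthonormalBasis ℝ F
  have h1 : ∀ i, ∃ L : ℝ≥0, LipschitzWith L fun x => fderiv ℝ f x (b i) := fun i => (hf.dbl (b i)).1
  choose K hK using h1
  refine ⟨∑ i, (K i : ℝ), Finset.sum_nonneg fun i _ => (K i).2, fun x y => ?_⟩
  have hn : 0 ≤ (∑ i, (K i : ℝ)) * ‖x - y‖ :=
    mul_nonneg (Finset.sum_nonneg fun i _ => (K i).2) (norm_nonneg _)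
  refine ContinuousLinearMap.opNorm_le_bound _ hn fun v => ?_
  have h2 : (fderiv ℝ f x - fderiv ℝ f y) v =
      ∑ i, inner ℝ (b i) v * (fderiv ℝ f x (b i) - fderiv ℝ f y (b i)) := by
    conv_lhs => rw [← b.sum_repr' v]
    rw [map_sum]
    refine Finset.sum_congr rfl fun i _ => ?_
    rw [map_smul, smul_eq_mul]
    rfl
  rw [h2]
  refine (norm_sum_le _ _).trans ?_
  rw [Finset.sum_mul, Finset.sum_mul]
  refine Finset.sum_le_sum fun i _ => ?_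
  rw [norm_mul]
  have h3 : ‖(inner ℝ (b i) v : ℝ)‖ ≤ ‖v‖ := by
    have := norm_inner_le_norm (𝕜 := ℝ) (b i) v
    rwa [b.norm_eq_one, one_mul] at this
  have h4 : ‖fderiv ℝ f x (b i) - fderiv ℝ f y (b i)‖ ≤ K i * ‖x - y‖ := by
    have := (hK i).dist_le_mul x y
    rwa [dist_eq_norm, dist_eq_norm] at this
  calc ‖(inner ℝ (b i) v : ℝ)‖ * ‖fderiv ℝ f x (b i) - fderiv ℝ f y (b i)‖ ≤
        ‖v‖ * (K i * ‖x - y‖) := mul_le_mul h3 h4 (norm_nonneg _) (norm_nonneg _)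
    _ = _ := by ring

/-- The norm of the gradient of a function in `Sm` is bounded and Lipschitz, and
`|f x - f y| ≤ ‖x - y‖ (‖fderiv f y‖ + M ‖x - y‖)`. -/
theorem sm_grad {f : F → ℝ} (hf : Sm f) : BL (fun x => ‖fderiv ℝ f x‖) ∧
    ∃ M : ℝ, 0 ≤ M ∧ ∀ x y, |f x - f y| ≤ ‖x - y‖ * (‖fderiv ℝ f y‖ + M * ‖x - y‖) := by
  obtain ⟨M, hM0, hM⟩ := gt_lipD hf
  obtain ⟨⟨Lf, hL⟩, -⟩ := hf.bl
  refine ⟨⟨⟨⟨M, hM0⟩, LipschitzWith.of_dist_le_mul fun x y => ?_⟩, Lf, fun x => ?_⟩, M, hM0,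
    fun x y => ?_⟩
  · rw [Real.dist_eq, dist_eq_norm]
    exact (abs_norm_sub_norm_le _ _).trans (hM x y)
  · rw [abs_of_nonneg (norm_nonneg _)]
    exact norm_fderiv_le_of_lipschitz ℝ hL
  · have hb : ∀ z ∈ Metric.closedBall y ‖x - y‖,
        ‖fderiv ℝ f z‖ ≤ ‖fderiv ℝ f y‖ + M * ‖x - y‖ := by
      intro z hz
      have h1 : ‖fderiv ℝ f z‖ ≤ ‖fderiv ℝ f y‖ + ‖fderiv ℝ f z - fderiv ℝ f y‖ := by
        have := norm_add_le (fderiv ℝ f y) (fderiv ℝ f z - fderiv ℝ f y)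
        rwa [add_sub_cancel] at this
      refine h1.trans (add_le_add le_rfl ((hM z y).trans ?_))
      refine mul_le_mul_of_nonneg_left ?_ hM0
      rwa [mem_closedBall_iff_norm] at hz
    have h2 := (convex_closedBall y ‖x - y‖).norm_image_sub_le_of_norm_fderiv_le
      (fun z _ => hf.diff z) hb (Metric.mem_closedBall_self (norm_nonneg _))
      (mem_closedBall_iff_norm.2 le_rfl)
    rw [Real.norm_eq_abs, mul_comm] at h2
    exact h2

private theorem gt_mlip {δ : ℝ} (hδ : 0 < δ) :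
    LipschitzWith ⟨δ⁻¹, (inv_pos.2 hδ).le⟩ fun r : ℝ => min r (1 - r) / δ := by
  refine LipschitzWith.of_dist_le_mul fun x y => ?_
  rw [Real.dist_eq, Real.dist_eq]
  show |min x (1 - x) / δ - min y (1 - y) / δ| ≤ δ⁻¹ * |x - y|
  rw [← sub_div, abs_div, abs_of_pos hδ, div_eq_inv_mul]
  refine mul_le_mul_of_nonneg_left ?_ (inv_pos.2 hδ).le
  refine (abs_min_sub_min_le_max _ _ _ _).trans (max_le le_rfl ?_)
  rw [show 1 - x - (1 - y) = -(x - y) by ring, abs_neg]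

/-- `vd`, `gd` are bounded, Lipschitz, and `0 ≤ vd ≤ gd ≤ ‖fderiv f‖` (`δ > 0`). -/
theorem vd_gd {δ : ℝ} (hδ : 0 < δ) {f : F → ℝ} (hf : Sm f) : BL (vd δ f) ∧ BL (gd δ f) ∧
    ∀ x, 0 ≤ vd δ f x ∧ vd δ f x ≤ gd δ f x ∧ gd δ f x ≤ ‖fderiv ℝ f x‖ := by
  have hg := (sm_grad hf).1
  obtain ⟨⟨Lf, hL⟩, -⟩ := hf.bl
  have hchi : BL (chi δ) := by
    refine ⟨⟨_, clip_lip.comp (gt_mlip hδ)⟩, 1, fun r => ?_⟩
    unfold chi
    rw [abs_of_nonneg (clip_nonneg _)]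
    exact clip_le _
  have htht : BL (tht δ) := by
    refine ⟨⟨_, clip_lip.comp ((LipschitzWith.const (2:ℝ)).add (gt_mlip hδ))⟩, 1, fun r => ?_⟩
    unfold tht
    rw [abs_of_nonneg (clip_nonneg _)]
    exact clip_le _
  refine ⟨hg.mul (hchi.comp hL), hg.mul (htht.comp hL), fun x => ⟨?_, ?_, ?_⟩⟩
  · exact mul_nonneg (norm_nonneg _) (clip_nonneg _)
  · refine mul_le_mul_of_nonneg_left ?_ (norm_nonneg _)
    unfold chi tht clip
    exact max_le_max le_rfl (min_le_min le_rfl (by linarith))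
  · have := mul_le_mul_of_nonneg_left (clip_le (2 + min (f x) (1 - f x) / δ))
      (norm_nonneg (fderiv ℝ f x))
    rw [mul_one] at this
    exact this

end Pool.Agent.Lib.MP_8d00da_gt.h97s
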