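import Mathlib
import Pool.Agent.Lib.MP_8d00da_gt.h97s.GBas
import Pool.Agent.Lib.MP_8d00da_gt.h97s.GImpA
import Pool.Agent.Lib.MP_8d00da_gt.h97s.GTestA

/-!
# The second variation
-/

namespace Pool.Agent.Lib.MP_8d00da_gt.h97s

open MeasureTheory Set Filter
open Pool.Agent.Lib.MP_8d00da_gt.h25 Pool.Agent.Lib.MP_8d00da_gt.h42
open Pool.Agent.Lib.MP_8d00da_gt.h42s Pool.Agent.Lib.MP_8d00da_gt.h42o
open Pool.Agent.Lib.MP_8d00da_gt.h97r
open scoped Topology NNReal

set_option linter.unusedSectionVars false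

variable {F : Type*} [NormedAddCommGroup F] [InnerProductSpace ℝ F]
    [FiniteDimensional ℝ F] [MeasurableSpace F] [BorelSpace F]

variable {L B C0 η κ α γ : ℝ} {h W : F → ℝ}

/-- For a minimiser `u = clip f` the second variation in direction `v = vd δ f` is nonnegative.
For small `s > 0` the function `u + s v` has values in `[0, 1]` (`v = 0` outside `{0 < f < 1}`,
where `u = f`, and `v ≤ Lf (1 - f) / δ`) and mean `≤ 1/2`; in `FE_add` the linear term vanishes
because `(1 - κ) u - RT u - cc = (1 - κ) (u - f) = 0` where `v ≠ 0`. Divide by `s²`. -/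
theorem second_var (H : Wt h B) (hi : Integrable h) (hη : 0 < η) (hκ : κ < 1)
    {u : F → ℝ} (hu : U1 u) (hm : mf h u < 1 / 2)
    (hmin : ∀ v : F → ℝ, U1 v → mf h v ≤ 1 / 2 → FE h η κ α γ u ≤ FE h η κ α γ v)
    (heq : ∀ x, u x = clip (ef h η κ α γ u x)) {δ : ℝ} (hδ : 0 < δ) (hδ1 : δ ≤ 1 / 2) :
    γ * mf h (vd δ (ef h η κ α γ u)) ^ 2 ≤
      (1 - κ) * (∫ x, vd δ (ef h η κ α γ u) x ^ 2 * h x) -
        ∫ x, vd δ (ef h η κ α γ u) x * RT h η (vd δ (ef h η κ α γ u)) x * h x := by
  set f : F → ℝ := ef h η κ α γ u with hf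
  have hfs : Sm f := (ef_sm H hη hu.bl).1
  obtain ⟨⟨Lf, hL⟩, -⟩ := hfs.bl
  set v : F → ℝ := vd δ f with hv
  have hvbl : BL v := (vd_gd hδ hfs).1
  have hv0 : ∀ x, 0 ≤ v x := fun x => ((vd_gd hδ hfs).2.2 x).1
  have hgr : ∀ x, ‖fderiv ℝ f x‖ ≤ Lf := fun x => norm_fderiv_le_of_lipschitz ℝ hL
  -- `v` vanishes outside of `{0 < f < 1}`
  have hvz : ∀ x, f x ≤ 0 ∨ 1 ≤ f x → v x = 0 := by
    intro x hx
    have h1 : chi δ (f x) = 0 := by
      unfold chi
      refine clip_of_nonpos (div_nonpos_of_nonpos_of_nonneg ?_ hδ.le)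
      rcases hx with hx | hx
      · exact (min_le_left _ _).trans hx
      · exact (min_le_right _ _).trans (by linarith)
    rw [hv, vd, h1, mul_zero]
  have huf : ∀ x, 0 < f x → f x < 1 → u x = f x := fun x h0 h1 => by
    rw [heq x, clip_of_mem h0.le h1.le]
  have hvle : ∀ x, 0 < f x → f x < 1 → v x ≤ Lf * ((1 - f x) / δ) := by
    intro x h0 h1
    have h2 : 0 ≤ min (f x) (1 - f x) / δ := div_nonneg (le_min h0.le (by linarith)) hδ.le
    have h3 : chi δ (f x) ≤ (1 - f x) / δ := by
      unfold chi clip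
      refine max_le (div_nonneg (by linarith) hδ.le) ((min_le_right _ _).trans ?_)
      exact div_le_div_of_nonneg_right (min_le_right _ _) hδ.le
    exact mul_le_mul (hgr x) h3 (clip_nonneg _) Lf.2
  have hRv : BL (RT h η v) := by
    obtain ⟨⟨Lv, hLv⟩, A, hA⟩ := hvbl
    obtain ⟨h1, h2⟩ := RT_props H hη hLv hA
    exact ⟨h2, A, h1⟩
  -- choice of `s`
  obtain ⟨s, hs0, hs1, hs2⟩ : ∃ s : ℝ, 0 < s ∧ s * Lf ≤ δ ∧ mf h u + s * mf h v ≤ 1 / 2 := by
    have hm' : 0 < 1 / 2 - mf h u := by linarith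
    refine ⟨min (δ / (Lf + 1)) ((1 / 2 - mf h u) / (|mf h v| + 1)), lt_min ?_ ?_, ?_, ?_⟩
    · have := Lf.2
      positivity
    · positivity
    · have h1 := Lf.2
      calc min (δ / (Lf + 1)) ((1 / 2 - mf h u) / (|mf h v| + 1)) * Lf
          ≤ δ / (Lf + 1) * Lf := mul_le_mul_of_nonneg_right (min_le_left _ _) h1
        _ ≤ δ := by
          rw [div_mul_eq_mul_div, div_le_iff₀ (by positivity)]
          nlinarith
    · have h2 : min (δ / (Lf + 1)) ((1 / 2 - mf h u) / (|mf h v| + 1)) * mf h v ≤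
          1 / 2 - mf h u := by
        have h3 : 0 ≤ min (δ / (Lf + 1)) ((1 / 2 - mf h u) / (|mf h v| + 1)) := by
          have := Lf.2
          exact le_min (by positivity) (by positivity)
        calc _ ≤ min (δ / (Lf + 1)) ((1 / 2 - mf h u) / (|mf h v| + 1)) * |mf h v| :=
              mul_le_mul_of_nonneg_left (le_abs_self _) h3
          _ ≤ (1 / 2 - mf h u) / (|mf h v| + 1) * |mf h v| :=
              mul_le_mul_of_nonneg_right (min_le_right _ _) (abs_nonneg _)
          _ ≤ 1 / 2 - mf h u := by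
              rw [div_mul_eq_mul_div, div_le_iff₀ (by positivity)]
              nlinarith [abs_nonneg (mf h v)]
      linarith
  have hφ : BL fun x => s * v x := (BL.const s).mul hvbl
  -- the competitor
  have hU : U1 fun x => u x + s * v x := by
    refine ⟨hu.bl.add hφ, fun x => add_nonneg (hu.nn x) (mul_nonneg hs0.le (hv0 x)), fun x => ?_⟩
    by_cases hx : f x ≤ 0 ∨ 1 ≤ f x
    · rw [hvz x hx, mul_zero, add_zero]
      exact hu.le x
    · rw [not_or, not_le, not_le] at hx
      have h1 := hvle x hx.1 hx.2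
      rw [huf x hx.1 hx.2]
      have h2 : s * v x ≤ 1 - f x := by
        calc s * v x ≤ s * (Lf * ((1 - f x) / δ)) := mul_le_mul_of_nonneg_left h1 hs0.le
          _ = s * Lf * ((1 - f x) / δ) := by ring
          _ ≤ δ * ((1 - f x) / δ) :=
            mul_le_mul_of_nonneg_right hs1 (div_nonneg (by linarith [hx.2]) hδ.le)
          _ = 1 - f x := by field_simp
      linarith
  have hmφ : mf h (fun x => s * v x) = s * mf h v := by
    unfold mf
    rw [← integral_const_mul]
    exact integral_congr_ae (Eventually.of_forall fun x => by simp only; ring)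
  have hmU : mf h (fun x => u x + s * v x) ≤ 1 / 2 := by
    have h1 : mf h (fun x => u x + s * v x) = mf h u + mf h fun x => s * v x := by
      unfold mf
      rw [← integral_add (bl_int hi hu.bl) (bl_int hi hφ)]
      exact integral_congr_ae (Eventually.of_forall fun x => by simp only; ring)
    rw [h1, hmφ]
    exact hs2
  have hRs : ∀ x, RT h η (fun x => s * v x) x = s * RT h η v x := by
    intro x
    have h1 := RT_add_smul H hη (BL.const (F := F) 0) hvbl s x
    rw [RT_const H hη] at h1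
    simpa only [zero_add] using h1
  have h1 := hmin _ hU hmU
  rw [FE_add H hi hη hu.bl hφ, hmφ] at h1
  -- the linear term vanishes
  have hlin : ∫ x, (s * v x) * ((1 - κ) * u x - RT h η u x - cc h κ α γ u) * h x = 0 := by
    rw [← integral_zero F ℝ]
    refine integral_congr_ae (Eventually.of_forall fun x => ?_)
    show (s * v x) * ((1 - κ) * u x - RT h η u x - cc h κ α γ u) * h x = 0
    by_cases hx : f x ≤ 0 ∨ 1 ≤ f x
    · rw [hvz x hx]
      ring
    · rw [not_or, not_le, not_le] at hx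
      have hκ' : (1 - κ) ≠ 0 := by linarith
      have h2 : (1 - κ) * f x = RT h η u x + cc h κ α γ u := by
        rw [hf, ef]
        field_simp
      rw [huf x hx.1 hx.2, h2]
      ring
  have hq1 : ∫ x, (s * v x) ^ 2 * h x = s ^ 2 * ∫ x, v x ^ 2 * h x := by
    rw [← integral_const_mul]
    exact integral_congr_ae (Eventually.of_forall fun x => by simp only; ring)
  have hq2 : ∫ x, (s * v x) * RT h η (fun x => s * v x) x * h x =
      s ^ 2 * ∫ x, v x * RT h η v x * h x := by
    rw [← integral_const_mul]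
    exact integral_congr_ae (Eventually.of_forall fun x => by simp only [hRs]; ring)
  rw [hlin, hq1, hq2] at h1
  have h2 : 0 ≤ s ^ 2 * ((1 - κ) * (∫ x, v x ^ 2 * h x) - (∫ x, v x * RT h η v x * h x) -
      γ * mf h v ^ 2) := by nlinarith
  have h3 := nonneg_of_mul_nonneg_right h2 (by positivity)
  linarith

end Pool.Agent.Lib.MP_8d00da_gt.h97s
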