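import Mathlib
import Pool.Agent.Lib.MP_8d00da_gt.h97s.GTestB
import Pool.Agent.Lib.MP_8d00da_gt.h97s.GGrad

/-!
# The bound for the test functions
-/

namespace Pool.Agent.Lib.MP_8d00da_gt.h97s

open MeasureTheory Set Filter
open Pool.Agent.Lib.MP_8d00da_gt.h25 Pool.Agent.Lib.MP_8d00da_gt.h42
open Pool.Agent.Lib.MP_8d00da_gt.h42s Pool.Agent.Lib.MP_8d00da_gt.h42o
open Pool.Agent.Lib.MP_8d00da_gt.h97r
open scoped Topology NNReal

set_option linter.unusedSectionVars false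

variable {F : Type*} [NormedAddCommGroup F] [InnerProductSpace ℝ F]
    [FiniteDimensional ℝ F] [MeasurableSpace F] [BorelSpace F]

variable {L B C0 η κ α γ : ℝ} {h W : F → ℝ}

/-- `u = clip f` satisfies the hypothesis of `grad_comm` with `g = gd δ f`. Let `M` be as in
`sm_grad`, `|f x - f y| ≤ Lf ‖x - y‖`, `r0 = δ / (1 + Lf)`, `K = max M (1 / r0²)`. If
`‖z - z'‖ ≥ r0` then `u z - u z' ≤ 1 ≤ K ‖z - z'‖²`. If `‖z - z'‖ < r0`: when
`f z' ∈ [-δ, 1 + δ]`, `tht δ (f z') = 1` and `u z - u z' ≤ |f z - f z'|`; when `f z' < -δ`,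
`f z < 0` and both values of `u` are `0`; when `f z' > 1 + δ`, `u z' = 1`. -/
theorem clip_grad {δ : ℝ} (hδ : 0 < δ) {f : F → ℝ} (hf : Sm f) : ∃ K : ℝ, 0 ≤ K ∧
    ∀ z z', clip (f z) - clip (f z') ≤ ‖z - z'‖ * (gd δ f z' + K * ‖z - z'‖) := by
  obtain ⟨-, M, hM0, hM⟩ := sm_grad hf
  obtain ⟨⟨Lf, hLf⟩, -⟩ := hf.bl
  have hLf0 : (0:ℝ) ≤ Lf := Lf.coe_nonneg
  obtain ⟨r0, hr0d⟩ : ∃ r0, r0 = δ / (1 + (Lf : ℝ)) := ⟨_, rfl⟩
  have hr0 : 0 < r0 := by rw [hr0d]; positivity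
  have hLr : Lf * r0 < δ := by
    rw [hr0d, mul_div_assoc', div_lt_iff₀ (by positivity)]
    nlinarith
  refine ⟨max M (1 / r0 ^ 2), hM0.trans (le_max_left _ _), fun z z' => ?_⟩
  have hK0 : 0 ≤ max M (1 / r0 ^ 2) := hM0.trans (le_max_left _ _)
  obtain ⟨-, -, hvg⟩ := vd_gd hδ hf
  have hg0 : 0 ≤ gd δ f z' := (hvg z').1.trans (hvg z').2.1
  obtain ⟨d, hd⟩ : ∃ d, d = ‖z - z'‖ := ⟨_, rfl⟩
  have hd0 : 0 ≤ d := by rw [hd]; exact norm_nonneg _
  rw [← hd]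
  have hR0 : 0 ≤ d * (gd δ f z' + max M (1 / r0 ^ 2) * d) := by positivity
  rcases le_or_gt r0 d with h1 | h1
  · have h2 : clip (f z) - clip (f z') ≤ 1 := by
      have := clip_le (f z)
      have := clip_nonneg (f z')
      linarith
    have h3 : 1 ≤ 1 / r0 ^ 2 * d ^ 2 := by
      rw [one_div, inv_mul_eq_div, one_le_div (by positivity)]
      exact pow_le_pow_left₀ hr0.le h1 2
    have h4 : 1 / r0 ^ 2 * d ^ 2 ≤ max M (1 / r0 ^ 2) * d ^ 2 :=
      mul_le_mul_of_nonneg_right (le_max_right _ _) (sq_nonneg _)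
    have h5 : 0 ≤ d * gd δ f z' := mul_nonneg hd0 hg0
    nlinarith
  · have h2 : |f z - f z'| < δ := by
      have h3 := hLf.dist_le_mul z z'
      rw [Real.dist_eq, dist_eq_norm, ← hd] at h3
      have h4 : Lf * d ≤ Lf * r0 := mul_le_mul_of_nonneg_left h1.le hLf0
      linarith
    rw [abs_lt] at h2
    by_cases h3 : f z' < -δ
    · rw [clip_of_nonpos (by linarith : f z ≤ 0), clip_of_nonpos (by linarith : f z' ≤ 0), sub_zero]
      exact hR0
    by_cases h4 : 1 + δ < f z'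
    · rw [clip_of_one_le (by linarith : 1 ≤ f z')]
      have := clip_le (f z)
      linarith
    rw [not_lt] at h3 h4
    have h5 : tht δ (f z') = 1 := by
      unfold tht
      apply clip_of_one_le
      have h6 : -δ ≤ min (f z') (1 - f z') := le_min h3 (by linarith)
      have h7 : -1 ≤ min (f z') (1 - f z') / δ := by
        rw [le_div_iff₀ hδ]
        linarith
      linarith
    have h6 : gd δ f z' = ‖fderiv ℝ f z'‖ := by
      unfold gd
      rw [h5, mul_one]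
    have h7 : clip (f z) - clip (f z') ≤ |f z - f z'| := by
      have h8 := clip_lip.dist_le_mul (f z) (f z')
      rw [Real.dist_eq, Real.dist_eq] at h8
      have h9 := le_abs_self (clip (f z) - clip (f z'))
      simp only [NNReal.coe_one, one_mul] at h8
      linarith
    have h8 := hM z z'
    rw [← hd, ← h6] at h8
    refine h7.trans (h8.trans ?_)
    refine mul_le_mul_of_nonneg_left ?_ hd0
    have h9 : M * d ≤ max M (1 / r0 ^ 2) * d := mul_le_mul_of_nonneg_right (le_max_left _ _) hd0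
    linarith

/-- `(1 - κ) ‖∇ f‖ ≤ ‖∇ RT u‖ ≤ RT (gd δ f)`. -/
theorem grad_gd (H : GH L B C0 h W) (hη : 0 < η) {u : F → ℝ} (hu : U1 u)
    (heq : ∀ x, u x = clip (ef h η κ α γ u x)) {δ : ℝ} (hδ : 0 < δ) (x : F) :
    (1 - κ) * ‖fderiv ℝ (ef h η κ α γ u) x‖ ≤ RT h η (gd δ (ef h η κ α γ u)) x := by
  obtain ⟨hsm, hfd⟩ := ef_sm (κ := κ) (α := α) (γ := γ) H.wt hη hu.bl
  obtain ⟨K, hK, hKb⟩ := clip_grad hδ hsm
  obtain ⟨-, hg, hvg⟩ := vd_gd hδ hsm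
  refine (hfd x).trans (grad_comm H.pw H.Lnn hη hu.bl hg
    (fun y => (hvg y).1.trans (hvg y).2.1) hK (fun z z' => ?_) x)
  rw [heq z, heq z']
  exact hKb z z'

/-- With `v = vd δ f`, `g = gd δ f`: `∫ v (RT g) h ≥ (1 - κ) ∫ v ‖∇ f‖ h ≥ (1 - κ) ∫ v² h` and
`∫ v (RT (g - v)) h ≤ ‖v‖ ‖g - v‖` (`RT_abs`), so
`γ (mf v)² ≤ (1 - κ) ‖v‖² - ⟨v, RT v⟩ ≤ ‖v‖ ‖g - v‖`. -/
theorem test_bound (H : GH L B C0 h W) (hη : 0 < η) (hκ : κ < 1)
    {u : F → ℝ} (hu : U1 u) (hm : mf h u < 1 / 2)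
    (hmin : ∀ v : F → ℝ, U1 v → mf h v ≤ 1 / 2 → FE h η κ α γ u ≤ FE h η κ α γ v)
    (heq : ∀ x, u x = clip (ef h η κ α γ u x)) {δ : ℝ} (hδ : 0 < δ) (hδ1 : δ ≤ 1 / 2) :
    γ * mf h (vd δ (ef h η κ α γ u)) ^ 2 ≤
      Real.sqrt (∫ x, vd δ (ef h η κ α γ u) x ^ 2 * h x) *
        Real.sqrt (∫ x, (gd δ (ef h η κ α γ u) x - vd δ (ef h η κ α γ u) x) ^ 2 * h x) := by
  obtain ⟨hsm, -⟩ := ef_sm (κ := κ) (α := α) (γ := γ) H.wt hη hu.bl
  obtain ⟨hv, hg, hvg⟩ := vd_gd hδ hsm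
  have h1 := second_var H.wt H.int hη hκ hu hm hmin heq hδ hδ1
  have hgr := grad_gd (κ := κ) (α := α) (γ := γ) H hη hu heq hδ
  obtain ⟨f, hf⟩ : ∃ f, f = ef h η κ α γ u := ⟨_, rfl⟩
  rw [← hf] at hsm hv hg hvg h1 hgr ⊢
  obtain ⟨v, hvd⟩ : ∃ v, v = vd δ f := ⟨_, rfl⟩
  obtain ⟨g, hgd⟩ : ∃ g, g = gd δ f := ⟨_, rfl⟩
  rw [← hvd] at hv hvg h1 ⊢
  rw [← hgd] at hg hvg hgr ⊢
  have hw : BL (fun x => g x - v x) := hg.sub hv
  have hRg : BL (RT h η g) := (RT_sm H.wt hη hg).bl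
  have hRv : BL (RT h η v) := (RT_sm H.wt hη hv).bl
  have hRw : BL (RT h η fun x => g x - v x) := (RT_sm H.wt hη hw).bl
  have hlin : ∀ x, RT h η g x = RT h η v x + RT h η (fun x => g x - v x) x := by
    intro x
    have h2 := RT_add_smul H.wt hη hv hw 1 x
    rw [one_mul] at h2
    rw [← h2]
    congr 1
    funext y
    ring
  -- `(1 - κ) ∫ v² h ≤ ∫ v (RT g) h`
  have h2 : (1 - κ) * (∫ x, v x ^ 2 * h x) ≤ ∫ x, v x * RT h η g x * h x := by
    rw [← integral_const_mul]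
    refine integral_mono ((bl_sq H.int hv).const_mul _) (bl_int2 H.int hv hRg) fun x => ?_
    have h3 := hvg x
    have h4 := hgr x
    have h5 : (1 - κ) * v x ≤ RT h η g x := by
      have : v x ≤ ‖fderiv ℝ f x‖ := h3.2.1.trans h3.2.2
      have : (1 - κ) * v x ≤ (1 - κ) * ‖fderiv ℝ f x‖ :=
        mul_le_mul_of_nonneg_left this (by linarith)
      linarith
    have h6 : v x * ((1 - κ) * v x) ≤ v x * RT h η g x := mul_le_mul_of_nonneg_left h5 h3.1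
    have h7 := mul_le_mul_of_nonneg_right h6 (H.pos x).le
    calc (1 - κ) * (v x ^ 2 * h x) = v x * ((1 - κ) * v x) * h x := by ring
      _ ≤ v x * RT h η g x * h x := h7
  have h3 : ∫ x, v x * RT h η g x * h x = (∫ x, v x * RT h η v x * h x) +
      ∫ x, v x * RT h η (fun x => g x - v x) x * h x := by
    rw [← integral_add (bl_int2 H.int hv hRv) (bl_int2 H.int hv hRw)]
    refine integral_congr_ae (Eventually.of_forall fun x => ?_)
    simp only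
    rw [hlin x]
    ring
  have h4 := RT_abs H.wt H.int hη hv hw
  have h5 := le_abs_self (∫ x, v x * RT h η (fun x => g x - v x) x * h x)
  linarith

end Pool.Agent.Lib.MP_8d00da_gt.h97s
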