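import Mathlib
import Pool.Agent.Lib.MP_8d00da_gt.h97s.GTestC

/-!
# Level sets of smooth functions
-/

namespace Pool.Agent.Lib.MP_8d00da_gt.h97s

open MeasureTheory Set Filter
open Pool.Agent.Lib.MP_8d00da_gt.h25 Pool.Agent.Lib.MP_8d00da_gt.h42
open Pool.Agent.Lib.MP_8d00da_gt.h42s Pool.Agent.Lib.MP_8d00da_gt.h42o
open Pool.Agent.Lib.MP_8d00da_gt.h97r
open scoped Topology NNReal

set_option linter.unusedSectionVars false

variable {F : Type*} [NormedAddCommGroup F] [InnerProductSpace ℝ F]
    [FiniteDimensional ℝ F] [MeasurableSpace F] [BorelSpace F]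

variable {L B C0 η κ α γ : ℝ} {h W : F → ℝ}

/-- Almost everywhere, `f x = 0` or `f x = 1` implies `fderiv f x = 0`: `x ↦ clip (f x)` is
Lipschitz, hence differentiable almost everywhere (`LipschitzWith.ae_differentiableAt`), and if
`f x = 0` and `fderiv f x ≠ 0` then `clip ∘ f` is not differentiable at `x` (one-sided
derivatives in a direction `e` with `fderiv f x e ≠ 0`). -/
theorem ae_level {f : F → ℝ} (hf : Sm f) :
    ∀ᵐ x : F, (f x = 0 ∨ f x = 1) → fderiv ℝ f x = 0 := by
  obtain ⟨⟨Lf, hLf⟩, -⟩ := hf.bl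
  have hlip : LipschitzWith (1 * Lf) fun x => clip (f x) := clip_lip.comp hLf
  have hfc : Continuous f := hLf.continuous
  filter_upwards [hlip.ae_differentiableAt (μ := volume)] with x hx h01
  have hfd : DifferentiableAt ℝ f x := hf.diff x
  have hsub : HasFDerivAt (fun y => f y - clip (f y))
      (fderiv ℝ f x - fderiv ℝ (fun y => clip (f y)) x) x := hfd.hasFDerivAt.sub hx.hasFDerivAt
  rcases h01 with h0 | h1
  · have hc0 : clip (f x) = 0 := by rw [h0, clip_of_nonpos le_rfl]
    have e1 : fderiv ℝ (fun y => clip (f y)) x = 0 := by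
      apply IsLocalMin.fderiv_eq_zero
      refine Eventually.of_forall fun y => ?_
      simp only [hc0]
      exact clip_nonneg _
    have e2 : fderiv ℝ f x - fderiv ℝ (fun y => clip (f y)) x = 0 := by
      refine IsLocalMax.hasFDerivAt_eq_zero ?_ hsub
      have h2 : ∀ᶠ y in 𝓝 x, f y < 1 := hfc.continuousAt.eventually_lt_const (by rw [h0]; exact one_pos)
      filter_upwards [h2] with y hy
      rw [hc0, h0]
      rcases le_total (f y) 0 with h3 | h3
      · rw [clip_of_nonpos h3]; linarith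
      · rw [clip_of_mem h3 hy.le]; linarith
    rw [e1, sub_zero] at e2
    exact e2
  · have hc0 : clip (f x) = 1 := by rw [h1, clip_of_one_le le_rfl]
    have e1 : fderiv ℝ (fun y => clip (f y)) x = 0 := by
      apply IsLocalMax.fderiv_eq_zero
      refine Eventually.of_forall fun y => ?_
      simp only [hc0]
      exact clip_le _
    have e2 : fderiv ℝ f x - fderiv ℝ (fun y => clip (f y)) x = 0 := by
      refine IsLocalMin.hasFDerivAt_eq_zero ?_ hsub
      have h2 : ∀ᶠ y in 𝓝 x, 0 < f y := hfc.continuousAt.eventually_const_lt (by rw [h1]; exact one_pos)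
      filter_upwards [h2] with y hy
      rw [hc0, h1]
      rcases le_total (f y) 1 with h3 | h3
      · rw [clip_of_mem hy.le h3]; linarith
      · rw [clip_of_one_le h3]; linarith
    rw [e1, sub_zero] at e2
    exact e2

/-- `‖fderiv (clip ∘ f) x‖ ≤ gd δ f x` for every `δ > 0` (`clip_grad`; where `clip ∘ f` is not
differentiable the left side is `0`). -/
theorem clip_fderiv {δ : ℝ} (hδ : 0 < δ) {f : F → ℝ} (hf : Sm f) (x : F) :
    ‖fderiv ℝ (fun x => clip (f x)) x‖ ≤ gd δ f x := by
  obtain ⟨K, hK, hKb⟩ := clip_grad hδ hf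
  obtain ⟨-, hg, hvg⟩ := vd_gd hδ hf
  have hg0 : 0 ≤ gd δ f x := (hvg x).1.trans (hvg x).2.1
  by_cases hx : DifferentiableAt ℝ (fun x => clip (f x)) x
  swap
  · rw [fderiv_zero_of_not_differentiableAt hx, norm_zero]
    exact hg0
  refine le_of_forall_pos_le_add fun ε hε => ?_
  have hgc : Continuous (gd δ f) := by
    obtain ⟨⟨Lg, hLg⟩, -⟩ := hg
    exact hLg.continuous
  refine hx.hasFDerivAt.le_of_lip' (by positivity) ?_
  have h1 : ∀ᶠ y in 𝓝 x, gd δ f y + K * ‖y - x‖ < gd δ f x + ε := by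
    have hc : Continuous fun y => gd δ f y + K * ‖y - x‖ := by fun_prop
    refine hc.continuousAt.eventually_lt_const ?_
    simp only [sub_self, norm_zero, mul_zero, add_zero]
    linarith
  have h2 : ∀ᶠ y in 𝓝 x, gd δ f x + K * ‖y - x‖ < gd δ f x + ε := by
    have hc : Continuous fun y => gd δ f x + K * ‖y - x‖ := by fun_prop
    refine hc.continuousAt.eventually_lt_const ?_
    simp only [sub_self, norm_zero, mul_zero, add_zero]
    linarith
  filter_upwards [h1, h2] with y hy1 hy2
  rw [Real.norm_eq_abs, abs_le]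
  have a1 := hKb y x
  have a2 := hKb x y
  rw [norm_sub_rev x y] at a2
  have hn := norm_nonneg (y - x)
  have b1 : ‖y - x‖ * (gd δ f x + K * ‖y - x‖) ≤ ‖y - x‖ * (gd δ f x + ε) :=
    mul_le_mul_of_nonneg_left hy2.le hn
  have b2 : ‖y - x‖ * (gd δ f y + K * ‖y - x‖) ≤ ‖y - x‖ * (gd δ f x + ε) :=
    mul_le_mul_of_nonneg_left hy1.le hn
  constructor <;> linarith

end Pool.Agent.Lib.MP_8d00da_gt.h97s
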