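import Mathlib
import Pool.Agent.Lib.MP_8d00da_gt.h97s.GLimA

/-!
# The energy of the minimiser vanishes
-/

namespace Pool.Agent.Lib.MP_8d00da_gt.h97s

open MeasureTheory Set Filter
open Pool.Agent.Lib.MP_8d00da_gt.h25 Pool.Agent.Lib.MP_8d00da_gt.h42
open Pool.Agent.Lib.MP_8d00da_gt.h42s Pool.Agent.Lib.MP_8d00da_gt.h42o
open Pool.Agent.Lib.MP_8d00da_gt.h97r
open scoped Topology NNReal

set_option linter.unusedSectionVars false

variable {F : Type*} [NormedAddCommGroup F] [InnerProductSpace ℝ F]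
    [FiniteDimensional ℝ F] [MeasurableSpace F] [BorelSpace F]

variable {L B C0 η κ α γ : ℝ} {h W : F → ℝ}

private lemma ez_small {m : ℝ} (hm : 0 < m) : ∀ᶠ n : ℕ in atTop, 1 / ((n : ℝ) + 2) ≤ m := by
  obtain ⟨N, hN⟩ := exists_nat_one_div_lt hm
  filter_upwards [eventually_ge_atTop N] with n hn
  refine le_trans ?_ hN.le
  have h1 : (N : ℝ) ≤ n := by exact_mod_cast hn
  exact one_div_le_one_div_of_le (by positivity) (by linarith)

private lemma ez_chi (r : ℝ) : ∀ᶠ n : ℕ in atTop,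
    chi (1 / ((n : ℝ) + 2)) r = if 0 < r ∧ r < 1 then 1 else 0 := by
  by_cases hr : 0 < r ∧ r < 1
  · have hm : 0 < min r (1 - r) := lt_min hr.1 (by linarith [hr.2])
    filter_upwards [ez_small hm] with n hn
    rw [if_pos hr]
    unfold chi
    refine clip_of_one_le ?_
    rw [le_div_iff₀ (by positivity), one_mul]
    exact hn
  · have hm : min r (1 - r) ≤ 0 := by
      rcases not_and_or.1 hr with h1 | h1
      · exact (min_le_left _ _).trans (not_lt.1 h1)
      · exact (min_le_right _ _).trans (by linarith [not_lt.1 h1])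
    refine Eventually.of_forall fun n => ?_
    rw [if_neg hr]
    unfold chi
    exact clip_of_nonpos (div_nonpos_of_nonpos_of_nonneg hm (by positivity))

private lemma ez_tht (r : ℝ) : ∀ᶠ n : ℕ in atTop,
    tht (1 / ((n : ℝ) + 2)) r = if 0 ≤ r ∧ r ≤ 1 then 1 else 0 := by
  by_cases hr : 0 ≤ r ∧ r ≤ 1
  · have hm : 0 ≤ min r (1 - r) := le_min hr.1 (by linarith [hr.2])
    refine Eventually.of_forall fun n => ?_
    rw [if_pos hr]
    unfold tht
    refine clip_of_one_le ?_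
    have : 0 ≤ min r (1 - r) / (1 / ((n : ℝ) + 2)) := div_nonneg hm (by positivity)
    linarith
  · have hm : min r (1 - r) < 0 := by
      rcases not_and_or.1 hr with h1 | h1
      · exact (min_le_left _ _).trans_lt (not_le.1 h1)
      · exact (min_le_right _ _).trans_lt (by linarith [not_le.1 h1])
    have hm' : 0 < -min r (1 - r) / 2 := by linarith
    filter_upwards [ez_small hm'] with n hn
    rw [if_neg hr]
    unfold tht
    refine clip_of_nonpos ?_
    have h1 : min r (1 - r) / (1 / ((n : ℝ) + 2)) ≤ -2 := by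
      rw [div_le_iff₀ (by positivity)]
      linarith
    linarith

private lemma ez_lim (hi : Integrable h) {w : ℕ → F → ℝ} {u : F → ℝ} {M : ℝ}
    (hm : ∀ j, Measurable (w j)) (hb : ∀ j x, |w j x| ≤ M)
    (hlim : ∀ᵐ x, Tendsto (fun j => w j x) atTop (𝓝 (u x))) :
    Tendsto (fun j => ∫ x, w j x * h x) atTop (𝓝 (∫ x, u x * h x)) := by
  refine tendsto_integral_of_dominated_convergence (fun x => M * |h x|) (fun j => ?_)
    (hi.abs.const_mul M) (fun j => Eventually.of_forall fun x => ?_)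
    (hlim.mono fun x hx => hx.mul_const (h x))
  · exact (hm j).aestronglyMeasurable.mul hi.aestronglyMeasurable
  · rw [Real.norm_eq_abs, abs_mul]
    exact mul_le_mul_of_nonneg_right (hb j x) (abs_nonneg _)

/-- As `δ → 0`, `vd δ f x` tends to `v x = ‖∇ f x‖` if `0 < f x < 1` and to `0` otherwise, and
`gd δ f x - vd δ f x` tends to `‖∇ f x‖` if `f x ∈ {0, 1}` and to `0` otherwise, so by `ae_level`
it tends to `0` almost everywhere (dominated convergence, `‖∇ f‖` is bounded). By `test_bound`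
`γ (∫ v h)² ≤ 0`, so `v = 0` almost everywhere; then `gd δ f → 0` almost everywhere and
`En h u ≤ ∫ (gd δ f)² h → 0`. -/
theorem En_zero (H : GH L B C0 h W) (hη : 0 < η) (hκ : κ < 1) (hγ : 0 < γ)
    {u : F → ℝ} (hu : U1 u) (hm : mf h u < 1 / 2)
    (hmin : ∀ v : F → ℝ, U1 v → mf h v ≤ 1 / 2 → FE h η κ α γ u ≤ FE h η κ α γ v)
    (heq : ∀ x, u x = clip (ef h η κ α γ u x)) : En h u = 0 := by
  classical
  set f : F → ℝ := ef h η κ α γ u with hfdef
  have hf : Sm f := (ef_sm H.wt hη hu.bl).1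
  have hi : Integrable h := H.int
  have hδ : ∀ n : ℕ, (0 : ℝ) < 1 / ((n : ℝ) + 2) := fun n => by positivity
  have hδ1 : ∀ n : ℕ, 1 / ((n : ℝ) + 2) ≤ 1 / 2 := fun n => by
    have : (0 : ℝ) ≤ n := n.cast_nonneg
    exact one_div_le_one_div_of_le (by norm_num) (by linarith)
  obtain ⟨⟨-, A, hA⟩, -⟩ := sm_grad hf
  have hA' : ∀ x, ‖fderiv ℝ f x‖ ≤ A := fun x => (le_abs_self _).trans (hA x)
  have hA0 : 0 ≤ A := (norm_nonneg _).trans (hA' 0)
  have hvg := fun n : ℕ => vd_gd (hδ n) hf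
  have hvm : ∀ n : ℕ, Measurable (vd (1 / ((n : ℝ) + 2)) f) := fun n => bl_meas (hvg n).1
  have hgm : ∀ n : ℕ, Measurable (gd (1 / ((n : ℝ) + 2)) f) := fun n => bl_meas (hvg n).2.1
  have hv0 : ∀ (n : ℕ) x, 0 ≤ vd (1 / ((n : ℝ) + 2)) f x := fun n x => ((hvg n).2.2 x).1
  have hvA : ∀ (n : ℕ) x, |vd (1 / ((n : ℝ) + 2)) f x| ≤ A := fun n x => by
    rw [abs_of_nonneg (hv0 n x)]
    exact ((hvg n).2.2 x).2.1.trans (((hvg n).2.2 x).2.2.trans (hA' x))
  have hgA : ∀ (n : ℕ) x, |gd (1 / ((n : ℝ) + 2)) f x| ≤ A := fun n x => by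
    rw [abs_of_nonneg ((hv0 n x).trans ((hvg n).2.2 x).2.1)]
    exact ((hvg n).2.2 x).2.2.trans (hA' x)
  have hdA : ∀ (n : ℕ) x,
      |gd (1 / ((n : ℝ) + 2)) f x - vd (1 / ((n : ℝ) + 2)) f x| ≤ A := fun n x => by
    rw [abs_of_nonneg (sub_nonneg.2 ((hvg n).2.2 x).2.1)]
    have h1 := hv0 n x
    have h2 := ((hvg n).2.2 x).2.2.trans (hA' x)
    linarith
  set V : F → ℝ := fun x => ‖fderiv ℝ f x‖ * (if 0 < f x ∧ f x < 1 then 1 else 0) with hVdef
  set G : F → ℝ := fun x => ‖fderiv ℝ f x‖ * (if 0 ≤ f x ∧ f x ≤ 1 then 1 else 0) with hGdef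
  have hV : ∀ x, Tendsto (fun n : ℕ => vd (1 / ((n : ℝ) + 2)) f x) atTop (𝓝 (V x)) := by
    intro x
    refine tendsto_const_nhds.congr' ?_
    filter_upwards [ez_chi (f x)] with n hn
    unfold vd
    rw [hn]
  have hG : ∀ x, Tendsto (fun n : ℕ => gd (1 / ((n : ℝ) + 2)) f x) atTop (𝓝 (G x)) := by
    intro x
    refine tendsto_const_nhds.congr' ?_
    filter_upwards [ez_tht (f x)] with n hn
    unfold gd
    rw [hn]
  have hGV : ∀ᵐ x, G x = V x := by
    filter_upwards [ae_level hf] with x hx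
    by_cases h01 : f x = 0 ∨ f x = 1
    · simp only [hVdef, hGdef, hx h01, norm_zero, zero_mul]
    · push Not at h01
      have : (0 ≤ f x ∧ f x ≤ 1) ↔ (0 < f x ∧ f x < 1) :=
        ⟨fun h => ⟨lt_of_le_of_ne h.1 (Ne.symm h01.1), lt_of_le_of_ne h.2 h01.2⟩,
          fun h => ⟨h.1.le, h.2.le⟩⟩
      simp only [hVdef, hGdef, this]
  -- the three limits
  have l1 : Tendsto (fun n : ℕ => mf h (vd (1 / ((n : ℝ) + 2)) f)) atTop (𝓝 (∫ x, V x * h x)) :=
    ez_lim hi hvm hvA (Eventually.of_forall hV)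
  have l2 : Tendsto (fun n : ℕ => ∫ x, vd (1 / ((n : ℝ) + 2)) f x ^ 2 * h x) atTop
      (𝓝 (∫ x, V x ^ 2 * h x)) :=
    ez_lim (M := A ^ 2) hi (w := fun (n : ℕ) x => vd (1 / ((n : ℝ) + 2)) f x ^ 2)
      (fun n => (hvm n).pow_const 2)
      (fun n x => by rw [abs_pow]; exact pow_le_pow_left₀ (abs_nonneg _) (hvA n x) 2)
      (Eventually.of_forall fun x => (hV x).pow 2)
  have l3 : Tendsto (fun n : ℕ => ∫ x, (gd (1 / ((n : ℝ) + 2)) f x -
      vd (1 / ((n : ℝ) + 2)) f x) ^ 2 * h x) atTop (𝓝 (∫ x, (fun _ : F => (0 : ℝ)) x * h x)) := by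
    refine ez_lim (M := A ^ 2) hi (w := fun (n : ℕ) x => (gd (1 / ((n : ℝ) + 2)) f x -
      vd (1 / ((n : ℝ) + 2)) f x) ^ 2) (fun n => ((hgm n).sub (hvm n)).pow_const 2)
      (fun n x => by rw [abs_pow]; exact pow_le_pow_left₀ (abs_nonneg _) (hdA n x) 2) ?_
    filter_upwards [hGV] with x hx
    have h1 := ((hG x).sub (hV x)).pow 2
    rw [hx, sub_self] at h1
    simpa using h1
  have hb : γ * (∫ x, V x * h x) ^ 2 ≤ 0 := by
    have h1 : Tendsto (fun n : ℕ => γ * mf h (vd (1 / ((n : ℝ) + 2)) f) ^ 2) atTop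
        (𝓝 (γ * (∫ x, V x * h x) ^ 2)) := (l1.pow 2).const_mul γ
    have h2 := (l2.sqrt).mul (l3.sqrt)
    have h3 := le_of_tendsto_of_tendsto' h1 h2 fun n =>
      test_bound H hη hκ hu hm hmin heq (hδ n) (hδ1 n)
    refine h3.trans (le_of_eq ?_)
    simp
  have hI : ∫ x, V x * h x = 0 := by
    have h1 : (∫ x, V x * h x) ^ 2 ≤ 0 := by
      by_contra hn
      push Not at hn
      exact absurd hb (not_le.2 (mul_pos hγ hn))
    exact pow_eq_zero_iff (two_ne_zero) |>.1 (le_antisymm h1 (sq_nonneg _))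
  have hV0 : ∀ x, 0 ≤ V x := fun x =>
    mul_nonneg (norm_nonneg _) (by split_ifs <;> norm_num)
  have hVm : Measurable V := measurable_of_tendsto_metrizable hvm (tendsto_pi_nhds.2 hV)
  have hVA : ∀ x, |V x| ≤ A := fun x => by
    rw [abs_of_nonneg (hV0 x)]
    refine le_trans ?_ (hA' x)
    refine mul_le_of_le_one_right (norm_nonneg _) ?_
    split_ifs <;> norm_num
  have hVz : ∀ᵐ x, V x = 0 := by
    have h1 := (integral_eq_zero_iff_of_nonneg
      (fun x => mul_nonneg (hV0 x) (H.pos x).le) (bdd_int hi hVm hVA)).1 hI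
    filter_upwards [h1] with x hx
    have h2 : V x * h x = 0 := hx
    exact (mul_eq_zero.1 h2).resolve_right (H.pos x).ne'
  have l4 : Tendsto (fun n : ℕ => ∫ x, gd (1 / ((n : ℝ) + 2)) f x ^ 2 * h x) atTop
      (𝓝 (∫ x, (fun _ : F => (0 : ℝ)) x * h x)) := by
    refine ez_lim (M := A ^ 2) hi (w := fun (n : ℕ) x => gd (1 / ((n : ℝ) + 2)) f x ^ 2)
      (fun n => (hgm n).pow_const 2)
      (fun n x => by rw [abs_pow]; exact pow_le_pow_left₀ (abs_nonneg _) (hgA n x) 2) ?_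
    filter_upwards [hGV, hVz] with x hx hx'
    have h1 := (hG x).pow 2
    rw [hx, hx'] at h1
    simpa using h1
  have hueq : u = fun x => clip (f x) := funext heq
  have hle : ∀ n : ℕ, En h u ≤ ∫ x, gd (1 / ((n : ℝ) + 2)) f x ^ 2 * h x := by
    intro n
    unfold En
    refine integral_mono_of_nonneg (Eventually.of_forall fun x =>
      mul_nonneg (sq_nonneg _) (H.pos x).le) (bl_sq hi (hvg n).2.1)
      (Eventually.of_forall fun x => ?_)
    simp only
    refine mul_le_mul_of_nonneg_right ?_ (H.pos x).le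
    refine pow_le_pow_left₀ (norm_nonneg _) ?_ 2
    have h1 := clip_fderiv (hδ n) hf x
    rw [← hueq] at h1
    exact h1
  refine le_antisymm ?_ (integral_nonneg fun x => mul_nonneg (sq_nonneg _) (H.pos x).le)
  have h1 := ge_of_tendsto' l4 hle
  simpa using h1

end Pool.Agent.Lib.MP_8d00da_gt.h97s
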