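import Mathlib
import Pool.Agent.Lib.MP_8d00da_gt.h97s.GBas
import Pool.Agent.Lib.MP_8d00da_gt.h97s.GImpA

/-!
# The improvement step
-/

namespace Pool.Agent.Lib.MP_8d00da_gt.h97s

open MeasureTheory Set Filter
open Pool.Agent.Lib.MP_8d00da_gt.h25 Pool.Agent.Lib.MP_8d00da_gt.h42
open Pool.Agent.Lib.MP_8d00da_gt.h42s Pool.Agent.Lib.MP_8d00da_gt.h42o
open Pool.Agent.Lib.MP_8d00da_gt.h97r
open scoped Topology NNReal

set_option linter.unusedSectionVars false

variable {F : Type*} [NormedAddCommGroup F] [InnerProductSpace ℝ F]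
    [FiniteDimensional ℝ F] [MeasurableSpace F] [BorelSpace F]

variable {B η κ α γ : ℝ} {h : F → ℝ}

/-- `imp` has values in `[0, 1]` and is Lipschitz (`RT_lip1`, `clip_lip`). -/
theorem imp_U1 (H : Wt h B) (hη : 0 < η) (hκ : κ < 1) {u : F → ℝ} (hu : U1 u) :
    U1 (imp h η κ α γ u) ∧
      LipschitzWith (Real.toNNReal (Real.sqrt (1 / η) / (1 - κ))) (imp h η κ α γ u) := by
  have hc : 0 < 1 - κ := by linarith
  have hlip : LipschitzWith (Real.toNNReal (Real.sqrt (1 / η) / (1 - κ))) (imp h η κ α γ u) := by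
    refine LipschitzWith.of_dist_le_mul fun x y => ?_
    rw [Real.coe_toNNReal _ (by positivity)]
    have h1 : dist (imp h η κ α γ u x) (imp h η κ α γ u y) ≤
        dist (ef h η κ α γ u x) (ef h η κ α γ u y) := by
      have := clip_lip.dist_le_mul (ef h η κ α γ u x) (ef h η κ α γ u y)
      simpa [imp] using this
    have h2 := (RT_lip1 H hη hu).dist_le_mul x y
    rw [Real.coe_toNNReal _ (by positivity), Real.dist_eq] at h2
    refine h1.trans ?_
    rw [Real.dist_eq]
    have h3 : ef h η κ α γ u x - ef h η κ α γ u y =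
        (RT h η u x - RT h η u y) / (1 - κ) := by
      unfold ef
      ring
    rw [h3, abs_div, abs_of_pos hc, div_mul_eq_mul_div]
    exact div_le_div_of_nonneg_right h2 hc.le
  refine ⟨⟨⟨⟨_, hlip⟩, 1, fun x => ?_⟩, fun x => clip_nonneg _, fun x => clip_le _⟩, hlip⟩
  rw [abs_of_nonneg (show 0 ≤ imp h η κ α γ u x from clip_nonneg _)]
  exact clip_le _

/-- Pointwise, `w = clip (p / (1 - κ))` minimises `φ(v) = (1 - κ) v² - 2 v p` over `[0, 1]` and
`φ(v) ≥ φ(w) + (1 - κ) (v - w)²`. -/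
theorem clip_opt (hκ : κ < 1) {p v : ℝ} (h0 : 0 ≤ v) (h1 : v ≤ 1) :
    (1 - κ) * clip (p / (1 - κ)) ^ 2 - 2 * clip (p / (1 - κ)) * p +
      (1 - κ) * (v - clip (p / (1 - κ))) ^ 2 ≤ (1 - κ) * v ^ 2 - 2 * v * p := by
  have hc : 0 < 1 - κ := by linarith
  obtain ⟨q, hq⟩ : ∃ q, q = p / (1 - κ) := ⟨_, rfl⟩
  have hp : p = (1 - κ) * q := by
    rw [hq]
    field_simp
  rw [← hq, hp]
  have key : (clip q - v) * (clip q - q) ≤ 0 := by
    rcases le_total q 0 with h2 | h2
    · rw [clip_of_nonpos h2]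
      nlinarith
    · rcases le_total q 1 with h3 | h3
      · rw [clip_of_mem h2 h3]
        simp
      · rw [clip_of_one_le h3]
        nlinarith
  have := mul_nonneg hc.le (neg_nonneg.mpr key)
  nlinarith

private lemma RT_BL (H : Wt h B) (hη : 0 < η) {u : F → ℝ} (hu : U1 u) : BL (RT h η u) := by
  refine ⟨⟨_, RT_lip1 H hη hu⟩, 1, fun x => ?_⟩
  rw [abs_of_nonneg (RT_Icc H hη hu x).1]
  exact (RT_Icc H hη hu x).2

private lemma maj_int (H : Wt h B) (hi : Integrable h) (hη : 0 < η) {u v : F → ℝ} (hu : U1 u)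
    (hv : BL v) : Integrable
      fun x => ((1 - κ) * v x ^ 2 - 2 * v x * (RT h η u x + cc h κ α γ u)) * h x := by
  have h1 : BL fun x => (1 - κ) * (v x * v x) - 2 * v x * (RT h η u x + cc h κ α γ u) :=
    ((BL.const (1 - κ)).mul (hv.mul hv)).sub
      (((BL.const 2).mul hv).mul ((RT_BL H hη hu).add (BL.const _)))
  have h2 := bl_int hi h1
  simpa only [sq] using h2

private lemma imp_eq {u : F → ℝ} (x : F) : imp h η κ α γ u x =
    clip ((RT h η u x + cc h κ α γ u) / (1 - κ)) := rfl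

/-- `FE_major` and `clip_opt`. -/
theorem imp_gain (H : Wt h B) (hi : Integrable h) (hη : 0 < η) (hκ : κ < 1) (hγ : 0 ≤ γ)
    {u : F → ℝ} (hu : U1 u) :
    FE h η κ α γ (imp h η κ α γ u) + (1 - κ) * (∫ x, (u x - imp h η κ α γ u x) ^ 2 * h x) ≤
      FE h η κ α γ u := by
  have hw : BL (imp h η κ α γ u) := (imp_U1 H hη hκ hu).1.bl
  have h1 := FE_major (κ := κ) (α := α) H hi hη hγ hu.bl hw
  have i1 := maj_int (κ := κ) (α := α) (γ := γ) H hi hη hu hw
  have i2 := maj_int (κ := κ) (α := α) (γ := γ) H hi hη hu hu.bl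
  have i3 : Integrable fun x => (u x - imp h η κ α γ u x) ^ 2 * h x := bl_sq hi (hu.bl.sub hw)
  have h2 : (∫ x, ((1 - κ) * imp h η κ α γ u x ^ 2 -
        2 * imp h η κ α γ u x * (RT h η u x + cc h κ α γ u)) * h x) +
      (1 - κ) * (∫ x, (u x - imp h η κ α γ u x) ^ 2 * h x) ≤
      ∫ x, ((1 - κ) * u x ^ 2 - 2 * u x * (RT h η u x + cc h κ α γ u)) * h x := by
    rw [← integral_const_mul, ← integral_add i1 (i3.const_mul _)]
    refine integral_mono (i1.add (i3.const_mul _)) i2 fun x => ?_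
    have := mul_le_mul_of_nonneg_right
      (clip_opt (p := RT h η u x + cc h κ α γ u) hκ (hu.nn x) (hu.le x)) (H.nonneg x)
    simp only [imp_eq]
    nlinarith
  linarith

/-- The same on the segment from `u` to `imp u` (the majorant is convex on the segment). -/
theorem imp_seg (H : Wt h B) (hi : Integrable h) (hη : 0 < η) (hκ : κ < 1) (hγ : 0 ≤ γ)
    {u : F → ℝ} (hu : U1 u) {t : ℝ} (ht0 : 0 ≤ t) (ht1 : t ≤ 1) :
    FE h η κ α γ (fun x => (1 - t) * u x + t * imp h η κ α γ u x) ≤ FE h η κ α γ u := by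
  have hc : 0 < 1 - κ := by linarith
  have hw : BL (imp h η κ α γ u) := (imp_U1 H hη hκ hu).1.bl
  have hv : BL fun x => (1 - t) * u x + t * imp h η κ α γ u x :=
    ((BL.const (1 - t)).mul hu.bl).add ((BL.const t).mul hw)
  have h1 := FE_major (κ := κ) (α := α) H hi hη hγ hu.bl hv
  have i1 := maj_int (κ := κ) (α := α) (γ := γ) H hi hη hu hv
  have i2 := maj_int (κ := κ) (α := α) (γ := γ) H hi hη hu hu.bl
  have h2 := integral_mono i1 i2 fun x => by
    have e1 := clip_opt (p := RT h η u x + cc h κ α γ u) hκ (hu.nn x) (hu.le x)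
    apply mul_le_mul_of_nonneg_right _ (H.nonneg x)
    simp only [imp_eq]
    obtain ⟨w, hw⟩ : ∃ w, w = clip ((RT h η u x + cc h κ α γ u) / (1 - κ)) := ⟨_, rfl⟩
    obtain ⟨p, hp⟩ : ∃ p, p = RT h η u x + cc h κ α γ u := ⟨_, rfl⟩
    rw [← hw, ← hp] at e1
    rw [← hw, ← hp]
    have e2 : (1 - κ) * ((1 - t) * u x + t * w) ^ 2 =
        (1 - t) * ((1 - κ) * u x ^ 2) + t * ((1 - κ) * w ^ 2) -
          (t * (1 - t)) * ((1 - κ) * (u x - w) ^ 2) := by ring
    have e3 : 0 ≤ (t * (1 - t)) * ((1 - κ) * (u x - w) ^ 2) := by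
      have : 0 ≤ 1 - t := by linarith
      positivity
    have e4 : 0 ≤ t * ((1 - κ) * (u x - w) ^ 2) := by positivity
    have e5 := mul_le_mul_of_nonneg_left e1 ht0
    nlinarith
  linarith

/-- If `FE` is positive on functions of mean `1/2`, then `imp u` has mean `< 1/2` when `u` has
mean `≤ 1/2` and `FE u < 0`: otherwise some point of the segment from `u` to `imp u` has mean
`1/2` (the mean is affine on the segment), and `FE ≤ FE u < 0` there by `imp_seg`. -/
theorem imp_mean (H : Wt h B) (hi : Integrable h) (hη : 0 < η) (hκ : κ < 1) (hγ : 0 ≤ γ)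
    (hhalf : ∀ u : F → ℝ, U1 u → mf h u = 1 / 2 → 0 < FE h η κ α γ u) {u : F → ℝ} (hu : U1 u)
    (hm : mf h u ≤ 1 / 2) (hneg : FE h η κ α γ u < 0) : mf h (imp h η κ α γ u) < 1 / 2 := by
  by_contra hcon
  push Not at hcon
  have hw := (imp_U1 (α := α) (γ := γ) H hη hκ hu).1
  rcases hm.lt_or_eq with hlt | heq
  · obtain ⟨a, ha⟩ : ∃ a, a = mf h u := ⟨_, rfl⟩
    obtain ⟨b, hb⟩ : ∃ b, b = mf h (imp h η κ α γ u) := ⟨_, rfl⟩
    rw [← ha] at hlt
    rw [← hb] at hcon
    have hab : 0 < b - a := by linarith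
    obtain ⟨t, ht⟩ : ∃ t, t = (1 / 2 - a) / (b - a) := ⟨_, rfl⟩
    have ht0 : 0 ≤ t := by
      rw [ht]
      exact div_nonneg (by linarith) hab.le
    have ht1 : t ≤ 1 := by
      rw [ht, div_le_one hab]
      linarith
    have htt : t * (b - a) = 1 / 2 - a := by
      rw [ht]
      field_simp
    have hmean : mf h (fun x => (1 - t) * u x + t * imp h η κ α γ u x) = 1 / 2 := by
      have e1 : (fun x => ((1 - t) * u x + t * imp h η κ α γ u x) * h x) =
          fun x => (1 - t) * (u x * h x) + t * (imp h η κ α γ u x * h x) := by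
        funext x
        ring
      unfold mf
      rw [e1, integral_add ((bl_int hi hu.bl).const_mul _) ((bl_int hi hw.bl).const_mul _),
        integral_const_mul, integral_const_mul]
      unfold mf at ha hb
      rw [← ha, ← hb]
      linarith
    have hU : U1 fun x => (1 - t) * u x + t * imp h η κ α γ u x := by
      have ht2 : 0 ≤ 1 - t := by linarith
      refine ⟨((BL.const (1 - t)).mul hu.bl).add ((BL.const t).mul hw.bl), fun x => ?_,
        fun x => ?_⟩
      · exact add_nonneg (mul_nonneg ht2 (hu.nn x)) (mul_nonneg ht0 (hw.nn x))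
      · have e1 := mul_le_mul_of_nonneg_left (hu.le x) ht2
        have e2 := mul_le_mul_of_nonneg_left (hw.le x) ht0
        linarith
    have h1 := hhalf _ hU hmean
    have h2 := imp_seg (α := α) H hi hη hκ hγ hu ht0 ht1
    linarith
  · have := hhalf u hu heq
    linarith

end Pool.Agent.Lib.MP_8d00da_gt.h97s
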