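import Mathlib
import Pool.Agent.Lib.MP_8d00da_gt.h97s.GDefs

namespace Pool.Agent.Lib.MP_8d00da_gt.h97r
end Pool.Agent.Lib.MP_8d00da_gt.h97r


/-!
# Continuity of the functional
-/

namespace Pool.Agent.Lib.MP_8d00da_gt.h97s

open MeasureTheory Set Filter
open Pool.Agent.Lib.MP_8d00da_gt.h25 Pool.Agent.Lib.MP_8d00da_gt.h42
open Pool.Agent.Lib.MP_8d00da_gt.h42s Pool.Agent.Lib.MP_8d00da_gt.h42o
open Pool.Agent.Lib.MP_8d00da_gt.h97r
open scoped Topology NNReal

set_option linter.unusedSectionVars false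

variable {F : Type*} [NormedAddCommGroup F] [InnerProductSpace ℝ F]
    [FiniteDimensional ℝ F] [MeasurableSpace F] [BorelSpace F]

variable {B η κ α γ : ℝ} {h : F → ℝ}

private lemma FE_int_lim (hi : Integrable h) {w : ℕ → F → ℝ} {u : F → ℝ} {M : ℝ}
    (hm : ∀ j, Measurable (w j)) (hb : ∀ j x, |w j x| ≤ M)
    (hlim : ∀ x, Tendsto (fun j => w j x) atTop (𝓝 (u x))) :
    Tendsto (fun j => ∫ x, w j x * h x) atTop (𝓝 (∫ x, u x * h x)) := by
  refine tendsto_integral_of_dominated_convergence (fun x => M * |h x|) (fun j => ?_)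
    (hi.abs.const_mul M) (fun j => Eventually.of_forall fun x => ?_)
    (Eventually.of_forall fun x => (hlim x).mul_const (h x))
  · exact (hm j).aestronglyMeasurable.mul hi.aestronglyMeasurable
  · rw [Real.norm_eq_abs, abs_mul]
    exact mul_le_mul_of_nonneg_right (hb j x) (abs_nonneg _)

private lemma FE_AA_lim (H : Wt h B) (hη : 0 < η) {w : ℕ → F → ℝ} {u : F → ℝ} {M : ℝ}
    (hm : ∀ j, Measurable (w j)) (hb : ∀ j x, |w j x| ≤ M)
    (hlim : ∀ x, Tendsto (fun j => w j x) atTop (𝓝 (u x))) (y : F) :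
    Tendsto (fun j => AA h η (w j) y) atTop (𝓝 (AA h η u y)) := by
  unfold AA
  refine Tendsto.div_const ?_ _
  unfold cv
  refine tendsto_integral_of_dominated_convergence (fun x => M * (h x * h25.ker η (y - x)))
    (fun j => ?_) ((cv_integrable hη H.meas H.abs_le y).const_mul M)
    (fun j => Eventually.of_forall fun x => ?_)
    (Eventually.of_forall fun x => ((hlim x).mul_const (h x)).mul_const _)
  · exact (cv_integrable hη ((hm j).mul H.meas) (H.mul_bdd (hb j)) y).aestronglyMeasurable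
  · rw [Real.norm_eq_abs, abs_mul, abs_mul, abs_of_nonneg (H.nonneg x), abs_of_pos (ker_pos _),
      mul_assoc]
    exact mul_le_mul_of_nonneg_right (hb j x) (mul_nonneg (H.nonneg x) (ker_pos _).le)

/-- `FE` is continuous under bounded pointwise convergence (dominated convergence for `∫ w² h`
and `∫ w h`; `|∫ w (RT w) h - ∫ u (RT u) h| ≤ 2 sqrt (∫ (w - u)² h) ...` by `RT_abs`, or
dominated convergence). -/
theorem FE_lim (H : Wt h B) (hi : Integrable h) (hη : 0 < η) {w : ℕ → F → ℝ} {u : F → ℝ}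
    (hw : ∀ j, U1 (w j)) (hu : U1 u) (hlim : ∀ x, Tendsto (fun j => w j x) atTop (𝓝 (u x))) :
    Tendsto (fun j => FE h η κ α γ (w j)) atTop (𝓝 (FE h η κ α γ u)) ∧
      Tendsto (fun j => mf h (w j)) atTop (𝓝 (mf h u)) := by
  have hwm : ∀ j, Measurable (w j) := fun j => bl_meas (hw j).bl
  have hwb : ∀ j x, |w j x| ≤ 1 := fun j x => by
    rw [abs_of_nonneg ((hw j).nn x)]; exact (hw j).le x
  have hgm : ∀ j, Measurable (AA h η (w j)) := fun j =>
    (H.AA_diff hη (hwm j) (hwb j)).continuous.measurable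
  have hgb : ∀ j y, |AA h η (w j) y| ≤ 1 := fun j => H.AA_abs_le hη (hwm j) (hwb j)
  have hRm : ∀ j, Measurable (RT h η (w j)) := fun j =>
    (wt_one.AA_diff hη (hgm j) (hgb j)).continuous.measurable
  have hRb : ∀ j x, |RT h η (w j) x| ≤ 1 := fun j => wt_one.AA_abs_le hη (hgm j) (hgb j)
  have hRlim : ∀ x, Tendsto (fun j => RT h η (w j) x) atTop (𝓝 (RT h η u x)) := fun x =>
    FE_AA_lim wt_one hη hgm hgb (FE_AA_lim H hη hwm hwb hlim) x
  have h1 : Tendsto (fun j => ∫ x, w j x * h x) atTop (𝓝 (∫ x, u x * h x)) :=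
    FE_int_lim hi hwm hwb hlim
  have h2 : Tendsto (fun j => ∫ x, w j x ^ 2 * h x) atTop (𝓝 (∫ x, u x ^ 2 * h x)) :=
    FE_int_lim (M := 1) hi (w := fun j x => w j x ^ 2) (fun j => (hwm j).pow_const 2)
      (fun j x => by rw [abs_pow]; exact pow_le_one₀ (abs_nonneg _) (hwb j x))
      (fun x => (hlim x).pow 2)
  have h3 : Tendsto (fun j => ∫ x, w j x * RT h η (w j) x * h x) atTop
      (𝓝 (∫ x, u x * RT h η u x * h x)) :=
    FE_int_lim (M := 1) hi (w := fun j x => w j x * RT h η (w j) x)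
      (fun j => (hwm j).mul (hRm j))
      (fun j x => by
        rw [abs_mul]; exact mul_le_one₀ (hwb j x) (abs_nonneg _) (hRb j x))
      (fun x => (hlim x).mul (hRlim x))
  have h4 : Tendsto (fun j => ∫ x, w j x * (1 - w j x) * h x) atTop
      (𝓝 (∫ x, u x * (1 - u x) * h x)) :=
    FE_int_lim (M := 1) hi (w := fun j x => w j x * (1 - w j x))
      (fun j => (hwm j).mul (measurable_const.sub (hwm j)))
      (fun j x => by
        rw [abs_mul]
        refine mul_le_one₀ (hwb j x) (abs_nonneg _) ?_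
        rw [abs_of_nonneg (sub_nonneg.2 ((hw j).le x))]
        linarith [(hw j).nn x])
      (fun x => (hlim x).mul (tendsto_const_nhds.sub (hlim x)))
  refine ⟨?_, h1⟩
  unfold FE Per qf mf
  exact ((((h2.sub h3).add (h4.const_mul κ)).sub (h1.const_mul α)).sub ((h1.pow 2).const_mul γ))

end Pool.Agent.Lib.MP_8d00da_gt.h97s
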