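import Mathlib
import Pool.Agent.Lib.MP_8d00da_gt.h97s.GDefs

namespace Pool.Agent.Lib.MP_8d00da_gt.h97r
end Pool.Agent.Lib.MP_8d00da_gt.h97r


/-!
# Compactness of equi-Lipschitz functions
-/

namespace Pool.Agent.Lib.MP_8d00da_gt.h97s

open MeasureTheory Set Filter
open Pool.Agent.Lib.MP_8d00da_gt.h25 Pool.Agent.Lib.MP_8d00da_gt.h42
open Pool.Agent.Lib.MP_8d00da_gt.h42s Pool.Agent.Lib.MP_8d00da_gt.h42o
open Pool.Agent.Lib.MP_8d00da_gt.h97r
open scoped Topology NNReal

set_option linter.unusedSectionVars false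

variable {F : Type*} [NormedAddCommGroup F] [InnerProductSpace ℝ F]
    [FiniteDimensional ℝ F] [MeasurableSpace F] [BorelSpace F]

/-- Arzela-Ascoli in pointwise form. Take a countable dense set `d : ℕ → F`
(`TopologicalSpace.exists_countable_dense` or `denseSeq`); the sequences `j ↦ (k ↦ w j (d k))`
lie in the compact metrizable space of functions `ℕ → Icc 0 1`, so a subsequence converges at all
points `d k` (`IsCompact.tendsto_subseq` for `Set.pi univ fun _ => Icc 0 1` in `ℕ → ℝ`). By the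
uniform Lipschitz bound the subsequence is Cauchy at every point. -/
theorem subseq {w : ℕ → F → ℝ} {C : ℝ≥0} (hL : ∀ j, LipschitzWith C (w j))
    (h0 : ∀ j x, 0 ≤ w j x) (h1 : ∀ j x, w j x ≤ 1) :
    ∃ (φ : ℕ → ℕ) (u : F → ℝ), StrictMono φ ∧ U1 u ∧ LipschitzWith C u ∧
      ∀ x, Tendsto (fun j => w (φ j) x) atTop (𝓝 (u x)) := by
  classical
  have hprop : ProperSpace F := FiniteDimensional.proper_real F
  have hsep : TopologicalSpace.SeparableSpace F := inferInstance
  let d : ℕ → F := TopologicalSpace.denseSeq F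
  have hd : DenseRange d := TopologicalSpace.denseRange_denseSeq F
  have hK : IsCompact (Set.pi univ fun _ : ℕ => Icc (0 : ℝ) 1) :=
    isCompact_univ_pi fun _ => isCompact_Icc
  obtain ⟨a, -, φ, hφ, ha⟩ := hK.tendsto_subseq (x := fun j => fun k => w j (d k))
    (fun j k _ => ⟨h0 j _, h1 j _⟩)
  have ha' : ∀ k, Tendsto (fun j => w (φ j) (d k)) atTop (𝓝 (a k)) := fun k =>
    (tendsto_pi_nhds.mp ha) k
  have hcau : ∀ x, CauchySeq fun j => w (φ j) x := by
    intro x
    rw [Metric.cauchySeq_iff']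
    intro ε hε
    have hC : (0 : ℝ) < C + 1 := by positivity
    obtain ⟨k, hk⟩ := hd.exists_dist_lt x (show (0 : ℝ) < ε / (3 * (C + 1)) by positivity)
    have hk' : (C : ℝ) * dist x (d k) ≤ ε / 3 := by
      have e1 : (C : ℝ) * dist x (d k) ≤ (C + 1) * (ε / (3 * (C + 1))) := by
        apply mul_le_mul _ hk.le dist_nonneg hC.le
        linarith
      have e2 : ((C : ℝ) + 1) * (ε / (3 * (C + 1))) = ε / 3 := by
        field_simp
      linarith
    obtain ⟨N, hN⟩ := (Metric.cauchySeq_iff'.mp (ha' k).cauchySeq) (ε / 3) (by positivity)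
    refine ⟨N, fun n hn => ?_⟩
    have e1 := (hL (φ n)).dist_le_mul x (d k)
    have e2 := (hL (φ N)).dist_le_mul x (d k)
    have e3 := hN n hn
    have e4 : dist (w (φ n) x) (w (φ N) x) ≤ dist (w (φ n) x) (w (φ n) (d k)) +
        dist (w (φ n) (d k)) (w (φ N) (d k)) + dist (w (φ N) (d k)) (w (φ N) x) :=
      dist_triangle4 _ _ _ _
    rw [dist_comm (w (φ N) (d k)) (w (φ N) x)] at e4
    linarith
  choose u hu using fun x => cauchySeq_tendsto_of_complete (hcau x)
  have hlip : LipschitzWith C u := by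
    refine LipschitzWith.of_dist_le_mul fun x y => ?_
    exact le_of_tendsto' ((hu x).dist (hu y)) fun j => (hL (φ j)).dist_le_mul x y
  have hnn : ∀ x, 0 ≤ u x := fun x => ge_of_tendsto' (hu x) fun j => h0 _ _
  have hle : ∀ x, u x ≤ 1 := fun x => le_of_tendsto' (hu x) fun j => h1 _ _
  refine ⟨φ, u, hφ, ⟨⟨⟨C, hlip⟩, 1, fun x => ?_⟩, hnn, hle⟩, hlip, hu⟩
  rw [abs_of_nonneg (hnn x)]
  exact hle x

end Pool.Agent.Lib.MP_8d00da_gt.h97s
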