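import Mathlib
import Pool.Agent.Lib.MP_8d00da_gt.h97s.GMinA
import Pool.Agent.Lib.MP_8d00da_gt.h97s.GSub
import Pool.Agent.Lib.MP_8d00da_gt.h97s.GImpB

/-!
# Existence of a minimiser
-/

namespace Pool.Agent.Lib.MP_8d00da_gt.h97s

open MeasureTheory Set Filter
open Pool.Agent.Lib.MP_8d00da_gt.h25 Pool.Agent.Lib.MP_8d00da_gt.h42
open Pool.Agent.Lib.MP_8d00da_gt.h42s Pool.Agent.Lib.MP_8d00da_gt.h42o
open Pool.Agent.Lib.MP_8d00da_gt.h97r
open scoped Topology NNReal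

set_option linter.unusedSectionVars false

variable {F : Type*} [NormedAddCommGroup F] [InnerProductSpace ℝ F]
    [FiniteDimensional ℝ F] [MeasurableSpace F] [BorelSpace F]

variable {B η κ α γ : ℝ} {h : F → ℝ}

/-- Take a minimising sequence `u j` in `{U1 u, mf h u ≤ 1/2}` (the infimum is finite and
negative: `FE u ≥ - α mf u - γ (mf u)²` is bounded below, `FE u0 < 0`), replace `u j` by
`imp (u j)` (`imp_gain`, `imp_mean`, uniformly Lipschitz by `imp_U1`), and use `subseq` and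
`FE_lim`. -/
theorem exists_minimiser (H : Wt h B) (hi : Integrable h) (hη : 0 < η) (hκ0 : 0 ≤ κ)
    (hκ : κ < 1) (hγ : 0 ≤ γ)
    (hhalf : ∀ u : F → ℝ, U1 u → mf h u = 1 / 2 → 0 < FE h η κ α γ u) {u0 : F → ℝ} (hu0 : U1 u0)
    (hm0 : mf h u0 ≤ 1 / 2) (hneg : FE h η κ α γ u0 < 0) :
    ∃ u : F → ℝ, U1 u ∧ mf h u < 1 / 2 ∧ FE h η κ α γ u < 0 ∧
      ∀ v : F → ℝ, U1 v → mf h v ≤ 1 / 2 → FE h η κ α γ u ≤ FE h η κ α γ v := by
  have hmass0 : 0 ≤ ∫ x, h x := integral_nonneg H.nonneg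
  have hmf : ∀ v : F → ℝ, U1 v → 0 ≤ mf h v ∧ mf h v ≤ ∫ x, h x := by
    intro v hv
    refine ⟨integral_nonneg fun x => mul_nonneg (hv.nn x) (H.nonneg x), ?_⟩
    refine integral_mono (bl_int hi hv.bl) hi fun x => ?_
    have h1 := mul_le_mul_of_nonneg_right (hv.le x) (H.nonneg x)
    rw [one_mul] at h1
    exact h1
  set m := ∫ x, h x with hmdef
  have hlow : ∀ v : F → ℝ, U1 v → -(|α| * m) - γ * m ^ 2 ≤ FE h η κ α γ v := by
    intro v hv
    obtain ⟨h1, h2⟩ := hmf v hv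
    have h3 : 0 ≤ Per h η κ v := by
      have h4 := qf_nonneg H hi hη hv.bl
      have h5 : 0 ≤ ∫ x, v x * (1 - v x) * h x := integral_nonneg fun x =>
        mul_nonneg (mul_nonneg (hv.nn x) (sub_nonneg.mpr (hv.le x))) (H.nonneg x)
      exact add_nonneg h4 (mul_nonneg hκ0 h5)
    have h6 : α * mf h v ≤ |α| * m := by
      calc α * mf h v ≤ |α| * mf h v := mul_le_mul_of_nonneg_right (le_abs_self α) h1
        _ ≤ |α| * m := mul_le_mul_of_nonneg_left h2 (abs_nonneg α)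
    have h7 : γ * mf h v ^ 2 ≤ γ * m ^ 2 :=
      mul_le_mul_of_nonneg_left (pow_le_pow_left₀ h1 h2 2) hγ
    unfold FE
    linarith
  set S : Set ℝ := {r | ∃ v : F → ℝ, U1 v ∧ mf h v ≤ 1 / 2 ∧ FE h η κ α γ v = r} with hS
  have hSbdd : BddBelow S := by
    refine ⟨-(|α| * m) - γ * m ^ 2, ?_⟩
    rintro r ⟨v, hv, -, rfl⟩
    exact hlow v hv
  have hSne : S.Nonempty := ⟨_, u0, hu0, hm0, rfl⟩
  set I := sInf S with hI
  have hI0 : I < 0 := lt_of_le_of_lt (csInf_le hSbdd ⟨u0, hu0, hm0, rfl⟩) hneg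
  have hIle : ∀ v : F → ℝ, U1 v → mf h v ≤ 1 / 2 → I ≤ FE h η κ α γ v := fun v hv hm =>
    csInf_le hSbdd ⟨v, hv, hm, rfl⟩
  have hex : ∀ j : ℕ, ∃ v : F → ℝ, U1 v ∧ mf h v ≤ 1 / 2 ∧
      FE h η κ α γ v < I * (1 - 1 / ((j : ℝ) + 2)) := by
    intro j
    have hj : (0 : ℝ) < 1 / ((j : ℝ) + 2) := by positivity
    have h1 : I < I * (1 - 1 / ((j : ℝ) + 2)) := by nlinarith
    obtain ⟨r, ⟨v, hv, hm, rfl⟩, hr⟩ := exists_lt_of_csInf_lt hSne h1
    exact ⟨v, hv, hm, hr⟩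
  choose v hv hvm hvF using hex
  have hj1 : ∀ j : ℕ, (0 : ℝ) < 1 - 1 / ((j : ℝ) + 2) := by
    intro j
    have : 1 / ((j : ℝ) + 2) < 1 := by
      rw [div_lt_one (by positivity)]
      have := Nat.cast_nonneg (α := ℝ) j
      linarith
    linarith
  have hvneg : ∀ j, FE h η κ α γ (v j) < 0 := fun j =>
    lt_trans (hvF j) (mul_neg_of_neg_of_pos hI0 (hj1 j))
  have hwU : ∀ j, U1 (imp h η κ α γ (v j)) := fun j => (imp_U1 H hη hκ (hv j)).1
  have hwm : ∀ j, mf h (imp h η κ α γ (v j)) < 1 / 2 := fun j =>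
    imp_mean H hi hη hκ hγ hhalf (hv j) (hvm j) (hvneg j)
  have hwF : ∀ j, FE h η κ α γ (imp h η κ α γ (v j)) ≤ I * (1 - 1 / ((j : ℝ) + 2)) := by
    intro j
    have h1 := imp_gain (α := α) H hi hη hκ hγ (hv j)
    have h2 : 0 ≤ (1 - κ) * ∫ x, (v j x - imp h η κ α γ (v j) x) ^ 2 * h x :=
      mul_nonneg (by linarith) (integral_nonneg fun x => mul_nonneg (sq_nonneg _) (H.nonneg x))
    linarith [(hvF j).le]
  obtain ⟨φ, u, hφ, hu, -, hlim⟩ := subseq (w := fun j => imp h η κ α γ (v j))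
    (fun j => (imp_U1 H hη hκ (hv j)).2) (fun j => (hwU j).nn) (fun j => (hwU j).le)
  obtain ⟨hF, hM⟩ := FE_lim (κ := κ) (α := α) (γ := γ) H hi hη
    (w := fun j => imp h η κ α γ (v (φ j))) (fun j => hwU (φ j)) hu hlim
  have hum : mf h u ≤ 1 / 2 := le_of_tendsto' hM fun j => (hwm (φ j)).le
  have hbd : Tendsto (fun j : ℕ => I * (1 - 1 / (((φ j : ℕ) : ℝ) + 2))) atTop (𝓝 I) := by
    have h1 : Tendsto (fun j : ℕ => 1 / ((j : ℝ) + 2)) atTop (𝓝 0) := by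
      have h2 : Tendsto (fun j : ℕ => (j : ℝ) + 2) atTop atTop :=
        tendsto_atTop_add_const_right _ _ tendsto_natCast_atTop_atTop
      have h4 : (fun j : ℕ => 1 / ((j : ℝ) + 2)) = (fun j : ℕ => (j : ℝ) + 2)⁻¹ := by
        funext j
        simp
      rw [h4]
      exact h2.inv_tendsto_atTop
    have h3 : Tendsto (fun j : ℕ => I * (1 - 1 / ((j : ℝ) + 2))) atTop (𝓝 (I * (1 - 0))) :=
      (tendsto_const_nhds.sub h1).const_mul I
    rw [sub_zero, mul_one] at h3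
    exact h3.comp hφ.tendsto_atTop
  have huF : FE h η κ α γ u ≤ I := le_of_tendsto_of_tendsto' hF hbd fun j => hwF (φ j)
  have huneg : FE h η κ α γ u < 0 := lt_of_le_of_lt huF hI0
  refine ⟨u, hu, lt_of_le_of_ne hum fun h0 => ?_, huneg, fun w hw hwm' =>
    huF.trans (hIle w hw hwm')⟩
  have := hhalf u hu h0
  linarith

/-- A minimiser satisfies `u = imp u` everywhere (`imp_gain`, `imp_mean`, continuity,
`0 < h`). -/
theorem minimiser_eq (H : Wt h B) (hi : Integrable h) (hpos : ∀ x, 0 < h x)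
    (hc : Continuous h) (hη : 0 < η)
    (hκ : κ < 1) (hγ : 0 ≤ γ)
    (hhalf : ∀ u : F → ℝ, U1 u → mf h u = 1 / 2 → 0 < FE h η κ α γ u) {u : F → ℝ} (hu : U1 u)
    (hm : mf h u < 1 / 2) (hneg : FE h η κ α γ u < 0)
    (hmin : ∀ v : F → ℝ, U1 v → mf h v ≤ 1 / 2 → FE h η κ α γ u ≤ FE h η κ α γ v) (x : F) :
    u x = clip (ef h η κ α γ u x) := by
  obtain ⟨hw, -⟩ := imp_U1 (α := α) (γ := γ) H hη hκ hu
  have h1 := imp_mean H hi hη hκ hγ hhalf hu hm.le hneg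
  have h2 := hmin _ hw h1.le
  have h3 := imp_gain (α := α) H hi hη hκ hγ hu
  have hbl : BL fun x => (u x - imp h η κ α γ u x) ^ 2 := by
    have h4 : BL fun x => u x - imp h η κ α γ u x := hu.bl.sub hw.bl
    have h5 := h4.mul h4
    simpa only [sq] using h5
  have hint : Integrable fun x => (u x - imp h η κ α γ u x) ^ 2 * h x := bl_int hi hbl
  have hnn : 0 ≤ fun x => (u x - imp h η κ α γ u x) ^ 2 * h x := fun x =>
    mul_nonneg (sq_nonneg _) (H.nonneg x)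
  have h0 : ∫ x, (u x - imp h η κ α γ u x) ^ 2 * h x = 0 := by
    apply le_antisymm _ (integral_nonneg hnn)
    have h6 : (1 - κ) * ∫ x, (u x - imp h η κ α γ u x) ^ 2 * h x ≤ 0 := by linarith
    exact nonpos_of_mul_nonpos_right h6 (by linarith)
  have hae := (integral_eq_zero_iff_of_nonneg hnn hint).mp h0
  have hcont : Continuous fun x => (u x - imp h η κ α γ u x) ^ 2 * h x := by
    obtain ⟨⟨L, hL⟩, -⟩ := hbl
    exact hL.continuous.mul hc
  have heq := (hcont.ae_eq_iff_eq volume continuous_const).mp hae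
  have h7 := congrFun heq x
  have h8 : (u x - imp h η κ α γ u x) ^ 2 * h x = 0 := h7
  have h9 := (mul_eq_zero.mp h8).resolve_right (hpos x).ne'
  have h10 := pow_eq_zero_iff (two_ne_zero) |>.mp h9
  exact sub_eq_zero.mp h10

end Pool.Agent.Lib.MP_8d00da_gt.h97s
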