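import Mathlib
import Pool.Agent.Lib.MP_8d00da_gt.h97s.GMinB
import Pool.Agent.Lib.MP_8d00da_gt.h97s.GLimB

/-!
# Positivity of the functional
-/

namespace Pool.Agent.Lib.MP_8d00da_gt.h97s

open MeasureTheory Set Filter
open Pool.Agent.Lib.MP_8d00da_gt.h25 Pool.Agent.Lib.MP_8d00da_gt.h42
open Pool.Agent.Lib.MP_8d00da_gt.h42s Pool.Agent.Lib.MP_8d00da_gt.h42o
open Pool.Agent.Lib.MP_8d00da_gt.h97r
open scoped Topology NNReal

set_option linter.unusedSectionVars false

variable {F : Type*} [NormedAddCommGroup F] [InnerProductSpace ℝ F]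
    [FiniteDimensional ℝ F] [MeasurableSpace F] [BorelSpace F]

variable {L B C0 η κ α γ : ℝ} {h W : F → ℝ}

/-- If `FE u0 < 0` for some `u0` with mean `≤ 1/2`, take the minimiser `u` (`exists_minimiser`,
`minimiser_eq`, `En_zero`). Then `Vr h u = 0` (`H.ap`), so `u` is a constant `c = mf u` in
`[0, 1/2)` (continuity, `0 < h`), and `FE (const c) = c (κ (1 - c) - α - γ c)` (`qf_const`).
From `0 < FE (const (1/2))` (`hhalf`), `κ / 2 - α - γ / 2 > 0`, hence
`κ (1 - c) - α - γ c ≥ κ / 2 - α - γ / 2 > 0` for `0 ≤ c ≤ 1/2` and `FE (const c) ≥ 0`: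
contradiction. -/
theorem FE_nonneg (H : GH L B C0 h W) (hη : 0 < η) (hκ0 : 0 ≤ κ) (hκ : κ < 1) (hγ : 0 < γ)
    (hhalf : ∀ u : F → ℝ, U1 u → mf h u = 1 / 2 → 0 < FE h η κ α γ u) {u : F → ℝ} (hu : U1 u)
    (hm : mf h u ≤ 1 / 2) : 0 ≤ FE h η κ α γ u := by
  by_contra hneg0
  push Not at hneg0
  obtain ⟨v, hv, hvm, hvneg, hmin⟩ :=
    exists_minimiser H.wt H.int hη hκ0 hκ hγ.le hhalf hu hm hneg0
  have heq := minimiser_eq H.wt H.int H.pos H.cont hη hκ hγ.le hhalf hv hvm hvneg hmin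
  have hE := En_zero H hη hκ hγ hv hvm hmin heq
  have hV := H.ap v hv.bl
  rw [hE, mul_zero] at hV
  -- `v` is constant
  obtain ⟨c, hc⟩ : ∃ c, c = mf h v := ⟨_, rfl⟩
  have hvar : ∫ x, (v x - c) ^ 2 * h x ≤ 0 := by
    have e1 : (fun x => (v x - c) ^ 2 * h x) =
        fun x => v x ^ 2 * h x - 2 * c * (v x * h x) + c ^ 2 * h x := by
      funext x
      ring
    have j1 := bl_sq H.int hv.bl
    have j2 := bl_int H.int hv.bl
    have e2 : ∫ x, (v x - c) ^ 2 * h x = (∫ x, v x ^ 2 * h x) - 2 * c * (∫ x, v x * h x) +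
        c ^ 2 * ∫ x, h x := by
      have j12 : Integrable fun x => v x ^ 2 * h x - 2 * c * (v x * h x) :=
        j1.sub (j2.const_mul _)
      rw [e1, integral_add j12 (H.int.const_mul _), integral_sub j1 (j2.const_mul _),
        integral_const_mul, integral_const_mul]
    have e3 : Vr h v = (∫ x, v x ^ 2 * h x) - c ^ 2 := by
      unfold Vr
      rw [H.mass, div_one, hc]
      rfl
    have e4 : ∫ x, v x * h x = c := by
      rw [hc]
      rfl
    rw [e2, e4, H.mass]
    rw [e3] at hV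
    nlinarith
  have hcont : Continuous v := by
    obtain ⟨⟨K, hK⟩, -⟩ := hv.bl
    exact hK.continuous
  have hconst : v = fun _ => c := by
    have hcon : Continuous fun x => (v x - c) ^ 2 * h x :=
      ((hcont.sub continuous_const).pow 2).mul H.cont
    have hint : Integrable fun x => (v x - c) ^ 2 * h x := bl_sq H.int (hv.bl.sub (BL.const c))
    have hz : ∫ x, (v x - c) ^ 2 * h x = 0 :=
      le_antisymm hvar (integral_nonneg fun x => mul_nonneg (sq_nonneg _) (H.pos x).le)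
    have hae := (integral_eq_zero_iff_of_nonneg
      (fun x => mul_nonneg (sq_nonneg _) (H.pos x).le) hint).mp hz
    have hfun : (fun x => (v x - c) ^ 2 * h x) = fun _ => (0 : ℝ) :=
      (Continuous.ae_eq_iff_eq volume hcon continuous_const).mp hae
    funext x
    have hx := congrFun hfun x
    have hx2 : (v x - c) ^ 2 = 0 := by
      rcases mul_eq_zero.mp hx with h1 | h1
      · exact h1
      · exact absurd h1 (H.pos x).ne'
    have hx3 : v x - c = 0 := pow_eq_zero_iff (two_ne_zero) |>.mp hx2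
    linarith
  have hFE : ∀ d : ℝ, FE h η κ α γ (fun _ => d) = d * (κ * (1 - d) - α - γ * d) := by
    intro d
    have e1 : mf h (fun _ => d) = d := by
      unfold mf
      rw [integral_const_mul, H.mass, mul_one]
    have e2 : ∫ x, d * (1 - d) * h x = d * (1 - d) := by
      rw [integral_const_mul, H.mass, mul_one]
    unfold FE Per
    rw [qf_const H.wt hη, e1, e2]
    ring
  have h12 : 0 < FE h η κ α γ (fun _ => (1 / 2 : ℝ)) := by
    refine hhalf _ (U1.const (by norm_num) (by norm_num)) ?_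
    unfold mf
    rw [integral_const_mul, H.mass, mul_one]
  rw [hFE] at h12
  rw [hconst, hFE] at hvneg
  have hc0 : 0 ≤ c := by
    have := hv.nn 0
    rw [hconst] at this
    exact this
  have hc1 : c < 1 / 2 := by
    rw [hc]
    exact hvm
  have h3 : 0 < κ / 2 - α - γ / 2 := by linarith
  have h4 : 0 ≤ κ * (1 - c) - α - γ * c := by
    have e1 : κ * (1 - c) - α - γ * c = (κ / 2 - α - γ / 2) + (κ + γ) * (1 / 2 - c) := by ring
    rw [e1]
    have : 0 ≤ (κ + γ) * (1 / 2 - c) := mul_nonneg (by linarith) (by linarith)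
    linarith
  have := mul_nonneg hc0 h4
  linarith

/-- Concavity of the profile: if `Per u ≥ j` for all `u` of mean `1/2`, then `Per u ≥ 2 j mf u`
for all `u` of mean `≤ 1/2`. Suppose `D = 2 j m - Per u0 > 0`, `m = mf u0`. Then `0 < m < 1/2`
(`Per ≥ 0`, hypothesis). Use `FE_nonneg` with `γ = D / (2 m)` and `α = 2 j - γ`:
`FE (mean 1/2) ≥ j - α / 2 - γ / 4 = γ / 4 > 0` and
`FE u0 = Per u0 - 2 j m + γ m - γ m² = - D + D / 2 - γ m² < 0`. -/
theorem profile (H : GH L B C0 h W) (hη : 0 < η) (hκ0 : 0 < κ) (hκ : κ < 1) {j : ℝ}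
    (hj : 0 ≤ j) (hhalf : ∀ u : F → ℝ, U1 u → mf h u = 1 / 2 → j ≤ Per h η κ u) {u : F → ℝ}
    (hu : U1 u) (hm : mf h u ≤ 1 / 2) : 2 * j * mf h u ≤ Per h η κ u := by
  by_contra hcon
  push Not at hcon
  have hP0 : 0 ≤ Per h η κ u := by
    unfold Per
    have e1 := qf_nonneg H.wt H.int hη hu.bl
    have e2 : 0 ≤ ∫ x, u x * (1 - u x) * h x :=
      integral_nonneg fun x => mul_nonneg
        (mul_nonneg (hu.nn x) (by have := hu.le x; linarith)) (H.pos x).le
    have := mul_nonneg hκ0.le e2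
    linarith
  obtain ⟨m, hmdef⟩ : ∃ m, m = mf h u := ⟨_, rfl⟩
  rw [← hmdef] at hcon hm
  have hm0' : 0 ≤ m := by
    rw [hmdef]
    exact integral_nonneg fun x => mul_nonneg (hu.nn x) (H.pos x).le
  have hm0 : 0 < m := by
    rcases hm0'.lt_or_eq with h1 | h1
    · exact h1
    · rw [← h1] at hcon
      linarith
  have hm1 : m < 1 / 2 := by
    rcases hm.lt_or_eq with h1 | h1
    · exact h1
    · have h2 := hhalf u hu (by rw [← hmdef, h1])
      rw [h1] at hcon
      linarith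
  obtain ⟨D, hD⟩ : ∃ D, D = 2 * j * m - Per h η κ u := ⟨_, rfl⟩
  have hD0 : 0 < D := by linarith
  obtain ⟨γ, hγ⟩ : ∃ γ, γ = D / (2 * m) := ⟨_, rfl⟩
  have hγ0 : 0 < γ := by
    rw [hγ]
    positivity
  have hγm : γ * m = D / 2 := by
    rw [hγ]
    field_simp
  have key := FE_nonneg (α := 2 * j - γ) H hη hκ0.le hκ hγ0 (fun v hv hvm => by
    have h1 := hhalf v hv hvm
    unfold FE
    rw [hvm]
    linarith) hu (by rw [← hmdef]; exact hm)
  unfold FE at key
  rw [← hmdef] at key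
  have e1 : (2 * j - γ) * m = 2 * j * m - D / 2 := by
    rw [sub_mul, hγm]
  have e2 : 0 < γ * m ^ 2 := by positivity
  rw [e1] at key
  linarith

end Pool.Agent.Lib.MP_8d00da_gt.h97s
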