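import Mathlib
import Pool.Agent.Lib.MP_8d00da_gt.h97s.GHalf
import Pool.Agent.Lib.MP_8d00da_gt.h97s.GPos

/-!
# The inequality for functions with values in [0, 1]
-/

namespace Pool.Agent.Lib.MP_8d00da_gt.h97s

open MeasureTheory Set Filter
open Pool.Agent.Lib.MP_8d00da_gt.h25 Pool.Agent.Lib.MP_8d00da_gt.h42
open Pool.Agent.Lib.MP_8d00da_gt.h42s Pool.Agent.Lib.MP_8d00da_gt.h42o
open Pool.Agent.Lib.MP_8d00da_gt.h97r
open scoped Topology NNReal

set_option linter.unusedSectionVars false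

variable {F : Type*} [NormedAddCommGroup F] [InnerProductSpace ℝ F]
    [FiniteDimensional ℝ F] [MeasurableSpace F] [BorelSpace F]

variable {L B C0 : ℝ} {h W : F → ℝ}

/-- For every `η > 0`, `profile` and `half_bound` give with `κ = 1 / (C1 / η + 2)`:
`2 κ (1/4 - 1/80) m ≤ Per u ≤ η En u + κ (m - ∫ u² h)` (`qf_le`), i.e.
`∫ u² h ≤ (1/2 + 1/40) m + (C1 + 2 η) En u`. Let `η → 0`. -/
theorem lip_ineq (H : GH L B C0 h W) {S : Set F}
    (hS : MeasurableSet S) (hμ : 79 / 80 ≤ ∫ x in S, h x) {C1 : ℝ} (hC1 : 0 ≤ C1)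
    (hPI : ∀ f : F → ℝ, BL f → ∃ c : ℝ, ∫ x in S, (f x - c) ^ 2 * h x ≤ C1 * En h f)
    {u : F → ℝ} (hu : U1 u) (hm : mf h u ≤ 1 / 2) :
    ∫ x, u x ^ 2 * h x ≤ (21 / 40) * mf h u + C1 * En h u := by
  have hi := H.int
  have hEn0 : 0 ≤ En h u := En_nonneg H.wt
  have key : ∀ η : ℝ, 0 < η → ∫ x, u x ^ 2 * h x ≤
      (21 / 40) * mf h u + (C1 + 2 * η) * En h u := by
    intro η hη
    set K := C1 / η + 2 with hK
    have hK2 : 2 ≤ K := by
      have : 0 ≤ C1 / η := by positivity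
      linarith
    have hK0 : 0 < K := by linarith
    have hκ0 : 0 < 1 / K := by positivity
    have hκ1 : 1 / K < 1 := by
      rw [div_lt_one hK0]
      linarith
    have hprof := profile H hη hκ0 hκ1 (j := (1 / K) * (1 / 4 - 1 / 80))
      (mul_nonneg hκ0.le (by norm_num))
      (fun u hu hu2 => half_bound H.wt hi H.mass hη hS hμ hC1 hPI hu hu2) hu hm
    unfold Per at hprof
    have hq := qf_le H.wt hi hη hu.bl
    have huu : ∫ x, u x * (1 - u x) * h x = mf h u - ∫ x, u x ^ 2 * h x := by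
      have e1 : ∀ x, u x * (1 - u x) * h x = u x * h x - u x ^ 2 * h x := by
        intro x
        ring
      simp only [e1]
      rw [integral_sub (bl_int hi hu.bl) (bl_sq hi hu.bl)]
      rfl
    rw [huu] at hprof
    have h1 : K * (2 * ((1 / K) * (1 / 4 - 1 / 80)) * mf h u) ≤
        K * (η * En h u + 1 / K * (mf h u - ∫ x, u x ^ 2 * h x)) :=
      mul_le_mul_of_nonneg_left (hprof.trans (by linarith)) hK0.le
    have h2 : K * (2 * ((1 / K) * (1 / 4 - 1 / 80)) * mf h u) =
        2 * (1 / 4 - 1 / 80) * mf h u := by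
      field_simp
    have h3 : K * (η * En h u + 1 / K * (mf h u - ∫ x, u x ^ 2 * h x)) =
        (C1 + 2 * η) * En h u + (mf h u - ∫ x, u x ^ 2 * h x) := by
      have h4 : K * η = C1 + 2 * η := by
        rw [hK]
        field_simp
      rw [mul_add, ← mul_assoc, h4, ← mul_assoc, mul_one_div_cancel hK0.ne', one_mul]
    rw [h2, h3] at h1
    linarith
  refine le_of_forall_pos_le_add fun ε hε => ?_
  have h1 : 0 < ε / (2 * (En h u + 1)) := by positivity
  have h2 := key _ h1
  have h3 : 2 * (ε / (2 * (En h u + 1))) * En h u ≤ ε := by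
    have h4 : 2 * (ε / (2 * (En h u + 1))) * En h u = ε * (En h u / (En h u + 1)) := by
      field_simp
    rw [h4]
    have h5 : En h u / (En h u + 1) ≤ 1 := by
      rw [div_le_one (by linarith)]
      linarith
    nlinarith
  linarith

end Pool.Agent.Lib.MP_8d00da_gt.h97s
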