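import Mathlib
import Pool.Agent.Lib.MP_8d00da_gt.h97s.GLevA
import Pool.Agent.Lib.MP_8d00da_gt.h97s.GLevB
import Pool.Agent.Lib.MP_8d00da_gt.h97s.GLip

/-!
# The positive part
-/

namespace Pool.Agent.Lib.MP_8d00da_gt.h97s

open MeasureTheory Set Filter
open Pool.Agent.Lib.MP_8d00da_gt.h25 Pool.Agent.Lib.MP_8d00da_gt.h42
open Pool.Agent.Lib.MP_8d00da_gt.h42s Pool.Agent.Lib.MP_8d00da_gt.h42o
open Pool.Agent.Lib.MP_8d00da_gt.h97r
open scoped Topology NNReal

set_option linter.unusedSectionVars false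

variable {F : Type*} [NormedAddCommGroup F] [InnerProductSpace ℝ F]
    [FiniteDimensional ℝ F] [MeasurableSpace F] [BorelSpace F]

variable {L B C0 : ℝ} {h W : F → ℝ}

/-- The positive part. Let `g x = max 0 (f x)` and suppose `∫_{0 < f} h ≤ 1/2`. Every level
function `u = clip (g / 2 ^ k - 1)` is in `U1` and has mean `≤ 1/2` (it vanishes outside
`{0 < f}`). Sum `lip_ineq` with weights `4 ^ (k + 1)` and use `dyadic` (integrated against `h`,
for `M` with `g ≤ 2 ^ M`) and `level_energy` for `g`: `(1/5) ∫ g² h ≤ 4 C1 En g + 4 * 4^(-N)`,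
`N → ∞`. -/
theorem pos_part (H : GH L B C0 h W) {S : Set F}
    (hS : MeasurableSet S) (hμ : 79 / 80 ≤ ∫ x in S, h x) {C1 : ℝ} (hC1 : 0 ≤ C1)
    (hPI : ∀ f : F → ℝ, BL f → ∃ c : ℝ, ∫ x in S, (f x - c) ^ 2 * h x ≤ C1 * En h f)
    {f : F → ℝ} (hf : BL f) (hmed : ∫ x in {x | 0 < f x}, h x ≤ 1 / 2) :
    ∫ x, (max 0 (f x)) ^ 2 * h x ≤ 20 * C1 * En h (fun x => max 0 (f x)) := by
  have hfc : Continuous f := by
    obtain ⟨⟨K, hK⟩, -⟩ := hf
    exact hK.continuous
  obtain ⟨A, hA⟩ := hf.2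
  obtain ⟨M, hM⟩ := pow_unbounded_of_one_lt A (one_lt_two (α := ℝ))
  have hg : BL fun x => max 0 (f x) := by
    obtain ⟨⟨K, hK⟩, -⟩ := hf
    refine ⟨⟨K, hK.const_max 0⟩, A, fun x => ?_⟩
    rw [abs_of_nonneg (le_max_left _ _)]
    exact max_le ((abs_nonneg _).trans (hA x)) ((le_abs_self _).trans (hA x))
  have hg0 : ∀ x, 0 ≤ max 0 (f x) := fun x => le_max_left _ _
  have hgM : ∀ x, max 0 (f x) ≤ 2 ^ M := fun x =>
    (max_le ((abs_nonneg _).trans (hA x)) ((le_abs_self _).trans (hA x))).trans hM.le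
  have hi := H.int
  have hw := H.wt
  set g : F → ℝ := fun x => max 0 (f x) with hgdef
  -- the level functions
  have hU1 : ∀ c : ℝ, U1 fun x => clip (g x / c - 1) := fun c =>
    ⟨level_bl hg c, fun x => clip_nonneg _, fun x => clip_le _⟩
  have hmean : ∀ c : ℝ, 0 < c → mf h (fun x => clip (g x / c - 1)) ≤ 1 / 2 := by
    intro c hc
    refine le_trans ?_ hmed
    unfold mf
    have hms : MeasurableSet {x | 0 < f x} := (isOpen_lt continuous_const hfc).measurableSet
    rw [← integral_indicator hms]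
    refine integral_mono (bl_int hi (hU1 c).bl) (hi.indicator hms) fun x => ?_
    by_cases hx : 0 < f x
    · rw [indicator_of_mem (show x ∈ {x | 0 < f x} from hx)]
      calc clip (g x / c - 1) * h x ≤ 1 * h x :=
            mul_le_mul_of_nonneg_right (clip_le _) (hw.nonneg x)
        _ = h x := one_mul _
    · rw [indicator_of_notMem (show x ∉ {x | 0 < f x} from hx)]
      have h1 : g x = 0 := max_eq_left (not_lt.mp hx)
      have h2 : clip (g x / c - 1) = 0 := clip_of_nonpos (by rw [h1, zero_div]; norm_num)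
      change clip (g x / c - 1) * h x ≤ 0
      rw [h2, zero_mul]
  have hlev : ∀ c : ℝ, 0 < c → (∫ x, clip (g x / c - 1) ^ 2 * h x) -
      (21 / 40) * mf h (fun x => clip (g x / c - 1)) ≤ C1 * En h (fun x => clip (g x / c - 1)) := by
    intro c hc
    have := lip_ineq H hS hμ hC1 hPI (hU1 c) (hmean c hc)
    linarith
  -- the integrated dyadic inequality
  have hN : ∀ N : ℕ, (∫ x, g x ^ 2 * h x) / 5 ≤
      4 * C1 * En h g + 4 * (4 : ℝ) ^ (-(N : ℤ)) := by
    intro N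
    have hp : ∀ i : ℕ, (0 : ℝ) < (2 : ℝ) ^ ((i : ℤ) - N) := fun i => by positivity
    have h1 : ∀ x, g x ^ 2 * h x / 5 ≤ (∑ i ∈ Finset.range (N + M + 1),
        (4 : ℝ) ^ ((i : ℤ) - N + 1) * (clip (g x / (2 : ℝ) ^ ((i : ℤ) - N) - 1) ^ 2 * h x -
          (21 / 40) * (clip (g x / (2 : ℝ) ^ ((i : ℤ) - N) - 1) * h x))) +
        4 * (4 : ℝ) ^ (-(N : ℤ)) * h x := by
      intro x
      have h2 := mul_le_mul_of_nonneg_right (dyadic N M (hg0 x) (hgM x)) (hw.nonneg x)
      rw [add_mul, Finset.sum_mul] at h2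
      refine le_trans (le_of_eq ?_) (h2.trans (le_of_eq ?_))
      · simp only [hgdef]; ring
      · congr 1
        refine Finset.sum_congr rfl fun i _ => ?_
        simp only [hgdef]; ring
    have hiI : ∀ i : ℕ, Integrable fun x => (4 : ℝ) ^ ((i : ℤ) - N + 1) *
        (clip (g x / (2 : ℝ) ^ ((i : ℤ) - N) - 1) ^ 2 * h x -
          (21 / 40) * (clip (g x / (2 : ℝ) ^ ((i : ℤ) - N) - 1) * h x)) := fun i =>
      ((bl_sq hi (hU1 _).bl).sub ((bl_int hi (hU1 _).bl).const_mul _)).const_mul _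
    have h3 : ∫ x, g x ^ 2 * h x / 5 ≤ ∫ x, ((∑ i ∈ Finset.range (N + M + 1),
        (4 : ℝ) ^ ((i : ℤ) - N + 1) * (clip (g x / (2 : ℝ) ^ ((i : ℤ) - N) - 1) ^ 2 * h x -
          (21 / 40) * (clip (g x / (2 : ℝ) ^ ((i : ℤ) - N) - 1) * h x))) +
        4 * (4 : ℝ) ^ (-(N : ℤ)) * h x) :=
      integral_mono ((bl_sq hi hg).div_const 5)
        ((integrable_finsetSum _ fun i _ => hiI i).add (hi.const_mul _)) h1
    rw [integral_div, integral_add (integrable_finsetSum _ fun i _ => hiI i) (hi.const_mul _),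
      integral_finsetSum _ fun i _ => hiI i, integral_const_mul, H.mass, mul_one] at h3
    refine h3.trans (add_le_add_left ?_ _)
    have h4 := mul_le_mul_of_nonneg_left (level_energy hw hi N M hg) hC1
    refine le_trans ?_ (h4.trans (le_of_eq (by ring)))
    rw [Finset.mul_sum]
    refine Finset.sum_le_sum fun i _ => ?_
    rw [integral_const_mul, integral_sub (bl_sq hi (hU1 _).bl)
      ((bl_int hi (hU1 _).bl).const_mul _), integral_const_mul]
    have h5 := mul_le_mul_of_nonneg_left (hlev _ (hp i))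
      (show (0 : ℝ) ≤ (4 : ℝ) ^ ((i : ℤ) - N + 1) by positivity)
    unfold mf at h5
    linarith
  -- the limit
  have hlim : Tendsto (fun N : ℕ => 4 * C1 * En h g + 4 * (4 : ℝ) ^ (-(N : ℤ))) atTop
      (𝓝 (4 * C1 * En h g + 4 * 0)) := by
    refine tendsto_const_nhds.add (Tendsto.const_mul _ ?_)
    have h6 : (fun N : ℕ => (4 : ℝ) ^ (-(N : ℤ))) = fun N : ℕ => ((4 : ℝ)⁻¹) ^ N := by
      ext N
      rw [zpow_neg, zpow_natCast, inv_pow]
    rw [h6]
    exact tendsto_pow_atTop_nhds_zero_of_lt_one (by norm_num) (by norm_num)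
  have h7 := ge_of_tendsto' hlim hN
  change ∫ x, g x ^ 2 * h x ≤ 20 * C1 * En h g
  linarith

end Pool.Agent.Lib.MP_8d00da_gt.h97s
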