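import Mathlib
import Pool.Agent.Lib.MP_8d00da_gt.h97s.GLevC
import Pool.Agent.Lib.MP_8d00da_gt.h97s.GPThmA

/-!
# Bulk suffices
-/

namespace Pool.Agent.Lib.MP_8d00da_gt.h97s

open MeasureTheory Set Filter
open Pool.Agent.Lib.MP_8d00da_gt.h25 Pool.Agent.Lib.MP_8d00da_gt.h42
open Pool.Agent.Lib.MP_8d00da_gt.h42s Pool.Agent.Lib.MP_8d00da_gt.h42o
open Pool.Agent.Lib.MP_8d00da_gt.h97r
open scoped Topology NNReal

set_option linter.unusedSectionVars false

variable {F : Type*} [NormedAddCommGroup F] [InnerProductSpace ℝ F]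
    [FiniteDimensional ℝ F] [MeasurableSpace F] [BorelSpace F]

variable {L B C0 : ℝ} {h W : F → ℝ}

/-- The energies of the positive and the negative part (at a point with `f x = 0` both
derivatives vanish: minimum, or not differentiable). -/
theorem En_parts (H : Wt h B) (hi : Integrable h) {f : F → ℝ} (hf : BL f) :
    En h (fun x => max 0 (f x)) + En h (fun x => max 0 (-f x)) ≤ En h f := by
  obtain ⟨⟨K, hK⟩, A, hA⟩ := hf
  have hfc : Continuous f := hK.continuous
  have hp : LipschitzWith K fun x => max 0 (f x) := by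
    have := (hK.max_const 0)
    simpa [max_comm] using this
  have hq : LipschitzWith K fun x => max 0 (-f x) := by
    have := (hK.neg.max_const 0)
    simpa [max_comm] using this
  have hint : ∀ {g : F → ℝ}, LipschitzWith K g → Integrable fun x => ‖fderiv ℝ g x‖ ^ 2 * h x :=
    fun {g} hg => bdd_int hi ((measurable_fderiv ℝ g).norm.pow_const 2) (sq_fderiv_bdd hg)
  unfold En
  rw [← integral_add (hint hp) (hint hq)]
  refine integral_mono ((hint hp).add (hint hq)) (hint hK) fun x => ?_
  show ‖fderiv ℝ (fun x => max 0 (f x)) x‖ ^ 2 * h x +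
    ‖fderiv ℝ (fun x => max 0 (-f x)) x‖ ^ 2 * h x ≤ ‖fderiv ℝ f x‖ ^ 2 * h x
  rcases lt_trichotomy (f x) 0 with h1 | h1 | h1
  · have e1 : (fun y => max 0 (f y)) =ᶠ[𝓝 x] fun _ => (0 : ℝ) := by
      filter_upwards [hfc.continuousAt.eventually_lt_const h1] with y hy
      exact max_eq_left hy.le
    have e2 : (fun y => max 0 (-f y)) =ᶠ[𝓝 x] fun y => -f y := by
      filter_upwards [hfc.continuousAt.eventually_lt_const h1] with y hy
      exact max_eq_right (by linarith)
    rw [e1.fderiv_eq, e2.fderiv_eq]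
    have e3 : fderiv ℝ (fun y => -f y) x = -fderiv ℝ f x := fderiv_fun_neg
    rw [e3, norm_neg]
    simp
  · have m1 : IsLocalMin (fun y => max 0 (f y)) x := by
      refine Eventually.of_forall fun y => ?_
      show max 0 (f x) ≤ max 0 (f y)
      rw [h1, max_self]
      exact le_max_left _ _
    have m2 : IsLocalMin (fun y => max 0 (-f y)) x := by
      refine Eventually.of_forall fun y => ?_
      show max 0 (-f x) ≤ max 0 (-f y)
      rw [h1, neg_zero, max_self]
      exact le_max_left _ _
    rw [m1.fderiv_eq_zero, m2.fderiv_eq_zero]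
    have := mul_nonneg (sq_nonneg ‖fderiv ℝ f x‖) (H.nonneg x)
    simpa using this
  · have e1 : (fun y => max 0 (-f y)) =ᶠ[𝓝 x] fun _ => (0 : ℝ) := by
      filter_upwards [hfc.continuousAt.eventually_const_lt h1] with y hy
      exact max_eq_left (by linarith)
    have e2 : (fun y => max 0 (f y)) =ᶠ[𝓝 x] fun y => f y := by
      filter_upwards [hfc.continuousAt.eventually_const_lt h1] with y hy
      exact max_eq_right hy.le
    rw [e1.fderiv_eq, e2.fderiv_eq]
    simp

/-- **Bulk suffices.** Let `m` be a median of `f` (`exists_median`); `Vr h f ≤ ∫ (f - m)² h`, and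
use `pos_part` for `f - m` and `m - f`, and `En_parts`. -/
theorem GP (H : GH L B C0 h W) {S : Set F}
    (hS : MeasurableSet S) (hμ : 79 / 80 ≤ ∫ x in S, h x) {C1 : ℝ} (hC1 : 0 ≤ C1)
    (hPI : ∀ f : F → ℝ, BL f → ∃ c : ℝ, ∫ x in S, (f x - c) ^ 2 * h x ≤ C1 * En h f)
    {f : F → ℝ} (hf : BL f) : Vr h f ≤ 20 * C1 * En h f := by
  obtain ⟨m, hm1, hm2⟩ := exists_median (fun x => (H.pos x).le) H.int H.mass hf
  have hg : BL fun x => f x - m := hf.sub (BL.const m)
  have hng : BL fun x => -(f x - m) := hg.neg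
  have s1 : {x | 0 < f x - m} = {x | m < f x} := by
    ext x
    simp [sub_pos]
  have s2 : {x | 0 < -(f x - m)} = {x | f x < m} := by
    ext x
    simp
  have p1 := pos_part H hS hμ hC1 hPI hg (by rw [s1]; exact hm1)
  have p2 := pos_part H hS hμ hC1 hPI hng (by rw [s2]; exact hm2)
  have hmaxBL : ∀ {g : F → ℝ}, BL g → BL fun x => max 0 (g x) := by
    rintro g ⟨⟨K, hK⟩, A, hA⟩
    refine ⟨⟨K, ?_⟩, A, fun x => ?_⟩
    · have := (hK.max_const 0)
      simpa [max_comm] using this
    · rw [abs_of_nonneg (le_max_left _ _)]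
      exact max_le ((abs_nonneg _).trans (hA x)) ((le_abs_self _).trans (hA x))
  have i1 := bl_sq H.int (hmaxBL hg)
  have i2 := bl_sq H.int (hmaxBL hng)
  have e1 : ∫ x, (f x - m) ^ 2 * h x = (∫ x, (max 0 (f x - m)) ^ 2 * h x) +
      ∫ x, (max 0 (-(f x - m))) ^ 2 * h x := by
    rw [← integral_add i1 i2]
    refine integral_congr_ae (Eventually.of_forall fun x => ?_)
    show (f x - m) ^ 2 * h x =
      (max 0 (f x - m)) ^ 2 * h x + (max 0 (-(f x - m))) ^ 2 * h x
    rcases le_total 0 (f x - m) with h1 | h1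
    · rw [max_eq_right h1, max_eq_left (by linarith)]
      ring
    · rw [max_eq_left h1, max_eq_right (by linarith)]
      ring
  have e2 : En h (fun x => f x - m) = En h f := by
    unfold En
    refine integral_congr_ae (Eventually.of_forall fun x => ?_)
    show ‖fderiv ℝ (fun x => f x - m) x‖ ^ 2 * h x = ‖fderiv ℝ f x‖ ^ 2 * h x
    rw [fderiv_sub_const]
  have e3 := En_parts H.wt H.int hg
  rw [e2] at e3
  have e4 : Vr h f ≤ ∫ x, (f x - m) ^ 2 * h x := by
    have j1 := bl_sq H.int hf
    have j2 := bl_int H.int hf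
    have j12 : Integrable fun x => f x ^ 2 * h x - 2 * m * (f x * h x) := j1.sub (j2.const_mul _)
    have e5 : ∫ x, (f x - m) ^ 2 * h x = (∫ x, f x ^ 2 * h x) - 2 * m * (∫ x, f x * h x) +
        m ^ 2 * ∫ x, h x := by
      have e6 : (fun x => (f x - m) ^ 2 * h x) =
          fun x => f x ^ 2 * h x - 2 * m * (f x * h x) + m ^ 2 * h x := by
        funext x
        ring
      rw [e6, integral_add j12 (H.int.const_mul _), integral_sub j1 (j2.const_mul _),
        integral_const_mul, integral_const_mul]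
    rw [e5, H.mass]
    unfold Vr
    rw [H.mass, div_one]
    nlinarith [sq_nonneg ((∫ x, f x * h x) - m)]
  have e7 := mul_le_mul_of_nonneg_left e3 (by positivity : 0 ≤ 20 * C1)
  rw [mul_add] at e7
  linarith

end Pool.Agent.Lib.MP_8d00da_gt.h97s
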