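import Mathlib
import Pool.Agent.Lib.MP_8d00da_gt.h97r.ROm
import Pool.Agent.Lib.MP_8d00da_gt.h97s.KDefs

/-!
# Coordinates
-/

namespace Pool.Agent.Lib.MP_8d00da_gt.h97s

open MeasureTheory Set Filter
open Pool.Agent.Lib.MP_8d00da_gt.h25 Pool.Agent.Lib.MP_8d00da_gt.h42
open Pool.Agent.Lib.MP_8d00da_gt.h42s Pool.Agent.Lib.MP_8d00da_gt.h42o
open Pool.Agent.Lib.MP_8d00da_gt.h97r
open scoped Topology NNReal

set_option linter.unusedSectionVars false

variable {F : Type*} [NormedAddCommGroup F] [InnerProductSpace ℝ F]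
    [FiniteDimensional ℝ F] [MeasurableSpace F] [BorelSpace F]

variable {m j : ℕ} {b : OrthonormalBasis (Fin m ⊕ Fin j) ℝ F}

private lemma kco_split (b : OrthonormalBasis (Fin m ⊕ Fin j) ℝ F) (x : F) :
    ∑ i : Fin m, (inner ℝ (b (Sum.inl i)) x) ^ 2 + ∑ l : Fin j, (inner ℝ (b (Sum.inr l)) x) ^ 2 =
      ‖x‖ ^ 2 := by
  rw [← b.sum_sq_inner_right x, Fintype.sum_sum_type]

private lemma kco_eq (b : OrthonormalBasis (Fin m ⊕ Fin j) ℝ F) {x y : F}
    (h1 : ∀ i, inner ℝ (b (Sum.inl i)) x = inner ℝ (b (Sum.inl i)) y)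
    (h2 : ∀ l, inner ℝ (b (Sum.inr l)) x = inner ℝ (b (Sum.inr l)) y) : x = y := by
  refine b.repr.injective ?_
  ext k
  rw [b.repr_apply_apply, b.repr_apply_apply]
  rcases k with i | l
  · exact h1 i
  · exact h2 l

private lemma kco_add (b : OrthonormalBasis (Fin m ⊕ Fin j) ℝ F) (s s' : Vn m) (t t' : Vn j) :
    jj b (s + s') (t + t') = jj b s t + jj b s' t' := by
  unfold jj
  simp only [PiLp.add_apply, add_smul, Finset.sum_add_distrib]
  abel

private lemma kco_smul (b : OrthonormalBasis (Fin m ⊕ Fin j) ℝ F) (c : ℝ) (s : Vn m) (t : Vn j) :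
    jj b (c • s) (c • t) = c • jj b s t := by
  unfold jj
  simp only [PiLp.smul_apply, smul_eq_mul, mul_smul, smul_add, Finset.smul_sum]

theorem tc_jj (s : Vn m) (t : Vn j) : tc b (jj b s t) = t := by
  ext l
  exact inner_jj_inr b s t l

theorem sc_jj (s : Vn m) (t : Vn j) : sc b (jj b s t) = s := by
  ext i
  exact inner_jj_inl b s t i

theorem jj_sc_tc (x : F) : jj b (sc b x) (tc b x) = x := by
  refine kco_eq b (fun i => ?_) (fun l => ?_)
  · rw [inner_jj_inl]
    rfl
  · rw [inner_jj_inr]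
    rfl

theorem norm_jj (s : Vn m) (t : Vn j) : ‖jj b s t‖ ^ 2 = ‖s‖ ^ 2 + ‖t‖ ^ 2 := by
  rw [← kco_split b]
  simp only [inner_jj_inl, inner_jj_inr, EuclideanSpace.norm_sq_eq, Real.norm_eq_abs, sq_abs]

theorem jj_cont : Continuous fun p : Vn m × Vn j => jj b p.1 p.2 := by
  unfold jj
  refine (continuous_finsetSum _ fun i _ => ?_).add (continuous_finsetSum _ fun l _ => ?_)
  · exact ((EuclideanSpace.proj (𝕜 := ℝ) i).continuous.comp continuous_fst).smul continuous_const
  · exact ((EuclideanSpace.proj (𝕜 := ℝ) l).continuous.comp continuous_snd).smul continuous_const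

theorem tc_cont : Continuous (tc b) := by
  unfold tc
  exact (PiLp.continuous_toLp 2 _).comp
    (continuous_pi fun l => continuous_const.inner continuous_id)

theorem tc_sq (x : F) : ‖tc b x‖ ^ 2 = ∑ l, (inner ℝ (b (Sum.inr l)) x) ^ 2 := by
  rw [EuclideanSpace.norm_sq_eq]
  refine Finset.sum_congr rfl fun l _ => ?_
  rw [Real.norm_eq_abs, sq_abs]
  rfl

theorem tc_lin (a c : ℝ) (x y : F) : tc b (a • x + c • y) = a • tc b x + c • tc b y := by
  ext l
  show inner ℝ (b (Sum.inr l)) (a • x + c • y) =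
    a * inner ℝ (b (Sum.inr l)) x + c * inner ℝ (b (Sum.inr l)) y
  rw [inner_add_right, inner_smul_right, inner_smul_right]

theorem jj_lin (a c : ℝ) (s s' : Vn m) (t t' : Vn j) :
    jj b (a • s + c • s') (a • t + c • t') = a • jj b s t + c • jj b s' t' := by
  rw [kco_add, kco_smul, kco_smul]

/-- A symmetry which fixes the vectors `b (inr l)` acts on the first coordinates only, by an
isometry (`h97r/ROm.lean`, `Sy.restrict`): `⟨b (inr l), g x⟩ = ⟨g (b (inr l)), g x⟩ =
⟨b (inr l), x⟩`. The rank of `G - 1` is at most the rank of `g - 1` and powers correspond. -/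
theorem exists_restrict {g : F ≃ₗᵢ[ℝ] F} (hg : ∀ l, g (b (Sum.inr l)) = b (Sum.inr l)) :
    ∃ G : Vn m ≃ₗᵢ[ℝ] Vn m, (∀ (s : Vn m) (t : Vn j), g (jj b s t) = jj b (G s) t) ∧
      (∀ (k : ℕ) (s : Vn m) (t : Vn j), (g ^ k) (jj b s t) = jj b ((G ^ k) s) t) ∧
      Module.finrank ℝ (LinearMap.range ((G.toLinearEquiv : Vn m →ₗ[ℝ] Vn m) - LinearMap.id)) ≤
        Module.finrank ℝ (LinearMap.range ((g.toLinearEquiv : F →ₗ[ℝ] F) - LinearMap.id)) := by
  let L : Vn m →ₗ[ℝ] Vn m :=
    { toFun := fun s => WithLp.toLp 2 fun i => inner ℝ (b (Sum.inl i)) (g (jj b s 0))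
      map_add' := by
        intro s s'
        ext i
        have h1 := kco_add b s s' 0 0
        rw [add_zero] at h1
        simp only [PiLp.add_apply]
        rw [h1, map_add, inner_add_right]
      map_smul' := by
        intro c s
        ext i
        have h1 := kco_smul b c s 0
        rw [smul_zero] at h1
        simp only [PiLp.smul_apply, RingHom.id_apply]
        rw [h1, map_smul, inner_smul_right, smul_eq_mul] }
  have hL : ∀ s i, L s i = inner ℝ (b (Sum.inl i)) (g (jj b s 0)) := fun s i => rfl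
  have h3 : ∀ (x : F) (l : Fin j), inner ℝ (b (Sum.inr l)) (g x) = inner ℝ (b (Sum.inr l)) x := by
    intro x l
    conv_lhs => rw [← hg l]
    exact g.inner_map_map _ _
  have hg0 : ∀ s, g (jj b s 0) = jj b (L s) 0 := by
    intro s
    refine kco_eq b ?_ ?_
    · intro i
      rw [inner_jj_inl, hL]
    · intro l
      rw [h3, inner_jj_inr, inner_jj_inr]
  have hn : ∀ s : Vn m, ‖jj b s (0 : Vn j)‖ ^ 2 = ‖s‖ ^ 2 := by
    intro s
    rw [norm_jj, norm_zero]
    ring
  have hnL : ∀ s, ‖L s‖ = ‖s‖ := by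
    intro s
    have h4 := hn (L s)
    rw [← hg0, g.norm_map, hn] at h4
    exact ((sq_eq_sq₀ (norm_nonneg _) (norm_nonneg _)).mp h4).symm
  let LI : Vn m →ₗᵢ[ℝ] Vn m := ⟨L, hnL⟩
  let G : Vn m ≃ₗᵢ[ℝ] Vn m := LI.toLinearIsometryEquiv rfl
  have hGL : ∀ s, G s = L s := fun s => rfl
  have hG : ∀ (s : Vn m) (t : Vn j), g (jj b s t) = jj b (G s) t := by
    intro s t
    have h5 : jj b s t = jj b s 0 + jj b 0 t := by
      rw [← kco_add, add_zero, zero_add]
    have h6 : g (jj b 0 t) = jj b 0 t := by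
      unfold jj
      simp only [PiLp.zero_apply, zero_smul, Finset.sum_const_zero, zero_add, map_sum, map_smul,
        hg]
    rw [h5, map_add, hg0, h6, ← kco_add, add_zero, zero_add, hGL]
  refine ⟨G, hG, fun k => ?_, ?_⟩
  · induction k with
    | zero =>
      intro s t
      rfl
    | succ k ih =>
      intro s t
      rw [pow_succ', pow_succ']
      show g ((g ^ k) (jj b s t)) = jj b (G ((G ^ k) s)) t
      rw [ih, hG]
  · let J : Vn m →ₗ[ℝ] F :=
      { toFun := fun s => jj b s 0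
        map_add' := fun s s' => by
          have h1 := kco_add b s s' 0 0
          rw [add_zero] at h1
          exact h1
        map_smul' := fun c s => by
          have h1 := kco_smul b c s 0
          rw [smul_zero] at h1
          exact h1 }
    have hJ : Function.Injective J := by
      intro s s' hs
      have h1 := congrArg (sc b) hs
      have h2 : sc b (jj b s 0) = sc b (jj b s' 0) := h1
      rwa [sc_jj, sc_jj] at h2
    have hc : J ∘ₗ ((G.toLinearEquiv : Vn m →ₗ[ℝ] Vn m) - LinearMap.id) =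
        ((g.toLinearEquiv : F →ₗ[ℝ] F) - LinearMap.id) ∘ₗ J := by
      refine LinearMap.ext fun s => ?_
      show J (G s - s) = g (jj b s 0) - jj b s 0
      rw [hG, map_sub]
      rfl
    have h1 := LinearEquiv.finrank_eq (Submodule.equivMapOfInjective J hJ
      (LinearMap.range ((G.toLinearEquiv : Vn m →ₗ[ℝ] Vn m) - LinearMap.id)))
    rw [h1, ← LinearMap.range_comp, hc]
    exact Submodule.finrank_mono (LinearMap.range_comp_le_range _ _)

theorem tc_sym {g : F ≃ₗᵢ[ℝ] F} (hg : ∀ l, g (b (Sum.inr l)) = b (Sum.inr l)) (x : F) :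
    tc b (g x) = tc b x := by
  ext l
  show inner ℝ (b (Sum.inr l)) (g x) = inner ℝ (b (Sum.inr l)) x
  conv_lhs => rw [← hg l]
  exact g.inner_map_map _ _

end Pool.Agent.Lib.MP_8d00da_gt.h97s
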