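import Mathlib
import Pool.Agent.Lib.MP_8d00da_gt.h97s.KBas
import Pool.Agent.Lib.MP_8d00da_gt.h97s.KCoord

/-!
# Fibres of smooth weights
-/

namespace Pool.Agent.Lib.MP_8d00da_gt.h97s

open MeasureTheory Set Filter
open Pool.Agent.Lib.MP_8d00da_gt.h25 Pool.Agent.Lib.MP_8d00da_gt.h42
open Pool.Agent.Lib.MP_8d00da_gt.h42s Pool.Agent.Lib.MP_8d00da_gt.h42o
open Pool.Agent.Lib.MP_8d00da_gt.h97r
open scoped Topology NNReal

set_option linter.unusedSectionVars false

variable {F : Type*} [NormedAddCommGroup F] [InnerProductSpace ℝ F]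
    [FiniteDimensional ℝ F] [MeasurableSpace F] [BorelSpace F]

variable {δ L : ℝ} {h : F → ℝ} {m j : ℕ} {b : OrthonormalBasis (Fin m ⊕ Fin j) ℝ F}

private lemma kma_cont (H : GV δ L h) (t : Vn j) : Continuous (fb h b t) :=
  H.cont.comp (jj_cont.comp (continuous_id.prodMk continuous_const))

private lemma kma_bd (H : GV δ L h) : ∃ A : ℝ, 0 < A ∧ ∀ (t : Vn j) (s : Vn m),
    fb h b t s ≤ A * Real.exp (-(δ * ‖s‖ ^ 2 / 8)) := by
  obtain ⟨A, hA, hg⟩ := H.gauss
  refine ⟨A, hA, fun t s => (hg _).trans ?_⟩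
  rw [norm_jj]
  have hδ := H.dpos
  have h1 : 0 ≤ δ * ‖t‖ ^ 2 := by positivity
  refine mul_le_mul_of_nonneg_left (Real.exp_le_exp.2 ?_) hA.le
  linarith

/-- Integrability on every fibre (`GV.gauss`, `norm_jj`). -/
theorem fb_int_exp (H : GV δ L h) (t : Vn j) {φ : Vn m → ℝ} (hφ : Measurable φ) {C a : ℝ}
    (hC : ∀ s, |φ s| ≤ C * Real.exp (a * ‖s‖)) : Integrable fun s => φ s * fb h b t s := by
  obtain ⟨A, hA, hb⟩ := kma_bd (b := b) H
  have hδ := H.dpos
  have hη : 0 < 8 / δ := by positivity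
  have hC0 : 0 ≤ C := by
    have h1 := (abs_nonneg _).trans (hC 0)
    simpa using h1
  have hker : Integrable fun x : Vn m => (C * A * Real.exp (4 * a ^ 2 / δ)) * h25.ker (8 / δ) x :=
    (ker_integrable hη).const_mul _
  refine hker.mono' (hφ.mul (kma_cont H t).measurable).aestronglyMeasurable
    (Eventually.of_forall fun x => ?_)
  rw [Real.norm_eq_abs, abs_mul, abs_of_pos (show 0 < fb h b t x from H.pos _)]
  have h3 : h25.ker (8 / δ) x = Real.exp (-(δ * ‖x‖ ^ 2 / 16)) := by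
    unfold h25.ker
    congr 2
    field_simp
    ring
  have h4 : a * ‖x‖ + -(δ * ‖x‖ ^ 2 / 8) ≤ 4 * a ^ 2 / δ + -(δ * ‖x‖ ^ 2 / 16) := by
    have h5 : 4 * a ^ 2 / δ + -(δ * ‖x‖ ^ 2 / 16) - (a * ‖x‖ + -(δ * ‖x‖ ^ 2 / 8)) =
        (1 / (16 * δ)) * (δ * ‖x‖ - 8 * a) ^ 2 := by
      field_simp
      ring
    have h6 : 0 ≤ (1 / (16 * δ)) * (δ * ‖x‖ - 8 * a) ^ 2 := by positivity
    linarith
  calc |φ x| * fb h b t x ≤ (C * Real.exp (a * ‖x‖)) * (A * Real.exp (-(δ * ‖x‖ ^ 2 / 8))) :=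
        mul_le_mul (hC x) (hb t x) (H.pos _).le (by positivity)
    _ = C * A * Real.exp (a * ‖x‖ + -(δ * ‖x‖ ^ 2 / 8)) := by rw [Real.exp_add]; ring
    _ ≤ C * A * Real.exp (4 * a ^ 2 / δ + -(δ * ‖x‖ ^ 2 / 16)) := by gcongr
    _ = (C * A * Real.exp (4 * a ^ 2 / δ)) * h25.ker (8 / δ) x := by
        rw [h3, Real.exp_add]; ring

private lemma kma_int (H : GV δ L h) (t : Vn j) : Integrable (fb h b t) := by
  have h1 := fb_int_exp (b := b) H t (φ := fun _ => 1) measurable_const (C := 1) (a := 0)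
    (fun s => by simp)
  simpa using h1

theorem mg_pos (H : GV δ L h) (t : Vn j) : 0 < mg h b t := by
  have hI := kma_int (b := b) H t
  refine (integral_pos_iff_support_of_nonneg (fun s => (H.pos _).le) hI).2 ?_
  have h1 : Function.support (fb h b t) = univ := by
    ext s
    simp only [Function.mem_support, mem_univ, iff_true]
    exact (H.pos _).ne'
  show 0 < volume (Function.support (fb h b t))
  rw [h1]
  exact isOpen_univ.measure_pos volume univ_nonempty

/-- The marginal is bounded (`GV.gauss`, `norm_jj`). -/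
theorem mg_bdd (H : GV δ L h) : ∃ S : ℝ, ∀ t, mg h b t ≤ S := by
  obtain ⟨A, hA, hb⟩ := kma_bd (b := b) H
  refine ⟨∫ s : Vn m, A * Real.exp (-(δ * ‖s‖ ^ 2 / 8)), fun t => ?_⟩
  have hδ := H.dpos
  have hη : 0 < 4 / δ := by positivity
  have hk : Integrable fun s : Vn m => A * Real.exp (-(δ * ‖s‖ ^ 2 / 8)) := by
    have e : (fun s : Vn m => A * Real.exp (-(δ * ‖s‖ ^ 2 / 8))) =
        fun s => A * h25.ker (4 / δ) s := by
      funext s
      unfold h25.ker
      congr 3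
      field_simp
      ring
    rw [e]
    exact (ker_integrable hη).const_mul _
  exact integral_mono (kma_int H t) hk fun s => hb t s

/-- `mg = Lp 0`. -/
theorem mg_eq (h : F → ℝ) (b : OrthonormalBasis (Fin m ⊕ Fin j) ℝ F) (t : Vn j) :
    mg h b t = Lp h b 0 t := by
  unfold mg Lp
  simp only [inner_zero_left, Real.exp_zero, one_mul]

end Pool.Agent.Lib.MP_8d00da_gt.h97s
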