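import Mathlib
import Pool.Agent.Lib.MP_8d00da_gt.h97r.RFub
import Pool.Agent.Lib.MP_8d00da_gt.h97s.KMargA

/-!
# Marginals and Laplace transforms of the fibres
-/

namespace Pool.Agent.Lib.MP_8d00da_gt.h97s

open MeasureTheory Set Filter
open Pool.Agent.Lib.MP_8d00da_gt.h25 Pool.Agent.Lib.MP_8d00da_gt.h42
open Pool.Agent.Lib.MP_8d00da_gt.h42s Pool.Agent.Lib.MP_8d00da_gt.h42o
open Pool.Agent.Lib.MP_8d00da_gt.h97r
open scoped Topology NNReal

set_option linter.unusedSectionVars false

variable {F : Type*} [NormedAddCommGroup F] [InnerProductSpace ℝ F]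
    [FiniteDimensional ℝ F] [MeasurableSpace F] [BorelSpace F]

variable {δ L : ℝ} {h : F → ℝ} {m j : ℕ} {b : OrthonormalBasis (Fin m ⊕ Fin j) ℝ F}

private lemma kmarg_inner (b : OrthonormalBasis (Fin m ⊕ Fin j) ℝ F) (θ s : Vn m) (t : Vn j) :
    (inner ℝ (jj b θ 0) (jj b s t) : ℝ) = inner ℝ θ s := by
  have h1 : jj b θ 0 + jj b s t = jj b (θ + s) t := by
    have := jj_lin (b := b) 1 1 θ s 0 t
    simp only [one_smul, zero_add] at this
    exact this.symm
  have h2 := norm_add_sq_real (jj b θ 0) (jj b s t)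
  have h3 := norm_add_sq_real θ s
  rw [h1, norm_jj, norm_jj, norm_jj, norm_zero] at h2
  linarith

private lemma kmarg_exp_le {E : Type*} [NormedAddCommGroup E] [InnerProductSpace ℝ E] (θ s : E) :
    |Real.exp (inner ℝ θ s)| ≤ 1 * Real.exp (‖θ‖ * ‖s‖) := by
  rw [abs_of_pos (Real.exp_pos _), one_mul, Real.exp_le_exp]
  exact real_inner_le_norm _ _

private lemma kmarg_exp_meas {E : Type*} [NormedAddCommGroup E] [InnerProductSpace ℝ E]
    [MeasurableSpace E] [BorelSpace E] (θ : E) : Measurable fun s : E => Real.exp (inner ℝ θ s) := by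
  have h1 : Continuous fun s : E => Real.exp (inner ℝ θ s) :=
    Real.continuous_exp.comp (continuous_const.inner continuous_id)
  exact h1.measurable

private lemma kmarg_fb_cont (H : GV δ L h) (t : Vn j) : Continuous (fb h b t) :=
  H.cont.comp ((jj_cont (b := b)).comp (continuous_id.prodMk continuous_const))

/-- Prekopa on `Vn m` (`h42.pl_integral` or `PLProp.integral` with `pl_space (Vn m)`) for the
functions `s ↦ exp ⟨θ, s⟩ * h (jj b s t)`, using `jj_lin` and `H.lc`. -/
theorem Lp_lc (H : GV δ L h) (θ : Vn m) : LogConc (Lp h b θ) := by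
  intro a ha0 ha1 t t'
  have h1a : 0 < 1 - a := by linarith
  have hnn : ∀ (t : Vn j) (s : Vn m), 0 ≤ Real.exp (inner ℝ θ s) * fb h b t s := fun t s =>
    mul_nonneg (Real.exp_pos _).le (H.pos _).le
  have hme : ∀ t : Vn j, Measurable fun s : Vn m => Real.exp (inner ℝ θ s) * fb h b t s :=
    fun t => (kmarg_exp_meas θ).mul (kmarg_fb_cont H t).measurable
  have hin : ∀ t : Vn j, Integrable fun s : Vn m => Real.exp (inner ℝ θ s) * fb h b t s :=
    fun t => fb_int_exp H t (kmarg_exp_meas θ) (kmarg_exp_le θ)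
  refine pl_integral ha0 ha1 (hnn t) (hnn t') (hnn _) (hme t) (hme t') (hme _) (hin t) (hin t')
    (hin _) fun s s' => ?_
  have h1 := H.lc a ha0 ha1 (jj b s t) (jj b s' t')
  rw [← jj_lin] at h1
  have h2 : (inner ℝ θ ((1 - a) • s + a • s') : ℝ) =
      inner ℝ θ s * (1 - a) + inner ℝ θ s' * a := by
    rw [inner_add_right, inner_smul_right, inner_smul_right]
    ring
  have hp : ∀ (t : Vn j) (s : Vn m), 0 ≤ fb h b t s := fun t s => (H.pos _).le
  rw [Real.mul_rpow (Real.exp_pos _).le (hp t s), Real.mul_rpow (Real.exp_pos _).le (hp t' s'),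
    ← Real.exp_mul, ← Real.exp_mul, h2, Real.exp_add]
  have h3 : 0 ≤ Real.exp (inner ℝ θ s * (1 - a)) * Real.exp (inner ℝ θ s' * a) := by positivity
  calc Real.exp (inner ℝ θ s * (1 - a)) * fb h b t s ^ (1 - a) *
        (Real.exp (inner ℝ θ s' * a) * fb h b t' s' ^ a)
      = Real.exp (inner ℝ θ s * (1 - a)) * Real.exp (inner ℝ θ s' * a) *
        (h (jj b s t) ^ (1 - a) * h (jj b s' t') ^ a) := by
        simp only [fb]
        ring
    _ ≤ Real.exp (inner ℝ θ s * (1 - a)) * Real.exp (inner ℝ θ s' * a) *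
        h (jj b ((1 - a) • s + a • s') ((1 - a) • t + a • t')) := mul_le_mul_of_nonneg_left h1 h3
    _ = _ := rfl

/-- `Lp` is measurable (even continuous), integrable, and its integral is computed by Fubini
(`h97r.fub_basis`). -/
theorem Lp_int (H : GV δ L h) (θ : Vn m) : Measurable (Lp h b θ) ∧ Integrable (Lp h b θ) ∧
    ∫ t, Lp h b θ t = ∫ x, Real.exp (inner ℝ (jj b θ 0) x) * h x := by
  have h1 : Integrable fun x => Real.exp (inner ℝ (jj b θ 0) x) * h x :=
    H.int_exp (kmarg_exp_meas _) (kmarg_exp_le _)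
  obtain ⟨-, h2, h3⟩ := fub_basis b h1
  have h4 : (fun t : Vn j => ∫ s : Vn m, Real.exp (inner ℝ (jj b θ 0) (jj b s t)) * h (jj b s t)) =
      Lp h b θ := by
    funext t
    simp only [kmarg_inner]
    rfl
  rw [h4] at h2
  refine ⟨?_, h2, ?_⟩
  · have h5 : Continuous (Function.uncurry fun (t : Vn j) (s : Vn m) =>
        Real.exp (inner ℝ θ s) * fb h b t s) := by
      have h6 : Continuous fun p : Vn j × Vn m => jj b p.2 p.1 :=
        (jj_cont (b := b)).comp (continuous_snd.prodMk continuous_fst)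
      exact (Real.continuous_exp.comp (continuous_const.inner continuous_snd)).mul
        (H.cont.comp h6)
    exact (h5.stronglyMeasurable.integral_prod_right (ν := (volume : Measure (Vn m)))).measurable
  · rw [h3]
    simp only [kmarg_inner]
    rfl

/-- Integrals of functions of the coordinates in the fixed space. -/
theorem int_tc (H : GV δ L h) {φ : Vn j → ℝ} (hφ : Measurable φ) {C : ℝ}
    (hC : ∀ t, |φ t| ≤ C * (1 + ‖t‖ ^ 2)) :
    Integrable (fun t => φ t * mg h b t) ∧ ∫ x, φ (tc b x) * h x = ∫ t, φ t * mg h b t := by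
  have hC0 : 0 ≤ C := by
    have h1 := (abs_nonneg _).trans (hC 0)
    simpa using h1
  have h1 : Integrable fun x => φ (tc b x) * h x := by
    refine H.int_poly (hφ.comp (tc_cont (b := b)).measurable) (C := C) fun x => ?_
    refine (hC _).trans (mul_le_mul_of_nonneg_left ?_ hC0)
    have h2 := norm_jj (b := b) (sc b x) (tc b x)
    rw [jj_sc_tc] at h2
    have h3 := sq_nonneg ‖sc b x‖
    linarith
  obtain ⟨-, h2, h3⟩ := fub_basis b h1
  have h4 : (fun t : Vn j => ∫ s : Vn m, φ (tc b (jj b s t)) * h (jj b s t)) =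
      fun t => φ t * mg h b t := by
    funext t
    simp only [tc_jj]
    rw [integral_const_mul]
    rfl
  rw [h4] at h2
  rw [h3]
  exact ⟨h2, congrArg (fun f : Vn j → ℝ => ∫ t, f t) h4⟩

end Pool.Agent.Lib.MP_8d00da_gt.h97s
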