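import Mathlib
import Pool.Agent.Lib.MP_8d00da_gt.h97s.KMargA

/-!
# The fibres are centred
-/

namespace Pool.Agent.Lib.MP_8d00da_gt.h97s

open MeasureTheory Set Filter
open Pool.Agent.Lib.MP_8d00da_gt.h25 Pool.Agent.Lib.MP_8d00da_gt.h42
open Pool.Agent.Lib.MP_8d00da_gt.h42s Pool.Agent.Lib.MP_8d00da_gt.h42o
open Pool.Agent.Lib.MP_8d00da_gt.h97r
open scoped Topology NNReal

set_option linter.unusedSectionVars false

variable {F : Type*} [NormedAddCommGroup F] [InnerProductSpace ℝ F]
    [FiniteDimensional ℝ F] [MeasurableSpace F] [BorelSpace F]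

variable {δ L : ℝ} {h : F → ℝ} {k m j : ℕ} {b : OrthonormalBasis (Fin m ⊕ Fin j) ℝ F}

/-- Invariance of the fibre integrals under a symmetry which fixes the vectors `b (inr l)`
(`exists_restrict`, `G` preserves the volume of `Vn m`). -/
theorem fibre_sym {w : F → ℝ} {g : F ≃ₗᵢ[ℝ] F} (hg : ∀ l, g (b (Sum.inr l)) = b (Sum.inr l))
    (hw : ∀ x, w (g x) = w x) (z : F → ℝ) (t : Vn j) :
    ∫ s, z (g (jj b s t)) * fb w b t s = ∫ s, z (jj b s t) * fb w b t s := by
  obtain ⟨G, hG, -, -⟩ := exists_restrict hg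
  have h1 : ∀ s, z (g (jj b s t)) * fb w b t s =
      (fun s' => z (jj b s' t) * fb w b t s') (G s) := by
    intro s
    show z (g (jj b s t)) * w (jj b s t) = z (jj b (G s) t) * w (jj b (G s) t)
    rw [← hG, hw]
  simp only [h1]
  exact G.measurePreserving.integral_comp G.toHomeomorph.measurableEmbedding
    (fun s' => z (jj b s' t) * fb w b t s')

private lemma km_zero (hA : Ad h k b) {v : Vn m}
    (hv : ∀ g ∈ Ss h k, g (jj b v 0) = jj b v 0) : v = 0 := by
  have h1 := hA.mov _ hv
  have h2 : sc b (jj b v 0) = v := sc_jj v 0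
  rw [← h2]
  ext i
  exact h1 i

private lemma km_pow (G : Vn m ≃ₗᵢ[ℝ] Vn m) (N : ℕ) (s : Vn m) :
    (G.toLinearEquiv ^ N) s = (G ^ N) s := by
  induction N generalizing s with
  | zero => rfl
  | succ N ih =>
    rw [pow_succ, pow_succ]
    show (G.toLinearEquiv ^ N) (G s) = (G ^ N) (G s)
    exact ih _

/-- Let `v = ∑ i, (∫ s i * fb h b t s) • b (inl i)`. For `g ∈ Ss h k`, `⟨g v, x⟩ = ⟨v, x⟩` for all
`x` by `fibre_sym` (for `g⁻¹`, or use that `⟨θ', g (jj b s t)⟩` integrates as `⟨θ', jj b s t⟩`),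
so `g v = v`; by `hA.mov` all coordinates of `v` vanish. -/
theorem fibre_mean (H : GV δ L h) (hA : Ad h k b) (θ : Vn m) (t : Vn j) :
    ∫ s, inner ℝ θ s * fb h b t s = 0 := by
  have hint : ∀ φ : Vn m, Integrable fun s => inner ℝ φ s * fb h b t s := fun φ => by
    refine fb_int_exp H t (continuous_const.inner continuous_id).measurable (C := ‖φ‖) (a := 1)
      fun s => ?_
    refine (abs_real_inner_le_norm _ _).trans (mul_le_mul_of_nonneg_left ?_ (norm_nonneg _))
    rw [one_mul]
    exact (le_add_of_nonneg_right zero_le_one).trans (Real.add_one_le_exp _)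
  -- the mean
  obtain ⟨V, hV⟩ : ∃ V : Vn m, ∀ φ : Vn m, inner ℝ φ V = ∫ s, inner ℝ φ s * fb h b t s := by
    let f : Vn m →ₗ[ℝ] ℝ :=
      { toFun := fun φ => ∫ s, inner ℝ φ s * fb h b t s
        map_add' := fun φ ψ => by
          rw [← integral_add (hint φ) (hint ψ)]
          refine integral_congr_ae (Eventually.of_forall fun s => ?_)
          show inner ℝ (φ + ψ) s * fb h b t s = _
          rw [inner_add_left, add_mul]
        map_smul' := fun c φ => by
          rw [RingHom.id_apply, smul_eq_mul, ← integral_const_mul]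
          refine integral_congr_ae (Eventually.of_forall fun s => ?_)
          show inner ℝ (c • φ) s * fb h b t s = _
          rw [real_inner_smul_left, mul_assoc] }
    refine ⟨(InnerProductSpace.toDual ℝ (Vn m)).symm f.toContinuousLinearMap, fun φ => ?_⟩
    rw [real_inner_comm, InnerProductSpace.toDual_symm_apply]
    rfl
  rw [← hV θ]
  have hV0 : V = 0 := by
    refine km_zero hA fun g hg => ?_
    obtain ⟨G, hG, -, -⟩ := exists_restrict (hA.fix g hg)
    have h1 : G V = V := by
      refine ext_inner_left ℝ fun φ => ?_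
      have h2 := fibre_sym (b := b) (hA.fix g hg) hg.1 (fun x => inner ℝ φ (sc b x)) t
      have h3 : ∀ s, inner ℝ φ (sc b (g (jj b s t))) = (inner ℝ (G.symm φ) s : ℝ) := fun s => by
        rw [hG, sc_jj, ← G.inner_map_map (G.symm φ) s, G.apply_symm_apply]
      have h4 : ∀ s, inner ℝ φ (sc b (jj b s t)) = (inner ℝ φ s : ℝ) := fun s => by
        rw [sc_jj]
      simp only [h3, h4] at h2
      rw [← hV, ← hV] at h2
      rw [← h2, ← G.inner_map_map (G.symm φ) V, G.apply_symm_apply]
    rw [hG, h1]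
  rw [hV0, inner_zero_right]

/-- The fibre weights satisfy the hypothesis `RefL k` of the theorem for symmetries without
fixed vectors: if `v : Vn m` is fixed by all linear symmetries of `fb w b t` of finite order and
rank `≤ k`, then `jj b v 0` is fixed by every `g ∈ Ss h k` (`exists_restrict`), so `v = 0` by
`hA.mov`. Here `w` is any weight invariant under the symmetries in `Ss h k`. -/
theorem fibre_ref (hA : Ad h k b) {w : F → ℝ} (hw : ∀ g ∈ Ss h k, ∀ x, w (g x) = w x)
    (t : Vn j) : RefL k (fb w b t) := by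
  intro v hv
  refine km_zero hA fun g hg => ?_
  obtain ⟨G, hG, hGp, hGr⟩ := exists_restrict (hA.fix g hg)
  have h1 : G.toLinearEquiv v = v := by
    refine hv G.toLinearEquiv (fun s => ?_) ?_ (hGr.trans hg.2.2)
    · show w (jj b (G s) t) = w (jj b s t)
      rw [← hG, hw g hg]
    · obtain ⟨N, hN, hN2⟩ := hg.2.1
      refine ⟨N, hN, fun s => ?_⟩
      rw [km_pow]
      have h3 := hGp N s t
      rw [hN2] at h3
      have h4 := congrArg (sc b) h3
      rw [sc_jj, sc_jj] at h4
      exact h4.symm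
  rw [hG]
  congr 1

end Pool.Agent.Lib.MP_8d00da_gt.h97s
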