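import Mathlib
import Pool.Agent.Lib.MP_8d00da_gt.h97s.KExp
import Pool.Agent.Lib.MP_8d00da_gt.h97s.KMarg
import Pool.Agent.Lib.MP_8d00da_gt.h97s.KMean

/-!
# The Laplace transform of the fibres
-/

namespace Pool.Agent.Lib.MP_8d00da_gt.h97s

open MeasureTheory Set Filter
open Pool.Agent.Lib.MP_8d00da_gt.h25 Pool.Agent.Lib.MP_8d00da_gt.h42
open Pool.Agent.Lib.MP_8d00da_gt.h42s Pool.Agent.Lib.MP_8d00da_gt.h42o
open Pool.Agent.Lib.MP_8d00da_gt.h97r
open scoped Topology NNReal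

set_option linter.unusedSectionVars false

variable {F : Type*} [NormedAddCommGroup F] [InnerProductSpace ℝ F]
    [FiniteDimensional ℝ F] [MeasurableSpace F] [BorelSpace F]

variable {δ L : ℝ} {h : F → ℝ} {k m j : ℕ} {b : OrthonormalBasis (Fin m ⊕ Fin j) ℝ F}

/-- `exp x ≥ 1 + x` and `fibre_mean`. -/
theorem mg_le_Lp (H : GV δ L h) (hA : Ad h k b) (θ : Vn m) (t : Vn j) :
    mg h b t ≤ Lp h b θ t := by
  have hic : Continuous fun s : Vn m => (inner ℝ θ s : ℝ) := continuous_const.inner continuous_id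
  have i1 : Integrable fun s : Vn m => fb h b t s := by
    have := fb_int_exp (b := b) H t (φ := fun _ => 1) measurable_const (C := 1) (a := 0)
      (fun s => by simp)
    simpa using this
  have i2 : Integrable fun s : Vn m => inner ℝ θ s * fb h b t s := by
    refine fb_int_exp (b := b) H t hic.measurable (C := ‖θ‖) (a := 1) fun s => ?_
    refine (abs_real_inner_le_norm θ s).trans (mul_le_mul_of_nonneg_left ?_ (norm_nonneg _))
    have := Real.add_one_le_exp ‖s‖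
    rw [one_mul]
    linarith
  have i3 : Integrable fun s : Vn m => Real.exp (inner ℝ θ s) * fb h b t s := by
    refine fb_int_exp (b := b) H t (Real.continuous_exp.comp hic).measurable (C := 1) (a := ‖θ‖)
      fun s => ?_
    show |Real.exp (inner ℝ θ s)| ≤ _
    rw [abs_of_pos (Real.exp_pos _), one_mul, Real.exp_le_exp]
    exact real_inner_le_norm _ _
  have h0 := fibre_mean H hA θ t
  calc mg h b t = (∫ s : Vn m, fb h b t s) + ∫ s : Vn m, inner ℝ θ s * fb h b t s := by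
        rw [h0, add_zero]; rfl
    _ = ∫ s : Vn m, (fb h b t s + inner ℝ θ s * fb h b t s) := (integral_add i1 i2).symm
    _ ≤ ∫ s : Vn m, Real.exp (inner ℝ θ s) * fb h b t s := by
        refine integral_mono (i1.add i2) i3 fun s => ?_
        have h1 := Real.add_one_le_exp (inner ℝ θ s : ℝ)
        have h2 : 0 ≤ fb h b t s := (H.pos _).le
        show fb h b t s + inner ℝ θ s * fb h b t s ≤ Real.exp (inner ℝ θ s) * fb h b t s
        nlinarith
    _ = Lp h b θ t := rfl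

/-- Change of variables `t' ↦ (1 - a) • t' + a • t` on `Vn j`. -/
theorem int_affine {G : Vn j → ℝ} {a : ℝ} (ha : a < 1) (t : Vn j) :
    ∫ t' : Vn j, G ((1 - a) • t' + a • t) = ((1 - a) ^ j)⁻¹ * ∫ t', G t' := by
  have h1a : 0 < 1 - a := by linarith
  have h1 := Measure.integral_comp_smul (volume : Measure (Vn j)) (fun x => G (x + a • t)) (1 - a)
  rw [h1, integral_add_right_eq_self (fun x => G x) (a • t), smul_eq_mul,
    abs_of_pos (inv_pos.2 (pow_pos h1a _)), finrank_euclideanSpace_fin]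

private lemma klap_three (j : ℕ) : ((1 - 1 / ((j : ℝ) + 2)) ^ j)⁻¹ ≤ 3 := by
  have hj : (0 : ℝ) ≤ j := Nat.cast_nonneg j
  have h1 : (1 - 1 / ((j : ℝ) + 2)) = (1 + 1 / ((j : ℝ) + 1))⁻¹ := by
    field_simp
    ring
  rw [h1, inv_pow, inv_inv]
  have h2 : 1 + 1 / ((j : ℝ) + 1) ≤ Real.exp (1 / ((j : ℝ) + 1)) := by
    have := Real.add_one_le_exp (1 / ((j : ℝ) + 1))
    linarith
  calc (1 + 1 / ((j : ℝ) + 1)) ^ j ≤ Real.exp (1 / ((j : ℝ) + 1)) ^ j :=
        pow_le_pow_left₀ (by positivity) h2 j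
    _ = Real.exp (j * (1 / ((j : ℝ) + 1))) := by rw [← Real.exp_nat_mul]
    _ ≤ Real.exp 1 := by
        rw [Real.exp_le_exp, mul_one_div, div_le_one (by positivity)]
        linarith
    _ ≤ 3 := by
        have := Real.exp_one_lt_d9
        linarith

private lemma klap_mg (H : GV δ L h) : Integrable (mg h b) ∧ ∫ t, mg h b t = ∫ x, h x := by
  obtain ⟨-, h2, h3⟩ := Lp_int (b := b) H 0
  have h1 : mg h b = Lp h b 0 := funext fun t => mg_eq h b t
  rw [h1]
  refine ⟨h2, h3.trans ?_⟩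
  have h4 : jj b (0 : Vn m) (0 : Vn j) = 0 := by
    have := norm_jj (b := b) (0 : Vn m) (0 : Vn j)
    simpa using this
  rw [h4]
  simp

/-- Let `a = 1 / (j + 2)`. By `Lp_lc` and `mg_le_Lp`,
`(mg t') ^ (1 - a) * (Lp t) ^ a ≤ Lp ((1 - a) t' + a t)`, and
`(mg t') ^ (1 - a) ≥ mg t' * S ^ (-a)`. Integrate over `t'` (`int_affine`, `Lp_int`,
`∫ mg = 1`): `(Lp t / S) ^ a ≤ ((j + 2) / (j + 1)) ^ j * ∫ exp ⟨jj b θ 0, x⟩ h ≤ 3 * 3`, because
`‖6 θ‖ = 1` and `exp_momV` (`exp y ≤ exp |y|`), and `(1 + 1 / (j + 1)) ^ j ≤ exp 1 ≤ 3`. -/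
theorem Lp_bound (H : GV δ L h) (hm : ∫ x, h x = 1)
    (h2 : ∀ θ : F, ∫ x, (inner ℝ θ x) ^ 2 * h x ≤ ‖θ‖ ^ 2) (hA : Ad h k b) {S : ℝ}
    (hS : ∀ t, mg h b t ≤ S) {θ : Vn m} (hθ : ‖θ‖ = 1 / 6) (t : Vn j) :
    Lp h b θ t ≤ S * 9 ^ (j + 2) := by
  have hj : (0 : ℝ) ≤ j := Nat.cast_nonneg j
  set a : ℝ := 1 / ((j : ℝ) + 2) with ha
  have ha0 : 0 < a := by positivity
  have ha1 : a < 1 := by
    rw [ha, div_lt_one (by positivity)]
    linarith
  have h1a : 0 < 1 - a := by linarith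
  have hmgp : ∀ t, 0 < mg h b t := fun t => mg_pos H t
  have hSp : 0 < S := (hmgp t).trans_le (hS t)
  have hLp : 0 < Lp h b θ t := (hmgp t).trans_le (mg_le_Lp H hA θ t)
  obtain ⟨-, hLi, hLe⟩ := Lp_int (b := b) H θ
  obtain ⟨hmi, hme⟩ := klap_mg (b := b) H
  -- pointwise
  have hpt : ∀ t' : Vn j, (Lp h b θ t / S) ^ a * mg h b t' ≤
      Lp h b θ ((1 - a) • t' + a • t) := by
    intro t'
    refine le_trans ?_ (Lp_lc (b := b) H θ a ha0 ha1 t' t)
    have e1 : mg h b t' ^ (1 - a) ≤ Lp h b θ t' ^ (1 - a) :=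
      Real.rpow_le_rpow (hmgp t').le (mg_le_Lp H hA θ t') h1a.le
    have e2 : mg h b t' * (S ^ a)⁻¹ ≤ mg h b t' ^ (1 - a) := by
      rw [Real.rpow_sub (hmgp t'), Real.rpow_one, div_eq_mul_inv]
      refine mul_le_mul_of_nonneg_left ?_ (hmgp t').le
      exact inv_anti₀ (Real.rpow_pos_of_pos (hmgp t') _) (Real.rpow_le_rpow (hmgp t').le (hS t') ha0.le)
    have e3 : 0 ≤ Lp h b θ t ^ a := Real.rpow_nonneg hLp.le _
    calc (Lp h b θ t / S) ^ a * mg h b t' = (mg h b t' * (S ^ a)⁻¹) * Lp h b θ t ^ a := by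
          rw [Real.div_rpow hLp.le hSp.le]
          ring
      _ ≤ mg h b t' ^ (1 - a) * Lp h b θ t ^ a := mul_le_mul_of_nonneg_right e2 e3
      _ ≤ Lp h b θ t' ^ (1 - a) * Lp h b θ t ^ a := mul_le_mul_of_nonneg_right e1 e3
  -- integrate
  have hint : Integrable fun t' : Vn j => Lp h b θ ((1 - a) • t' + a • t) := by
    have h3 : Integrable fun x : Vn j => Lp h b θ (x + a • t) := hLi.comp_add_right (a • t)
    exact h3.comp_smul h1a.ne'
  have hI := integral_mono (hmi.const_mul _) hint hpt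
  rw [int_affine ha1 t, integral_const_mul, hme, hm, mul_one, hLe] at hI
  -- the exponential moment
  have hn : ‖jj b θ (0 : Vn j)‖ = 1 / 6 := by
    have h3 := norm_jj (b := b) θ (0 : Vn j)
    rw [norm_zero, hθ] at h3
    have h4 : ‖jj b θ (0 : Vn j)‖ ^ 2 = (1 / 6) ^ 2 := by rw [h3]; ring
    exact (sq_eq_sq₀ (norm_nonneg _) (by norm_num)).1 h4
  have hn6 : ‖(6 : ℝ) • jj b θ (0 : Vn j)‖ = 1 := by
    rw [norm_smul, hn]
    norm_num
  have hex := exp_momV H hm hn6 (by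
    have := h2 ((6 : ℝ) • jj b θ (0 : Vn j))
    rw [hn6] at this
    simpa using this)
  have hexp : ∫ x, Real.exp (inner ℝ (jj b θ (0 : Vn j)) x) * h x ≤ 3 := by
    refine le_trans (integral_mono ?_ ?_ fun x => ?_) hex
    · refine H.int_exp (C := 1) (a := ‖jj b θ (0 : Vn j)‖) ?_ fun x => ?_
      · exact (Real.continuous_exp.comp (continuous_const.inner continuous_id)).measurable
      · rw [abs_of_pos (Real.exp_pos _), one_mul, Real.exp_le_exp]
        exact real_inner_le_norm _ _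
    · refine H.int_exp (C := 1) (a := 1 / 6) ?_ fun x => ?_
      · exact (Real.continuous_exp.comp
          ((continuous_const.inner continuous_id).abs.div_const 6)).measurable
      · rw [abs_of_pos (Real.exp_pos _), one_mul, Real.exp_le_exp]
        have h3 := abs_real_inner_le_norm ((6 : ℝ) • jj b θ (0 : Vn j)) x
        rw [hn6, one_mul] at h3
        linarith
    · refine mul_le_mul_of_nonneg_right ?_ (H.pos x).le
      rw [Real.exp_le_exp, inner_smul_left, abs_mul]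
      have h3 := le_abs_self (inner ℝ (jj b θ (0 : Vn j)) x : ℝ)
      simp only [conj_trivial]
      rw [abs_of_pos (by norm_num : (0 : ℝ) < 6)]
      linarith
  have h9 : (Lp h b θ t / S) ^ a ≤ 9 := by
    have h3 := klap_three j
    rw [← ha] at h3
    have h4 : 0 ≤ ((1 - a) ^ j)⁻¹ := by positivity
    calc (Lp h b θ t / S) ^ a ≤ ((1 - a) ^ j)⁻¹ *
          ∫ x, Real.exp (inner ℝ (jj b θ (0 : Vn j)) x) * h x := hI
      _ ≤ ((1 - a) ^ j)⁻¹ * 3 := mul_le_mul_of_nonneg_left hexp h4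
      _ ≤ 9 := by linarith
  have hq : 0 ≤ Lp h b θ t / S := (div_pos hLp hSp).le
  have h10 : Lp h b θ t / S ≤ 9 ^ (j + 2) := by
    have h11 : ((Lp h b θ t / S) ^ a) ^ (j + 2) = Lp h b θ t / S := by
      rw [← Real.rpow_natCast, ← Real.rpow_mul hq]
      have : a * ((j + 2 : ℕ) : ℝ) = 1 := by
        rw [ha]
        push_cast
        field_simp
      rw [this, Real.rpow_one]
    rw [← h11]
    exact pow_le_pow_left₀ (Real.rpow_nonneg hq _) h9 _
  rw [div_le_iff₀ hSp] at h10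
  linarith

end Pool.Agent.Lib.MP_8d00da_gt.h97s
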