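import Mathlib
import Pool.Agent.Lib.MP_8d00da_gt.h97s.KMarg

/-!
# The mass of the bulk
-/

namespace Pool.Agent.Lib.MP_8d00da_gt.h97s

open MeasureTheory Set Filter
open Pool.Agent.Lib.MP_8d00da_gt.h25 Pool.Agent.Lib.MP_8d00da_gt.h42
open Pool.Agent.Lib.MP_8d00da_gt.h42s Pool.Agent.Lib.MP_8d00da_gt.h42o
open Pool.Agent.Lib.MP_8d00da_gt.h97r
open scoped Topology NNReal

set_option linter.unusedSectionVars false

variable {F : Type*} [NormedAddCommGroup F] [InnerProductSpace ℝ F]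
    [FiniteDimensional ℝ F] [MeasurableSpace F] [BorelSpace F]

variable {δ L : ℝ} {h : F → ℝ} {m j : ℕ} {b : OrthonormalBasis (Fin m ⊕ Fin j) ℝ F}

/-- `mg` is bounded (`mg_bdd`) and positive: take `t0` with `mg t0 > (1/2) sup mg`. -/
theorem exists_big (H : GV δ L h) : ∃ t0 : Vn j, ∀ t, mg h b t ≤ 2 * mg h b t0 := by
  obtain ⟨S, hS⟩ := mg_bdd (b := b) H
  have hb : BddAbove (range (mg h b)) := ⟨S, by rintro _ ⟨t, rfl⟩; exact hS t⟩
  have h0 : 0 < ⨆ t, mg h b t := (mg_pos H 0).trans_le (le_ciSup hb 0)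
  obtain ⟨t0, ht0⟩ := exists_lt_of_lt_ciSup (half_lt_self h0)
  refine ⟨t0, fun t => ?_⟩
  have := le_ciSup hb t
  linarith

private lemma km_meas (H : GV δ L h) : Measurable (mg h b) := by
  have e : mg h b = Lp h b 0 := funext (mg_eq h b)
  rw [e]
  exact (Lp_int H 0).1

private lemma km_int (H : GV δ L h) : Integrable (mg h b) := by
  have e : mg h b = Lp h b 0 := funext (mg_eq h b)
  rw [e]
  exact (Lp_int H 0).2.1

private lemma km_mass (H : GV δ L h) : ∫ t, mg h b t = ∫ x, h x := by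
  have h1 := (int_tc (b := b) H (φ := fun _ => 1) measurable_const (C := 1) (fun t => by
    rw [abs_one, one_mul]
    have := sq_nonneg ‖t‖
    linarith)).2
  simpa only [one_mul] using h1.symm

/-- the square root of the marginal -/
private lemma km_sqrt (H : GV δ L h) (t0 t : Vn j) :
    Real.sqrt (mg h b t) * Real.sqrt (mg h b t0) ≤ mg h b ((1 / 2 : ℝ) • (t + t0)) := by
  have e : mg h b = Lp h b 0 := funext (mg_eq h b)
  have h1 := Lp_lc H (0 : Vn m) (b := b) (1 / 2) (by norm_num) (by norm_num) t t0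
  rw [← e] at h1
  rw [Real.sqrt_eq_rpow, Real.sqrt_eq_rpow]
  have e2 : (1 - 1 / 2 : ℝ) = 1 / 2 := by norm_num
  rw [e2, ← smul_add] at h1
  exact h1

/-- With `G = mg h b`, `√(G t) √(G t0) ≤ G ((t + t0) / 2)` (`Lp_lc` for `θ = 0`, `a = 1/2`), so
`∫ √G ≤ 2 ^ j / √(G t0)` (change of variables), and on `{G < r}` with
`r = 2 (G t0) / (51200 * 4 ^ j)`: `G ≤ √r √G`. Hence `∫_{G < r} G ≤ √r 2 ^ j / √(G t0) = 1/160`. -/
theorem small_density (H : GV δ L h) (hm : ∫ x, h x = 1) {t0 : Vn j}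
    (ht0 : ∀ t, mg h b t ≤ 2 * mg h b t0) :
    ∫ t in {t | mg h b t < 2 * mg h b t0 / (51200 * 4 ^ j)}, mg h b t ≤ 1 / 160 := by
  set G : Vn j → ℝ := mg h b with hG
  have hGm : Measurable G := km_meas H
  have hGi : Integrable G := km_int H
  have hG1 : ∫ t, G t = 1 := (km_mass H).trans hm
  have hGp : ∀ t, 0 < G t := mg_pos H
  obtain ⟨g, hg⟩ : ∃ g, g = G t0 := ⟨_, rfl⟩
  have hg0 : 0 < g := hg ▸ hGp t0
  rw [← hg]
  set r : ℝ := 2 * g / (51200 * 4 ^ j) with hr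
  have hr0 : 0 < r := by positivity
  -- the translated and dilated function
  have hi2 : Integrable (fun t : Vn j => G ((1 / 2 : ℝ) • (t + t0))) :=
    (hGi.comp_smul (by norm_num : (1 / 2 : ℝ) ≠ 0)).comp_add_right t0
  have hI2 : ∫ t : Vn j, G ((1 / 2 : ℝ) • (t + t0)) = 2 ^ j := by
    rw [integral_add_right_eq_self (fun t : Vn j => G ((1 / 2 : ℝ) • t)) t0,
      Measure.integral_comp_smul, hG1, finrank_euclideanSpace_fin, smul_eq_mul, mul_one,
      abs_of_pos (by positivity), one_div, inv_pow, inv_inv]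
  have hsq : ∀ t, Real.sqrt (G t) ≤ (Real.sqrt g)⁻¹ * G ((1 / 2 : ℝ) • (t + t0)) := by
    intro t
    have h1 := km_sqrt (b := b) H t0 t
    rw [← hG, ← hg] at h1
    rw [inv_mul_eq_div, le_div_iff₀ (Real.sqrt_pos.2 hg0)]
    exact h1
  have hsi : Integrable fun t => Real.sqrt (G t) := by
    refine (hi2.const_mul (Real.sqrt g)⁻¹).mono' hGm.sqrt.aestronglyMeasurable
      (Eventually.of_forall fun t => ?_)
    rw [Real.norm_of_nonneg (Real.sqrt_nonneg _)]
    exact hsq t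
  have hsI : ∫ t, Real.sqrt (G t) ≤ (Real.sqrt g)⁻¹ * 2 ^ j := by
    rw [← hI2, ← integral_const_mul]
    exact integral_mono hsi (hi2.const_mul _) hsq
  have hSm : MeasurableSet {t | G t < r} := measurableSet_lt hGm measurable_const
  have h1 : ∫ t in {t | G t < r}, G t ≤ ∫ t in {t | G t < r}, Real.sqrt r * Real.sqrt (G t) := by
    refine setIntegral_mono_on hGi.integrableOn (hsi.const_mul _).integrableOn hSm fun t ht => ?_
    have h2 : Real.sqrt (G t) ≤ Real.sqrt r := Real.sqrt_le_sqrt (le_of_lt ht)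
    calc G t = Real.sqrt (G t) * Real.sqrt (G t) := (Real.mul_self_sqrt (hGp t).le).symm
      _ ≤ Real.sqrt r * Real.sqrt (G t) := mul_le_mul_of_nonneg_right h2 (Real.sqrt_nonneg _)
  have h2 : ∫ t in {t | G t < r}, Real.sqrt r * Real.sqrt (G t) ≤ Real.sqrt r * ∫ t, Real.sqrt (G t) := by
    rw [integral_const_mul]
    exact mul_le_mul_of_nonneg_left (setIntegral_le_integral hsi
      (Eventually.of_forall fun t => Real.sqrt_nonneg _)) (Real.sqrt_nonneg _)
  have h3 : Real.sqrt r * ((Real.sqrt g)⁻¹ * 2 ^ j) = 1 / 160 := by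
    have e1 : Real.sqrt r = Real.sqrt g / (160 * 2 ^ j) := by
      rw [Real.sqrt_eq_iff_mul_self_eq hr0.le (by positivity), hr]
      have e3 : Real.sqrt g * Real.sqrt g = g := Real.mul_self_sqrt hg0.le
      have e4 : (4 : ℝ) ^ j = 2 ^ j * 2 ^ j := by
        rw [← mul_pow]; norm_num
      rw [div_mul_div_comm, e3, e4]
      field_simp
      ring
    rw [e1]
    have : Real.sqrt g ≠ 0 := (Real.sqrt_pos.2 hg0).ne'
    field_simp
  calc ∫ t in {t | G t < r}, G t ≤ Real.sqrt r * ∫ t, Real.sqrt (G t) := h1.trans h2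
    _ ≤ Real.sqrt r * ((Real.sqrt g)⁻¹ * 2 ^ j) :=
        mul_le_mul_of_nonneg_left hsI (Real.sqrt_nonneg _)
    _ = 1 / 160 := h3

/-- Chebyshev: `∫ ‖t‖² mg = ∑ l, ∫ ⟨b (inr l), x⟩² h ≤ j` (`int_tc`). -/
theorem far_mass (H : GV δ L h) (hm : ∫ x, h x = 1)
    (h2 : ∀ θ : F, ∫ x, (inner ℝ θ x) ^ 2 * h x ≤ ‖θ‖ ^ 2) :
    ∫ t in {t : Vn j | 160 * (j : ℝ) < ‖t‖ ^ 2}, mg h b t ≤ 1 / 160 := by
  have hGi : Integrable (mg h b) := km_int H
  have hGp : ∀ t, 0 < mg h b t := mg_pos H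
  have hSm : MeasurableSet {t : Vn j | 160 * (j : ℝ) < ‖t‖ ^ 2} :=
    measurableSet_lt measurable_const (by fun_prop)
  rcases Nat.eq_zero_or_pos j with rfl | hj
  · have : {t : Vn 0 | 160 * ((0 : ℕ) : ℝ) < ‖t‖ ^ 2} = ∅ := by
      ext t
      simp [Subsingleton.elim t 0]
    rw [this, setIntegral_empty]
    norm_num
  have hj' : (0 : ℝ) < j := Nat.cast_pos.2 hj
  have hl : ∀ l : Fin j, Integrable (fun t : Vn j => (t l) ^ 2 * mg h b t) ∧
      ∫ t : Vn j, (t l) ^ 2 * mg h b t ≤ 1 := by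
    intro l
    have h1 := int_tc (b := b) H (φ := fun t => (t l) ^ 2) (by fun_prop) (C := 1) (fun t => by
      rw [abs_of_nonneg (sq_nonneg _), one_mul]
      have h3 : |t l| ≤ ‖t‖ := PiLp.norm_apply_le t l
      have h4 : (t l) ^ 2 ≤ ‖t‖ ^ 2 := by
        rw [← sq_abs]
        exact pow_le_pow_left₀ (abs_nonneg _) h3 2
      linarith)
    refine ⟨h1.1, ?_⟩
    rw [← h1.2]
    have h3 := h2 (b (Sum.inr l))
    rw [b.norm_eq_one, one_pow] at h3
    exact h3
  have hsum : ∀ t : Vn j, ‖t‖ ^ 2 * mg h b t = ∑ l, (t l) ^ 2 * mg h b t := by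
    intro t
    rw [EuclideanSpace.norm_sq_eq, Finset.sum_mul]
    simp only [Real.norm_eq_abs, sq_abs]
  have hint : Integrable (fun t : Vn j => ‖t‖ ^ 2 * mg h b t) := by
    simp only [hsum]
    exact integrable_finsetSum _ fun l _ => (hl l).1
  have hI : ∫ t : Vn j, ‖t‖ ^ 2 * mg h b t ≤ j := by
    simp only [hsum]
    rw [integral_finsetSum _ fun l _ => (hl l).1]
    refine (Finset.sum_le_sum fun l _ => (hl l).2).trans (le_of_eq ?_)
    simp
  have h3 : ∫ t in {t : Vn j | 160 * (j : ℝ) < ‖t‖ ^ 2}, mg h b t ≤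
      ∫ t in {t : Vn j | 160 * (j : ℝ) < ‖t‖ ^ 2}, (160 * (j : ℝ))⁻¹ * (‖t‖ ^ 2 * mg h b t) := by
    refine setIntegral_mono_on hGi.integrableOn (hint.const_mul _).integrableOn hSm fun t ht => ?_
    rw [← mul_assoc]
    refine le_mul_of_one_le_left (hGp t).le ?_
    rw [inv_mul_eq_div, one_le_div (by positivity)]
    exact le_of_lt ht
  refine h3.trans ?_
  rw [integral_const_mul]
  have h4 : ∫ t in {t : Vn j | 160 * (j : ℝ) < ‖t‖ ^ 2}, ‖t‖ ^ 2 * mg h b t ≤ j :=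
    (setIntegral_le_integral hint (Eventually.of_forall fun t => by
      have := hGp t
      positivity)).trans hI
  calc (160 * (j : ℝ))⁻¹ * ∫ t in {t : Vn j | 160 * (j : ℝ) < ‖t‖ ^ 2}, ‖t‖ ^ 2 * mg h b t
      ≤ (160 * (j : ℝ))⁻¹ * j := mul_le_mul_of_nonneg_left h4 (by positivity)
    _ = 1 / 160 := by field_simp

end Pool.Agent.Lib.MP_8d00da_gt.h97s
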