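import Mathlib
import Pool.Agent.Lib.MP_8d00da_gt.h97s.KLap
import Pool.Agent.Lib.MP_8d00da_gt.h97s.KMass

/-!
# The bulk
-/

namespace Pool.Agent.Lib.MP_8d00da_gt.h97s

open MeasureTheory Set Filter
open Pool.Agent.Lib.MP_8d00da_gt.h25 Pool.Agent.Lib.MP_8d00da_gt.h42
open Pool.Agent.Lib.MP_8d00da_gt.h42s Pool.Agent.Lib.MP_8d00da_gt.h42o
open Pool.Agent.Lib.MP_8d00da_gt.h97r
open scoped Topology NNReal

set_option linter.unusedSectionVars false

variable {F : Type*} [NormedAddCommGroup F] [InnerProductSpace ℝ F]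
    [FiniteDimensional ℝ F] [MeasurableSpace F] [BorelSpace F]

variable {δ L : ℝ} {h : F → ℝ} {k m j : ℕ} {b : OrthonormalBasis (Fin m ⊕ Fin j) ℝ F}

private lemma sq_exp {y M : ℝ} (hM : 0 ≤ M) :
    y ^ 2 ≤ 2 * M ^ 2 + 4 * (Real.exp (-M) * (Real.exp y + Real.exp (-y))) := by
  have key : ∀ z : ℝ, 0 ≤ z → z ^ 2 ≤ 2 * M ^ 2 + 4 * (Real.exp (-M) * Real.exp z) := by
    intro z hz
    rw [← Real.exp_add]
    rcases le_total z M with h1 | h1
    · have h2 := Real.exp_pos (-M + z)
      nlinarith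
    · have h2 := Real.quadratic_le_exp_of_nonneg (x := z - M) (by linarith)
      have h3 : Real.exp (-M + z) = Real.exp (z - M) := by ring_nf
      rw [h3]
      nlinarith [sq_nonneg (z - M - M), sq_nonneg (z - 2 * M)]
  rcases le_total 0 y with h1 | h1
  · have h2 := key y h1
    have h3 := mul_pos (Real.exp_pos (-M)) (Real.exp_pos (-y))
    rw [mul_add]
    linarith
  · have h2 := key (-y) (by linarith)
    have h3 := mul_pos (Real.exp_pos (-M)) (Real.exp_pos y)
    rw [neg_sq] at h2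
    rw [mul_add]
    linarith

private lemma num_exp (j : ℕ) :
    51200 * 4 ^ j * (9 : ℝ) ^ (j + 2) ≤ Real.exp (16 + 4 * j) := by
  have h1 : (2.7182818283 : ℝ) < Real.exp 1 := Real.exp_one_gt_d9
  have h4 : (36 : ℝ) ≤ Real.exp 4 := by
    have : Real.exp 4 = Real.exp 1 ^ 4 := by rw [← Real.exp_nat_mul]; norm_num
    rw [this]
    calc (36 : ℝ) ≤ 2.7182818283 ^ 4 := by norm_num
      _ ≤ _ := pow_le_pow_left₀ (by norm_num) h1.le 4
  have h16 : (51200 * 81 : ℝ) ≤ Real.exp 16 := by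
    have : Real.exp 16 = Real.exp 1 ^ 16 := by rw [← Real.exp_nat_mul]; norm_num
    rw [this]
    calc (51200 * 81 : ℝ) ≤ 2.7182818283 ^ 16 := by norm_num
      _ ≤ _ := pow_le_pow_left₀ (by norm_num) h1.le 16
  have e : 51200 * 4 ^ j * (9 : ℝ) ^ (j + 2) = (51200 * 81) * 36 ^ j := by
    rw [pow_add, show (36 : ℝ) = 4 * 9 by norm_num, mul_pow]; ring
  have e2 : Real.exp (16 + 4 * j) = Real.exp 16 * Real.exp 4 ^ j := by
    rw [Real.exp_add, ← Real.exp_nat_mul, mul_comm (4 : ℝ)]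
  rw [e, e2]
  exact mul_le_mul h16 (pow_le_pow_left₀ (by norm_num) h4 j) (by positivity) (Real.exp_pos _).le

/-- For `t` with `S ≤ 51200 * 4 ^ j * mg t`: `∫ exp (|⟨θ, s⟩| / 6) fb ≤ 2 exp M * mg t` with
`M = 16 + 4 j` (`Lp_bound` for `± θ / 6`, `51200 * 81 * 36 ^ j ≤ exp M`), and
`y² ≤ 2 M² + 4 exp (y - M)` for `y = |⟨θ, s⟩| / 6 ≥ 0`, so
`∫ ⟨θ, s⟩² fb ≤ 36 (2 M² + 8) mg t ≤ kap j * mg t`. -/
theorem fibre_second (H : GV δ L h) (hm : ∫ x, h x = 1)
    (h2 : ∀ θ : F, ∫ x, (inner ℝ θ x) ^ 2 * h x ≤ ‖θ‖ ^ 2) (hA : Ad h k b) {S : ℝ}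
    (hS : ∀ t, mg h b t ≤ S) {t : Vn j} (ht : S ≤ 51200 * 4 ^ j * mg h b t) (θ : Vn m) :
    ∫ s, (inner ℝ θ s) ^ 2 * fb h b t s ≤ kap j * ‖θ‖ ^ 2 * mg h b t := by
  rcases eq_or_ne θ 0 with h0 | h0
  · subst h0
    simp
  have hθ0 : 0 < ‖θ‖ := norm_pos_iff.2 h0
  have hmg := mg_pos (b := b) H t
  set θ' : Vn m := (1 / (6 * ‖θ‖)) • θ with hθ'
  have hn : ‖θ'‖ = 1 / 6 := by
    rw [hθ', norm_smul, Real.norm_of_nonneg (by positivity)]
    field_simp
  have hin : ∀ s : Vn m, inner ℝ θ s = 6 * ‖θ‖ * inner ℝ θ' s := by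
    intro s
    rw [hθ', real_inner_smul_left]
    field_simp
  have hL1 := Lp_bound H hm h2 hA hS hn t
  have hL2 := Lp_bound H hm h2 hA hS (θ := -θ') (by rw [norm_neg, hn]) t
  set M : ℝ := 16 + 4 * j with hM
  have hM0 : 0 ≤ M := by positivity
  have hnn : ∀ s, 0 ≤ fb h b t s := fun s => (H.pos _).le
  have habs : ∀ s : Vn m, |inner ℝ θ' s| ≤ ‖s‖ := fun s => by
    refine (abs_real_inner_le_norm θ' s).trans ?_
    rw [hn]
    have := norm_nonneg s
    linarith
  have iE1 : Integrable fun s => Real.exp (inner ℝ θ' s) * fb h b t s :=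
    fb_int_exp H t (by fun_prop) (C := 1) (a := 1) fun s => by
      rw [abs_of_pos (Real.exp_pos _), one_mul, one_mul]
      exact Real.exp_le_exp.2 ((le_abs_self _).trans (habs s))
  have iE2 : Integrable fun s => Real.exp (-inner ℝ θ' s) * fb h b t s :=
    fb_int_exp H t (by fun_prop) (C := 1) (a := 1) fun s => by
      rw [abs_of_pos (Real.exp_pos _), one_mul, one_mul]
      exact Real.exp_le_exp.2 ((neg_le_abs _).trans (habs s))
  have i1 : Integrable fun s => fb h b t s := by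
    have := fb_int_exp (b := b) H t (φ := fun _ => 1) measurable_const (C := 1) (a := 0)
      fun s => by simp
    simpa using this
  have iS : Integrable fun s => (inner ℝ θ' s) ^ 2 * fb h b t s :=
    fb_int_exp H t (by fun_prop) (C := 2) (a := 1) fun s => by
      rw [abs_of_nonneg (sq_nonneg _), one_mul]
      have h3 : (inner ℝ θ' s) ^ 2 ≤ ‖s‖ ^ 2 := by
        rw [← sq_abs]
        exact pow_le_pow_left₀ (abs_nonneg _) (habs s) 2
      have h4 := Real.quadratic_le_exp_of_nonneg (norm_nonneg s)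
      have h5 := norm_nonneg s
      nlinarith
  have iE : Integrable fun s => Real.exp (inner ℝ θ' s) * fb h b t s +
      Real.exp (-inner ℝ θ' s) * fb h b t s := iE1.add iE2
  have hint : Integrable fun s => (2 * M ^ 2) * fb h b t s +
      (4 * Real.exp (-M)) * (Real.exp (inner ℝ θ' s) * fb h b t s +
        Real.exp (-inner ℝ θ' s) * fb h b t s) :=
    (i1.const_mul _).add (iE.const_mul _)
  have hle : ∫ s, (inner ℝ θ' s) ^ 2 * fb h b t s ≤ ∫ s, ((2 * M ^ 2) * fb h b t s +
      (4 * Real.exp (-M)) * (Real.exp (inner ℝ θ' s) * fb h b t s +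
        Real.exp (-inner ℝ θ' s) * fb h b t s)) := by
    refine integral_mono iS hint fun s => ?_
    have h3 := mul_le_mul_of_nonneg_right (sq_exp (y := inner ℝ θ' s) hM0) (hnn s)
    simp only
    refine h3.trans (le_of_eq ?_)
    ring
  have e1 : ∫ s, ((2 * M ^ 2) * fb h b t s +
      (4 * Real.exp (-M)) * (Real.exp (inner ℝ θ' s) * fb h b t s +
        Real.exp (-inner ℝ θ' s) * fb h b t s)) =
      2 * M ^ 2 * mg h b t + 4 * Real.exp (-M) * (Lp h b θ' t + Lp h b (-θ') t) := by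
    rw [integral_add (i1.const_mul _) (iE.const_mul _), integral_const_mul,
      integral_const_mul, integral_add iE1 iE2]
    unfold mg Lp
    simp only [inner_neg_left]
  rw [e1] at hle
  have hnum := num_exp j
  rw [← hM] at hnum
  have h9 : S * 9 ^ (j + 2) ≤ Real.exp M * mg h b t := by
    calc S * 9 ^ (j + 2) ≤ (51200 * 4 ^ j * mg h b t) * 9 ^ (j + 2) :=
          mul_le_mul_of_nonneg_right ht (by positivity)
      _ = (51200 * 4 ^ j * (9 : ℝ) ^ (j + 2)) * mg h b t := by ring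
      _ ≤ _ := mul_le_mul_of_nonneg_right hnum hmg.le
  have h10 : 4 * Real.exp (-M) * (Lp h b θ' t + Lp h b (-θ') t) ≤ 8 * mg h b t := by
    have h11 : Lp h b θ' t + Lp h b (-θ') t ≤ 2 * (Real.exp M * mg h b t) := by linarith
    have h12 := mul_le_mul_of_nonneg_left h11 (by positivity : 0 ≤ 4 * Real.exp (-M))
    refine h12.trans (le_of_eq ?_)
    have h13 : Real.exp (-M) * Real.exp M = 1 := by rw [← Real.exp_add]; simp
    calc 4 * Real.exp (-M) * (2 * (Real.exp M * mg h b t))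
        = 8 * (Real.exp (-M) * Real.exp M) * mg h b t := by ring
      _ = _ := by rw [h13]; ring
  have h14 : ∫ s, (inner ℝ θ' s) ^ 2 * fb h b t s ≤ (2 * M ^ 2 + 8) * mg h b t := by linarith
  have e3 : ∫ s, (inner ℝ θ s) ^ 2 * fb h b t s =
      36 * ‖θ‖ ^ 2 * ∫ s, (inner ℝ θ' s) ^ 2 * fb h b t s := by
    rw [← integral_const_mul]
    refine integral_congr_ae (Eventually.of_forall fun s => ?_)
    simp only
    rw [hin s]; ring
  rw [e3]
  have h15 : 36 * (2 * M ^ 2 + 8) ≤ kap j := by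
    rw [hM]
    unfold kap
    have : (0 : ℝ) ≤ j := Nat.cast_nonneg j
    nlinarith
  calc 36 * ‖θ‖ ^ 2 * ∫ s, (inner ℝ θ' s) ^ 2 * fb h b t s
      ≤ 36 * ‖θ‖ ^ 2 * ((2 * M ^ 2 + 8) * mg h b t) :=
        mul_le_mul_of_nonneg_left h14 (by positivity)
    _ = (36 * (2 * M ^ 2 + 8)) * (‖θ‖ ^ 2 * mg h b t) := by ring
    _ ≤ kap j * (‖θ‖ ^ 2 * mg h b t) := mul_le_mul_of_nonneg_right h15 (by positivity)
    _ = _ := by ring

/-- `Q = {t | S ≤ 51200 * 4 ^ j * mg t, ‖t‖² ≤ 160 j}` with `S = 2 mg t0` (`exists_big`): convex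
(superlevel set of a log-concave function), measurable, mass at least `79/80`
(`small_density`, `far_mass`, `int_tc` for the indicator of `Q`). -/
theorem exists_bulk (H : GV δ L h) (hm : ∫ x, h x = 1)
    (h2 : ∀ θ : F, ∫ x, (inner ℝ θ x) ^ 2 * h x ≤ ‖θ‖ ^ 2) (hA : Ad h k b) :
    ∃ Q : Set (Vn j), Convex ℝ Q ∧ MeasurableSet Q ∧ (∀ t ∈ Q, ‖t‖ ^ 2 ≤ 160 * j) ∧
      79 / 80 ≤ (∫ x in {x | tc b x ∈ Q}, h x) ∧
      ∀ t ∈ Q, ∀ θ : Vn m, ∫ s, (inner ℝ θ s) ^ 2 * fb h b t s ≤
        kap j * ‖θ‖ ^ 2 * mg h b t := by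
  obtain ⟨t0, ht0⟩ := exists_big (b := b) H
  have hmg0 := mg_pos (b := b) H t0
  set S : ℝ := 2 * mg h b t0 with hSd
  have hS0 : 0 < S := by positivity
  have hmgm : Measurable (mg h b) := by
    have h1 := (Lp_int (b := b) H 0).1
    have h3 : Lp h b 0 = mg h b := funext fun t => (mg_eq h b t).symm
    rwa [h3] at h1
  set Q1 : Set (Vn j) := {t | S ≤ 51200 * 4 ^ j * mg h b t} with hQ1
  set Q2 : Set (Vn j) := {t | ‖t‖ ^ 2 ≤ 160 * (j : ℝ)} with hQ2
  have hQ1m : MeasurableSet Q1 := measurableSet_le measurable_const (hmgm.const_mul _)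
  have hQ2m : MeasurableSet Q2 := measurableSet_le (by fun_prop) measurable_const
  have hlc : LogConc (mg h b) := by
    have h3 : mg h b = Lp h b 0 := funext fun t => mg_eq h b t
    rw [h3]
    exact Lp_lc H 0
  refine ⟨Q1 ∩ Q2, ?_, hQ1m.inter hQ2m, fun t ht => ht.2, ?_, fun t ht θ =>
    fibre_second H hm h2 hA ht0 ht.1 θ⟩
  · refine Convex.inter ?_ ?_
    · intro x hx y hy a c ha hc hac
      rcases ha.eq_or_lt with ha0 | ha0
      · rw [← ha0] at hac ⊢
        rw [zero_add] at hac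
        rw [hac, zero_smul, one_smul, zero_add]
        exact hy
      rcases hc.eq_or_lt with hc0 | hc0
      · rw [← hc0] at hac ⊢
        rw [add_zero] at hac
        rw [hac, zero_smul, one_smul, add_zero]
        exact hx
      have ha1 : a = 1 - c := by linarith
      have hc1 : c < 1 := by linarith
      have h3 := hlc c hc0 hc1 x y
      set p : ℝ := S / (51200 * 4 ^ j) with hp
      have hp0 : 0 < p := by positivity
      have hiff : ∀ z, z ∈ Q1 ↔ p ≤ mg h b z := by
        intro z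
        rw [hQ1, Set.mem_ofPred_eq, hp, div_le_iff₀ (by positivity)]
        constructor <;> intro h <;> linarith
      rw [hiff] at hx hy ⊢
      rw [ha1]
      refine le_trans ?_ h3
      calc p = p ^ (1 - c) * p ^ c := by
            rw [← Real.rpow_add hp0]; simp
        _ ≤ _ := mul_le_mul (Real.rpow_le_rpow hp0.le hx (by linarith))
            (Real.rpow_le_rpow hp0.le hy hc0.le) (by positivity)
            (Real.rpow_nonneg (mg_pos H x).le _)
    · have h3 : Q2 = Metric.closedBall 0 (Real.sqrt (160 * (j : ℝ))) := by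
        ext z
        rw [hQ2, Set.mem_ofPred_eq, mem_closedBall_zero_iff]
        exact (Real.le_sqrt (norm_nonneg z) (by positivity)).symm
      rw [h3]
      exact convex_closedBall _ _
  · have hQm := hQ1m.inter hQ2m
    have hφ : Measurable (Set.indicator (Q1 ∩ Q2) fun _ : Vn j => (1 : ℝ)) :=
      measurable_const.indicator hQm
    have hb1 : ∀ (A : Set (Vn j)) (t : Vn j),
        |Set.indicator A (fun _ : Vn j => (1 : ℝ)) t| ≤ 1 * (1 + ‖t‖ ^ 2) := by
      intro A t
      have h3 : 0 ≤ ‖t‖ ^ 2 := sq_nonneg _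
      by_cases hA' : t ∈ A
      · rw [Set.indicator_of_mem hA', abs_one]; linarith
      · rw [Set.indicator_of_notMem hA', abs_zero]; linarith
    obtain ⟨i1, e1⟩ := int_tc (b := b) H hφ (hb1 _)
    have e2 : ∫ x in {x | tc b x ∈ Q1 ∩ Q2}, h x =
        ∫ x, Set.indicator (Q1 ∩ Q2) (fun _ : Vn j => (1 : ℝ)) (tc b x) * h x := by
      have hms : MeasurableSet {x : F | tc b x ∈ Q1 ∩ Q2} := tc_cont.measurable hQm
      rw [← integral_indicator hms]
      refine integral_congr_ae (Eventually.of_forall fun x => ?_)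
      simp only
      by_cases hx : tc b x ∈ Q1 ∩ Q2
      · rw [Set.indicator_of_mem (s := {x | tc b x ∈ Q1 ∩ Q2}) hx, Set.indicator_of_mem hx,
          one_mul]
      · rw [Set.indicator_of_notMem (s := {x | tc b x ∈ Q1 ∩ Q2}) hx,
          Set.indicator_of_notMem hx, zero_mul]
    rw [e2, e1]
    obtain ⟨i2, e3⟩ := int_tc (b := b) H (φ := fun _ => 1) measurable_const (C := 1) fun t => by
      have h3 : 0 ≤ ‖t‖ ^ 2 := sq_nonneg _
      rw [abs_one]; linarith
    have hmass : ∫ t, mg h b t = 1 := by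
      have h3 : ∫ t, 1 * mg h b t = 1 := by
        rw [← e3]; simpa using hm
      simpa using h3
    have img : Integrable (mg h b) := by simpa using i2
    set U1 : Set (Vn j) := {t | mg h b t < 2 * mg h b t0 / (51200 * 4 ^ j)} with hU1
    set U2 : Set (Vn j) := {t : Vn j | 160 * (j : ℝ) < ‖t‖ ^ 2} with hU2
    have hU1m : MeasurableSet U1 := measurableSet_lt hmgm measurable_const
    have hU2m : MeasurableSet U2 := measurableSet_lt measurable_const (by fun_prop)
    have hs1 := small_density H hm ht0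
    have hs2 := far_mass (b := b) H hm h2
    rw [← hU1, ← integral_indicator hU1m] at hs1
    rw [← hU2, ← integral_indicator hU2m] at hs2
    have hpt : ∀ t, mg h b t ≤ Set.indicator (Q1 ∩ Q2) (fun _ : Vn j => (1 : ℝ)) t * mg h b t +
        (Set.indicator U1 (mg h b) t + Set.indicator U2 (mg h b) t) := by
      intro t
      have hp := (mg_pos (b := b) H t).le
      have hi1 : 0 ≤ Set.indicator U1 (mg h b) t := Set.indicator_nonneg (fun _ _ => (mg_pos H _).le) _
      have hi2 : 0 ≤ Set.indicator U2 (mg h b) t := Set.indicator_nonneg (fun _ _ => (mg_pos H _).le) _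
      by_cases hx : t ∈ Q1 ∩ Q2
      · rw [Set.indicator_of_mem hx]; linarith
      · rw [Set.indicator_of_notMem hx, zero_mul, zero_add]
        by_cases h3 : t ∈ Q1
        · have h4 : t ∈ U2 := by
            rw [hU2, Set.mem_ofPred_eq]
            by_contra hcon
            exact hx ⟨h3, not_lt.1 hcon⟩
          rw [Set.indicator_of_mem h4]; linarith
        · have h4 : t ∈ U1 := by
            rw [hU1, Set.mem_ofPred_eq, lt_div_iff₀ (by positivity)]
            rw [hQ1, Set.mem_ofPred_eq, not_le] at h3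
            linarith
          rw [Set.indicator_of_mem h4]; linarith
    have hint2 : Integrable fun t => Set.indicator U1 (mg h b) t + Set.indicator U2 (mg h b) t :=
      (img.indicator hU1m).add (img.indicator hU2m)
    have hmono := integral_mono img (i1.add hint2) hpt
    rw [hmass] at hmono
    have e4 : ∫ t, (Set.indicator (Q1 ∩ Q2) (fun _ : Vn j => (1 : ℝ)) t * mg h b t +
        (Set.indicator U1 (mg h b) t + Set.indicator U2 (mg h b) t)) =
        (∫ t, Set.indicator (Q1 ∩ Q2) (fun _ : Vn j => (1 : ℝ)) t * mg h b t) +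
        ((∫ t, Set.indicator U1 (mg h b) t) + ∫ t, Set.indicator U2 (mg h b) t) := by
      rw [integral_add i1 hint2, integral_add (img.indicator hU1m) (img.indicator hU2m)]
    have hmono2 : 1 ≤ (∫ t, Set.indicator (Q1 ∩ Q2) (fun _ : Vn j => (1 : ℝ)) t * mg h b t) +
        ((∫ t, Set.indicator U1 (mg h b) t) + ∫ t, Set.indicator U2 (mg h b) t) := by
      rw [← e4]; exact hmono
    linarith

end Pool.Agent.Lib.MP_8d00da_gt.h97s
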