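import Mathlib
import Pool.Agent.Lib.MP_8d00da_gt.h97s.KBas
import Pool.Agent.Lib.MP_8d00da_gt.h97s.KCoord

/-!
# The bulk weight
-/

namespace Pool.Agent.Lib.MP_8d00da_gt.h97s

open MeasureTheory Set Filter
open Pool.Agent.Lib.MP_8d00da_gt.h25 Pool.Agent.Lib.MP_8d00da_gt.h42
open Pool.Agent.Lib.MP_8d00da_gt.h42s Pool.Agent.Lib.MP_8d00da_gt.h42o
open Pool.Agent.Lib.MP_8d00da_gt.h97r
open scoped Topology NNReal

set_option linter.unusedSectionVars false

variable {F : Type*} [NormedAddCommGroup F] [InnerProductSpace ℝ F]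
    [FiniteDimensional ℝ F] [MeasurableSpace F] [BorelSpace F]

variable {m j : ℕ} {b : OrthonormalBasis (Fin m ⊕ Fin j) ℝ F}

variable {δ L α : ℝ} {h : F → ℝ} {k : ℕ} {Q : Set (Vn j)}

/-- The weight restricted to the bulk. -/
noncomputable def hQ (h : F → ℝ) (b : OrthonormalBasis (Fin m ⊕ Fin j) ℝ F) (Q : Set (Vn j)) :
    F → ℝ := Set.indicator {x | tc b x ∈ Q} h

/-- `Wt`: measurable, `0 ≤ hQ ≤ h ≤ B`, the midpoint inequality (`H.smid` with
`exp ≥ 1`, `Q` convex, `tc_lin`), not almost everywhere zero (positive mass). -/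
theorem hQ_BW (H : GV δ L h) (hα : 0 < α) (hQ1 : Convex ℝ Q) (hQ2 : MeasurableSet Q)
    (hQ3 : 0 < ∫ x in {x | tc b x ∈ Q}, h x) : ∃ B : ℝ, BW B δ α (hQ h b Q) := by
  obtain ⟨B, hB⟩ := H.wt
  have hms : MeasurableSet {x | tc b x ∈ Q} := hQ2.preimage tc_cont.measurable
  have h0 : ∀ x, 0 ≤ hQ h b Q x := fun x => indicator_nonneg (fun y _ => (H.pos y).le) x
  have hsm : ∀ x y, hQ h b Q x * hQ h b Q y * Real.exp (δ * ‖x - y‖ ^ 2 / 4) ≤
      hQ h b Q ((1 / 2 : ℝ) • (x + y)) ^ 2 := by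
    intro x y
    by_cases hx : tc b x ∈ Q
    swap
    · have e : hQ h b Q x = 0 := indicator_of_notMem (s := {x | tc b x ∈ Q}) hx _
      rw [e, zero_mul, zero_mul]
      exact sq_nonneg _
    by_cases hy : tc b y ∈ Q
    swap
    · have e : hQ h b Q y = 0 := indicator_of_notMem (s := {x | tc b x ∈ Q}) hy _
      rw [e, mul_zero, zero_mul]
      exact sq_nonneg _
    have hm : tc b ((1 / 2 : ℝ) • (x + y)) ∈ Q := by
      rw [smul_add, tc_lin]
      exact hQ1 hx hy (by norm_num) (by norm_num) (by norm_num)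
    have e1 : hQ h b Q x = h x := indicator_of_mem (s := {x | tc b x ∈ Q}) hx _
    have e2 : hQ h b Q y = h y := indicator_of_mem (s := {x | tc b x ∈ Q}) hy _
    have e3 : hQ h b Q ((1 / 2 : ℝ) • (x + y)) = h ((1 / 2 : ℝ) • (x + y)) :=
      indicator_of_mem (s := {x | tc b x ∈ Q}) hm _
    rw [e1, e2, e3]
    exact H.smid x y
  refine ⟨B, ⟨H.dpos, hα, ⟨H.cont.measurable.indicator hms, h0, fun x => ?_, fun x y => ?_, ?_⟩,
    H.int.indicator hms, hsm⟩⟩
  · by_cases hx : tc b x ∈ Q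
    · have e1 : hQ h b Q x = h x := indicator_of_mem (s := {x | tc b x ∈ Q}) hx _
      rw [e1]
      exact hB.bdd x
    · have e1 : hQ h b Q x = 0 := indicator_of_notMem (s := {x | tc b x ∈ Q}) hx _
      rw [e1]
      exact (hB.nonneg x).trans (hB.bdd x)
  · refine le_trans ?_ (hsm x y)
    have hδ := H.dpos
    refine le_mul_of_one_le_right (mul_nonneg (h0 x) (h0 y)) ?_
    rw [Real.one_le_exp_iff]
    positivity
  · intro hne
    have h1 : ∫ x, hQ h b Q x = 0 := by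
      rw [integral_congr_ae hne]
      simp
    unfold hQ at h1
    rw [integral_indicator hms] at h1
    linarith

/-- On the fibre over `t ∈ Q` the weight is a constant multiple of `fb h b t`, for `t ∉ Q` it
vanishes. -/
theorem fb_wg (t : Vn j) (s : Vn m) : (t ∈ Q → fb (wg α b (hQ h b Q)) b t s =
    Real.exp (-(α / 2 * ‖t‖ ^ 2)) * fb h b t s) ∧ (t ∉ Q → fb (wg α b (hQ h b Q)) b t s = 0) := by
  have e0 : ∑ l, (inner ℝ (b (Sum.inr l)) (jj b s t)) ^ 2 = ‖t‖ ^ 2 := by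
    rw [← tc_sq, tc_jj]
  constructor
  · intro ht
    have h1 : jj b s t ∈ {x | tc b x ∈ Q} := by
      show tc b (jj b s t) ∈ Q
      rwa [tc_jj]
    have e1 : hQ h b Q (jj b s t) = h (jj b s t) := indicator_of_mem h1 _
    unfold fb wg
    rw [e1, e0, mul_comm]
  · intro ht
    have h1 : jj b s t ∉ {x | tc b x ∈ Q} := by
      show ¬ tc b (jj b s t) ∈ Q
      rwa [tc_jj]
    have e1 : hQ h b Q (jj b s t) = 0 := indicator_of_notMem h1 _
    unfold fb wg
    rw [e1, zero_mul]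

/-- The symmetries preserve `tc b` (`tc_sym`). -/
theorem wg_sym (hA : Ad h k b) {g : F ≃ₗᵢ[ℝ] F} (hg : g ∈ Ss h k) (x : F) :
    wg α b (hQ h b Q) (g x) = wg α b (hQ h b Q) x := by
  have e1 : tc b (g x) = tc b x := tc_sym (hA.fix g hg) x
  have e2 : hQ h b Q (g x) = hQ h b Q x := by
    by_cases hx : tc b x ∈ Q
    · have h1 : hQ h b Q x = h x := indicator_of_mem (s := {x | tc b x ∈ Q}) hx _
      have h2 : hQ h b Q (g x) = h (g x) :=
        indicator_of_mem (s := {x | tc b x ∈ Q}) (show tc b (g x) ∈ Q by rwa [e1]) _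
      rw [h1, h2, hg.1 x]
    · have h1 : hQ h b Q x = 0 := indicator_of_notMem (s := {x | tc b x ∈ Q}) hx _
      have h2 : hQ h b Q (g x) = 0 :=
        indicator_of_notMem (s := {x | tc b x ∈ Q}) (show ¬ tc b (g x) ∈ Q by rwa [e1]) _
      rw [h1, h2]
  unfold wg
  rw [e2, ← tc_sq, ← tc_sq, e1]

end Pool.Agent.Lib.MP_8d00da_gt.h97s
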