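import Mathlib
import Pool.Agent.Lib.MP_8d00da_gt.h97s.KDefs

/-!
# The weight with the Gaussian factor
-/

namespace Pool.Agent.Lib.MP_8d00da_gt.h97s

open MeasureTheory Set Filter
open Pool.Agent.Lib.MP_8d00da_gt.h25 Pool.Agent.Lib.MP_8d00da_gt.h42
open Pool.Agent.Lib.MP_8d00da_gt.h42s Pool.Agent.Lib.MP_8d00da_gt.h42o
open Pool.Agent.Lib.MP_8d00da_gt.h97r
open scoped Topology NNReal

set_option linter.unusedSectionVars false

variable {F : Type*} [NormedAddCommGroup F] [InnerProductSpace ℝ F]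
    [FiniteDimensional ℝ F] [MeasurableSpace F] [BorelSpace F]

variable {m j : ℕ} {b : OrthonormalBasis (Fin m ⊕ Fin j) ℝ F}

variable {B δ α : ℝ} {h0 : F → ℝ}

private noncomputable def kwE (b : OrthonormalBasis (Fin m ⊕ Fin j) ℝ F) (x : F) : ℝ :=
  ∑ l, (inner ℝ (b (Sum.inr l)) x) ^ 2

private lemma kwE_nonneg (x : F) : 0 ≤ kwE b x := Finset.sum_nonneg fun _ _ => sq_nonneg _

private lemma kwE_cont : Continuous (kwE b) := by
  unfold kwE
  fun_prop

private lemma kwE_mid (x y : F) :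
    kwE b x + kwE b y = 2 * kwE b ((1 / 2 : ℝ) • (x + y)) + kwE b (x - y) / 2 := by
  unfold kwE
  rw [← Finset.sum_add_distrib, Finset.mul_sum, Finset.sum_div, ← Finset.sum_add_distrib]
  refine Finset.sum_congr rfl fun l _ => ?_
  rw [inner_smul_right, inner_add_right, inner_sub_right]
  ring

private lemma kw_eq (x : F) : wg α b h0 x = h0 x * Real.exp (-(α / 2 * kwE b x)) := rfl

private lemma kw_mid (x y : F) :
    Real.exp (-(α / 2 * kwE b x)) * Real.exp (-(α / 2 * kwE b y)) *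
      Real.exp (α * kwE b (x - y) / 4) =
      Real.exp (-(α / 2 * kwE b ((1 / 2 : ℝ) • (x + y)))) ^ 2 := by
  rw [← Real.exp_add, ← Real.exp_add, ← Real.exp_nat_mul]
  congr 1
  have h1 := kwE_mid (b := b) x y
  push_cast
  linear_combination (-(α / 2)) * h1

private lemma kw_mid_le (H : BW B δ α h0) (x y : F) :
    Real.exp (-(α / 2 * kwE b x)) * Real.exp (-(α / 2 * kwE b y)) ≤
      Real.exp (-(α / 2 * kwE b ((1 / 2 : ℝ) • (x + y)))) ^ 2 := by
  rw [← kw_mid]
  refine le_mul_of_one_le_right (by positivity) (Real.one_le_exp ?_)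
  have := kwE_nonneg (b := b) (x - y)
  have := H.apos
  positivity

private lemma kw_le_one (H : BW B δ α h0) (x : F) : Real.exp (-(α / 2 * kwE b x)) ≤ 1 := by
  rw [Real.exp_le_one_iff]
  have := kwE_nonneg (b := b) x
  have := H.apos
  have : 0 ≤ α / 2 * kwE b x := by positivity
  linarith

private lemma kw_meas : Measurable fun x : F => Real.exp (-(α / 2 * kwE b x)) := by
  have := (kwE_cont (b := b)).measurable
  fun_prop

/-- The Gaussian factor is positive, at most `1`, continuous and log-concave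
(`h0 * h0 ≤ h0 ^ 2` at the midpoint from `H.wt.mid`; the square of a coordinate is convex). -/
theorem wg_wt (H : BW B δ α h0) : Wt (wg α b h0) B where
  meas := H.wt.meas.mul kw_meas
  nonneg x := mul_nonneg (H.wt.nonneg x) (Real.exp_pos _).le
  bdd x := (mul_le_of_le_one_right (H.wt.nonneg x) (kw_le_one H x)).trans (H.wt.bdd x)
  mid x y := by
    rw [kw_eq, kw_eq, kw_eq, mul_pow, mul_mul_mul_comm]
    exact mul_le_mul (H.wt.mid x y) (kw_mid_le H x y) (by positivity) (sq_nonneg _)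
  ne := by
    intro h1
    refine H.wt.ne ?_
    filter_upwards [h1] with x hx
    rw [kw_eq, Pi.zero_apply, mul_eq_zero] at hx
    exact hx.resolve_right (Real.exp_pos _).ne'

theorem wg_int (H : BW B δ α h0) : Integrable (wg α b h0) := by
  refine H.int.mono (wg_wt H).meas.aestronglyMeasurable (Eventually.of_forall fun x => ?_)
  rw [kw_eq, norm_mul, Real.norm_of_nonneg (Real.exp_pos _).le]
  exact mul_le_of_le_one_right (norm_nonneg _) (kw_le_one H x)

/-- As `wg_wt`, with `H.smid`. -/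
theorem wg_smid (H : BW B δ α h0) (x y : F) :
    wg α b h0 x * wg α b h0 y * Real.exp (δ * ‖x - y‖ ^ 2 / 4) ≤
      wg α b h0 ((1 / 2 : ℝ) • (x + y)) ^ 2 := by
  rw [kw_eq, kw_eq, kw_eq, mul_pow, mul_mul_mul_comm, mul_right_comm]
  exact mul_le_mul (H.smid x y) (kw_mid_le H x y) (by positivity) (sq_nonneg _)

/-- `h42.strong_poincare` with `wg_smid`. -/
theorem wg_poin (H : BW B δ α h0) {f : F → ℝ} (hf : BL f) (hm : ∫ x, f x * wg α b h0 x = 0) :
    ∫ x, f x ^ 2 * wg α b h0 x ≤ (1 / δ) * En (wg α b h0) f := by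
  obtain ⟨⟨L, hL⟩, A, hA⟩ := hf
  have key := h42.strong_poincare H.dpos (ρ := wg α b h0) (wg_wt H).nonneg (wg_wt H).meas (wg_int H)
    (wg_smid H) hL hA (m := 0) (by rw [hm, zero_mul])
  simp only [sub_zero] at key
  exact key

/-- The midpoint inequality of the tilted weight with the anisotropic gain: as `Wt.tilt_mid` (which
uses `ker_mid`), and `((x l) ² + (y l) ²) / 2 - ((x l + y l) / 2) ² = (x l - y l) ² / 4`, so the
Gaussian factors give `exp (α * ∑ l, (x l - y l) ² / 4)`; here `‖v‖ ² = ∑ i + ∑ l` (Parseval). -/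
theorem ani_mid (H : BW B δ α h0) {η : ℝ} (hη : 0 < η) (y x x' : F) :
    (wg α b h0 x * h25.ker η (y - x)) * (wg α b h0 x' * h25.ker η (y - x')) *
      Real.exp ((1 / η) * ((∑ i, (inner ℝ (b (Sum.inl i)) (x - x')) ^ 2) +
        (1 + η * α) * ∑ l, (inner ℝ (b (Sum.inr l)) (x - x')) ^ 2) / 4) ≤
      (wg α b h0 ((1 / 2 : ℝ) • (x + x')) * h25.ker η (y - (1 / 2 : ℝ) • (x + x'))) ^ 2 := by
  have hpars : ‖x - x'‖ ^ 2 = (∑ i, (inner ℝ (b (Sum.inl i)) (x - x')) ^ 2) + kwE b (x - x') := by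
    have h1 := b.sum_sq_norm_inner_right (x - x')
    rw [← h1, Fintype.sum_sum_type]
    simp only [Real.norm_eq_abs, sq_abs]
    rfl
  have e1 : (1 / η) * ((∑ i, (inner ℝ (b (Sum.inl i)) (x - x')) ^ 2) +
        (1 + η * α) * ∑ l, (inner ℝ (b (Sum.inr l)) (x - x')) ^ 2) / 4 =
      (1 / η) * ‖x - x'‖ ^ 2 / 4 + α * kwE b (x - x') / 4 := by
    rw [hpars]
    show (1 / η) * ((∑ i, (inner ℝ (b (Sum.inl i)) (x - x')) ^ 2) +
        (1 + η * α) * kwE b (x - x')) / 4 = _
    field_simp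
    ring
  rw [e1, Real.exp_add, kw_eq, kw_eq, kw_eq]
  calc h0 x * Real.exp (-(α / 2 * kwE b x)) * h25.ker η (y - x) *
        (h0 x' * Real.exp (-(α / 2 * kwE b x')) * h25.ker η (y - x')) *
        (Real.exp ((1 / η) * ‖x - x'‖ ^ 2 / 4) * Real.exp (α * kwE b (x - x') / 4))
      = (h0 x * h0 x') * ((Real.exp (-(α / 2 * kwE b x)) * Real.exp (-(α / 2 * kwE b x')) *
          Real.exp (α * kwE b (x - x') / 4)) * (h25.ker η (y - x) * h25.ker η (y - x') *
          Real.exp ((1 / η) * ‖x - x'‖ ^ 2 / 4))) := by ring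
    _ = (h0 x * h0 x') * (Real.exp (-(α / 2 * kwE b ((1 / 2 : ℝ) • (x + x')))) ^ 2 *
          h25.ker η (y - (1 / 2 : ℝ) • (x + x')) ^ 2) := by rw [h25.ker_mid hη, kw_mid]
    _ ≤ h0 ((1 / 2 : ℝ) • (x + x')) ^ 2 * (Real.exp (-(α / 2 * kwE b ((1 / 2 : ℝ) • (x + x')))) ^ 2 *
          h25.ker η (y - (1 / 2 : ℝ) • (x + x')) ^ 2) :=
        mul_le_mul_of_nonneg_right (H.wt.mid x x') (by positivity)
    _ = _ := by ring

end Pool.Agent.Lib.MP_8d00da_gt.h97s
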