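import Mathlib
import Pool.Agent.Lib.MP_8d00da_gt.h97s.KWgt
import Pool.Agent.Lib.MP_8d00da_gt.h97s.KBW
import Pool.Agent.Lib.MP_8d00da_gt.h97s.KMean
import Pool.Agent.Lib.MP_8d00da_gt.h97r.RGen

/-!
# The fibres of the bulk weight
-/

namespace Pool.Agent.Lib.MP_8d00da_gt.h97s

open MeasureTheory Set Filter
open Pool.Agent.Lib.MP_8d00da_gt.h25 Pool.Agent.Lib.MP_8d00da_gt.h42
open Pool.Agent.Lib.MP_8d00da_gt.h42s Pool.Agent.Lib.MP_8d00da_gt.h42o
open Pool.Agent.Lib.MP_8d00da_gt.h97r
open scoped Topology NNReal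

set_option linter.unusedSectionVars false

variable {F : Type*} [NormedAddCommGroup F] [InnerProductSpace ℝ F]
    [FiniteDimensional ℝ F] [MeasurableSpace F] [BorelSpace F]

variable {m j : ℕ} {b : OrthonormalBasis (Fin m ⊕ Fin j) ℝ F}

variable {δ L α : ℝ} {h : F → ℝ} {k : ℕ} {Q : Set (Vn j)}

/-- The fibres of `h` are log-concave (`jj_lin`, `H.lc`), integrable (`fb_int_exp`) and of
positive mass (`mg_pos`), and satisfy `RefL k` (`fibre_ref`), so `h97r.QJ_gen` applies; with the
bound `hc` of the second moments, `∫ (fderiv f y x) ² fb ≤ kap j ‖fderiv f y‖ ² ∫ fb`. -/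
theorem fp_h (H : GV δ L h) (hA : Ad h k b) (hk : 1 ≤ k) {t : Vn j}
    (hc : ∀ θ : Vn m, ∫ s, (inner ℝ θ s) ^ 2 * fb h b t s ≤ kap j * ‖θ‖ ^ 2 * mg h b t) :
    FP (3050000 * (k : ℝ) ^ 6 * kap j) (fb h b t) := by
  intro u hu
  have hcont : Continuous (fb h b t) := by
    have h1 : Continuous fun s : Vn m => jj b s t := by
      have := (jj_cont (b := b)).comp (continuous_id.prodMk (continuous_const (y := t)))
      exact this
    exact H.cont.comp h1
  have h0 : ∀ s, 0 ≤ fb h b t s := fun s => (H.pos _).le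
  have hlc : LogConc (fb h b t) := by
    intro a ha0 ha1 s s'
    have h1 := H.lc a ha0 ha1 (jj b s t) (jj b s' t)
    have h2 : (1 - a) • jj b s t + a • jj b s' t = jj b ((1 - a) • s + a • s') t := by
      rw [← jj_lin]
      congr 1
      rw [← add_smul]
      simp
    rw [h2] at h1
    exact h1
  have hi : Integrable (fb h b t) := by
    have := fb_int_exp (b := b) H t (φ := fun _ => (1 : ℝ)) measurable_const (C := 1) (a := 0)
      (fun s => by simp)
    simpa using this
  have hpos : 0 < ∫ s, fb h b t s := mg_pos H t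
  have hR : RefL k (fb h b t) := fibre_ref hA (fun g hg x => hg.1 x) t
  have hq := QJ_gen h0 hcont.measurable hlc hi hpos hk hR u hu
  refine hq.trans ?_
  have hC : (0 : ℝ) ≤ 3050000 * (k : ℝ) ^ 6 := by positivity
  have hL := hu.1
  obtain ⟨L', hL'⟩ := hL
  have hpt : ∀ y, (∫ x, (fderiv ℝ u y x) ^ 2 * fb h b t x) * fb h b t y ≤
      (kap j * mg h b t) * (‖fderiv ℝ u y‖ ^ 2 * fb h b t y) := by
    intro y
    set θ : Vn m := (InnerProductSpace.toDual ℝ (Vn m)).symm (fderiv ℝ u y) with hθ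
    have h1 : ∀ x, fderiv ℝ u y x = inner ℝ θ x := fun x => by
      rw [hθ, InnerProductSpace.toDual_symm_apply]
    have h2 : ‖θ‖ = ‖fderiv ℝ u y‖ := by
      rw [hθ, LinearIsometryEquiv.norm_map]
    have h3 := hc θ
    simp only [h1]
    rw [h2] at h3
    calc (∫ x, (inner ℝ θ x) ^ 2 * fb h b t x) * fb h b t y
        ≤ (kap j * ‖fderiv ℝ u y‖ ^ 2 * mg h b t) * fb h b t y :=
          mul_le_mul_of_nonneg_right h3 (h0 y)
      _ = _ := by ring
  have hint : Integrable fun y => ‖fderiv ℝ u y‖ ^ 2 * fb h b t y := by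
    refine (hi.const_mul ((L' : ℝ) ^ 2)).mono'
      (((measurable_fderiv ℝ u).norm.pow_const 2).mul hcont.measurable).aestronglyMeasurable
      (Eventually.of_forall fun y => ?_)
    rw [Real.norm_eq_abs, abs_mul, abs_of_nonneg (h0 y)]
    exact mul_le_mul_of_nonneg_right (sq_fderiv_bdd hL' y) (h0 y)
  have hI : ∫ y, (∫ x, (fderiv ℝ u y x) ^ 2 * fb h b t x) * fb h b t y ≤
      (kap j * mg h b t) * En (fb h b t) u := by
    unfold En
    rw [← integral_const_mul]
    refine integral_mono_of_nonneg (Eventually.of_forall fun y => ?_) (hint.const_mul _)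
      (Eventually.of_forall hpt)
    exact mul_nonneg (integral_nonneg fun x => mul_nonneg (sq_nonneg _) (h0 x)) (h0 y)
  calc 3050000 * (k : ℝ) ^ 6 * ∫ y, (∫ x, (fderiv ℝ u y x) ^ 2 * fb h b t x) * fb h b t y
      ≤ 3050000 * (k : ℝ) ^ 6 * ((kap j * mg h b t) * En (fb h b t) u) :=
        mul_le_mul_of_nonneg_left hI hC
    _ = 3050000 * (k : ℝ) ^ 6 * kap j * (∫ s, fb h b t s) * En (fb h b t) u := by
        unfold mg
        ring

/-- Both sides of `FP` are quadratic in the weight. -/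
theorem FP.smul {K : ℝ} {w : Vn m → ℝ} (hw : FP K w) (c : ℝ) : FP K fun s => c * w s := by
  intro u hu
  have h1 := hw u hu
  have e1 : ∫ x, u x ^ 2 * (c * w x) = c * ∫ x, u x ^ 2 * w x := by
    rw [← integral_const_mul]
    exact integral_congr_ae (Eventually.of_forall fun x => by simp only; ring)
  have e2 : ∫ x, u x * (c * w x) = c * ∫ x, u x * w x := by
    rw [← integral_const_mul]
    exact integral_congr_ae (Eventually.of_forall fun x => by simp only; ring)
  have e3 : En (fun s => c * w s) u = c * En w u := by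
    unfold En
    rw [← integral_const_mul]
    exact integral_congr_ae (Eventually.of_forall fun x => by simp only; ring)
  rw [e1, e2, e3, integral_const_mul]
  nlinarith [mul_le_mul_of_nonneg_left h1 (sq_nonneg c)]

/-- `fp_h`, `FP.smul`, `fb_wg`. -/
theorem hQ_FW (H : GV δ L h) (hA : Ad h k b) (hk : 1 ≤ k) (hα : 0 < α) (hQ1 : Convex ℝ Q)
    (hQ2 : MeasurableSet Q) (hQ3 : 0 < ∫ x in {x | tc b x ∈ Q}, h x)
    (hc : ∀ t ∈ Q, ∀ θ : Vn m, ∫ s, (inner ℝ θ s) ^ 2 * fb h b t s ≤
      kap j * ‖θ‖ ^ 2 * mg h b t) :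
    ∃ B : ℝ, FW B (3050000 * (k : ℝ) ^ 6 * kap j) b (wg α b (hQ h b Q)) := by
  obtain ⟨B, HB⟩ := hQ_BW (b := b) H hα hQ1 hQ2 hQ3
  have hfi : ∀ t : Vn j, Integrable (fb h b t) := fun t => by
    have := fb_int_exp (b := b) H t (φ := fun _ => (1 : ℝ)) measurable_const (C := 1) (a := 0)
      (fun s => by simp)
    simpa using this
  refine ⟨B, ⟨by unfold kap; positivity, wg_wt HB, wg_int HB, fun t => ?_, fun t => ?_⟩⟩
  · by_cases ht : t ∈ Q
    · have e : fb (wg α b (hQ h b Q)) b t =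
          fun s => Real.exp (-(α / 2 * ‖t‖ ^ 2)) * fb h b t s := funext fun s =>
        (fb_wg t s).1 ht
      rw [e]
      exact (hfi t).const_mul _
    · have e : fb (wg α b (hQ h b Q)) b t = fun _ => 0 := funext fun s => (fb_wg t s).2 ht
      rw [e]
      exact integrable_zero _ _ _
  · by_cases ht : t ∈ Q
    · have e : fb (wg α b (hQ h b Q)) b t =
          fun s => Real.exp (-(α / 2 * ‖t‖ ^ 2)) * fb h b t s := funext fun s =>
        (fb_wg t s).1 ht
      rw [e]
      exact (fp_h H hA hk (hc t ht)).smul _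
    · have e : fb (wg α b (hQ h b Q)) b t = fun _ => 0 := funext fun s => (fb_wg t s).2 ht
      rw [e]
      intro u _
      simp [En]

end Pool.Agent.Lib.MP_8d00da_gt.h97s
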