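import Mathlib

namespace Pool.Agent.Lib.MP_8d00da_gt.h25
end Pool.Agent.Lib.MP_8d00da_gt.h25
namespace Pool.Agent.Lib.MP_8d00da_gt.h42
end Pool.Agent.Lib.MP_8d00da_gt.h42
namespace Pool.Agent.Lib.MP_8d00da_gt.h42s
end Pool.Agent.Lib.MP_8d00da_gt.h42s
namespace Pool.Agent.Lib.MP_8d00da_gt.h42o
end Pool.Agent.Lib.MP_8d00da_gt.h42o
namespace Pool.Agent.Lib.MP_8d00da_gt.h97r
end Pool.Agent.Lib.MP_8d00da_gt.h97r


/-!
# Rescaling of the coordinates in the fixed space
-/

namespace Pool.Agent.Lib.MP_8d00da_gt.h97s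

open MeasureTheory Set Filter
open Pool.Agent.Lib.MP_8d00da_gt.h25 Pool.Agent.Lib.MP_8d00da_gt.h42
open Pool.Agent.Lib.MP_8d00da_gt.h42s Pool.Agent.Lib.MP_8d00da_gt.h42o
open Pool.Agent.Lib.MP_8d00da_gt.h97r
open scoped Topology NNReal

set_option linter.unusedSectionVars false

variable {F : Type*} [NormedAddCommGroup F] [InnerProductSpace ℝ F]
    [FiniteDimensional ℝ F] [MeasurableSpace F] [BorelSpace F]

variable {m j : ℕ} {b : OrthonormalBasis (Fin m ⊕ Fin j) ℝ F}

private theorem kscale_inner (d : Fin m ⊕ Fin j → ℝ) (x : F) (i : Fin m ⊕ Fin j) :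
    inner ℝ (b i) (∑ l, (d l * inner ℝ (b l) x) • b l) = d i * inner ℝ (b i) x :=
  b.orthonormal.inner_right_fintype _ i

/-- the diagonal map -/
private noncomputable def kscale_P (b : OrthonormalBasis (Fin m ⊕ Fin j) ℝ F)
    (d : Fin m ⊕ Fin j → ℝ) (hd : ∀ i, d i ≠ 0) : F ≃ₗ[ℝ] F where
  toFun x := ∑ l, (d l * inner ℝ (b l) x) • b l
  map_add' x y := by
    rw [← Finset.sum_add_distrib]
    refine Finset.sum_congr rfl fun l _ => ?_
    rw [inner_add_right, mul_add, add_smul]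
  map_smul' r x := by
    rw [RingHom.id_apply, Finset.smul_sum]
    refine Finset.sum_congr rfl fun l _ => ?_
    rw [inner_smul_right, smul_smul]
    congr 1
    ring
  invFun x := ∑ l, ((d l)⁻¹ * inner ℝ (b l) x) • b l
  left_inv x := by
    simp only [kscale_inner]
    conv_rhs => rw [← b.sum_repr' x]
    refine Finset.sum_congr rfl fun l _ => ?_
    rw [← mul_assoc, inv_mul_cancel₀ (hd l), one_mul]
  right_inv x := by
    simp only [kscale_inner]
    conv_rhs => rw [← b.sum_repr' x]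
    refine Finset.sum_congr rfl fun l _ => ?_
    rw [← mul_assoc, mul_inv_cancel₀ (hd l), one_mul]

/-- There is a linear equivalence `P` which multiplies the vectors `b (inr l)` by `c` and fixes the
vectors `b (inl i)`; it changes integrals by the constant factor `J`. (`RQJ_cv` in
`h97r/RQJ.lean` is a private lemma with the change of variables.) -/
theorem exists_scale {c : ℝ} (hc : 0 < c) : ∃ (P : F ≃L[ℝ] F) (J : ℝ), 0 < J ∧
    (∀ i x, inner ℝ (b (Sum.inl i)) (P x) = inner ℝ (b (Sum.inl i)) x) ∧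
    (∀ l x, inner ℝ (b (Sum.inr l)) (P x) = c * inner ℝ (b (Sum.inr l)) x) ∧
    (∀ Φ : F → ℝ, ∫ x, Φ (P x) = J * ∫ x, Φ x) ∧
    (∀ Φ : F → ℝ, Integrable Φ → Integrable fun x => Φ (P x)) := by
  have hd : ∀ i, (Sum.elim (fun _ => 1) (fun _ => c) : Fin m ⊕ Fin j → ℝ) i ≠ 0 := by
    rintro (i | i)
    · exact one_ne_zero
    · exact hc.ne'
  set P0 := kscale_P b (Sum.elim (fun _ => 1) (fun _ => c)) hd with hP0
  set P := P0.toContinuousLinearEquiv with hP
  have hdet : LinearMap.det (P : F →ₗ[ℝ] F) ≠ 0 := by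
    have := LinearEquiv.isUnit_det' P0
    exact this.ne_zero
  have hmap : Measure.map P (volume : Measure F) =
      ENNReal.ofReal |(LinearMap.det (P : F →ₗ[ℝ] F))⁻¹| • (volume : Measure F) :=
    Measure.map_linearMap_addHaar_eq_smul_addHaar volume hdet
  have hJ : 0 < |(LinearMap.det (P : F →ₗ[ℝ] F))⁻¹| := abs_pos.2 (inv_ne_zero hdet)
  have hemb : MeasurableEmbedding P := P.toHomeomorph.measurableEmbedding
  refine ⟨P, |(LinearMap.det (P : F →ₗ[ℝ] F))⁻¹|, hJ, ?_, ?_, ?_, ?_⟩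
  · intro i x
    have h := kscale_inner (b := b) (Sum.elim (fun _ => 1) (fun _ => c)) x (Sum.inl i)
    rw [Sum.elim_inl, one_mul] at h
    exact h
  · intro l x
    have h := kscale_inner (b := b) (Sum.elim (fun _ => 1) (fun _ => c)) x (Sum.inr l)
    rw [Sum.elim_inr] at h
    exact h
  · intro Φ
    rw [← hemb.integral_map, hmap, integral_smul_measure, ENNReal.toReal_ofReal hJ.le, smul_eq_mul]
  · intro Φ hΦ
    have h1 : Integrable Φ (Measure.map P volume) := by
      rw [hmap]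
      exact hΦ.smul_measure ENNReal.ofReal_ne_top
    exact hemb.integrable_map_iff.1 h1

end Pool.Agent.Lib.MP_8d00da_gt.h97s
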