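import Mathlib
import Pool.Agent.Lib.MP_8d00da_gt.h97s.KScale
import Pool.Agent.Lib.MP_8d00da_gt.h97s.KWgt

/-!
# Anisotropic variance of linear functions
-/

namespace Pool.Agent.Lib.MP_8d00da_gt.h97s

open MeasureTheory Set Filter
open Pool.Agent.Lib.MP_8d00da_gt.h25 Pool.Agent.Lib.MP_8d00da_gt.h42
open Pool.Agent.Lib.MP_8d00da_gt.h42s Pool.Agent.Lib.MP_8d00da_gt.h42o
open Pool.Agent.Lib.MP_8d00da_gt.h97r
open scoped Topology NNReal

set_option linter.unusedSectionVars false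

variable {F : Type*} [NormedAddCommGroup F] [InnerProductSpace ℝ F]
    [FiniteDimensional ℝ F] [MeasurableSpace F] [BorelSpace F]

variable {m j : ℕ} {b : OrthonormalBasis (Fin m ⊕ Fin j) ℝ F}

variable {B δ α : ℝ} {h0 : F → ℝ}

private lemma aniA_parseval (b : OrthonormalBasis (Fin m ⊕ Fin j) ℝ F) (v : F) :
    ‖v‖ ^ 2 = (∑ i, (inner ℝ (b (Sum.inl i)) v) ^ 2) + ∑ l, (inner ℝ (b (Sum.inr l)) v) ^ 2 := by
  rw [← b.sum_sq_inner_right v, Fintype.sum_sum_type]

private lemma aniA_inner (b : OrthonormalBasis (Fin m ⊕ Fin j) ℝ F) (v w : F) :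
    inner ℝ v w = (∑ i, inner ℝ (b (Sum.inl i)) v * inner ℝ (b (Sum.inl i)) w) +
      ∑ l, inner ℝ (b (Sum.inr l)) v * inner ℝ (b (Sum.inr l)) w := by
  rw [← b.sum_inner_mul_inner v w, Fintype.sum_sum_type]
  congr 1
  · exact Finset.sum_congr rfl fun i _ => by rw [real_inner_comm v]
  · exact Finset.sum_congr rfl fun i _ => by rw [real_inner_comm v]

private lemma aniA_qa_nonneg {a : ℝ} (ha : 0 < a) (b : OrthonormalBasis (Fin m ⊕ Fin j) ℝ F)
    (v : F) : 0 ≤ qa a b v := by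
  unfold qa
  have h1 : 0 ≤ ∑ i, (inner ℝ (b (Sum.inl i)) v : ℝ) ^ 2 :=
    Finset.sum_nonneg fun i _ => sq_nonneg _
  have h2 : 0 ≤ ∑ l, (inner ℝ (b (Sum.inr l)) v : ℝ) ^ 2 :=
    Finset.sum_nonneg fun i _ => sq_nonneg _
  have h3 : 0 ≤ a⁻¹ := inv_nonneg.2 ha.le
  positivity

/-- the adjoint estimate: if `Pv` has the coordinates of `v`, the last ones multiplied by `c` -/
private lemma aniA_cs {a c : ℝ} (ha : 0 < a) (hc : c ^ 2 = a⁻¹)
    (b : OrthonormalBasis (Fin m ⊕ Fin j) ℝ F) {v w : F}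
    (h1 : ∀ i, inner ℝ (b (Sum.inl i)) w = inner ℝ (b (Sum.inl i)) v)
    (h2 : ∀ l, inner ℝ (b (Sum.inr l)) w = c * inner ℝ (b (Sum.inr l)) v) (θ : F) :
    |(inner ℝ w θ : ℝ)| ≤ Real.sqrt (qa a b θ) * ‖v‖ := by
  have hq := aniA_qa_nonneg ha b θ
  set p : F := ∑ k, (Sum.elim (fun i => (inner ℝ (b (Sum.inl i)) θ : ℝ))
    (fun l => c * inner ℝ (b (Sum.inr l)) θ) k) • b k with hp
  have hpk : ∀ k, inner ℝ (b k) p = Sum.elim (fun i => (inner ℝ (b (Sum.inl i)) θ : ℝ))
    (fun l => c * inner ℝ (b (Sum.inr l)) θ) k := fun k => b.orthonormal.inner_right_fintype _ k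
  have e1 : (inner ℝ w θ : ℝ) = inner ℝ v p := by
    rw [aniA_inner b w θ, aniA_inner b v p]
    congr 1
    · exact Finset.sum_congr rfl fun i _ => by rw [h1, hpk, Sum.elim_inl]
    · exact Finset.sum_congr rfl fun l _ => by rw [h2, hpk, Sum.elim_inr]; ring
  have e2 : ‖p‖ ^ 2 = qa a b θ := by
    rw [aniA_parseval b p, qa, Finset.mul_sum]
    congr 1
    · exact Finset.sum_congr rfl fun i _ => by rw [hpk, Sum.elim_inl]
    · exact Finset.sum_congr rfl fun l _ => by rw [hpk, Sum.elim_inr, mul_pow, hc]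
  have e3 : ‖p‖ = Real.sqrt (qa a b θ) := by
    rw [← e2, Real.sqrt_sq (norm_nonneg _)]
  rw [e1, ← e3, mul_comm]
  exact abs_real_inner_le_norm _ _

/-- Let `P` be the map of `exists_scale` for `c = (√(1 + η α))⁻¹`. The weight
`ρ z = w (P z) * ker η (y - P z)`, `w = wg α b h0`, satisfies the hypothesis of
`h42.strong_poincare` with `κ = 1 / η` (`ani_mid`, and
`‖z - z'‖ ² = ∑ i + (1 + η α) ∑ l` for the coordinates of `P z - P z'`), and the function
`z ↦ Wt.cl θ n (P z - y)` is Lipschitz with the constant `√(qa (1 + η α) b θ)`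
(the map `z ↦ ⟪P z, θ⟫` is the inner product with the vector with coordinates `⟪b (inl i), θ⟫` and
`c * ⟪b (inr l), θ⟫`, and clamping is 1-Lipschitz), so its derivative is bounded by this constant
(`norm_fderiv_le_of_lipschitz`). Compare the use of `poin` in `h25.Wt.cov_lin`. -/
theorem ani_var (H : BW B δ α h0) {η : ℝ} (hη : 0 < η) (y θ : F) (n : ℕ) :
    VV (wg α b h0) η (fun x => Wt.cl θ n (x - y)) y ≤
      η * qa (1 + η * α) b θ * cv η (wg α b h0) y := by
  have hα := H.apos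
  have ha : 0 < 1 + η * α := by positivity
  have hW := wg_wt (b := b) H
  set w : F → ℝ := wg α b h0 with hw
  set c : ℝ := (Real.sqrt (1 + η * α))⁻¹ with hc
  have hcpos : 0 < c := inv_pos.2 (Real.sqrt_pos.2 ha)
  have hc2 : c ^ 2 = (1 + η * α)⁻¹ := by rw [hc, inv_pow, Real.sq_sqrt ha.le]
  obtain ⟨P, J, hJ, hPl, hPr, hPi, hPint⟩ := exists_scale (b := b) hcpos
  set K : ℝ := qa (1 + η * α) b θ with hK
  have hKnn : 0 ≤ K := aniA_qa_nonneg ha b θ
  set μ : ℝ := AA w η (fun x => Wt.cl θ n (x - y)) y with hμ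
  -- the weight
  set r : F → ℝ := fun x => w x * ker η (y - x) with hr
  have hrnn : ∀ x, 0 ≤ r x := fun x => mul_nonneg (hW.nonneg x) (ker_pos _).le
  have hrm : Measurable r :=
    hW.meas.mul (ker_cont.measurable.comp (measurable_const.sub measurable_id))
  have hri : Integrable r := cv_integrable hη hW.meas hW.abs_le y
  have hPc : Continuous P := P.continuous
  have hlin : ∀ z z', P ((1 / 2 : ℝ) • (z + z')) = (1 / 2 : ℝ) • (P z + P z') := fun z z' => by
    rw [map_smul, map_add]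
  have hlip : LipschitzWith (Real.sqrt K).toNNReal fun z => Wt.cl θ n (P z - y) := by
    refine LipschitzWith.of_dist_le_mul fun z z' => ?_
    have h1 : |Wt.cl θ (n : ℝ) (P z - y) - Wt.cl θ (n : ℝ) (P z' - y)| ≤
        |(inner ℝ (P z - y) θ : ℝ) - inner ℝ (P z' - y) θ| := by
      have hl1 : LipschitzWith 1 fun t : ℝ => max (-(n : ℝ)) (min t n) :=
        (LipschitzWith.id.min_const (n : ℝ)).const_max (-(n : ℝ))
      have := hl1.dist_le_mul (inner ℝ (P z - y) θ) (inner ℝ (P z' - y) θ)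
      rw [Real.dist_eq, Real.dist_eq, NNReal.coe_one, one_mul] at this
      exact this
    have h2 : (inner ℝ (P z - y) θ : ℝ) - inner ℝ (P z' - y) θ = inner ℝ (P (z - z')) θ := by
      rw [← inner_sub_left]
      congr 1
      rw [map_sub]; abel
    rw [Real.dist_eq, dist_eq_norm, Real.coe_toNNReal _ (Real.sqrt_nonneg _)]
    refine h1.trans ?_
    rw [h2]
    exact aniA_cs ha hc2 b (fun i => hPl i _) (fun l => hPr l _) θ
  have hbd : ∀ z, |Wt.cl θ n (P z - y)| ≤ n := fun z => Wt.cl_abs θ (Nat.cast_nonneg n) _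
  have key := h42.strong_poincare (κ := 1 / η) (by positivity)
    (ρ := fun z => r (P z)) (fun z => hrnn _) (hrm.comp hPc.measurable)
    (hPint r hri) (fun z z' => by
      have h1 := ani_mid (b := b) H hη y (P z) (P z')
      rw [← hw] at h1
      have h2 : ‖z - z'‖ ^ 2 = (∑ i, (inner ℝ (b (Sum.inl i)) (P z - P z') : ℝ) ^ 2) +
          (1 + η * α) * ∑ l, (inner ℝ (b (Sum.inr l)) (P z - P z') : ℝ) ^ 2 := by
        rw [aniA_parseval b (z - z'), Finset.mul_sum]
        congr 1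
        · refine Finset.sum_congr rfl fun i _ => ?_
          rw [← map_sub, hPl]
        · refine Finset.sum_congr rfl fun l _ => ?_
          rw [← map_sub, hPr, mul_pow, hc2, ← mul_assoc, mul_inv_cancel₀ ha.ne', one_mul]
      rw [h2]
      simp only [hr]
      rw [hlin]
      exact h1) hlip hbd (m := μ) (by
      have e1 : ∫ z, Wt.cl θ n (P z - y) * r (P z) =
          J * ∫ x, Wt.cl θ n (x - y) * r x := hPi fun x => Wt.cl θ n (x - y) * r x
      rw [e1, hPi r]
      have e2 : ∫ x, Wt.cl θ n (x - y) * r x = μ * ∫ x, r x := by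
        have := (hW.AA_mul hη (fun x => Wt.cl θ n (x - y)) y).symm
        rw [← hμ] at this
        rw [← Wt.tilt_eq] at this
        exact this
      rw [e2]; ring)
  have e1 : ∫ z, (Wt.cl θ n (P z - y) - μ) ^ 2 * r (P z) =
      J * VV w η (fun x => Wt.cl θ n (x - y)) y :=
    hPi fun x => (Wt.cl θ n (x - y) - μ) ^ 2 * r x
  have e2 : ∫ z, ‖fderiv ℝ (fun z => Wt.cl θ n (P z - y)) z‖ ^ 2 * r (P z) ≤
      K * (J * cv η w y) := by
    have e3 : J * cv η w y = ∫ z, r (P z) := (hPi r).symm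
    rw [e3, ← integral_const_mul]
    have hd : ∀ z, ‖fderiv ℝ (fun z => Wt.cl θ n (P z - y)) z‖ ^ 2 ≤ K := fun z => by
      have := norm_fderiv_le_of_lipschitz ℝ (x₀ := z) hlip
      rw [Real.coe_toNNReal _ (Real.sqrt_nonneg _)] at this
      calc ‖fderiv ℝ (fun z => Wt.cl θ n (P z - y)) z‖ ^ 2 ≤ (Real.sqrt K) ^ 2 :=
            pow_le_pow_left₀ (norm_nonneg _) this 2
        _ = K := Real.sq_sqrt hKnn
    have hdm : Measurable fun z => ‖fderiv ℝ (fun z => Wt.cl θ n (P z - y)) z‖ ^ 2 :=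
      (measurable_fderiv ℝ _).norm.pow_const 2
    refine integral_mono ((hPint r hri).bdd_mul (c := K) hdm.aestronglyMeasurable
      (Eventually.of_forall fun z => ?_)) ((hPint r hri).const_mul _) fun z => ?_
    · rw [Real.norm_eq_abs, abs_of_nonneg (by positivity)]
      exact hd z
    · exact mul_le_mul_of_nonneg_right (hd z) (hrnn _)
  rw [e1, one_div_one_div] at key
  have h3 : J * VV w η (fun x => Wt.cl θ n (x - y)) y ≤ J * (η * K * cv η w y) :=
    key.trans ((mul_le_mul_of_nonneg_left e2 hη.le).trans (le_of_eq (by ring)))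
  exact le_of_mul_le_mul_left h3 hJ

end Pool.Agent.Lib.MP_8d00da_gt.h97s
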