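import Mathlib
import Pool.Agent.Lib.MP_8d00da_gt.h97s.AniA

/-!
# Anisotropic bound for the gradient of the conditional expectation
-/

namespace Pool.Agent.Lib.MP_8d00da_gt.h97s

open MeasureTheory Set Filter
open Pool.Agent.Lib.MP_8d00da_gt.h25 Pool.Agent.Lib.MP_8d00da_gt.h42
open Pool.Agent.Lib.MP_8d00da_gt.h42s Pool.Agent.Lib.MP_8d00da_gt.h42o
open Pool.Agent.Lib.MP_8d00da_gt.h97r
open scoped Topology NNReal

set_option linter.unusedSectionVars false

variable {F : Type*} [NormedAddCommGroup F] [InnerProductSpace ℝ F]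
    [FiniteDimensional ℝ F] [MeasurableSpace F] [BorelSpace F]

variable {m j : ℕ} {b : OrthonormalBasis (Fin m ⊕ Fin j) ℝ F}

variable {B δ α : ℝ} {h0 : F → ℝ}

/-- Copy of `h25.Wt.cov_lin`, with `ani_var` instead of `poin`. -/
theorem ani_cov (H : BW B δ α h0) {η A : ℝ} (hη : 0 < η) {f : F → ℝ} (hf : Measurable f)
    (hA : ∀ x, |f x| ≤ A) (y θ : F) :
    (∫ x, (f x - AA (wg α b h0) η f y) * (inner ℝ (x - y) θ * (wg α b h0 x * h25.ker η (y - x)))) ^ 2
      ≤ VV (wg α b h0) η f y * (η * qa (1 + η * α) b θ * cv η (wg α b h0) y) := by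
  set h : F → ℝ := wg α b h0 with hh
  have Hw : Wt h B := wg_wt H
  set a := AA h η f y with ha
  have hZ := Hw.Z_pos hη y
  have i3 : Integrable fun x => h x * h25.ker η (y - x) := cv_integrable hη Hw.meas Hw.abs_le y
  have i4 : Integrable fun x => f x * (h x * h25.ker η (y - x)) := Hw.tilt_integrable hη hf hA y
  have z : ∫ x, (f x - a) * (h x * h25.ker η (y - x)) = 0 := by
    have e : (fun x => (f x - a) * (h x * h25.ker η (y - x))) =
        fun x => f x * (h x * h25.ker η (y - x)) - a * (h x * h25.ker η (y - x)) := by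
      ext x; ring
    rw [e, integral_sub i4 (i3.const_mul a), integral_const_mul, Wt.tilt_eq]
    have := Hw.AA_mul hη f y
    rw [← ha] at this
    have h2 : ∫ x, h x * h25.ker η (y - x) = cv η h y := rfl
    rw [h2, this, sub_self]
  have iA : Integrable fun x => (f x - a) ^ 2 * (h x * h25.ker η (y - x)) :=
    Hw.tilt_integrable hη ((hf.sub_const a).pow_const 2) (Wt.sq_bdd (Wt.sub_bdd hA)) y
  have iz : Integrable fun x => (f x - a) * (h x * h25.ker η (y - x)) :=
    Hw.tilt_integrable hη (hf.sub_const a) (Wt.sub_bdd hA) y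
  -- bound for each truncation, written for the shifted linear function
  have bound : ∀ n : ℕ,
      (∫ x, (f x - a) * (Wt.cl θ n (x - y) * (h x * h25.ker η (y - x)))) ^ 2 ≤
      VV h η f y * (η * qa (1 + η * α) b θ * cv η h y) := by
    intro n
    set l : F → ℝ := fun x => Wt.cl θ n (x - y) with hl
    have hlL : LipschitzWith ‖θ‖₊ l := by
      refine LipschitzWith.of_dist_le_mul fun x x' => ?_
      have := (Wt.cl_lip θ (n : ℝ)).dist_le_mul (x - y) (x' - y)
      rwa [dist_sub_right] at this
    have hlm : Measurable l := hlL.continuous.measurable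
    have hlA : ∀ x, |l x| ≤ n := fun x => Wt.cl_abs θ (Nat.cast_nonneg n) _
    set m' := AA h η l y with hm
    have il : Integrable fun x => (l x - m') ^ 2 * (h x * h25.ker η (y - x)) :=
      Hw.tilt_integrable hη ((hlm.sub_const m').pow_const 2) (Wt.sq_bdd (Wt.sub_bdd hlA)) y
    have ifl : Integrable fun x => ((f x - a) * (l x - m')) * (h x * h25.ker η (y - x)) :=
      Hw.tilt_integrable hη ((hf.sub_const a).mul (hlm.sub_const m'))
        (M := (A + |a|) * (n + |m'|))
        (fun x => by
          show |(f x - a) * (l x - m')| ≤ (A + |a|) * (n + |m'|)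
          rw [abs_mul]
          exact mul_le_mul (Wt.sub_bdd hA x) (Wt.sub_bdd hlA x) (abs_nonneg _)
            ((abs_nonneg _).trans (Wt.sub_bdd hA x))) y
    have e1 : ∫ x, (f x - a) * (l x * (h x * h25.ker η (y - x))) =
        ∫ x, ((f x - a) * (l x - m')) * (h x * h25.ker η (y - x)) := by
      have e2 : (fun x => (f x - a) * (l x * (h x * h25.ker η (y - x)))) =
          fun x => ((f x - a) * (l x - m')) * (h x * h25.ker η (y - x)) +
            m' * ((f x - a) * (h x * h25.ker η (y - x))) := by ext x; ring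
      rw [e2, integral_add ifl (iz.const_mul m'), integral_const_mul, z]; ring
    rw [e1]
    -- Cauchy-Schwarz with weights
    have hs : ∀ x, 0 ≤ h x * h25.ker η (y - x) := fun x =>
      mul_nonneg (Hw.nonneg x) (h25.ker_pos _).le
    set s : F → ℝ := fun x => Real.sqrt (h x * h25.ker η (y - x)) with hsdef
    have hss : ∀ x, s x ^ 2 = h x * h25.ker η (y - x) := fun x => Real.sq_sqrt (hs x)
    have cs := cs_int (μ := volume) (a := fun x => (f x - a) * s x)
      (b := fun x => (l x - m') * s x)
      (by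
        have : (fun x => ((f x - a) * s x) ^ 2) =
            fun x => (f x - a) ^ 2 * (h x * h25.ker η (y - x)) := by
          ext x; rw [mul_pow, hss]
        rw [this]; exact iA)
      (by
        have : (fun x => ((l x - m') * s x) ^ 2) =
            fun x => (l x - m') ^ 2 * (h x * h25.ker η (y - x)) := by
          ext x; rw [mul_pow, hss]
        rw [this]; exact il)
      (by
        have : (fun x => ((f x - a) * s x) * ((l x - m') * s x)) =
            fun x => ((f x - a) * (l x - m')) * (h x * h25.ker η (y - x)) := by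
          ext x; rw [← hss x]; ring
        rw [this]; exact ifl)
    have e3 : ∀ x, ((f x - a) * s x) * ((l x - m') * s x) =
        ((f x - a) * (l x - m')) * (h x * h25.ker η (y - x)) := fun x => by rw [← hss x]; ring
    have e4 : ∀ x, ((f x - a) * s x) ^ 2 = (f x - a) ^ 2 * (h x * h25.ker η (y - x)) :=
      fun x => by rw [mul_pow, hss]
    have e5 : ∀ x, ((l x - m') * s x) ^ 2 = (l x - m') ^ 2 * (h x * h25.ker η (y - x)) :=
      fun x => by rw [mul_pow, hss]
    simp_rw [e3, e4, e5] at cs
    refine cs.trans ?_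
    have h6 : ∫ x, (f x - a) ^ 2 * (h x * h25.ker η (y - x)) = VV h η f y := rfl
    have h7 : ∫ x, (l x - m') ^ 2 * (h x * h25.ker η (y - x)) = VV h η l y := rfl
    rw [h6, h7]
    exact mul_le_mul_of_nonneg_left (ani_var H hη y θ n) Hw.VV_nonneg
  -- limit
  have hlim : Tendsto
      (fun n : ℕ => ∫ x, (f x - a) * (Wt.cl θ n (x - y) * (h x * h25.ker η (y - x)))) atTop
      (𝓝 (∫ x, (f x - a) * (inner ℝ (x - y) θ * (h x * h25.ker η (y - x))))) := by
    have hdom : Integrable fun x =>
        |((f x - a) * h x) * (inner ℝ (x - y) θ * h25.ker η (y - x))| :=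
      (inner_ker_integrable hη ((hf.sub_const a).mul Hw.meas)
        (Hw.mul_bdd (Wt.sub_bdd hA)) y θ).abs
    refine tendsto_integral_of_dominated_convergence _ (fun n => ?_) hdom (fun n => ?_) ?_
    · have hm1 : Measurable fun x => Wt.cl θ n (x - y) :=
        ((Wt.cl_lip θ (n : ℝ)).continuous.comp
          (continuous_id.sub continuous_const)).measurable
      exact ((hf.sub_const a).mul (hm1.mul (Hw.meas.mul
        (h25.ker_cont.measurable.comp
          (measurable_const.sub measurable_id))))).aestronglyMeasurable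
    · refine Eventually.of_forall fun x => ?_
      rw [Real.norm_eq_abs]
      simp only [abs_mul]
      have h1 := Wt.cl_abs_le θ (Nat.cast_nonneg n) (x - y)
      have h2 : 0 ≤ |f x - a| * |h x| * |h25.ker η (y - x)| := by positivity
      nlinarith [mul_le_mul_of_nonneg_right h1 h2]
    · refine Eventually.of_forall fun x => ?_
      refine tendsto_const_nhds.congr' ?_
      obtain ⟨N, hN⟩ := exists_nat_ge |inner ℝ (x - y) θ|
      filter_upwards [eventually_ge_atTop N] with n hn
      have h1 : |inner ℝ (x - y) θ| ≤ n := hN.trans (by exact_mod_cast hn)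
      have h2 := _root_.abs_le.1 h1
      have : Wt.cl θ n (x - y) = inner ℝ (x - y) θ := by
        unfold Wt.cl
        rw [min_eq_left h2.2, max_eq_right h2.1]
      rw [this]
  exact le_of_tendsto' (hlim.pow 2) bound

/-- With `D = fderiv (AA w η f) y`, `a = 1 + η α` and
`θ = ∑ i, D (b (inl i)) • b (inl i) + a • ∑ l, D (b (inr l)) • b (inr l)`: `D θ = N` and
`qa a b θ = N` for `N = ∑ i, D (b (inl i)) ² + a * ∑ l, D (b (inr l)) ²`; by `Wt.AA_fderiv` and
`ani_cov`, `(N * cv) ² ≤ (1 / η) ² * VV * (η * N * cv)`. -/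
theorem ani_grad (H : BW B δ α h0) {η A : ℝ} (hη : 0 < η) {f : F → ℝ} (hf : Measurable f)
    (hA : ∀ x, |f x| ≤ A) (y : F) :
    ((∑ i, (fderiv ℝ (AA (wg α b h0) η f) y (b (Sum.inl i))) ^ 2) +
      (1 + η * α) * ∑ l, (fderiv ℝ (AA (wg α b h0) η f) y (b (Sum.inr l))) ^ 2) *
      cv η (wg α b h0) y ≤ (1 / η) * VV (wg α b h0) η f y := by
  have Hw : Wt (wg α b h0) B := wg_wt H
  have hZ := Hw.Z_pos hη y
  have hV : 0 ≤ VV (wg α b h0) η f y := Hw.VV_nonneg
  set D := fderiv ℝ (AA (wg α b h0) η f) y with hD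
  set a : ℝ := 1 + η * α with ha
  have hapos : 0 < a := by
    have := mul_pos hη H.apos
    rw [ha]; linarith
  set N : ℝ := (∑ i, (D (b (Sum.inl i))) ^ 2) + a * ∑ l, (D (b (Sum.inr l))) ^ 2 with hN
  have hN0 : 0 ≤ N := by
    rw [hN]
    have h1 : 0 ≤ ∑ i, (D (b (Sum.inl i))) ^ 2 := Finset.sum_nonneg fun i _ => sq_nonneg _
    have h2 : 0 ≤ ∑ l, (D (b (Sum.inr l))) ^ 2 := Finset.sum_nonneg fun i _ => sq_nonneg _
    have h3 := mul_nonneg hapos.le h2
    linarith
  set θ : F := (∑ i, D (b (Sum.inl i)) • b (Sum.inl i)) +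
    a • ∑ l, D (b (Sum.inr l)) • b (Sum.inr l) with hθ
  have hDθ : D θ = N := by
    rw [hθ, hN, map_add, map_smul, map_sum, map_sum]
    simp only [map_smul, smul_eq_mul]
    congr 1
    · exact Finset.sum_congr rfl fun i _ => (sq _).symm
    · congr 1
      exact Finset.sum_congr rfl fun i _ => (sq _).symm
  have horth := b.orthonormal
  have hin : ∀ i, inner ℝ (b (Sum.inl i)) θ = D (b (Sum.inl i)) := by
    intro i
    rw [hθ, inner_add_right, inner_smul_right, inner_sum, inner_sum]
    simp only [inner_smul_right]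
    rw [Finset.sum_eq_single i]
    · rw [orthonormal_iff_ite.1 horth, if_pos rfl, mul_one, Finset.sum_eq_zero, mul_zero, add_zero]
      intro l _
      rw [orthonormal_iff_ite.1 horth, if_neg (by simp), mul_zero]
    · intro i' _ hi'
      rw [orthonormal_iff_ite.1 horth, if_neg (by simpa using fun h => hi' h.symm), mul_zero]
    · intro hi; exact absurd (Finset.mem_univ _) hi
  have hil : ∀ l, inner ℝ (b (Sum.inr l)) θ = a * D (b (Sum.inr l)) := by
    intro l
    rw [hθ, inner_add_right, inner_smul_right, inner_sum, inner_sum]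
    simp only [inner_smul_right]
    rw [Finset.sum_eq_zero, zero_add, Finset.sum_eq_single l]
    · rw [orthonormal_iff_ite.1 horth, if_pos rfl, mul_one]
    · intro i' _ hi'
      rw [orthonormal_iff_ite.1 horth, if_neg (by simpa using fun h => hi' h.symm), mul_zero]
    · intro hi; exact absurd (Finset.mem_univ _) hi
    · intro i _
      rw [orthonormal_iff_ite.1 horth, if_neg (by simp), mul_zero]
  have hqa : qa a b θ = N := by
    unfold qa
    rw [hN]
    simp only [hin, hil]
    congr 1
    rw [Finset.mul_sum, Finset.mul_sum]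
    refine Finset.sum_congr rfl fun l _ => ?_
    field_simp
  have h1 := Hw.AA_fderiv hη hf hA y θ
  have h2 := ani_cov H hη hf hA y θ (b := b)
  rw [← hD, hDθ] at h1
  rw [← ha, hqa] at h2
  have h3 : (N * cv η (wg α b h0) y) ^ 2 ≤
      (1 / η) ^ 2 * (VV (wg α b h0) η f y * (η * N * cv η (wg α b h0) y)) := by
    rw [h1, mul_pow]
    exact mul_le_mul_of_nonneg_left h2 (by positivity)
  rcases hN0.eq_or_lt with h0N | hNpos
  · rw [← h0N, zero_mul]
    positivity
  · have hpos : 0 < N * cv η (wg α b h0) y := mul_pos hNpos hZ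
    have h4 : (1 / η) ^ 2 * (VV (wg α b h0) η f y * (η * N * cv η (wg α b h0) y)) =
        ((1 / η) * VV (wg α b h0) η f y) * (N * cv η (wg α b h0) y) := by
      field_simp
    rw [h4, sq] at h3
    exact le_of_mul_le_mul_right h3 hpos

end Pool.Agent.Lib.MP_8d00da_gt.h97s
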