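import Mathlib
import Pool.Agent.Lib.MP_8d00da_gt.h97s.AniB

/-!
# The gain in the directions of the fixed space
-/

namespace Pool.Agent.Lib.MP_8d00da_gt.h97s

open MeasureTheory Set Filter
open Pool.Agent.Lib.MP_8d00da_gt.h25 Pool.Agent.Lib.MP_8d00da_gt.h42
open Pool.Agent.Lib.MP_8d00da_gt.h42s Pool.Agent.Lib.MP_8d00da_gt.h42o
open Pool.Agent.Lib.MP_8d00da_gt.h97r
open scoped Topology NNReal

set_option linter.unusedSectionVars false

variable {F : Type*} [NormedAddCommGroup F] [InnerProductSpace ℝ F]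
    [FiniteDimensional ℝ F] [MeasurableSpace F] [BorelSpace F]

variable {m j : ℕ} {b : OrthonormalBasis (Fin m ⊕ Fin j) ℝ F}

variable {B δ α : ℝ} {h0 : F → ℝ}

/-- Integrate `ani_grad` (`‖D‖ ² = ∑ i + ∑ l` by `norm_sq_fderiv b D`, `Fintype.sum_sum_type`), and
use `step_c`. Compare `step_e` and `step_e'` in `h25/Chain.lean`. -/
theorem ani_energy (H : BW B δ α h0) {η : ℝ} (hη : 0 < η) {f : F → ℝ} (hf : BL f) :
    (∫ y, ‖fderiv ℝ (AA (wg α b h0) η f) y‖ ^ 2 * cv η (wg α b h0) y) +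
      η * α * ∑ l, ∫ y, (fderiv ℝ (AA (wg α b h0) η f) y (b (Sum.inr l))) ^ 2 *
        cv η (wg α b h0) y ≤ (∫ z : F, h25.ker η z) * En (wg α b h0) f := by
  obtain ⟨⟨L, hL⟩, A, hA⟩ := hf
  have hW := wg_wt (α := α) (b := b) H
  have hi := wg_int (α := α) (b := b) H
  set w : F → ℝ := wg α b h0 with hw
  have hfm : Measurable f := hL.continuous.measurable
  have hA0 : 0 ≤ A := (abs_nonneg _).trans (hA 0)
  have hgL := hW.AA_lip hη hfm hA0 hA
  have hdm : Measurable fun x => ‖fderiv ℝ (AA w η f) x‖ ^ 2 :=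
    (measurable_fderiv ℝ _).norm.pow_const 2
  set M : ℝ≥0 := Real.toNNReal (A * Real.sqrt (1 / η)) with hM
  have hul : ∀ (l : Fin j) (y : F), |fderiv ℝ (AA w η f) y (b (Sum.inr l))| ≤ M := by
    intro l y
    have h1 := (fderiv ℝ (AA w η f) y).le_opNorm (b (Sum.inr l))
    rw [b.orthonormal.1 _, mul_one, Real.norm_eq_abs] at h1
    exact h1.trans (norm_fderiv_le_of_lipschitz ℝ hgL)
  have i1 : Integrable fun y => ‖fderiv ℝ (AA w η f) y‖ ^ 2 * cv η w y :=
    fub_int hη hi hW.meas hdm (sq_fderiv_bdd hgL)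
  have i2 : ∀ l : Fin j, Integrable fun y =>
      (fderiv ℝ (AA w η f) y (b (Sum.inr l))) ^ 2 * cv η w y := fun l =>
    fub_int hη hi hW.meas ((measurable_fderiv_apply_const ℝ _ _).pow_const 2) (Wt.sq_bdd (hul l))
  have i3 := VV_int hW hi hη hL hA
  have h1 : (∫ y, ‖fderiv ℝ (AA w η f) y‖ ^ 2 * cv η w y) +
      η * α * ∑ l, ∫ y, (fderiv ℝ (AA w η f) y (b (Sum.inr l))) ^ 2 * cv η w y ≤
      (1 / η) * ∫ y, VV w η f y := by
    rw [← integral_finsetSum _ fun l _ => i2 l, ← integral_const_mul, ← integral_const_mul,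
      ← integral_add i1 ((integrable_finsetSum _ fun l _ => i2 l).const_mul _)]
    refine integral_mono (i1.add ((integrable_finsetSum _ fun l _ => i2 l).const_mul _))
      (i3.const_mul _) fun y => ?_
    have h2 := ani_grad (α := α) (b := b) H hη hfm hA y
    rw [← hw] at h2
    have h3 := norm_sq_fderiv b (fderiv ℝ (AA w η f) y)
    rw [Fintype.sum_sum_type] at h3
    simp only
    rw [h3, ← Finset.sum_mul]
    refine le_trans (le_of_eq ?_) h2
    ring
  refine h1.trans ?_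
  have h2 := mul_le_mul_of_nonneg_left (step_c hW hi hη hL hA) (by positivity : 0 ≤ 1 / η)
  refine h2.trans (le_of_eq ?_)
  field_simp

/-- Copy of `h42s.hess_bound` (frame `b`, `c = 1`) with `ani_energy` instead of `step_e'`:
with `g = AA w η f`, `u l = fderiv g · (b (inr l))`,
`∫ (u l) ² * cv η w = ∫ w * cv (u l ²) ≥ (∫ ker) * ∫ (SS η (u l)) ² * w` (`fub_eq`, `VV_eq`,
`VV ≥ 0`), and `SS η (u l) = fderiv (RT w η f) · (b (inr l))` (`SS_fderiv`). -/
theorem hess_gain (H : BW B δ α h0) {η : ℝ} (hη : 0 < η) {f : F → ℝ} (hf : BL f) :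
    (∑ i, En (wg α b h0) fun x => fderiv ℝ (RT (wg α b h0) η f) x (b i)) +
      α * ∑ l, ∫ x, (fderiv ℝ (RT (wg α b h0) η f) x (b (Sum.inr l))) ^ 2 * wg α b h0 x ≤
      (1 / η) * (En (wg α b h0) f - En (wg α b h0) (RT (wg α b h0) η f)) := by
  have hAE := ani_energy (α := α) (b := b) H hη hf
  obtain ⟨⟨L, hL⟩, A, hA⟩ := hf
  have hW := wg_wt (α := α) (b := b) H
  have hi := wg_int (α := α) (b := b) H
  have hα := H.apos
  set h : F → ℝ := wg α b h0 with hh
  have hfm : Measurable f := hL.continuous.measurable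
  have hA0 : 0 ≤ A := (abs_nonneg _).trans (hA 0)
  set g := AA h η f with hg
  have hgL := hW.AA_lip hη hfm hA0 hA
  rw [← hg] at hgL
  have hgA : ∀ y, |g y| ≤ A := hW.AA_abs_le hη hfm hA
  have hgd : Differentiable ℝ g := hW.AA_diff hη hfm hA
  have hgm : Measurable g := hgL.continuous.measurable
  set c0 : ℝ := ∫ z : F, h25.ker η z with hc0d
  have hc0 : 0 < c0 := ker_int_pos hη
  set f1 := RT h η f with hf1
  have hf1d : Differentiable ℝ f1 := wt_one.AA_diff hη hgm hgA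
  set L' : ℝ≥0 := Real.toNNReal (A * Real.sqrt (1 / η)) with hL'
  set u : Fin m ⊕ Fin j → F → ℝ := fun i y => fderiv ℝ g y (b i) with hu
  have hum : ∀ i, Measurable (u i) := fun i => measurable_fderiv_apply_const ℝ g (b i)
  have huL : ∀ i y, |u i y| ≤ L' := by
    intro i y
    have h1 := (fderiv ℝ g y).le_opNorm (b i)
    rw [b.orthonormal.1 i, mul_one, Real.norm_eq_abs] at h1
    exact h1.trans (norm_fderiv_le_of_lipschitz ℝ hgL)
  have hM0 : 0 ≤ (L' : ℝ) := L'.2
  have hfi : ∀ i, (fun x => fderiv ℝ f1 x (b i)) = h25.SS η (u i) := by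
    intro i; ext x
    exact SS_fderiv hη hgL hgA hgd x (b i)
  have hsA : ∀ i x, |h25.SS η (u i) x| ≤ L' := fun i => wt_one.AA_abs_le hη (hum i) (huL i)
  have hsm : ∀ i, Measurable (h25.SS η (u i)) := fun i =>
    (wt_one.AA_diff hη (hum i) (huL i)).continuous.measurable
  have hsL : ∀ i, LipschitzWith (Real.toNNReal (L' * Real.sqrt (1 / η))) (h25.SS η (u i)) :=
    fun i => wt_one.AA_lip hη (hum i) hM0 (huL i)
  -- the conditional variances
  have hVe : ∀ i x, VV (fun _ => 1) η (u i) x =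
      cv η (fun y => u i y ^ 2) x - c0 * h25.SS η (u i) x ^ 2 := by
    intro i x
    have h1 := wt_one.VV_eq hη (hum i) (huL i) x
    simp only [mul_one] at h1
    rw [cv_one, ← hc0d] at h1
    have h3 : AA (fun _ => 1) η (u i) x = h25.SS η (u i) x := rfl
    rw [h3] at h1
    rw [h1]; ring
  have hV0 : ∀ i x, 0 ≤ VV (fun _ => 1) η (u i) x := fun i x => wt_one.VV_nonneg
  have ia : ∀ i, Integrable fun x => h x * cv η (fun y => u i y ^ 2) x := fun i =>
    fub_int' hη hi hW.meas ((hum i).pow_const 2) (Wt.sq_bdd (huL i))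
  have ib : ∀ i, Integrable fun x => h25.SS η (u i) x ^ 2 * h x := fun i =>
    bdd_int hi ((hsm i).pow_const 2) (Wt.sq_bdd (hsA i))
  have iV : ∀ i, Integrable fun x => VV (fun _ => 1) η (u i) x * h x := by
    intro i
    refine ((ia i).sub ((ib i).const_mul c0)).congr (Eventually.of_forall fun x => ?_)
    simp only [Pi.sub_apply]
    rw [hVe i x]; ring
  have hEnV : ∀ i, c0 * En h (h25.SS η (u i)) ≤ (1 / η) * ∫ x, VV (fun _ => 1) η (u i) x * h x := by
    intro i
    have ig : Integrable fun x => ‖fderiv ℝ (h25.SS η (u i)) x‖ ^ 2 * h x :=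
      bdd_int hi ((measurable_fderiv ℝ _).norm.pow_const 2) (sq_fderiv_bdd (hsL i))
    unfold En
    rw [← integral_const_mul, ← integral_const_mul]
    refine integral_mono (ig.const_mul _) ((iV i).const_mul _) fun x => ?_
    have h1 := wt_one.grad_AA hη (hum i) (huL i) x
    rw [cv_one, ← hc0d] at h1
    have h2 := mul_le_mul_of_nonneg_right h1 (hW.nonneg x)
    show c0 * (‖fderiv ℝ (AA (fun _ => 1) η (u i)) x‖ ^ 2 * h x) ≤
      1 / η * (VV (fun _ => 1) η (u i) x * h x)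
    calc c0 * (‖fderiv ℝ (AA (fun _ => 1) η (u i)) x‖ ^ 2 * h x)
        = ‖fderiv ℝ (AA (fun _ => 1) η (u i)) x‖ ^ 2 * c0 * h x := by ring
      _ ≤ 1 / η * VV (fun _ => 1) η (u i) x * h x := h2
      _ = _ := by ring
  have e0 : ∀ i, (∫ x, VV (fun _ => 1) η (u i) x * h x) + c0 * ∫ x, h25.SS η (u i) x ^ 2 * h x =
      ∫ x, h x * cv η (fun y => u i y ^ 2) x := by
    intro i
    rw [← integral_const_mul, ← integral_add (iV i) ((ib i).const_mul _)]
    refine integral_congr_ae (Eventually.of_forall fun x => ?_)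
    simp only
    rw [hVe i x]; ring
  -- the energy of `f1`
  have hE1 : En h f1 = ∑ i, ∫ x, h25.SS η (u i) x ^ 2 * h x := by
    unfold En
    rw [← integral_finsetSum _ fun i _ => ib i]
    refine integral_congr_ae (Eventually.of_forall fun x => ?_)
    simp only
    rw [← Finset.sum_mul, norm_sq_fderiv b]
    congr 1
    refine Finset.sum_congr rfl fun i _ => ?_
    rw [← congrFun (hfi i) x]
  have hdm : Measurable fun x => ‖fderiv ℝ g x‖ ^ 2 := (measurable_fderiv ℝ _).norm.pow_const 2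
  have hG : ∫ y, ‖fderiv ℝ g y‖ ^ 2 * cv η h y =
      (∑ i, ∫ x, VV (fun _ => 1) η (u i) x * h x) + c0 * En h f1 := by
    rw [hE1, Finset.mul_sum, ← Finset.sum_add_distrib, Finset.sum_congr rfl fun i _ => e0 i]
    have e4 : ∀ i, ∫ x, h x * cv η (fun y => u i y ^ 2) x = ∫ y, u i y ^ 2 * cv η h y := fun i =>
      (fub_eq hη hi hW.meas ((hum i).pow_const 2) (Wt.sq_bdd (huL i))).symm
    rw [Finset.sum_congr rfl fun i _ => e4 i, ← integral_finsetSum _ fun i _ =>
      fub_int hη hi hW.meas ((hum i).pow_const 2) (Wt.sq_bdd (huL i))]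
    refine integral_congr_ae (Eventually.of_forall fun y => ?_)
    simp only
    rw [← Finset.sum_mul, norm_sq_fderiv b]
  set V : ℝ := ∑ i, ∫ x, VV (fun _ => 1) η (u i) x * h x with hV
  -- the gain
  have hgain : ∀ l : Fin j, c0 * ∫ x, (fderiv ℝ f1 x (b (Sum.inr l))) ^ 2 * h x ≤
      ∫ y, (fderiv ℝ g y (b (Sum.inr l))) ^ 2 * cv η h y := by
    intro l
    have h1 : ∫ y, (fderiv ℝ g y (b (Sum.inr l))) ^ 2 * cv η h y =
        ∫ x, h x * cv η (fun y => u (Sum.inr l) y ^ 2) x :=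
      fub_eq hη hi hW.meas ((hum (Sum.inr l)).pow_const 2) (Wt.sq_bdd (huL (Sum.inr l)))
    have h2 : ∫ x, (fderiv ℝ f1 x (b (Sum.inr l))) ^ 2 * h x =
        ∫ x, h25.SS η (u (Sum.inr l)) x ^ 2 * h x := by
      refine integral_congr_ae (Eventually.of_forall fun x => ?_)
      simp only
      rw [← congrFun (hfi (Sum.inr l)) x]
    rw [h1, h2, ← e0 (Sum.inr l)]
    have h3 : 0 ≤ ∫ x, VV (fun _ => 1) η (u (Sum.inr l)) x * h x :=
      integral_nonneg fun x => mul_nonneg (hV0 _ x) (hW.nonneg x)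
    linarith
  have hgs : c0 * ∑ l, ∫ x, (fderiv ℝ f1 x (b (Sum.inr l))) ^ 2 * h x ≤
      ∑ l, ∫ y, (fderiv ℝ g y (b (Sum.inr l))) ^ 2 * cv η h y := by
    rw [Finset.mul_sum]
    exact Finset.sum_le_sum fun l _ => hgain l
  have hsumV : c0 * ∑ i, En h (h25.SS η (u i)) ≤ (1 / η) * V := by
    rw [Finset.mul_sum, hV, Finset.mul_sum]
    exact Finset.sum_le_sum fun i _ => hEnV i
  have e5 : ∑ i, En h (fun x => fderiv ℝ f1 x (b i)) = ∑ i, En h (h25.SS η (u i)) :=
    Finset.sum_congr rfl fun i _ => by rw [hfi i]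
  rw [e5]
  set D : ℝ := ∑ l, ∫ x, (fderiv ℝ f1 x (b (Sum.inr l))) ^ 2 * h x with hD
  have h4 : η * α * (c0 * D) ≤
      η * α * ∑ l, ∫ y, (fderiv ℝ g y (b (Sum.inr l))) ^ 2 * cv η h y :=
    mul_le_mul_of_nonneg_left hgs (by positivity)
  have hVle : V ≤ c0 * (En h f - En h f1 - η * α * D) := by
    rw [hG] at hAE
    have h5 : c0 * (En h f - En h f1 - η * α * D) =
        c0 * En h f - c0 * En h f1 - η * α * (c0 * D) := by ring
    rw [h5]
    linarith
  refine le_of_mul_le_mul_left (a := c0) ?_ hc0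
  have h6 : (1 / η) * V ≤ (1 / η) * (c0 * (En h f - En h f1 - η * α * D)) :=
    mul_le_mul_of_nonneg_left hVle (by positivity)
  have h7 : (1 / η) * (c0 * (En h f - En h f1 - η * α * D)) =
      c0 * (1 / η * (En h f - En h f1)) - c0 * (α * D) := by
    field_simp
  rw [h7] at h6
  have h8 : c0 * (∑ i, En h (h25.SS η (u i)) + α * D) =
      c0 * ∑ i, En h (h25.SS η (u i)) + c0 * (α * D) := by ring
  rw [h8]
  linarith

end Pool.Agent.Lib.MP_8d00da_gt.h97s
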