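import Mathlib
import Pool.Agent.Lib.MP_8d00da_gt.h97r.RE2
import Pool.Agent.Lib.MP_8d00da_gt.h97r.RAv

/-!
# Averages over a cyclic group of symmetries, bounded log-concave weights
-/

namespace Pool.Agent.Lib.MP_8d00da_gt.h97s

open MeasureTheory Set Filter
open Pool.Agent.Lib.MP_8d00da_gt.h25 Pool.Agent.Lib.MP_8d00da_gt.h42
open Pool.Agent.Lib.MP_8d00da_gt.h42s Pool.Agent.Lib.MP_8d00da_gt.h42o
open Pool.Agent.Lib.MP_8d00da_gt.h97r
open scoped Topology NNReal

set_option linter.unusedSectionVars false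

variable {F : Type*} [NormedAddCommGroup F] [InnerProductSpace ℝ F]
    [FiniteDimensional ℝ F] [MeasurableSpace F] [BorelSpace F]

variable {w : F → ℝ} {B : ℝ} {g : F ≃ₗᵢ[ℝ] F} {N : ℕ}

private lemma kav_sum {ι : Type*} [Fintype ι] (b : OrthonormalBasis ι ℝ F) (A B : F →L[ℝ] ℝ) :
    ∑ i, A (b i) * B (b i) = (‖A + B‖ ^ 2 - ‖A - B‖ ^ 2) / 4 := by
  rw [norm_sq_fderiv b, norm_sq_fderiv b, ← Finset.sum_sub_distrib, Finset.sum_div]
  refine Finset.sum_congr rfl fun i _ => ?_
  rw [ContinuousLinearMap.add_apply, ContinuousLinearMap.sub_apply]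
  ring

private lemma kav_int (hi : Integrable w) {f : F → ℝ} (hf : BL f) :
    Integrable fun x => f x * w x := by
  obtain ⟨⟨K, hK⟩, A, hA⟩ := hf
  exact bdd_int hi hK.continuous.measurable hA

private lemma kav_intD (hi : Integrable w) {f g : F → ℝ} (hf : BL f) (hg : BL g) (v u : F) :
    Integrable fun x => fderiv ℝ f x v * fderiv ℝ g x u * w x := by
  obtain ⟨⟨K, hK⟩, -⟩ := hf
  obtain ⟨⟨K', hK'⟩, -⟩ := hg
  refine bdd_int hi ((measurable_fderiv_apply_const ℝ f v).mul
    (measurable_fderiv_apply_const ℝ g u)) (M := (K * ‖v‖) * (K' * ‖u‖)) fun x => ?_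
  rw [abs_mul]
  have h1 : |fderiv ℝ f x v| ≤ K * ‖v‖ := by
    rw [← Real.norm_eq_abs]
    exact ((fderiv ℝ f x).le_opNorm v).trans
      (mul_le_mul_of_nonneg_right (norm_fderiv_le_of_lipschitz ℝ hK) (norm_nonneg _))
  have h2 : |fderiv ℝ g x u| ≤ K' * ‖u‖ := by
    rw [← Real.norm_eq_abs]
    exact ((fderiv ℝ g x).le_opNorm u).trans
      (mul_le_mul_of_nonneg_right (norm_fderiv_le_of_lipschitz ℝ hK') (norm_nonneg _))
  exact mul_le_mul h1 h2 (abs_nonneg _) (by positivity)

private lemma kav_intD' (hi : Integrable w) {f g : F → ℝ} (hf : BL f) (hg : BL g) {ι : Type*}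
    [Fintype ι] (b : OrthonormalBasis ι ℝ F) :
    Integrable fun x => (∑ i, fderiv ℝ f x (b i) * fderiv ℝ g x (b i)) * w x := by
  simp only [Finset.sum_mul]
  exact integrable_finset_sum _ fun i _ => kav_intD hi hf hg _ _

private lemma kav_basis (hi : Integrable w) {f g : F → ℝ} (hf : BL f) (hg : BL g) {ι : Type*}
    [Fintype ι] (b : OrthonormalBasis ι ℝ F) :
    E2 w f g = ∑ i, ∫ x, fderiv ℝ f x (b i) * fderiv ℝ g x (b i) * w x := by
  rw [← integral_finset_sum _ fun i _ => kav_intD hi hf hg _ _]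
  unfold E2
  refine integral_congr_ae (Eventually.of_forall fun x => ?_)
  simp only
  rw [kav_sum, ← kav_sum b, Finset.sum_mul]

private lemma kav_add (hi : Integrable w) {f g k : F → ℝ} (hf : BL f) (hg : BL g) (hk : BL k)
    (s : ℝ) : E2 w f (fun x => g x + s * k x) = E2 w f g + s * E2 w f k := by
  have i1 := kav_intD' hi hf hg (stdOrthonormalBasis ℝ F)
  have i2 := kav_intD' hi hf hk (stdOrthonormalBasis ℝ F)
  unfold E2
  rw [← integral_const_mul, ← integral_add i1 (i2.const_mul s)]
  obtain ⟨⟨K, hK⟩, -⟩ := hg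
  obtain ⟨⟨K', hK'⟩, -⟩ := hk
  refine integral_congr_ae ?_
  filter_upwards [hK.ae_differentiableAt (μ := volume), hK'.ae_differentiableAt (μ := volume)]
    with x h1 h2
  have h3 : fderiv ℝ (fun x => g x + s * k x) x = fderiv ℝ g x + s • fderiv ℝ k x := by
    have h4 : fderiv ℝ (fun x => s * k x) x = s • fderiv ℝ k x := fderiv_const_mul h2 s
    rw [← h4]
    exact fderiv_add h1 (h2.const_mul s)
  rw [h3]
  simp only [ContinuousLinearMap.add_apply, ContinuousLinearMap.smul_apply, smul_eq_mul]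
  rw [← mul_assoc, Finset.mul_sum, ← add_mul, ← Finset.sum_add_distrib]
  congr 1
  refine Finset.sum_congr rfl fun i _ => ?_
  ring

private lemma kav_En (hi : Integrable w) {f g : F → ℝ} (hf : BL f) (hg : BL g) (s : ℝ)
    (hb : BL fun x => f x + s * g x) :
    En w (fun x => f x + s * g x) = En w f + 2 * s * E2 w f g + s ^ 2 * En w g := by
  rw [← E2_self, kav_add hi hb hf hg, E2_comm w _ f, E2_comm w _ g, kav_add hi hf hf hg,
    kav_add hi hg hf hg, E2_self, E2_self, E2_comm w g f]
  ring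

private lemma kav_fderiv (T : F ≃ₗᵢ[ℝ] F) (f : F → ℝ) (x v : F) :
    fderiv ℝ (fun x => f (T x)) x v = fderiv ℝ f (T x) (T v) := by
  have h1 := T.toContinuousLinearEquiv.comp_right_fderiv (f := f) (x := x)
  have h2 : (fun x => f (T x)) = f ∘ T.toContinuousLinearEquiv := rfl
  rw [h2, h1]
  rfl

private lemma kav_cv (T : F ≃ₗᵢ[ℝ] F) (Φ : F → ℝ) : ∫ x, Φ (T x) = ∫ x, Φ x :=
  (T.measurePreserving).integral_comp' (f := T.toHomeomorph.toMeasurableEquiv) Φ

private lemma kav_zero (h u : F → ℝ) : E2 h u (fun _ => 0) = 0 := by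
  unfold E2
  simp

private lemma kav_E2_sum (hi : Integrable w) {u : F → ℝ} (hu : BL u) {z : ℕ → F → ℝ}
    (hz : ∀ k, BL (z k)) (n : ℕ) :
    E2 w u (fun x => ∑ k ∈ Finset.range n, z k x) = ∑ k ∈ Finset.range n, E2 w u (z k) := by
  induction n with
  | zero => simpa using kav_zero w u
  | succ n ih =>
      have h1 : (fun x => ∑ k ∈ Finset.range (n + 1), z k x) =
          fun x => (∑ k ∈ Finset.range n, z k x) + 1 * z n x := by
        funext x
        rw [Finset.sum_range_succ, one_mul]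
      rw [h1, kav_add hi hu (BL.sum _ fun i _ => hz i) (hz n), ih, Finset.sum_range_succ,
        one_mul]

private lemma kav_comp (hi : Integrable w) (T : F ≃ₗᵢ[ℝ] F) (hT : ∀ x, w (T x) = w x)
    {f k : F → ℝ} (hf : BL f) (hk : BL k) :
    E2 w (fun x => f (T x)) (fun x => k (T x)) = E2 w f k := by
  have hf' : BL fun x => f (T x) := hf.comp T.lipschitz
  have hk' : BL fun x => k (T x) := hk.comp T.lipschitz
  let b := stdOrthonormalBasis ℝ F
  rw [kav_basis hi hf' hk' b, kav_basis hi hf hk (b.map T)]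
  refine Finset.sum_congr rfl fun i _ => ?_
  rw [← kav_cv T (fun x => fderiv ℝ f x ((b.map T) i) * fderiv ℝ k x ((b.map T) i) * w x)]
  refine integral_congr_ae (Eventually.of_forall fun x => ?_)
  simp only
  rw [kav_fderiv, kav_fderiv, OrthonormalBasis.map_apply, hT]

private lemma kav_orth (S : Sg w g N) (hi : Integrable w) {u z : F → ℝ} (hu : BL u) (hz : BL z)
    (hu1 : Inv g u) (hz1 : Zav g N z) : E2 w u z = 0 := by
  have h1 : ∀ k, E2 w u (fun x => z ((g ^ k) x)) = E2 w u z := by
    intro k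
    have h2 := kav_comp hi (g ^ k) (S.pow k) hu hz
    rw [← h2]
    congr 1
    funext x
    exact (hu1.pow k x).symm
  have h3 := kav_E2_sum hi hu (z := fun k x => z ((g ^ k) x))
    (fun k => hz.comp (g ^ k).lipschitz) N
  have h4 : (fun x => ∑ k ∈ Finset.range N, z ((g ^ k) x)) = fun _ => 0 := funext hz1
  simp only [h1] at h3
  rw [h4, kav_zero, Finset.sum_const, Finset.card_range, nsmul_eq_mul] at h3
  have h5 : (N : ℝ) ≠ 0 := Nat.cast_ne_zero.2 S.Npos.ne'
  rcases mul_eq_zero.1 h3.symm with h6 | h6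
  · exact absurd h6 h5
  · exact h6

/-- `h97r/RAvE.lean`, `Sg.sq_split`, for `Wt` (use `Sg.orth`, `Sg.av_inv`, `Sg.sub_zav`, `av_BL`). -/
theorem sq_splitW (S : Sg w g N) (H : Wt w B) (hi : Integrable w) {f : F → ℝ} (hf : BL f) :
    ∫ x, f x ^ 2 * w x = (∫ x, av g N f x ^ 2 * w x) + ∫ x, (f x - av g N f x) ^ 2 * w x := by
  have ha : BL (av g N f) := av_BL hf
  have hz : BL fun x => f x - av g N f x := hf.sub ha
  have h0 := S.orth hi H.meas ha hz (S.av_inv f) (S.sub_zav f)
  have i1 := kav_int hi (ha.mul ha)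
  have i2 := kav_int hi (hz.mul hz)
  have i3 := kav_int hi (ha.mul hz)
  have h1 : ∀ x, f x ^ 2 * w x = (av g N f x * av g N f x * w x +
      2 * (av g N f x * (f x - av g N f x) * w x)) +
      (f x - av g N f x) * (f x - av g N f x) * w x := fun x => by ring
  have h2 : ∀ x, av g N f x ^ 2 * w x = av g N f x * av g N f x * w x := fun x => by ring
  have h3 : ∀ x, (f x - av g N f x) ^ 2 * w x =
      (f x - av g N f x) * (f x - av g N f x) * w x := fun x => by ring
  simp only [h1, h2, h3]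
  have i4 : Integrable fun x => av g N f x * av g N f x * w x +
      2 * (av g N f x * (f x - av g N f x) * w x) := i1.add (i3.const_mul 2)
  rw [integral_add i4 i2, integral_add i1 (i3.const_mul 2), integral_const_mul, h0]
  ring

/-- `h97r/RAvE.lean`, `Sg.En_split`, for `Wt`: the proofs of `E2_comp`, `Sg.orthE` and
`Sg.En_split` use only that `w` is bounded, nonnegative, measurable and integrable (the
expansion of `En` is proved there for bounded Lipschitz functions, which are differentiable almost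
everywhere). Here it is enough to treat differentiable functions. -/
theorem En_splitW (S : Sg w g N) (H : Wt w B) (hi : Integrable w) {f : F → ℝ} (hf : BL f)
    (hd : Differentiable ℝ f) :
    En w f = En w (av g N f) + En w (fun x => f x - av g N f x) := by
  have ha : BL (av g N f) := av_BL hf
  have hz : BL fun x => f x - av g N f x := hf.sub ha
  have h0 := kav_orth S hi ha hz (S.av_inv f) (S.sub_zav f)
  have h2 : (fun x => av g N f x + 1 * (f x - av g N f x)) = f := by
    funext x
    ring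
  have h1 := kav_En hi ha hz 1 (by rw [h2]; exact hf)
  rw [h2, h0] at h1
  rw [h1]
  ring

theorem av_mean (S : Sg w g N) (H : Wt w B) (hi : Integrable w) {f : F → ℝ} (hf : BL f) :
    ∫ x, av g N f x * w x = ∫ x, f x * w x := by
  have ha : BL (av g N f) := av_BL hf
  have hz : BL fun x => f x - av g N f x := hf.sub ha
  have h0 := S.zav_mean hi H.meas hz (S.sub_zav f)
  have h1 : ∀ x, (f x - av g N f x) * w x = f x * w x - av g N f x * w x := fun x => by ring
  simp only [h1] at h0
  rw [integral_sub (kav_int hi hf) (kav_int hi ha)] at h0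
  linarith

end Pool.Agent.Lib.MP_8d00da_gt.h97s
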