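import Mathlib
import Pool.Agent.Lib.MP_8d00da_gt.h97s.KDefs

/-!
# Decomposition into moved vectors
-/

namespace Pool.Agent.Lib.MP_8d00da_gt.h97s

open MeasureTheory Set Filter
open Pool.Agent.Lib.MP_8d00da_gt.h25 Pool.Agent.Lib.MP_8d00da_gt.h42
open Pool.Agent.Lib.MP_8d00da_gt.h42s Pool.Agent.Lib.MP_8d00da_gt.h42o
open Pool.Agent.Lib.MP_8d00da_gt.h97r
open scoped Topology NNReal

set_option linter.unusedSectionVars false

variable {F : Type*} [NormedAddCommGroup F] [InnerProductSpace ℝ F]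
    [FiniteDimensional ℝ F] [MeasurableSpace F] [BorelSpace F]

variable {h : F → ℝ} {k m j : ℕ} {b : OrthonormalBasis (Fin m ⊕ Fin j) ℝ F}

/-- The moved vectors. -/
private def kd_S (h : F → ℝ) (k : ℕ) : Set F :=
  {w | ∃ (g : F ≃ₗᵢ[ℝ] F) (N : ℕ), g ∈ Ss h k ∧ 0 < N ∧ (∀ x, (g ^ N) x = x) ∧
    ∑ n ∈ Finset.range N, (g ^ n) w = 0}

private lemma kd_smul {c : ℝ} {w : F} (hw : w ∈ kd_S h k) : c • w ∈ kd_S h k := by
  obtain ⟨g, N, h1, h2, h3, h4⟩ := hw
  refine ⟨g, N, h1, h2, h3, ?_⟩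
  simp only [map_smul]
  rw [← Finset.smul_sum, h4, smul_zero]

private lemma kd_diff {g : F ≃ₗᵢ[ℝ] F} (hg : g ∈ Ss h k) (x : F) : g x - x ∈ kd_S h k := by
  obtain ⟨N, hN, hx⟩ := hg.2.1
  refine ⟨g, N, hg, hN, hx, ?_⟩
  have h1 : ∀ n : ℕ, (g ^ n) (g x - x) = (g ^ (n + 1)) x - (g ^ n) x := by
    intro n
    rw [map_sub, pow_succ]
    rfl
  simp only [h1]
  rw [Finset.sum_range_sub (fun n => (g ^ n) x), hx, pow_zero]
  exact sub_self _

/-- Every vector `b (inl i)` is a sum of vectors moved by symmetries. The span `Z` of the vectors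
`w` with `∑ n ∈ range N, (g ^ n) w = 0` for some `g ∈ Ss h k` of order dividing `N` is closed under
scalar multiples; if `v ⊥ Z`, then for every `g ∈ Ss h k` and every `x`, `x - g x ∈ Z` up to
replacing `g` by its inverse (`∑ n ∈ range N, g ^ n (x - g x) = 0`), so `⟨v, x - g x⟩ = 0` for all
`x`, `g v = v` (isometry), and `⟨b (inl i), v⟩ = 0` by `hA.mov`. So `b (inl i)` is orthogonal to
`Zᗮ`, i.e. in `Z` (finite dimension), and elements of a span are finite sums
(`Submodule.span_induction` or `mem_span_set`). -/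
theorem exists_dec (hA : Ad h k b) (i : Fin m) : ∃ (M : ℕ) (g : Fin M → F ≃ₗᵢ[ℝ] F)
    (N : Fin M → ℕ) (w : Fin M → F), (∀ s, g s ∈ Ss h k) ∧ (∀ s, 0 < N s) ∧
    (∀ s x, ((g s) ^ (N s)) x = x) ∧
    (∀ s, ∑ n ∈ Finset.range (N s), ((g s) ^ n) (w s) = 0) ∧ b (Sum.inl i) = ∑ s, w s := by
  -- `b (inl i)` is in the span
  have hmem : b (Sum.inl i) ∈ Submodule.span ℝ (kd_S h k) := by
    rw [← Submodule.orthogonal_orthogonal (Submodule.span ℝ (kd_S h k)),
      Submodule.mem_orthogonal]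
    intro v hv
    rw [Submodule.mem_orthogonal] at hv
    have h1 : ∀ g ∈ Ss h k, g v = v := by
      intro g hg
      have h2 : inner ℝ (g v - v) v = 0 := hv _ (Submodule.subset_span (kd_diff hg v))
      have h3 : ‖g v - v‖ ^ 2 = 0 := by
        rw [norm_sub_sq_real, g.norm_map]
        rw [inner_sub_left, real_inner_self_eq_norm_sq] at h2
        linarith
      have h4 : ‖g v - v‖ = 0 := by
        rwa [sq_eq_zero_iff] at h3
      exact sub_eq_zero.1 (norm_eq_zero.1 h4)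
    have h5 := hA.mov v h1 i
    rw [real_inner_comm]
    exact h5
  obtain ⟨c, hc, hsum⟩ := Submodule.mem_span_set.1 hmem
  -- enumerate the support
  let e := c.support.equivFin
  have hw : ∀ s : Fin c.support.card, (c (e.symm s : F)) • (e.symm s : F) ∈ kd_S h k := fun s =>
    kd_smul (hc (e.symm s).2)
  choose g N h1 h2 h3 h4 using hw
  refine ⟨c.support.card, g, N, fun s => (c (e.symm s : F)) • (e.symm s : F), h1, h2, h3, h4, ?_⟩
  rw [← hsum, Finsupp.sum, ← Finset.sum_coe_sort c.support (fun x => c x • x)]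
  exact Fintype.sum_equiv e _ _ fun x => by rw [Equiv.symm_apply_apply]

end Pool.Agent.Lib.MP_8d00da_gt.h97s
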