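import Mathlib
import Pool.Agent.Lib.MP_8d00da_gt.h97s.KCoord

/-!
# Poincare inequality on one fibre
-/

namespace Pool.Agent.Lib.MP_8d00da_gt.h97s

open MeasureTheory Set Filter
open Pool.Agent.Lib.MP_8d00da_gt.h25 Pool.Agent.Lib.MP_8d00da_gt.h42
open Pool.Agent.Lib.MP_8d00da_gt.h42s Pool.Agent.Lib.MP_8d00da_gt.h42o
open Pool.Agent.Lib.MP_8d00da_gt.h97r
open scoped Topology NNReal

set_option linter.unusedSectionVars false

variable {F : Type*} [NormedAddCommGroup F] [InnerProductSpace ℝ F]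
    [FiniteDimensional ℝ F] [MeasurableSpace F] [BorelSpace F]

variable {m j : ℕ} {b : OrthonormalBasis (Fin m ⊕ Fin j) ℝ F}

variable {B K : ℝ} {w : F → ℝ}

private noncomputable def fibI (b : OrthonormalBasis (Fin m ⊕ Fin j) ℝ F) : Vn m →ₗᵢ[ℝ] F where
  toFun s := jj b s 0
  map_add' s s' := by
    have h := jj_lin (b := b) 1 1 s s' 0 0
    simpa using h
  map_smul' c s := by
    have h := jj_lin (b := b) c 0 s 0 0 0
    simpa using h
  norm_map' s := by
    have h := norm_jj (b := b) s 0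
    rw [norm_zero] at h
    have h2 : ‖jj b s 0‖ ^ 2 = ‖s‖ ^ 2 := by rw [h]; ring
    exact (sq_eq_sq₀ (norm_nonneg _) (norm_nonneg _)).1 h2

private lemma fib_split (s : Vn m) (t : Vn j) : jj b s t = fibI b s + jj b 0 t := by
  have h := jj_lin (b := b) 1 1 s 0 0 t
  simp only [one_smul, add_zero, zero_add] at h
  exact h

private lemma fib_lip (t : Vn j) : LipschitzWith 1 (fun s : Vn m => jj b s t) := by
  refine LipschitzWith.of_dist_le_mul fun s s' => ?_
  rw [NNReal.coe_one, one_mul, dist_eq_norm, dist_eq_norm, fib_split s t, fib_split s' t,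
    add_sub_add_right_eq_sub, ← map_sub, LinearIsometry.norm_map]

private lemma fib_fderiv {q : F → ℝ} (hd : Differentiable ℝ q) (t : Vn j) (s : Vn m) :
    ‖fderiv ℝ (fun s : Vn m => q (jj b s t)) s‖ ≤ ‖fderiv ℝ q (jj b s t)‖ := by
  have h1 : HasFDerivAt (fun s : Vn m => jj b s t) (fibI b).toContinuousLinearMap s := by
    have h2 : (fun s : Vn m => jj b s t) = fun s => fibI b s + jj b 0 t :=
      funext fun s => fib_split s t
    rw [h2]
    exact ((fibI b).toContinuousLinearMap.hasFDerivAt).add_const _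
  have h3 : HasFDerivAt (fun s : Vn m => q (jj b s t))
      ((fderiv ℝ q (jj b s t)).comp (fibI b).toContinuousLinearMap) s :=
    (hd (jj b s t)).hasFDerivAt.comp s h1
  rw [h3.fderiv]
  refine (ContinuousLinearMap.opNorm_comp_le _ _).trans ?_
  have h4 : ‖(fibI b).toContinuousLinearMap‖ ≤ 1 := LinearIsometry.norm_toContinuousLinearMap_le _
  calc ‖fderiv ℝ q (jj b s t)‖ * ‖(fibI b).toContinuousLinearMap‖ ≤
      ‖fderiv ℝ q (jj b s t)‖ * 1 := mul_le_mul_of_nonneg_left h4 (norm_nonneg _)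
    _ = _ := mul_one _

private lemma fib_cs {v u : Vn m → ℝ} (hv : Integrable v) (hv0 : ∀ s, 0 ≤ v s) (hu : Measurable u)
    {A : ℝ} (hA : ∀ s, |u s| ≤ A) :
    (∫ s, u s * v s) ^ 2 / (∫ s, v s) ≤ ∫ s, u s ^ 2 * v s := by
  have h0 : 0 ≤ ∫ s, u s ^ 2 * v s := integral_nonneg fun s => mul_nonneg (sq_nonneg _) (hv0 s)
  have hM : 0 ≤ ∫ s, v s := integral_nonneg hv0
  rcases hM.eq_or_lt with hM' | hM'
  · rw [← hM', div_zero]
    exact h0
  set M := ∫ s, v s with hMd
  set c := (∫ s, u s * v s) / M with hc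
  have i1 : Integrable fun s => u s * v s := h25.bdd_int hv hu hA
  have i2 : Integrable fun s => u s ^ 2 * v s := h25.bdd_int hv (hu.pow_const 2) (Wt.sq_bdd hA)
  have h1 : 0 ≤ ∫ s, (u s - c) ^ 2 * v s := integral_nonneg fun s => mul_nonneg (sq_nonneg _) (hv0 s)
  have h2 : ∀ s, (u s - c) ^ 2 * v s = u s ^ 2 * v s - 2 * c * (u s * v s) + c ^ 2 * v s := by
    intro s
    ring
  simp only [h2] at h1
  have i4 : Integrable fun s => u s ^ 2 * v s - 2 * c * (u s * v s) := i2.sub (i1.const_mul _)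
  rw [integral_add i4 (hv.const_mul _), integral_sub i2 (i1.const_mul _),
    integral_const_mul, integral_const_mul, ← hMd] at h1
  have h3 : (∫ s, u s * v s) = c * M := by rw [hc, div_mul_cancel₀ _ hM'.ne']
  rw [h3] at h1 ⊢
  have h4 : (c * M) ^ 2 / M = c ^ 2 * M := by
    field_simp
  rw [h4]
  linarith

/-- On the fibre over `t`: `W.fp t` for `s ↦ q (jj b s t)`, whose derivative at `s` has norm at most
`‖fderiv ℝ q (jj b s t)‖` (`s ↦ jj b s t` is an isometry). If the mass of the fibre is `0`, then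
`fb w b t = 0` almost everywhere and both sides are `0`. -/
theorem fib_one (W : FW B K b w) {q : F → ℝ} (hq : BL q) (hd : Differentiable ℝ q) (t : Vn j) :
    ∫ s, q (jj b s t) ^ 2 * fb w b t s ≤ K * (∫ s, ‖fderiv ℝ q (jj b s t)‖ ^ 2 * fb w b t s) +
      (∫ s, q (jj b s t) * fb w b t s) ^ 2 / ∫ s, fb w b t s := by
  have hv0 : ∀ s, 0 ≤ fb w b t s := fun s => W.wt.nonneg _
  have hv := W.fint t
  have hjm : Measurable fun s : Vn m => jj b s t := (fib_lip t).continuous.measurable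
  obtain ⟨⟨L, hL⟩, A, hA⟩ := hq
  have hK := W.Knn
  have hE : Integrable fun s => ‖fderiv ℝ q (jj b s t)‖ ^ 2 * fb w b t s :=
    h25.bdd_int hv (((measurable_fderiv ℝ q).comp hjm).norm.pow_const 2)
      (fun s => sq_fderiv_bdd hL (jj b s t))
  have hE0 : 0 ≤ ∫ s, ‖fderiv ℝ q (jj b s t)‖ ^ 2 * fb w b t s :=
    integral_nonneg fun s => mul_nonneg (sq_nonneg _) (hv0 s)
  have hM : 0 ≤ ∫ s, fb w b t s := integral_nonneg hv0
  rcases hM.eq_or_lt with hM' | hM'
  · have h1 : fb w b t =ᵐ[volume] 0 := (integral_eq_zero_iff_of_nonneg hv0 hv).1 hM'.symm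
    have h2 : ∫ s, q (jj b s t) ^ 2 * fb w b t s = 0 := by
      rw [← integral_zero (Vn m) ℝ (μ := volume)]
      refine integral_congr_ae ?_
      filter_upwards [h1] with s hs
      rw [hs, Pi.zero_apply, mul_zero]
    rw [h2, ← hM', div_zero, add_zero]
    positivity
  · have h1 := W.fp t (fun s => q (jj b s t)) (BL.comp ⟨⟨L, hL⟩, A, hA⟩ (fib_lip t))
    have h2 : En (fb w b t) (fun s => q (jj b s t)) ≤
        ∫ s, ‖fderiv ℝ q (jj b s t)‖ ^ 2 * fb w b t s := by
      unfold En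
      refine integral_mono_of_nonneg (Eventually.of_forall fun s =>
        mul_nonneg (sq_nonneg _) (hv0 s)) hE (Eventually.of_forall fun s => ?_)
      exact mul_le_mul_of_nonneg_right
        (pow_le_pow_left₀ (norm_nonneg _) (fib_fderiv hd t s) 2) (hv0 s)
    have h3 := mul_le_mul_of_nonneg_left h2 hK
    set M := ∫ s, fb w b t s
    set P := ∫ s, q (jj b s t) ^ 2 * fb w b t s
    set Q := ∫ s, q (jj b s t) * fb w b t s
    have h4 : P * M ≤ (K * En (fb w b t) (fun s => q (jj b s t)) + Q ^ 2 / M) * M := by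
      have h5 : (K * En (fb w b t) (fun s => q (jj b s t)) + Q ^ 2 / M) * M =
          K * M * En (fb w b t) (fun s => q (jj b s t)) + Q ^ 2 := by
        field_simp
      rw [h5]
      linarith
    have h5 := le_of_mul_le_mul_right h4 hM'
    linarith

/-- Cauchy-Schwarz on the fibre. -/
theorem fmean_sq_le (W : FW B K b w) {q : F → ℝ} (hq : Measurable q) {A : ℝ}
    (hA : ∀ x, |q x| ≤ A) (t : Vn j) :
    (∫ s, q (jj b s t) * fb w b t s) ^ 2 / (∫ s, fb w b t s) ≤
      ∫ s, q (jj b s t) ^ 2 * fb w b t s :=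
  fib_cs (W.fint t) (fun s => W.wt.nonneg _) (hq.comp (fib_lip t).continuous.measurable)
    (fun s => hA _)

end Pool.Agent.Lib.MP_8d00da_gt.h97s
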