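import Mathlib
import Pool.Agent.Lib.MP_8d00da_gt.h97r.RFub
import Pool.Agent.Lib.MP_8d00da_gt.h97s.KFibA

/-!
# Fibre by fibre Poincare inequality
-/

namespace Pool.Agent.Lib.MP_8d00da_gt.h97s

open MeasureTheory Set Filter
open Pool.Agent.Lib.MP_8d00da_gt.h25 Pool.Agent.Lib.MP_8d00da_gt.h42
open Pool.Agent.Lib.MP_8d00da_gt.h42s Pool.Agent.Lib.MP_8d00da_gt.h42o
open Pool.Agent.Lib.MP_8d00da_gt.h97r
open scoped Topology NNReal

set_option linter.unusedSectionVars false

variable {F : Type*} [NormedAddCommGroup F] [InnerProductSpace ℝ F]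
    [FiniteDimensional ℝ F] [MeasurableSpace F] [BorelSpace F]

variable {m j : ℕ} {b : OrthonormalBasis (Fin m ⊕ Fin j) ℝ F}

variable {B K : ℝ} {w : F → ℝ}

private lemma fib_meas (W : FW B K b w) {q : F → ℝ} (hq : Measurable q) :
    Measurable fun t : Vn j => ∫ s : Vn m, q (jj b s t) * fb w b t s := by
  have h1 : Measurable fun p : Vn j × Vn m => q (jj b p.2 p.1) * fb w b p.1 p.2 := by
    have h2 : Measurable fun p : Vn j × Vn m => jj b p.2 p.1 :=
      (jj_cont.comp continuous_swap).measurable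
    exact (hq.comp h2).mul (W.wt.meas.comp h2)
  exact (h1.stronglyMeasurable.integral_prod_right (ν := (volume : Measure (Vn m)))).measurable

private lemma fib_meas1 (W : FW B K b w) : Measurable fun t : Vn j => ∫ s : Vn m, fb w b t s := by
  have h := fib_meas W (q := fun _ => 1) measurable_const
  simpa using h

private lemma fib_nn (W : FW B K b w) (q : F → ℝ) (t : Vn j) :
    0 ≤ (∫ s : Vn m, q (jj b s t) * fb w b t s) ^ 2 / ∫ s : Vn m, fb w b t s :=
  div_nonneg (sq_nonneg _) (integral_nonneg fun s => W.wt.nonneg _)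

private lemma fib_sqint (W : FW B K b w) {q : F → ℝ} (hq : Measurable q) {A : ℝ}
    (hA : ∀ x, |q x| ≤ A) : Integrable fun x => q x ^ 2 * w x :=
  h25.bdd_int W.int (hq.pow_const 2) (Wt.sq_bdd hA)

/-- The function under the integral in `MM` is integrable: measurable (measurability of
parameter integrals, `MeasureTheory.StronglyMeasurable.integral_prod_right`), nonnegative, and
bounded by the integrable function `∫ s, q² fb` (`fmean_sq_le`, `h97r.fub_basis`). -/
theorem MM_int (W : FW B K b w) {q : F → ℝ} (hq : Measurable q) {A : ℝ} (hA : ∀ x, |q x| ≤ A) :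
    Integrable fun t : Vn j => (∫ s : Vn m, q (jj b s t) * fb w b t s) ^ 2 /
      ∫ s : Vn m, fb w b t s := by
  refine (fub_basis b (fib_sqint W hq hA)).2.1.mono'
    (((fib_meas W hq).pow_const 2).div (fib_meas1 W)).aestronglyMeasurable
    (Eventually.of_forall fun t => ?_)
  rw [Real.norm_eq_abs, abs_of_nonneg (fib_nn W q t)]
  exact fmean_sq_le W hq hA t

/-- Integrate `fmean_sq_le` over `t` (`h97r.fub_basis`). -/
theorem MM_le (W : FW B K b w) {q : F → ℝ} (hq : Measurable q) {A : ℝ} (hA : ∀ x, |q x| ≤ A) :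
    MM w b q ≤ ∫ x, q x ^ 2 * w x := by
  rw [(fub_basis b (fib_sqint W hq hA)).2.2]
  exact integral_mono (MM_int W hq hA) (fub_basis b (fib_sqint W hq hA)).2.1
    fun t => fmean_sq_le W hq hA t

/-- Integrate `fib_one` over `t`. -/
theorem fib_all (W : FW B K b w) {q : F → ℝ} (hq : BL q) (hd : Differentiable ℝ q) :
    ∫ x, q x ^ 2 * w x ≤ K * En w q + MM w b q := by
  obtain ⟨⟨L, hL⟩, A, hA⟩ := hq
  have hqm : Measurable q := hL.continuous.measurable
  have i1 := fub_basis b (fib_sqint W hqm hA)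
  have hE : Integrable fun x => ‖fderiv ℝ q x‖ ^ 2 * w x :=
    h25.bdd_int W.int ((measurable_fderiv ℝ q).norm.pow_const 2) (fun x => sq_fderiv_bdd hL x)
  have i2 := fub_basis b hE
  unfold En MM
  rw [i1.2.2, i2.2.2, ← integral_const_mul, ← integral_add (i2.2.1.const_mul K) (MM_int W hqm hA)]
  exact integral_mono i1.2.1 ((i2.2.1.const_mul K).add (MM_int W hqm hA))
    fun t => fib_one W ⟨⟨L, hL⟩, A, hA⟩ hd t

/-- `(∑ a) ² ≤ M ∑ a ²` on every fibre (`sq_sum_le_card_mul_sum_sq`). -/
theorem MM_sum (W : FW B K b w) {M : ℕ} {q : Fin M → F → ℝ} (hq : ∀ s, Measurable (q s)) {A : ℝ}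
    (hA : ∀ s x, |q s x| ≤ A) :
    MM w b (fun x => ∑ s, q s x) ≤ M * ∑ s, MM w b (q s) := by
  have hjm : ∀ t : Vn j, Measurable fun s : Vn m => jj b s t := fun t =>
    (jj_cont.comp (continuous_id.prodMk continuous_const)).measurable
  unfold MM
  rw [← integral_finsetSum _ fun s _ => MM_int W (hq s) (hA s), ← integral_const_mul]
  refine integral_mono_of_nonneg (Eventually.of_forall fun t =>
    fib_nn W (fun x => ∑ s, q s x) t)
    ((integrable_finsetSum _ fun s _ => MM_int W (hq s) (hA s)).const_mul _)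
    (Eventually.of_forall fun t => ?_)
  have h1 : ∫ s : Vn m, (∑ l, q l (jj b s t)) * fb w b t s =
      ∑ l, ∫ s : Vn m, q l (jj b s t) * fb w b t s := by
    rw [← integral_finsetSum]
    · refine integral_congr_ae (Eventually.of_forall fun s => ?_)
      simp only [Finset.sum_mul]
    · exact fun l _ => h25.bdd_int (W.fint t) ((hq l).comp (hjm t)) (fun s => hA l _)
  have h2 : 0 ≤ ∫ s : Vn m, fb w b t s := integral_nonneg fun s => W.wt.nonneg _
  simp only
  rw [h1, ← Finset.sum_div, ← mul_div_assoc]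
  refine div_le_div_of_nonneg_right ?_ h2
  have h3 := sq_sum_le_card_mul_sum_sq (s := (Finset.univ : Finset (Fin M)))
    (f := fun l => ∫ s : Vn m, q l (jj b s t) * fb w b t s)
  rw [Finset.card_univ, Fintype.card_fin] at h3
  exact h3

end Pool.Agent.Lib.MP_8d00da_gt.h97s
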