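import Mathlib
import Pool.Agent.Lib.MP_8d00da_gt.h97r.RAv
import Pool.Agent.Lib.MP_8d00da_gt.h97s.KFib
import Pool.Agent.Lib.MP_8d00da_gt.h97s.KMean

/-!
# Functions of mean zero on the fibres
-/

namespace Pool.Agent.Lib.MP_8d00da_gt.h97s

open MeasureTheory Set Filter
open Pool.Agent.Lib.MP_8d00da_gt.h25 Pool.Agent.Lib.MP_8d00da_gt.h42
open Pool.Agent.Lib.MP_8d00da_gt.h42s Pool.Agent.Lib.MP_8d00da_gt.h42o
open Pool.Agent.Lib.MP_8d00da_gt.h97r
open scoped Topology NNReal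

set_option linter.unusedSectionVars false

variable {F : Type*} [NormedAddCommGroup F] [InnerProductSpace ℝ F]
    [FiniteDimensional ℝ F] [MeasurableSpace F] [BorelSpace F]

variable {m j : ℕ} {b : OrthonormalBasis (Fin m ⊕ Fin j) ℝ F}

variable {B K : ℝ} {w : F → ℝ} {g : F ≃ₗᵢ[ℝ] F} {N : ℕ}

private lemma kd_pow (hg : ∀ l, g (b (Sum.inr l)) = b (Sum.inr l)) (k : ℕ) (l : Fin j) :
    (g ^ k) (b (Sum.inr l)) = b (Sum.inr l) := by
  induction k with
  | zero => rfl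
  | succ k ih =>
    rw [pow_succ']
    change g ((g ^ k) (b (Sum.inr l))) = b (Sum.inr l)
    rw [ih, hg]

private lemma kd_jm (t : Vn j) : Measurable fun s : Vn m => jj b s t :=
  (jj_cont.comp (continuous_id.prodMk continuous_const)).measurable

private lemma kd_av_fderiv (g : F ≃ₗᵢ[ℝ] F) (N : ℕ) {f : F → ℝ} (hf : Differentiable ℝ f) (x : F) :
    HasFDerivAt (av g N f) ((1 / (N : ℝ)) • ∑ k ∈ Finset.range N,
      (fderiv ℝ f ((g ^ k) x)).comp ((g ^ k).toContinuousLinearEquiv : F →L[ℝ] F)) x := by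
  unfold av
  have h1 : HasFDerivAt (fun x => ∑ k ∈ Finset.range N, f ((g ^ k) x))
      (∑ k ∈ Finset.range N,
        (fderiv ℝ f ((g ^ k) x)).comp ((g ^ k).toContinuousLinearEquiv : F →L[ℝ] F)) x :=
    HasFDerivAt.fun_sum fun k _ =>
      (hf _).hasFDerivAt.comp x ((g ^ k).toContinuousLinearEquiv.hasFDerivAt)
  exact h1.const_mul (1 / (N : ℝ))

private lemma kd_av_diff (g : F ≃ₗᵢ[ℝ] F) (N : ℕ) {f : F → ℝ} (hf : Differentiable ℝ f) :
    Differentiable ℝ (av g N f) := fun x => (kd_av_fderiv g N hf x).differentiableAt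

/-- The fibre means of `φ` and of its average agree (`fibre_sym` for the powers of `g`). -/
theorem fibre_av (W : FW B K b w) (S : Sg w g N) (hg : ∀ l, g (b (Sum.inr l)) = b (Sum.inr l))
    {φ : F → ℝ} (hφ : Measurable φ) {A : ℝ} (hA : ∀ x, |φ x| ≤ A) (t : Vn j) :
    ∫ s, av g N φ (jj b s t) * fb w b t s = ∫ s, φ (jj b s t) * fb w b t s := by
  have hN : (N : ℝ) ≠ 0 := by
    have := S.Npos
    positivity
  have h1 : ∀ k ∈ Finset.range N, Integrable fun s : Vn m => φ ((g ^ k) (jj b s t)) * fb w b t s :=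
    fun k _ => h25.bdd_int (W.fint t)
      (hφ.comp ((g ^ k).continuous.measurable.comp (kd_jm t))) (fun s => hA _)
  have h2 : ∀ s : Vn m, av g N φ (jj b s t) * fb w b t s =
      (1 / (N : ℝ)) * ∑ k ∈ Finset.range N, φ ((g ^ k) (jj b s t)) * fb w b t s := by
    intro s
    unfold av
    rw [← Finset.sum_mul, mul_assoc]
  simp only [h2]
  rw [integral_const_mul, integral_finsetSum _ h1]
  have h3 : ∀ k ∈ Finset.range N, ∫ s, φ ((g ^ k) (jj b s t)) * fb w b t s =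
      ∫ s, φ (jj b s t) * fb w b t s := fun k _ =>
    fibre_sym (kd_pow hg k) (S.pow k) φ t
  rw [Finset.sum_congr rfl h3, Finset.sum_const, Finset.card_range, nsmul_eq_mul]
  field_simp

/-- `∫ s, (φ - av φ) = 0` on every fibre, so `MM = 0` in `fib_all`. -/
theorem zav_poin (W : FW B K b w) (S : Sg w g N) (hg : ∀ l, g (b (Sum.inr l)) = b (Sum.inr l))
    {φ : F → ℝ} (hφ : BL φ) (hd : Differentiable ℝ φ) :
    ∫ x, (φ x - av g N φ x) ^ 2 * w x ≤ K * En w (fun x => φ x - av g N φ x) := by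
  have h1 := fib_all W (hφ.sub (av_BL (g := g) (N := N) hφ)) (hd.sub (kd_av_diff g N hd))
  have h2 : MM w b (fun x => φ x - av g N φ x) = 0 := by
    unfold MM
    have h3 : ∀ t : Vn j, ∫ s : Vn m, (φ (jj b s t) - av g N φ (jj b s t)) * fb w b t s = 0 := by
      intro t
      obtain ⟨⟨L, hL⟩, A, hA⟩ := hφ
      obtain ⟨⟨L', hL'⟩, A', hA'⟩ := av_BL (g := g) (N := N) (f := φ) ⟨⟨L, hL⟩, A, hA⟩
      simp only [sub_mul]
      rw [integral_sub, fibre_av W S hg hL.continuous.measurable hA t, sub_self]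
      · exact h25.bdd_int (W.fint t) (hL.continuous.measurable.comp (kd_jm t)) (fun s => hA _)
      · exact h25.bdd_int (W.fint t) (hL'.continuous.measurable.comp (kd_jm t)) (fun s => hA' _)
    simp only [h3]
    simp
  rw [h2, add_zero] at h1
  exact h1

/-- `fderiv (av φ) x v = (1 / N) ∑ n, fderiv φ (g ^ n x) (g ^ n v)`, and the fibre mean of
`x ↦ fderiv φ (g ^ n x) (g ^ n v)` is the fibre mean of `x ↦ fderiv φ x (g ^ n v)`
(`fibre_sym` for the powers of `g`); sum over `n` and use `hv`. -/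
theorem dav_zero (W : FW B K b w) (S : Sg w g N) (hg : ∀ l, g (b (Sum.inr l)) = b (Sum.inr l))
    {φ : F → ℝ} (hφ : BL φ) (hd : Differentiable ℝ φ) {v : F}
    (hv : ∑ n ∈ Finset.range N, (g ^ n) v = 0) (t : Vn j) :
    ∫ s, fderiv ℝ (av g N φ) (jj b s t) v * fb w b t s = 0 := by
  obtain ⟨⟨L, hL⟩, A, hA⟩ := hφ
  have hbd : ∀ x u, |fderiv ℝ φ x u| ≤ L * ‖u‖ := by
    intro x u
    have h1 := (fderiv ℝ φ x).le_opNorm u
    rw [Real.norm_eq_abs] at h1
    exact h1.trans (mul_le_mul_of_nonneg_right (norm_fderiv_le_of_lipschitz ℝ hL) (norm_nonneg _))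
  have hms : ∀ u, Measurable fun x => fderiv ℝ φ x u := fun u => measurable_fderiv_apply_const ℝ φ u
  have h2 : ∀ s : Vn m, fderiv ℝ (av g N φ) (jj b s t) v * fb w b t s =
      (1 / (N : ℝ)) * ∑ k ∈ Finset.range N,
        fderiv ℝ φ ((g ^ k) (jj b s t)) ((g ^ k) v) * fb w b t s := by
    intro s
    rw [(kd_av_fderiv g N hd _).fderiv]
    simp only [smul_apply, sum_apply, smul_eq_mul, ← Finset.sum_mul, ← mul_assoc]
    rfl
  have h1 : ∀ k ∈ Finset.range N,
      Integrable fun s : Vn m => fderiv ℝ φ ((g ^ k) (jj b s t)) ((g ^ k) v) * fb w b t s :=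
    fun k _ => h25.bdd_int (W.fint t)
      ((hms _).comp ((g ^ k).continuous.measurable.comp (kd_jm t))) (fun s => hbd _ _)
  have h1' : ∀ k ∈ Finset.range N,
      Integrable fun s : Vn m => fderiv ℝ φ (jj b s t) ((g ^ k) v) * fb w b t s :=
    fun k _ => h25.bdd_int (W.fint t) ((hms _).comp (kd_jm t)) (fun s => hbd _ _)
  simp only [h2]
  rw [integral_const_mul, integral_finsetSum _ h1]
  have h3 : ∀ k ∈ Finset.range N,
      ∫ s, fderiv ℝ φ ((g ^ k) (jj b s t)) ((g ^ k) v) * fb w b t s =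
      ∫ s, fderiv ℝ φ (jj b s t) ((g ^ k) v) * fb w b t s := fun k _ =>
    fibre_sym (kd_pow hg k) (S.pow k) (fun x => fderiv ℝ φ x ((g ^ k) v)) t
  rw [Finset.sum_congr rfl h3, ← integral_finsetSum _ h1']
  have h4 : ∀ s : Vn m, ∑ k ∈ Finset.range N, fderiv ℝ φ (jj b s t) ((g ^ k) v) * fb w b t s = 0 := by
    intro s
    rw [← Finset.sum_mul, ← map_sum, hv, map_zero, zero_mul]
  simp only [h4, integral_zero, mul_zero]

/-- By `dav_zero` the fibre means of `fderiv φ · v` and `fderiv (φ - av φ) · v` agree; `MM_le`, and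
`(fderiv ψ x v) ² ≤ ‖v‖ ² ‖fderiv ψ x‖ ²`. -/
theorem MM_dir (W : FW B K b w) (S : Sg w g N) (hg : ∀ l, g (b (Sum.inr l)) = b (Sum.inr l))
    {φ : F → ℝ} (hφ : BL φ) (hd : Differentiable ℝ φ) {v : F}
    (hv : ∑ n ∈ Finset.range N, (g ^ n) v = 0) :
    MM w b (fun x => fderiv ℝ φ x v) ≤ ‖v‖ ^ 2 * En w (fun x => φ x - av g N φ x) := by
  set ψ : F → ℝ := fun x => φ x - av g N φ x with hψ
  have hψb : BL ψ := hφ.sub (av_BL (g := g) (N := N) hφ)
  obtain ⟨⟨L, hL⟩, A, hA⟩ := hψb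
  have hφb := hφ
  obtain ⟨⟨L1, hL1⟩, A1, hA1⟩ := hφb
  obtain ⟨⟨L2, hL2⟩, A2, hA2⟩ := av_BL (g := g) (N := N) (f := φ) hφ
  have bd : ∀ {f : F → ℝ} {M : NNReal} (_ : LipschitzWith M f) (x u : F),
      |fderiv ℝ f x u| ≤ M * ‖u‖ := by
    intro f M hM x u
    have h1 := (fderiv ℝ f x).le_opNorm u
    rw [Real.norm_eq_abs] at h1
    exact h1.trans (mul_le_mul_of_nonneg_right (norm_fderiv_le_of_lipschitz ℝ hM) (norm_nonneg _))
  have hsub : ∀ x, fderiv ℝ φ x v = fderiv ℝ ψ x v + fderiv ℝ (av g N φ) x v := by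
    intro x
    rw [hψ, fderiv_fun_sub (hd x) (kd_av_diff g N hd x)]
    simp
  have h1 : MM w b (fun x => fderiv ℝ φ x v) = MM w b (fun x => fderiv ℝ ψ x v) := by
    unfold MM
    refine integral_congr_ae (Eventually.of_forall fun t => ?_)
    have h2 : ∫ s : Vn m, fderiv ℝ φ (jj b s t) v * fb w b t s =
        ∫ s : Vn m, fderiv ℝ ψ (jj b s t) v * fb w b t s := by
      have h3 : ∀ s : Vn m, fderiv ℝ φ (jj b s t) v * fb w b t s =
          fderiv ℝ ψ (jj b s t) v * fb w b t s + fderiv ℝ (av g N φ) (jj b s t) v * fb w b t s := by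
        intro s
        rw [hsub, add_mul]
      simp only [h3]
      rw [integral_add, dav_zero W S hg hφ hd hv t, add_zero]
      · exact h25.bdd_int (W.fint t)
          ((measurable_fderiv_apply_const ℝ ψ v).comp (kd_jm t)) (fun s => bd hL _ _)
      · exact h25.bdd_int (W.fint t)
          ((measurable_fderiv_apply_const ℝ (av g N φ) v).comp (kd_jm t)) (fun s => bd hL2 _ _)
    simp only
    rw [h2]
  rw [h1]
  refine (MM_le W (measurable_fderiv_apply_const ℝ ψ v) (fun x => bd hL x v)).trans ?_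
  unfold En
  rw [← integral_const_mul]
  refine integral_mono_of_nonneg (Eventually.of_forall fun x =>
    mul_nonneg (sq_nonneg _) (W.wt.nonneg x)) ?_ (Eventually.of_forall fun x => ?_)
  · exact (h25.bdd_int W.int ((measurable_fderiv ℝ ψ).norm.pow_const 2)
      (fun x => sq_fderiv_bdd hL x)).const_mul _
  · simp only
    rw [← mul_assoc]
    refine mul_le_mul_of_nonneg_right ?_ (W.wt.nonneg x)
    have h2 := (fderiv ℝ ψ x).le_opNorm v
    calc (fderiv ℝ ψ x v) ^ 2 = ‖fderiv ℝ ψ x v‖ ^ 2 := by rw [Real.norm_eq_abs, sq_abs]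
      _ ≤ (‖fderiv ℝ ψ x‖ * ‖v‖) ^ 2 := pow_le_pow_left₀ (norm_nonneg _) h2 2
      _ = ‖v‖ ^ 2 * ‖fderiv ℝ ψ x‖ ^ 2 := by ring

end Pool.Agent.Lib.MP_8d00da_gt.h97s
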