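import Mathlib
import Pool.Agent.Lib.MP_8d00da_gt.h97s.KDec
import Pool.Agent.Lib.MP_8d00da_gt.h97s.KAv
import Pool.Agent.Lib.MP_8d00da_gt.h97s.KDir

/-!
# Near-extremal functions
-/

namespace Pool.Agent.Lib.MP_8d00da_gt.h97s

open MeasureTheory Set Filter
open Pool.Agent.Lib.MP_8d00da_gt.h25 Pool.Agent.Lib.MP_8d00da_gt.h42
open Pool.Agent.Lib.MP_8d00da_gt.h42s Pool.Agent.Lib.MP_8d00da_gt.h42o
open Pool.Agent.Lib.MP_8d00da_gt.h97r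
open scoped Topology NNReal

set_option linter.unusedSectionVars false

variable {F : Type*} [NormedAddCommGroup F] [InnerProductSpace ℝ F]
    [FiniteDimensional ℝ F] [MeasurableSpace F] [BorelSpace F]

variable {m j : ℕ} {b : OrthonormalBasis (Fin m ⊕ Fin j) ℝ F}

variable {B K Λ : ℝ} {w h : F → ℝ} {g : F ≃ₗᵢ[ℝ] F} {N k : ℕ}

/-- With `ψ = φ - av φ`: `∫ φ ² w = ∫ (av φ) ² w + ∫ ψ ² w` (`sq_splitW`),
`∫ (av φ) ² w ≤ Λ En (av φ)` (`hP`, `av_BL`, `av_mean`), `∫ ψ ² w ≤ K En ψ` (`zav_poin`) and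
`En φ = En (av φ) + En ψ` (`En_splitW`), so
`(1 - ε) Λ E ≤ Λ (En φ - En ψ) + K En ψ ≤ Λ E - (Λ - K) En ψ` and `Λ - K ≥ Λ / 2`. -/
theorem near_avW (W : FW B K b w) (S : Sg w g N) (hg : ∀ l, g (b (Sum.inr l)) = b (Sum.inr l))
    (hΛ : 0 < Λ) (hK : 2 * K ≤ Λ)
    (hP : ∀ u : F → ℝ, BL u → ∫ x, u x * w x = 0 → ∫ x, u x ^ 2 * w x ≤ Λ * En w u)
    {φ : F → ℝ} (hφ : BL φ) (hd : Differentiable ℝ φ) (h0 : ∫ x, φ x * w x = 0) {E ε : ℝ}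
    (hE : En w φ ≤ E) (hn : (1 - ε) * Λ * E ≤ ∫ x, φ x ^ 2 * w x) :
    En w (fun x => φ x - av g N φ x) ≤ 2 * ε * E := by
  have h1 := sq_splitW S W.wt W.int hφ
  have h2 := En_splitW S W.wt W.int hφ hd
  have h3 := zav_poin W S hg hφ hd
  have h4 := hP (av g N φ) (av_BL hφ) (by rw [av_mean S W.wt W.int hφ, h0])
  have h5 : 0 ≤ En w (fun x => φ x - av g N φ x) := En_nonneg W.wt
  have h6 : Λ * En w (av g N φ) = Λ * En w φ - Λ * En w (fun x => φ x - av g N φ x) := by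
    rw [h2]
    ring
  have h7 : Λ * En w φ ≤ Λ * E := mul_le_mul_of_nonneg_left hE hΛ.le
  have h8 : 2 * K * En w (fun x => φ x - av g N φ x) ≤
      Λ * En w (fun x => φ x - av g N φ x) := mul_le_mul_of_nonneg_right hK h5
  have h9 : Λ * En w (fun x => φ x - av g N φ x) ≤ Λ * (2 * ε * E) := by nlinarith
  exact le_of_mul_le_mul_left h9 hΛ

/-- Take the decomposition `b (inl i) = ∑ s, w s` of `exists_dec` with `M` terms and
`C = 2 * M * ∑ s, ‖w s‖ ²`. `fib_all` for `fderiv φ · (b (inl i))`, `MM_sum`, `MM_dir`,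
`near_avW`. -/
theorem dir_boundW (W : FW B K b w) (hA : Ad h k b) (hw : ∀ g ∈ Ss h k, ∀ x, w (g x) = w x)
    (hΛ : 0 < Λ) (hK : 2 * K ≤ Λ)
    (hP : ∀ u : F → ℝ, BL u → ∫ x, u x * w x = 0 → ∫ x, u x ^ 2 * w x ≤ Λ * En w u) (i : Fin m) :
    ∃ C : ℝ, 0 ≤ C ∧ ∀ (φ : F → ℝ) (E ε : ℝ), Sm φ →
      (Differentiable ℝ fun x => fderiv ℝ φ x (b (Sum.inl i))) →
      ∫ x, φ x * w x = 0 → En w φ ≤ E → (1 - ε) * Λ * E ≤ ∫ x, φ x ^ 2 * w x →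
      ∫ x, (fderiv ℝ φ x (b (Sum.inl i))) ^ 2 * w x ≤
        K * En w (fun x => fderiv ℝ φ x (b (Sum.inl i))) + C * ε * E := by
  classical
  obtain ⟨M, g, N, v, hg, hN, hper, hsum, hb⟩ := exists_dec hA i
  refine ⟨2 * M * ∑ s, ‖v s‖ ^ 2, by positivity, fun φ E ε hφ hD h0 hE hn => ?_⟩
  have hS : ∀ s, Sg w (g s) (N s) := fun s => ⟨hN s, hper s, hw (g s) (hg s)⟩
  have hfix : ∀ s l, (g s) (b (Sum.inr l)) = b (Sum.inr l) := fun s l => hA.fix (g s) (hg s) l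
  have h1 := fib_all W (hφ.dbl (b (Sum.inl i))) hD
  have hE0 : 0 ≤ E := (En_nonneg W.wt).trans hE
  have hDs : (fun x => fderiv ℝ φ x (b (Sum.inl i))) = fun x => ∑ s, fderiv ℝ φ x (v s) := by
    funext x
    rw [hb, map_sum]
  have hA' : ∃ A : ℝ, ∀ s x, |fderiv ℝ φ x (v s)| ≤ A := by
    choose A hA2 using fun s => (hφ.dbl (v s)).2
    refine ⟨∑ s, |A s|, fun s x => (hA2 s x).trans ((le_abs_self _).trans ?_)⟩
    exact Finset.single_le_sum (f := fun s => |A s|) (fun s _ => abs_nonneg _)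
      (Finset.mem_univ s)
  obtain ⟨A, hA3⟩ := hA'
  have h2 : MM w b (fun x => ∑ s, fderiv ℝ φ x (v s)) ≤
      M * ∑ s, MM w b (fun x => fderiv ℝ φ x (v s)) :=
    MM_sum W (q := fun s x => fderiv ℝ φ x (v s)) (fun s => bl_meas (hφ.dbl (v s))) hA3
  have h3 : ∀ s, MM w b (fun x => fderiv ℝ φ x (v s)) ≤ ‖v s‖ ^ 2 * (2 * ε * E) := by
    intro s
    have h4 := MM_dir W (hS s) (hfix s) hφ.bl hφ.diff (hsum s)
    have h5 := near_avW W (hS s) (hfix s) hΛ hK hP hφ.bl hφ.diff h0 hE hn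
    exact h4.trans (mul_le_mul_of_nonneg_left h5 (sq_nonneg _))
  have h4 : (M : ℝ) * ∑ s, MM w b (fun x => fderiv ℝ φ x (v s)) ≤
      (2 * M * ∑ s, ‖v s‖ ^ 2) * ε * E := by
    calc (M : ℝ) * ∑ s, MM w b (fun x => fderiv ℝ φ x (v s)) ≤
        M * ∑ s, ‖v s‖ ^ 2 * (2 * ε * E) :=
          mul_le_mul_of_nonneg_left (Finset.sum_le_sum fun s _ => h3 s) (Nat.cast_nonneg M)
      _ = (2 * M * ∑ s, ‖v s‖ ^ 2) * ε * E := by
          rw [← Finset.sum_mul]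
          ring
  rw [hDs] at h1 ⊢
  linarith

end Pool.Agent.Lib.MP_8d00da_gt.h97s
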