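import Mathlib
import Pool.Agent.Lib.MP_8d00da_gt.h42s.NearExt
import Pool.Agent.Lib.MP_8d00da_gt.h97s.AniC
import Pool.Agent.Lib.MP_8d00da_gt.h97s.KNear

/-!
# The Poincare inequality on the bulk
-/

namespace Pool.Agent.Lib.MP_8d00da_gt.h97s

open MeasureTheory Set Filter
open Pool.Agent.Lib.MP_8d00da_gt.h25 Pool.Agent.Lib.MP_8d00da_gt.h42
open Pool.Agent.Lib.MP_8d00da_gt.h42s Pool.Agent.Lib.MP_8d00da_gt.h42o
open Pool.Agent.Lib.MP_8d00da_gt.h97r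
open scoped Topology NNReal

set_option linter.unusedSectionVars false

variable {F : Type*} [NormedAddCommGroup F] [InnerProductSpace ℝ F]
    [FiniteDimensional ℝ F] [MeasurableSpace F] [BorelSpace F]

variable {m j : ℕ} {b : OrthonormalBasis (Fin m ⊕ Fin j) ℝ F}

variable {B B' K δ α : ℝ} {h h0 : F → ℝ} {k : ℕ}

/-- One step: with `φ = RT w η f`, `ε' = η ² + 2 η / Λ` and `E = En w f > 0` one has
`(1 - ε') Λ E ≤ ∫ φ ² w` (`round_var`), hence `(1 - ε') E ≤ En w φ ≤ E`; by `hess_gain`,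
`∑ i, En w (D (b i) φ) + α ∑ l, ∫ (D (b (inr l)) φ) ² w ≤ (1 / η) ε' E`. Add `dir_boundW` over `i` to
get `(1 - ε') E ≤ En w φ ≤ max K (1 / α) * (1 / η) ε' E + C ε' E`, and `ε' / η = η + 2 / Λ`. This
contradicts the choice of `η` (`choose_eta` with `τ = 0`, `c = 1`, `W = C`).
See `h42s/NearExt.lean` for the same argument (`opt_const`; the a priori bound is
`wg_poin`). -/
theorem ne_bound (H : BW B δ α h0) (W : FW B' K b (wg α b h0)) (hA : Ad h k b)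
    (hw : ∀ g ∈ Ss h k, ∀ x, wg α b h0 (g x) = wg α b h0 x) {f : F → ℝ} (hf : BL f)
    (hm : ∫ x, f x * wg α b h0 x = 0) :
    ∫ x, f x ^ 2 * wg α b h0 x ≤ 2 * max K (1 / α) * En (wg α b h0) f := by
  obtain ⟨w, hwdef⟩ : ∃ w, w = wg α b h0 := ⟨_, rfl⟩
  have hα := H.apos
  have hwt : Wt w B := by rw [hwdef]; exact wg_wt H
  have hwi : Integrable w := by rw [hwdef]; exact wg_int H
  have hap : ∀ u : F → ℝ, BL u → ∫ x, u x * w x = 0 → ∫ x, u x ^ 2 * w x ≤ (1 / δ) * En w u := by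
    intro u hu hu0
    rw [hwdef] at hu0 ⊢
    exact wg_poin H hu hu0
  have hgain : ∀ {η : ℝ}, 0 < η → ∀ {f : F → ℝ}, BL f →
      (∑ i, En w fun x => fderiv ℝ (RT w η f) x (b i)) +
        α * ∑ l, ∫ x, (fderiv ℝ (RT w η f) x (b (Sum.inr l))) ^ 2 * w x ≤
        (1 / η) * (En w f - En w (RT w η f)) := by
    intro η hη f hf
    rw [hwdef]
    exact hess_gain H hη hf
  rw [← hwdef] at W hw hm ⊢
  set M : ℝ := max K (1 / α) with hM
  have hM0 : 0 ≤ M := W.Knn.trans (le_max_left _ _)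
  let T : Type _ := {u : F → ℝ // BL u ∧ ∫ x, u x * w x = 0}
  have key := opt_const (T := T) (fun u => ∫ x, u.1 x ^ 2 * w x) (fun u => En w u.1)
    (fun u => En_nonneg hwt) (C0 := 2 * M) (C1 := 1 / δ) (by positivity)
    (fun u => hap u.1 u.2.1 u.2.2) ?_
  · exact key ⟨f, hf, hm⟩
  intro Λ hΛ hval
  have hΛ0 : 0 < Λ := lt_of_le_of_lt (by positivity) hΛ
  have hP : ∀ u : F → ℝ, BL u → ∫ x, u x * w x = 0 → ∫ x, u x ^ 2 * w x ≤ Λ * En w u :=
    fun u hu hu0 => hval ⟨u, hu, hu0⟩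
  have h2K : 2 * K ≤ Λ := by
    have : K ≤ M := le_max_left _ _
    linarith
  choose C hC0 hC using fun i => dir_boundW W hA hw hΛ0 h2K hP i
  set WC : ℝ := ∑ i, C i with hWC
  have hWC0 : 0 ≤ WC := Finset.sum_nonneg fun i _ => hC0 i
  obtain ⟨η, hη, hcond⟩ := choose_eta (M := M) (W := WC) (c := 1) (τ := 0) (Λ := Λ) le_rfl hΛ0
    (by linarith)
  refine ⟨η ^ 2, by positivity, ?_⟩
  rintro ⟨f, hfB, hf0⟩
  simp only
  by_contra hcon
  rw [not_le] at hcon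
  obtain ⟨E, hE⟩ : ∃ E : ℝ, E = En w f := ⟨_, rfl⟩
  rw [← hE] at hcon
  have hE0 : 0 < E := by
    rcases (En_nonneg hwt (f := f)).eq_or_lt with h1 | h1
    · exfalso
      have h2 := hP f hfB hf0
      rw [← h1, mul_zero] at h2
      rw [hE, ← h1, mul_zero] at hcon
      linarith
    · rw [hE]; exact h1
  have hfB' := hfB
  obtain ⟨⟨L, hL⟩, A, hA'⟩ := hfB
  obtain ⟨f1, hf1⟩ : ∃ f1 : F → ℝ, f1 = RT w η f := ⟨_, rfl⟩
  obtain ⟨ε', hε'⟩ : ∃ ε' : ℝ, ε' = η ^ 2 + 2 * η / Λ := ⟨_, rfl⟩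
  have hε0 : 0 ≤ ε' := by rw [hε']; positivity
  rw [← hε'] at hcond
  have hsm : Sm f1 := by rw [hf1]; exact RT_sm hwt hη hfB'
  have hf10 : ∫ x, f1 x * w x = 0 := by
    rw [hf1, round_mean hwt hwi hη hL hA']; exact hf0
  have hvar : ∫ x, f x ^ 2 * w x ≤ 2 * η * E + ∫ x, f1 x ^ 2 * w x := by
    rw [hf1, hE]; exact round_var hwt hwi hη hL hA'
  have hv1 : (1 - ε') * Λ * E ≤ ∫ x, f1 x ^ 2 * w x := by
    have e : (1 - ε') * Λ * E = (1 - η ^ 2) * Λ * E - 2 * η * E := by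
      rw [hε']; field_simp; ring
    rw [e]; linarith
  have hv2 : (1 - ε') * E ≤ En w f1 := by
    have h1 := hv1.trans (hP f1 hsm.bl hf10)
    have h2 : Λ * ((1 - ε') * E) ≤ Λ * En w f1 := by linarith
    exact le_of_mul_le_mul_left h2 hΛ0
  have hhess := hgain hη hfB'
  rw [← hf1, ← hE] at hhess
  have hE1 : En w f1 ≤ E := by
    rw [hf1, hE]
    exact (RT_En hwt hwi hη hfB').1
  -- names for the terms
  obtain ⟨Di, hDi⟩ : ∃ Di : Fin m ⊕ Fin j → ℝ, ∀ i, Di i = En w (fun x => fderiv ℝ f1 x (b i)) :=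
    ⟨_, fun i => rfl⟩
  obtain ⟨S, hS⟩ : ∃ S : Fin m ⊕ Fin j → ℝ,
      ∀ i, S i = ∫ x, (fderiv ℝ f1 x (b i)) ^ 2 * w x := ⟨_, fun i => rfl⟩
  simp only [← hDi, ← hS] at hhess
  have hDi0 : ∀ i, 0 ≤ Di i := fun i => by rw [hDi]; exact En_nonneg hwt
  have hS0 : ∀ i, 0 ≤ S i := fun i => by
    rw [hS]; exact integral_nonneg fun x => mul_nonneg (sq_nonneg _) (hwt.nonneg x)
  rw [Fintype.sum_sum_type] at hhess
  have hdir : ∀ i, S (Sum.inl i) ≤ K * Di (Sum.inl i) + C i * ε' * E := by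
    intro i
    have hri := RT_dir hwt hη hL hA' (b (Sum.inl i))
    rw [← hf1] at hri
    rw [hDi, hS]
    exact hC i f1 E ε' hsm hri.2.2.2 hf10 hE1 hv1
  have hbd : ∀ v : F, Integrable fun x => (fderiv ℝ f1 x v) ^ 2 * w x := by
    intro v
    obtain ⟨⟨L1, hL1⟩, -⟩ := hsm.bl
    refine bdd_int hwi ((measurable_fderiv_apply_const ℝ f1 v).pow_const 2)
      (M := (L1 * ‖v‖) ^ 2) fun x => ?_
    refine Wt.sq_bdd (φ := fun x => fderiv ℝ f1 x v) (M := L1 * ‖v‖) (fun x => ?_) x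
    rw [← Real.norm_eq_abs]
    exact (ContinuousLinearMap.le_opNorm _ _).trans
      (mul_le_mul_of_nonneg_right (norm_fderiv_le_of_lipschitz ℝ hL1) (norm_nonneg _))
  have hsum : En w f1 = ∑ i, S i := by
    simp only [hS]
    unfold En
    rw [← integral_finsetSum _ fun i _ => hbd (b i)]
    refine integral_congr_ae (Eventually.of_forall fun x => ?_)
    simp only
    rw [← Finset.sum_mul, norm_sq_fderiv b]
  rw [Fintype.sum_sum_type] at hsum
  -- the estimate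
  have hs1 : ∑ i, S (Sum.inl i) ≤ K * (∑ i, Di (Sum.inl i)) + WC * ε' * E := by
    refine (Finset.sum_le_sum fun i _ => hdir i).trans (le_of_eq ?_)
    rw [Finset.sum_add_distrib, ← Finset.mul_sum, hWC, Finset.sum_mul, Finset.sum_mul]
  have hK1 : K * (∑ i, Di (Sum.inl i)) ≤ M * ∑ i, Di (Sum.inl i) :=
    mul_le_mul_of_nonneg_right (le_max_left _ _) (Finset.sum_nonneg fun i _ => hDi0 _)
  have hs2 : ∑ l, S (Sum.inr l) ≤ M * (α * ∑ l, S (Sum.inr l)) := by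
    have h1 : 1 ≤ M * α := by
      have h2 : 1 / α ≤ M := le_max_right _ _
      rwa [div_le_iff₀ hα] at h2
    have h3 : 0 ≤ ∑ l, S (Sum.inr l) := Finset.sum_nonneg fun l _ => hS0 _
    calc ∑ l, S (Sum.inr l) = 1 * ∑ l, S (Sum.inr l) := (one_mul _).symm
      _ ≤ (M * α) * ∑ l, S (Sum.inr l) := mul_le_mul_of_nonneg_right h1 h3
      _ = _ := by ring
  have hDr0 : 0 ≤ ∑ l, Di (Sum.inr l) := Finset.sum_nonneg fun l _ => hDi0 _
  have hhess2 : (∑ i, Di (Sum.inl i)) + α * ∑ l, S (Sum.inr l) ≤ (1 / η) * (ε' * E) := by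
    have h1 : (1 / η) * (E - En w f1) ≤ (1 / η) * (ε' * E) :=
      mul_le_mul_of_nonneg_left (by linarith) (by positivity)
    linarith
  have hMh := mul_le_mul_of_nonneg_left hhess2 hM0
  have hfin : (1 - ε') * E ≤ M * ((1 / η) * (ε' * E)) + WC * ε' * E := by
    linarith
  have e2 : ε' / η = η + 2 / Λ := by rw [hε']; field_simp
  have e3 : M * ((1 / η) * (ε' * E)) + WC * ε' * E = E * (M * (η + 2 / Λ) + WC * ε') := by
    rw [← e2]; ring
  rw [e3] at hfin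
  have h5 : E * (1 - ε') ≤ E * (M * (η + 2 / Λ) + WC * ε') := by linarith
  have h6 := le_of_mul_le_mul_left h5 hE0
  have h7 : 0 ≤ WC * ε' := mul_nonneg hWC0 hε0
  have h8 : (Real.sqrt (0 / Λ) + Real.sqrt ε') ^ 2 = ε' := by
    rw [zero_div, Real.sqrt_zero, zero_add, Real.sq_sqrt hε0]
  rw [h8] at hcond
  have h9 : 2 * ε' * WC / 1 = 2 * (WC * ε') := by ring
  rw [h9] at hcond
  linarith

end Pool.Agent.Lib.MP_8d00da_gt.h97s
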