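import Mathlib
import Pool.Agent.Lib.MP_8d00da_gt.h97s.KBulk
import Pool.Agent.Lib.MP_8d00da_gt.h97s.KNE
import Pool.Agent.Lib.MP_8d00da_gt.h97s.KFPQ
import Pool.Agent.Lib.MP_8d00da_gt.h97s.GPThmB

/-!
# The Poincare inequality for smooth weights
-/

namespace Pool.Agent.Lib.MP_8d00da_gt.h97s

open MeasureTheory Set Filter
open Pool.Agent.Lib.MP_8d00da_gt.h25 Pool.Agent.Lib.MP_8d00da_gt.h42
open Pool.Agent.Lib.MP_8d00da_gt.h42s Pool.Agent.Lib.MP_8d00da_gt.h42o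
open Pool.Agent.Lib.MP_8d00da_gt.h97r
open scoped Topology NNReal

set_option linter.unusedSectionVars false

variable {F : Type*} [NormedAddCommGroup F] [InnerProductSpace ℝ F]
    [FiniteDimensional ℝ F] [MeasurableSpace F] [BorelSpace F]

variable {m j : ℕ} {b : OrthonormalBasis (Fin m ⊕ Fin j) ℝ F}

variable {δ L : ℝ} {h : F → ℝ} {k : ℕ}

/-- With `α = 1 / (160 (1 + j))` and `w = wg α b (hQ h b Q)`: `w ≤ h`, and `h ≤ 2 w` on the bulk
(`α ‖t‖² / 2 ≤ 1 / 2`). For `f` take `c = (∫ f w) / ∫ w` and apply `ne_bound` to `f - c`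
(`1 / α ≤ 3050000 k ^ 6 kap j`). -/
theorem bulk_poin (H : GV δ L h) (hA : Ad h k b) (hk : 1 ≤ k) {Q : Set (Vn j)} (hQ1 : Convex ℝ Q)
    (hQ2 : MeasurableSet Q) (hQ3 : 0 < ∫ x in {x | tc b x ∈ Q}, h x)
    (hQ4 : ∀ t ∈ Q, ‖t‖ ^ 2 ≤ 160 * j)
    (hc : ∀ t ∈ Q, ∀ θ : Vn m, ∫ s, (inner ℝ θ s) ^ 2 * fb h b t s ≤
      kap j * ‖θ‖ ^ 2 * mg h b t) {f : F → ℝ} (hf : BL f) :
    ∃ c : ℝ, ∫ x in {x | tc b x ∈ Q}, (f x - c) ^ 2 * h x ≤
      4 * (3050000 * (k : ℝ) ^ 6 * kap j) * En h f := by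
  classical
  set K : ℝ := 3050000 * (k : ℝ) ^ 6 * kap j with hKdef
  have hkap : 1170 * (4 + (j : ℝ)) ^ 2 = kap j := rfl
  have hj0 : (0 : ℝ) ≤ j := Nat.cast_nonneg j
  have hk1 : (1 : ℝ) ≤ (k : ℝ) ^ 6 := one_le_pow₀ (by exact_mod_cast hk)
  have hkap0 : 160 * (1 + (j : ℝ)) ≤ kap j := by
    rw [← hkap]
    nlinarith
  have hK1 : 160 * (1 + (j : ℝ)) ≤ K := by
    have h1 : kap j ≤ (k : ℝ) ^ 6 * kap j := by
      have : 0 ≤ kap j := by linarith
      nlinarith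
    rw [hKdef, mul_assoc]
    have : 0 ≤ (k : ℝ) ^ 6 * kap j := by linarith
    linarith
  have hK0 : 0 ≤ K := by linarith
  obtain ⟨α, hα⟩ : ∃ α : ℝ, α = 1 / (160 * (1 + (j : ℝ))) := ⟨_, rfl⟩
  have hα0 : 0 < α := by rw [hα]; positivity
  have hα1 : 1 / α = 160 * (1 + (j : ℝ)) := by rw [hα, one_div_one_div]
  have hmax : max K (1 / α) = K := max_eq_left (by rw [hα1]; exact hK1)
  obtain ⟨B, hBW⟩ := hQ_BW (α := α) H hα0 hQ1 hQ2 hQ3
  obtain ⟨B', hFW⟩ := hQ_FW (α := α) H hA hk hα0 hQ1 hQ2 hQ3 hc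
  set w : F → ℝ := wg α b (hQ h b Q) with hw
  have hS : MeasurableSet {x : F | tc b x ∈ Q} := (tc_cont (b := b)).measurable hQ2
  have hi := H.int
  have hwi : Integrable w := hFW.int
  have hw0 : ∀ x, 0 ≤ w x := fun x => by
    show 0 ≤ hQ h b Q x * Real.exp _
    refine mul_nonneg ?_ (Real.exp_pos _).le
    exact Set.indicator_nonneg (fun x _ => (H.pos x).le) x
  have hwh : ∀ x, w x ≤ h x := fun x => by
    have h1 : hQ h b Q x ≤ h x := Set.indicator_le_self' (fun x _ => (H.pos x).le) x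
    have h0 : 0 ≤ hQ h b Q x := Set.indicator_nonneg (fun x _ => (H.pos x).le) x
    have h2 : Real.exp (-(α / 2 * ∑ l, (inner ℝ (b (Sum.inr l)) x) ^ 2)) ≤ 1 := by
      rw [Real.exp_le_one_iff, neg_nonpos]
      exact mul_nonneg (by positivity) (Finset.sum_nonneg fun l _ => sq_nonneg _)
    calc w x = hQ h b Q x * Real.exp (-(α / 2 * ∑ l, (inner ℝ (b (Sum.inr l)) x) ^ 2)) := rfl
      _ ≤ hQ h b Q x * 1 := mul_le_mul_of_nonneg_left h2 h0
      _ ≤ h x := by rw [mul_one]; exact h1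
  have hhw : ∀ x ∈ {x : F | tc b x ∈ Q}, h x ≤ 2 * w x := fun x hx => by
    have h1 : hQ h b Q x = h x := Set.indicator_of_mem hx _
    have h2 : (1 / 2 : ℝ) ≤ Real.exp (-(α / 2 * ∑ l, (inner ℝ (b (Sum.inr l)) x) ^ 2)) := by
      rw [← tc_sq]
      have h3 := hQ4 _ hx
      have h4 : α / 2 * ‖tc b x‖ ^ 2 ≤ 1 / 2 := by
        calc α / 2 * ‖tc b x‖ ^ 2 ≤ α / 2 * (160 * j) :=
              mul_le_mul_of_nonneg_left h3 (by positivity)
          _ ≤ 1 / 2 := by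
              rw [hα]
              rw [div_div, div_mul_eq_mul_div, div_le_iff₀ (by positivity)]
              linarith
      have h5 := Real.add_one_le_exp (-(α / 2 * ‖tc b x‖ ^ 2))
      linarith
    have h3 : w x = h x * Real.exp (-(α / 2 * ∑ l, (inner ℝ (b (Sum.inr l)) x) ^ 2)) := by
      show hQ h b Q x * _ = _
      rw [h1]
    rw [h3]
    nlinarith [H.pos x]
  have hmass : 0 < ∫ x, w x := by
    have h1 : ∫ x in {x : F | tc b x ∈ Q}, h x ≤ ∫ x in {x : F | tc b x ∈ Q}, 2 * w x :=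
      setIntegral_mono_on hi.integrableOn (hwi.const_mul 2).integrableOn hS hhw
    have h2 : ∫ x in {x : F | tc b x ∈ Q}, 2 * w x ≤ ∫ x, 2 * w x :=
      setIntegral_le_integral (hwi.const_mul 2)
        (Eventually.of_forall fun x => mul_nonneg (by norm_num) (hw0 x))
    have h3 : ∫ x, 2 * w x = 2 * ∫ x, w x := integral_const_mul _ _
    linarith
  refine ⟨(∫ x, f x * w x) / ∫ x, w x, ?_⟩
  set c : ℝ := (∫ x, f x * w x) / ∫ x, w x with hcdef
  have hg : BL fun x => f x - c := hf.sub (BL.const c)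
  have hgm : ∫ x, (f x - c) * w x = 0 := by
    have e1 : ∫ x, (f x - c) * w x = (∫ x, f x * w x) - c * ∫ x, w x := by
      rw [← integral_const_mul, ← integral_sub (bl_int hwi hf) (hwi.const_mul c)]
      exact integral_congr_ae (Eventually.of_forall fun x => by simp only; ring)
    rw [e1, hcdef]
    field_simp
    ring
  have h1 := ne_bound hBW hFW hA (fun g hg x => wg_sym hA hg x) hg hgm
  rw [hmax] at h1
  obtain ⟨⟨Lg, hLg⟩, Ag, hAg⟩ := hg
  have hfd : ∀ x, fderiv ℝ (fun x => f x - c) x = fderiv ℝ f x := fun x => fderiv_sub_const _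
  have h2 : En w (fun x => f x - c) ≤ En h f := by
    unfold En
    simp_rw [hfd]
    obtain ⟨⟨Lf, hLf⟩, -⟩ := hf
    refine integral_mono_of_nonneg
      (Eventually.of_forall fun x => mul_nonneg (sq_nonneg _) (hw0 x))
      (bdd_int hi ((measurable_fderiv ℝ f).norm.pow_const 2) (sq_fderiv_bdd hLf))
      (Eventually.of_forall fun x => mul_le_mul_of_nonneg_left (hwh x) (sq_nonneg _))
  have hg' : BL fun x => f x - c := ⟨⟨Lg, hLg⟩, Ag, hAg⟩
  have i1 := bl_sq hi hg'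
  have i2 := bl_sq hwi hg'
  calc ∫ x in {x : F | tc b x ∈ Q}, (f x - c) ^ 2 * h x
      ≤ ∫ x in {x : F | tc b x ∈ Q}, 2 * ((f x - c) ^ 2 * w x) := by
        refine setIntegral_mono_on i1.integrableOn (i2.const_mul 2).integrableOn hS fun x hx => ?_
        have h3 := mul_le_mul_of_nonneg_left (hhw x hx) (sq_nonneg (f x - c))
        linarith
    _ ≤ ∫ x, 2 * ((f x - c) ^ 2 * w x) :=
        setIntegral_le_integral (i2.const_mul 2)
          (Eventually.of_forall fun x => mul_nonneg (by norm_num)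
            (mul_nonneg (sq_nonneg _) (hw0 x)))
    _ = 2 * ∫ x, (f x - c) ^ 2 * w x := integral_const_mul _ _
    _ ≤ 2 * (2 * K * En w fun x => f x - c) := mul_le_mul_of_nonneg_left h1 (by norm_num)
    _ ≤ 4 * K * En h f := by
        have h3 := mul_le_mul_of_nonneg_left h2 (by positivity : (0:ℝ) ≤ 4 * K)
        linarith

/-- `exists_bulk`, `bulk_poin`, `GV.gh` and the theorem `GP`. -/
theorem coreF (H : GV δ L h) (hm : ∫ x, h x = 1)
    (h2 : ∀ θ : F, ∫ x, (inner ℝ θ x) ^ 2 * h x ≤ ‖θ‖ ^ 2) (hA : Ad h k b) (hk : 1 ≤ k)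
    {f : F → ℝ} (hf : BL f) :
    Vr h f ≤ 80 * (3050000 * (k : ℝ) ^ 6 * kap j) * En h f := by
  obtain ⟨Q, hQ1, hQ2, hQ4, hQ3, hc⟩ := exists_bulk H hm h2 hA
  obtain ⟨B, W, hG⟩ := H.gh hm
  have hS : MeasurableSet {x : F | tc b x ∈ Q} := (tc_cont (b := b)).measurable hQ2
  have hkap : 0 ≤ kap j := by unfold kap; positivity
  have h3 := GP hG hS hQ3 (C1 := 4 * (3050000 * (k : ℝ) ^ 6 * kap j)) (by positivity)
    (fun f hf => bulk_poin H hA hk hQ1 hQ2 (by linarith) hQ4 hc hf) hf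
  calc Vr h f ≤ 20 * (4 * (3050000 * (k : ℝ) ^ 6 * kap j)) * En h f := h3
    _ = 80 * (3050000 * (k : ℝ) ^ 6 * kap j) * En h f := by ring

end Pool.Agent.Lib.MP_8d00da_gt.h97s
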