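import Mathlib
import Pool.Agent.Lib.MP_8d00da_gt.h97s.KAd
import Pool.Agent.Lib.MP_8d00da_gt.h97s.KCore

/-!
# The linearly invariant inequality for smooth weights
-/

namespace Pool.Agent.Lib.MP_8d00da_gt.h97s

open MeasureTheory Set Filter
open Pool.Agent.Lib.MP_8d00da_gt.h25 Pool.Agent.Lib.MP_8d00da_gt.h42
open Pool.Agent.Lib.MP_8d00da_gt.h42s Pool.Agent.Lib.MP_8d00da_gt.h42o
open Pool.Agent.Lib.MP_8d00da_gt.h97r
open scoped Topology NNReal

set_option linter.unusedSectionVars false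

variable {F : Type*} [NormedAddCommGroup F] [InnerProductSpace ℝ F]
    [FiniteDimensional ℝ F] [MeasurableSpace F] [BorelSpace F]

variable {δ L : ℝ} {h : F → ℝ} {k d : ℕ}

private lemma kap_mono {j d : ℕ} (hjd : j ≤ d) : kap j ≤ kap d := by
  unfold kap
  have h1 : (j : ℝ) ≤ d := Nat.cast_le.2 hjd
  have h2 : (0 : ℝ) ≤ j := Nat.cast_nonneg j
  have h3 : (4 + (j : ℝ)) ^ 2 ≤ (4 + (d : ℝ)) ^ 2 := pow_le_pow_left₀ (by linarith) (by linarith) 2
  linarith

/-- Copy of `h97r.QJ_GW` with `exists_ad` and `coreF`; `kap` is monotone. -/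
theorem QJ_GV (H : GV δ L h) (hk : 1 ≤ k) (hR : FixL k d h) :
    QJ (80 * (3050000 * (k : ℝ) ^ 6 * kap d)) h := by
  have hi2 : Integrable fun x => ‖x‖ ^ 2 * h x :=
    H.int_poly (by fun_prop) (C := 1) fun x => by
      rw [abs_of_nonneg (sq_nonneg _), one_mul]
      linarith
  obtain ⟨P, c, hc, hmass, hiso⟩ := exists_pos (fun x => (H.pos x).le) H.cont.measurable H.int
    hi2 H.mass_pos
  obtain ⟨δ', L', H'⟩ := H.comp_lin P hc
  have hR' : FixL k d fun x => c * h (P x) := hR.comp_lin P c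
  have hpos : 0 < ∫ x, c * h (P x) := by
    rw [hmass]
    exact one_pos
  obtain ⟨m, j, b, hjd, hA⟩ := exists_ad (k := k) hR' hiso hpos
  obtain ⟨B, hB⟩ := H'.wt
  have h1 : QJ (80 * (3050000 * (k : ℝ) ^ 6 * kap d)) fun x => c * h (P x) := by
    refine QJ_of_Vr hmass hiso fun f hf => ?_
    have h2 := coreF H' hmass (fun θ => (hiso θ).le) hA hk hf
    refine h2.trans (mul_le_mul_of_nonneg_right ?_ (En_nonneg hB))
    have h3 := kap_mono hjd
    have h4 : (0 : ℝ) ≤ 3050000 * (k : ℝ) ^ 6 := by positivity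
    nlinarith [mul_le_mul_of_nonneg_left h3 h4]
  refine QJ.of_comp_lin P ?_
  have h2 := h1.smul c⁻¹
  have h3 : (fun x => c⁻¹ * (c * h (P x))) = fun x => h (P x) := by
    funext x
    rw [← mul_assoc, inv_mul_cancel₀ hc.ne', one_mul]
  rwa [h3] at h2

end Pool.Agent.Lib.MP_8d00da_gt.h97s
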