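import Mathlib
import Pool.Agent.Lib.MP_8d00da_gt.h97s.KGauss
import Pool.Agent.Lib.MP_8d00da_gt.h97s.KQJ

/-!
# General log-concave densities
-/

namespace Pool.Agent.Lib.MP_8d00da_gt.h97s

open MeasureTheory Set Filter
open Pool.Agent.Lib.MP_8d00da_gt.h25 Pool.Agent.Lib.MP_8d00da_gt.h42
open Pool.Agent.Lib.MP_8d00da_gt.h42s Pool.Agent.Lib.MP_8d00da_gt.h42o
open Pool.Agent.Lib.MP_8d00da_gt.h97r
open Pool.Agent.Lib.MP_8d00da_gt.h42u (cv_major cv_lim)
open scoped Topology NNReal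

set_option linter.unusedSectionVars false

variable {F : Type*} [NormedAddCommGroup F] [InnerProductSpace ℝ F]
    [FiniteDimensional ℝ F] [MeasurableSpace F] [BorelSpace F]

variable {n : ℕ} {h : Vn n → ℝ} {k d : ℕ}

private lemma rg_mid (h0 : ∀ x, 0 ≤ h x) (hlc : LogConc h) (x y : Vn n) :
    h x * h y ≤ h ((1 / 2 : ℝ) • (x + y)) ^ 2 := by
  have h2 := hlc (1 / 2) (by norm_num) (by norm_num) x y
  have e : (1 - 1 / 2 : ℝ) • x + (1 / 2 : ℝ) • y = (1 / 2 : ℝ) • (x + y) := by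
    rw [smul_add]; norm_num
  rw [e, show (1 - 1 / 2 : ℝ) = 1 / 2 by norm_num, ← Real.mul_rpow (h0 x) (h0 y),
    ← Real.sqrt_eq_rpow] at h2
  have h3 := pow_le_pow_left₀ (Real.sqrt_nonneg _) h2 2
  rwa [Real.sq_sqrt (mul_nonneg (h0 x) (h0 y))] at h3

private lemma rg_logconc (h0 : ∀ x, 0 ≤ h x) (hlc : LogConc h) (P : Vn n ≃L[ℝ] Vn n) {c : ℝ}
    (hc : 0 < c) : LogConc fun x => c * h (P x) := by
  intro a ha0 ha1 x y
  have h1 := hlc a ha0 ha1 (P x) (P y)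
  simp only
  rw [Real.mul_rpow hc.le (h0 _), Real.mul_rpow hc.le (h0 _)]
  have h2 : P ((1 - a) • x + a • y) = (1 - a) • P x + a • P y := by
    rw [map_add, map_smul, map_smul]
  rw [h2]
  have h3 : c ^ (1 - a) * c ^ a = c := by
    rw [← Real.rpow_add hc]
    simp
  calc c ^ (1 - a) * h (P x) ^ (1 - a) * (c ^ a * h (P y) ^ a) =
      (c ^ (1 - a) * c ^ a) * (h (P x) ^ (1 - a) * h (P y) ^ a) := by ring
    _ = c * (h (P x) ^ (1 - a) * h (P y) ^ a) := by rw [h3]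
    _ ≤ _ := mul_le_mul_of_nonneg_left h1 hc.le

/-- The isotropic case: Gaussian regularisation and limit. -/
theorem QJ_isoF (h0 : ∀ x, 0 ≤ h x) (hm : Measurable h) (hlc : LogConc h)
    (hmass : ∫ x, h x = 1) (hiso : ∀ θ : Vn n, ∫ x, (inner ℝ θ x) ^ 2 * h x = ‖θ‖ ^ 2)
    (hk : 1 ≤ k) (hR : FixL k d h) : QJ (80 * (3050000 * (k : ℝ) ^ 6 * kap d)) h := by
  have hpos : 0 < ∫ x, h x := by
    rw [hmass]
    exact one_pos
  have hi : Integrable h := by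
    by_contra hcon
    rw [integral_undef hcon] at hpos
    exact lt_irrefl _ hpos
  obtain ⟨C, a, hC, ha, hd⟩ := decay h0 hm hlc hi hpos
  have hB : ∀ x, h x ≤ C := fun x => by
    refine (hd x).trans ?_
    have : Real.exp (-(a * ‖x‖)) ≤ 1 := by
      rw [Real.exp_le_one_iff, neg_nonpos]
      positivity
    nlinarith
  have H : Wt h C :=
    { meas := hm
      nonneg := h0
      bdd := hB
      mid := rg_mid h0 hlc
      ne := by
        intro he
        rw [integral_congr_ae he] at hpos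
        simp at hpos }
  -- the isometric symmetries
  set G : Set (Vn n ≃ₗᵢ[ℝ] Vn n) := {g | ∀ x, h (g x) = h x} with hG
  have hlin : ∀ g : Vn n ≃ₗ[ℝ] Vn n, (∀ x, h (g x) = h x) →
      ∃ T ∈ G, ∀ x, T x = g x := by
    intro g hg
    refine ⟨⟨g, sym_iso hiso hpos g hg⟩, fun x => hg x, fun x => rfl⟩
  obtain ⟨C', hC', hmaj⟩ := cv_major h0 hm hC ha hd
  have hσ : ∀ k : ℕ, (0 : ℝ) < 1 / ((k : ℝ) + 1) := fun k => by positivity
  set c : ℕ → ℝ := fun k : ℕ => ∫ z : Vn n, h25.ker (1 / ((k : ℝ) + 1)) z with hc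
  have hc0 : ∀ k, 0 < c k := fun k => ker_int_pos (hσ k)
  set hk' : ℕ → Vn n → ℝ := fun (k : ℕ) x => (1 / c k) * (cv (1 / ((k : ℝ) + 1)) h x *
    Real.exp (-(1 / ((k : ℝ) + 1) * ‖x‖ ^ 2))) with hhk
  have hU : ∀ k : ℕ, GV (2 * (1 / ((k : ℝ) + 1)))
      (1 / (1 / ((k : ℝ) + 1)) + 2 * (1 / ((k : ℝ) + 1)))
      fun y => cv (1 / ((k : ℝ) + 1)) h y * Real.exp (-(1 / ((k : ℝ) + 1) * ‖y‖ ^ 2)) := fun k =>
    gauss_GV H hlc (hσ k)
  have hRk : ∀ j : ℕ, FixL k d fun y : Vn n =>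
      cv (1 / ((j : ℝ) + 1)) h y * Real.exp (-(1 / ((j : ℝ) + 1) * ‖y‖ ^ 2)) := by
    intro j
    obtain ⟨E, hE, hEv⟩ := hR
    refine ⟨E, hE, fun v hv => hEv v fun g hg hN hr => hv g (fun x => ?_) hN hr⟩
    obtain ⟨T, hT, hTg⟩ := hlin g hg
    simp only
    rw [← hTg, cv_comp h T hT x, LinearIsometryEquiv.norm_map]
  have hQk : ∀ j, QJ (80 * (3050000 * (k : ℝ) ^ 6 * kap d)) (hk' j) := fun j =>
    (QJ_GV (hU j) hk (hRk j)).smul _
  have hcv0 : ∀ (k : ℕ) x, 0 ≤ cv (1 / ((k : ℝ) + 1)) h x := fun k x => (H.Z_pos (hσ k) x).le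
  have hkc : ∀ k, Continuous (hk' k) := by
    intro k
    have h1 := cv_cont (hσ k) H.meas H.abs_le
    have h2 : Continuous fun x : Vn n => Real.exp (-(1 / ((k : ℝ) + 1) * ‖x‖ ^ 2)) := by fun_prop
    exact continuous_const.mul (h1.mul h2)
  have hexp : ∀ (k : ℕ) (x : Vn n), Real.exp (-(1 / ((k : ℝ) + 1) * ‖x‖ ^ 2)) ≤ 1 := fun k x => by
    rw [Real.exp_le_one_iff, neg_nonpos]; positivity
  have hle : ∀ k x, hk' k x ≤ C' * Real.exp (-(a * ‖x‖)) := by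
    intro k x
    have h1 := hmaj k x
    have h2 : hk' k x = cv (1 / ((k : ℝ) + 1)) h x / c k *
        Real.exp (-(1 / ((k : ℝ) + 1) * ‖x‖ ^ 2)) := by
      simp only [hhk]; ring
    rw [h2]
    have h3 : 0 ≤ cv (1 / ((k : ℝ) + 1)) h x / c k := div_nonneg (hcv0 k x) (hc0 k).le
    calc cv (1 / ((k : ℝ) + 1)) h x / c k * Real.exp (-(1 / ((k : ℝ) + 1) * ‖x‖ ^ 2))
        ≤ cv (1 / ((k : ℝ) + 1)) h x / c k * 1 := mul_le_mul_of_nonneg_left (hexp k x) h3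
      _ ≤ _ := by rw [mul_one]; exact h1
  have hint : Integrable fun x : Vn n => (1 + ‖x‖ ^ 2) * (C' * Real.exp (-(a * ‖x‖))) := by
    refine ((exp_norm_int (F := Vn n) ha).const_mul C').congr (Eventually.of_forall fun x => ?_)
    simp only
    ring
  refine QJ_limit (hk := hk') (H := fun x => C' * Real.exp (-(a * ‖x‖)))
    (fun k => (hkc k).measurable)
    (fun k x => mul_nonneg (one_div_nonneg.2 (hc0 k).le)
      (mul_nonneg (hcv0 k x) (Real.exp_pos _).le)) hle hint ?_ hQk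
  filter_upwards [cv_lim h0 hm hlc hC ha hd] with x hx
  have h1 : Tendsto (fun k : ℕ => Real.exp (-(1 / ((k : ℝ) + 1) * ‖x‖ ^ 2))) atTop (𝓝 1) := by
    have h2 : Tendsto (fun k : ℕ => -(1 / ((k : ℝ) + 1) * ‖x‖ ^ 2)) atTop (𝓝 0) := by
      have := (tendsto_one_div_add_atTop_nhds_zero_nat (𝕜 := ℝ)).mul_const (‖x‖ ^ 2)
      simpa using this.neg
    have := (Real.continuous_exp.tendsto 0).comp h2
    rwa [Real.exp_zero] at this
  have h3 := hx.mul h1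
  rw [mul_one] at h3
  refine h3.congr fun k => ?_
  simp only [hhk, hc]
  ring

/-- General log-concave densities: move to isotropic position. -/
theorem QJ_genF (h0 : ∀ x, 0 ≤ h x) (hm : Measurable h) (hlc : LogConc h) (hi : Integrable h)
    (hpos : 0 < ∫ x, h x) (hk : 1 ≤ k) (hR : FixL k d h) : QJ (80 * (3050000 * (k : ℝ) ^ 6 * kap d)) h := by
  obtain ⟨P, c, hc, hmass, hiso⟩ := exists_pos h0 hm hi (second_moment h0 hm hlc hi hpos) hpos
  have h1 : QJ (80 * (3050000 * (k : ℝ) ^ 6 * kap d)) fun x => c * h (P x) :=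
    QJ_isoF (fun x => mul_nonneg hc.le (h0 _)) ((hm.comp P.continuous.measurable).const_mul c)
      (rg_logconc h0 hlc P hc) hmass hiso hk (hR.comp_lin P c)
  refine QJ.of_comp_lin P ?_
  have h2 := h1.smul c⁻¹
  have h3 : (fun x => c⁻¹ * (c * h (P x))) = fun x => h (P x) := by
    funext x
    rw [← mul_assoc, inv_mul_cancel₀ hc.ne', one_mul]
  rwa [h3] at h2

end Pool.Agent.Lib.MP_8d00da_gt.h97s
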