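import Mathlib
import Pool.Agent.Lib.MP_8d00da_gt.h97s.KCen
import Pool.Agent.Lib.MP_8d00da_gt.h97r.RMainThm
import Pool.Agent.Lib.MP_8d00da_gt.h97s.KGen

/-!
# Main theorem
-/

namespace Pool.Agent.Lib.MP_8d00da_gt.h97s

open MeasureTheory Set Filter
open Pool.Agent.Lib.MP_8d00da_gt.h25 Pool.Agent.Lib.MP_8d00da_gt.h42
open Pool.Agent.Lib.MP_8d00da_gt.h42s Pool.Agent.Lib.MP_8d00da_gt.h42o
open Pool.Agent.Lib.MP_8d00da_gt.h97r
open scoped Topology NNReal

set_option linter.unusedSectionVars false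

variable {F : Type*} [NormedAddCommGroup F] [InnerProductSpace ℝ F]
    [FiniteDimensional ℝ F] [MeasurableSpace F] [BorelSpace F]

variable {n : ℕ} {E : Type*} [NormedAddCommGroup E] [InnerProductSpace ℝ E]
    [FiniteDimensional ℝ E] [MeasurableSpace E] [BorelSpace E]

/-- The constant. -/
noncomputable def CF (k d : ℕ) : ℝ := if d = 0 then 1750 * k ^ 3 else 1340000 * k ^ 3 * (1 + d)

theorem FixL.refL {V : Type*} [AddCommGroup V] [Module ℝ V] [FiniteDimensional ℝ V] {k : ℕ}
    {h : V → ℝ} (hR : FixL k 0 h) : RefL k h := by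
  obtain ⟨E, hE, h1⟩ := hR
  intro v hv
  have h2 : E = ⊥ := Submodule.finrank_eq_zero.1 (Nat.le_zero.1 hE)
  have h3 := h1 v hv
  rw [h2] at h3
  exact (Submodule.mem_bot ℝ).1 h3

private lemma km_int {h : Vn n → ℝ} (h0 : ∀ x, 0 ≤ h x) (hm : Measurable h) (hlc : LogConc h)
    {μ : Measure (Vn n)} (hμ : μ = volume.withDensity fun x => ENNReal.ofReal (h x))
    [IsProbabilityMeasure μ] : Integrable h ∧ ∫ x, h x = 1 ∧
      (Integrable fun x => ‖x‖ ^ 2 * h x) ∧ ∀ θ : Vn n, Integrable fun x => inner ℝ θ x * h x := by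
  have hi : Integrable h := by
    have h1 : Integrable (fun _ : Vn n => (1 : ℝ)) μ := integrable_const 1
    rw [integrable_mu h0 hm hμ] at h1
    simpa using h1
  have hI1 : ∫ x, h x = 1 := by
    have h1 := integral_mu h0 hm hμ fun _ => 1
    simp only [one_mul, integral_const, probReal_univ, smul_eq_mul, mul_one] at h1
    exact h1.symm
  have hpos : 0 < ∫ x, h x := by
    rw [hI1]
    exact one_pos
  have hi2 := second_moment h0 hm hlc hi hpos
  refine ⟨hi, hI1, hi2, fun θ => ?_⟩
  refine ((hi.add hi2).const_mul ‖θ‖).mono'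
    ((by fun_prop : Measurable fun x : Vn n => inner ℝ θ x).mul hm).aestronglyMeasurable
    (Eventually.of_forall fun x => ?_)
  rw [Real.norm_eq_abs, abs_mul, abs_of_nonneg (h0 x)]
  have h1 := abs_real_inner_le_norm θ x
  have h2 : ‖x‖ ≤ 1 + ‖x‖ ^ 2 := by nlinarith [sq_nonneg (‖x‖ - 1), norm_nonneg x]
  have h3 := mul_le_mul_of_nonneg_right (h1.trans (mul_le_mul_of_nonneg_left h2 (norm_nonneg θ)))
    (h0 x)
  refine h3.trans (le_of_eq ?_)
  simp only [Pi.add_apply]
  ring

/-- The centred case: `final_of_QJ` with `QJ_genF`. -/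
theorem fixed_cen {h : Vn n → ℝ} (h0 : ∀ x, 0 ≤ h x) (hm : Measurable h) (hlc : LogConc h)
    (hcen : ∀ θ : Vn n, ∫ x, inner ℝ θ x * h x = 0) {k d : ℕ} (hk : 1 ≤ k) (hd : 1 ≤ d)
    (hR : FixL k d h) {μ : Measure (Vn n)}
    (hμ : μ = volume.withDensity fun x => ENNReal.ofReal (h x)) [IsProbabilityMeasure μ]
    (T : Vn n →L[ℝ] E) (hT : Function.Surjective T) (b : E) {D : ℝ}
    (hD : LinPoincareWith (μ.map fun x => T x + b) D) :
    PoincareWith (μ.map fun x => T x + b) (1340000 * (k : ℝ) ^ 3 * (1 + d) * D) := by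
  obtain ⟨hi, hI1, hi2, -⟩ := km_int h0 hm hlc hμ
  have hpos : 0 < ∫ x, h x := by
    rw [hI1]
    exact one_pos
  have hkap : 0 ≤ kap d := by unfold kap; positivity
  refine final_of_QJ (C := 80 * (3050000 * (k : ℝ) ^ 6 * kap d)) (by positivity) h0 hm hcen
    (QJ_genF h0 hm hlc hi hpos hk hR) hμ hi2 T hT b hD ?_ (by positivity)
  have h1 : (0 : ℝ) ≤ (k : ℝ) ^ 6 := by positivity
  have h2 : (1 : ℝ) ≤ d := by exact_mod_cast hd
  have h3 : (4 + (d : ℝ)) ^ 2 ≤ 25 / 4 * (1 + d) ^ 2 := by nlinarith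
  have h4 : (k : ℝ) ^ 6 * (4 + (d : ℝ)) ^ 2 ≤ (k : ℝ) ^ 6 * (25 / 4 * (1 + d) ^ 2) :=
    mul_le_mul_of_nonneg_left h3 h1
  have h5 : 0 ≤ (k : ℝ) ^ 6 * (1 + (d : ℝ)) ^ 2 := by positivity
  have e1 : 80 * (3050000 * (k : ℝ) ^ 6 * kap d) =
      285480000000 * ((k : ℝ) ^ 6 * (4 + (d : ℝ)) ^ 2) := by
    unfold kap
    ring
  have e2 : (1340000 * (k : ℝ) ^ 3 * (1 + d)) ^ 2 =
      1795600000000 * ((k : ℝ) ^ 6 * (1 + (d : ℝ)) ^ 2) := by ring
  rw [e1, e2]
  nlinarith

/-- Main theorem: for `d = 0` this is `h97r.symmetric`; in general translate by the barycentre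
(`exists_bary`, `bary_fix`, `FixL.translate`): `μ.map (fun x => T x + b)` is the image of the
translated measure under `x ↦ T x + (T m + b)`. -/
theorem fixed_space {h : Vn n → ℝ} (h0 : ∀ x, 0 ≤ h x) (hm : Measurable h) (hlc : LogConc h)
    {k d : ℕ} (hk : 1 ≤ k) (hR : FixL k d h) {μ : Measure (Vn n)}
    (hμ : μ = volume.withDensity fun x => ENNReal.ofReal (h x)) [IsProbabilityMeasure μ]
    (T : Vn n →L[ℝ] E) (hT : Function.Surjective T) (b : E) {D : ℝ}
    (hD : LinPoincareWith (μ.map fun x => T x + b) D) :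
    PoincareWith (μ.map fun x => T x + b) (CF k d * D) := by
  rcases Nat.eq_zero_or_pos d with rfl | hd
  · have h1 := symmetric h0 hm hlc hk hR.refL hμ T hT b hD
    unfold CF
    rw [if_pos rfl]
    exact h1
  · obtain ⟨hi, hI1, hi2, hi1⟩ := km_int h0 hm hlc hμ
    have hpos : 0 < ∫ x, h x := by
      rw [hI1]
      exact one_pos
    obtain ⟨m, hmb⟩ := exists_bary hpos hi1
    have hR' := hR.translate (m := m) fun g hg => bary_fix hpos hi1 hmb g hg
    set h' : Vn n → ℝ := fun x => h (x + m) with hh'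
    have hm' : Measurable h' := hm.comp (measurable_id.add_const m)
    have hmap : ∀ s : Set (Vn n), MeasurableSet s →
        (volume.withDensity fun x => ENNReal.ofReal (h' x)) ((fun x => x + m) ⁻¹' s) = μ s := by
      intro s hs
      have hpre : MeasurableSet ((fun x : Vn n => x + m) ⁻¹' s) := (measurable_id.add_const m) hs
      rw [hμ, withDensity_apply _ hpre, withDensity_apply _ hs, ← lintegral_indicator hpre,
        ← lintegral_indicator hs,
        ← lintegral_add_right_eq_self (s.indicator fun x => ENNReal.ofReal (h x)) m]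
      refine lintegral_congr fun x => ?_
      by_cases hx : x + m ∈ s
      · rw [Set.indicator_of_mem hx, Set.indicator_of_mem (by exact hx)]
      · rw [Set.indicator_of_notMem hx, Set.indicator_of_notMem (by exact hx)]
    have hprob : IsProbabilityMeasure (volume.withDensity fun x => ENNReal.ofReal (h' x)) := by
      constructor
      have h1 := hmap Set.univ MeasurableSet.univ
      rw [Set.preimage_univ] at h1
      rw [h1, measure_univ]
    have hadd : Measurable fun x : Vn n => x + m := measurable_id.add_const m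
    have hTb : Measurable fun x : Vn n => T x + b := T.measurable.add_const b
    have hμ' : μ = (volume.withDensity fun x => ENNReal.ofReal (h' x)).map fun x => x + m := by
      ext s hs
      rw [Measure.map_apply hadd hs, hmap s hs]
    have hcomp : μ.map (fun x => T x + b) =
        (volume.withDensity fun x => ENNReal.ofReal (h' x)).map fun x => T x + (T m + b) := by
      rw [hμ', Measure.map_map hTb hadd]
      congr 1
      funext x
      show T (x + m) + b = T x + (T m + b)
      rw [map_add, add_assoc]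
    have hcen : ∀ θ : Vn n, ∫ x, inner ℝ θ x * h' x = 0 := by
      intro θ
      have h1 := integral_add_right_eq_self (μ := (volume : Measure (Vn n)))
        (fun y => inner ℝ θ (y - m) * h y) m
      have h2 : ∫ x, inner ℝ θ x * h' x = ∫ y, inner ℝ θ (y - m) * h y := by
        rw [← h1]
        refine integral_congr_ae (Eventually.of_forall fun x => ?_)
        show inner ℝ θ x * h (x + m) = inner ℝ θ (x + m - m) * h (x + m)
        rw [add_sub_cancel_right]
      rw [h2]
      have h3 : (fun y => inner ℝ θ (y - m) * h y) =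
          fun y => inner ℝ θ y * h y - inner ℝ θ m * h y := by
        funext y
        rw [inner_sub_right, sub_mul]
      rw [h3, integral_sub (hi1 θ) (hi.const_mul _), integral_const_mul, hmb θ, sub_self]
    rw [hcomp] at hD ⊢
    have h4 := fixed_cen (fun x => h0 _) hm' (logconc_translate hlc m) hcen hk hd hR' rfl T hT
      (T m + b) hD
    unfold CF
    rw [if_neg hd.ne']
    exact h4

end Pool.Agent.Lib.MP_8d00da_gt.h97s
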